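import Pool.Agent.PBX.Targets

/-!
# PBX: the converse of the step for sums
-/

open MeasureTheory Module Set

namespace Pool.Agent.PBX
open Pool.Agent.ProjBody

theorem p_ABW (h_ZZ : T_ZZ) (h_ADS : T_ADS) (h_SJ : T_SJ) (h_LAB : T_LAB) (h_SPN : T_SPN) :
    T_ABW := by
  intro n hn ρ h U U' hG hN hc hadd
  obtain ⟨m, rfl⟩ : ∃ m, n = m + 1 := ⟨n - 1, by have := NeZero.ne n; omega⟩
  have := hG.fin
  have hZ := h_ZZ m ρ h hG hN
  have h1 := (h_ADS (m + 1) (nxt ρ) (P h) Uᗮ U'ᗮ hZ).1 hadd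
  rw [Submodule.orthogonal_orthogonal, Submodule.orthogonal_orthogonal] at h1
  have h2 : ∀ x ∈ J (Dn ρ), x ∈ U ∨ x ∈ U' := by
    intro x hx
    obtain ⟨_, c, hc0, hcx⟩ := h_SJ m ρ hx
    rcases h1 _ hcx with h | h
    · left
      exact (Submodule.smul_mem_iff _ hc0).1 h
    · right
      exact (Submodule.smul_mem_iff _ hc0).1 h
  have h3 := h_LAB (m + 1) (Dn ρ) U U' (h_SPN (m + 1) ρ h hG hN) hc h2
  refine (h_ADS (m + 1) ρ h U U' hG).2 ?_
  intro w hw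
  by_cases hw0 : w = 0
  · left
    rw [hw0]
    exact Submodule.zero_mem _
  · exact h3 w ⟨hw0, 1, one_ne_zero, by rwa [one_smul]⟩

end Pool.Agent.PBX
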