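import Pool.Agent.PBX.Targets

/-!
# PBX: additivity and support (target `T_ADS`)
-/

open MeasureTheory Module Set Filter Topology

namespace Pool.Agent.PBX
open Pool.Agent.ProjBody

namespace ADS_

theorem int_abs {n : ℕ} {ρ : Measure (E n)} {h : E n → ℝ} (hG : Gen ρ h) (u : E n) :
    Integrable (fun w => |(inner ℝ u w : ℝ)|) ρ := by
  obtain ⟨R, hR⟩ := hG.cpt
  haveI := hG.fin
  have h1 : ∀ᵐ w ∂ρ, w ∈ Metric.closedBall (0 : E n) R := by
    rw [ae_iff]
    exact hR
  refine Integrable.mono' (integrable_const (‖u‖ * R)) ?_ ?_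
  · have hc : Continuous (fun w : E n => |(inner ℝ u w : ℝ)|) := by fun_prop
    exact hc.aestronglyMeasurable
  · filter_upwards [h1] with w hw
    rw [Real.norm_eq_abs, abs_abs]
    have h2 : ‖w‖ ≤ R := mem_closedBall_zero_iff.1 hw
    exact (abs_real_inner_le_norm u w).trans (mul_le_mul_of_nonneg_left h2 (norm_nonneg u))

end ADS_

open ADS_ in
theorem p_ADS (h_NEG : T_NEG) : T_ADS := by
  intro n ρ h U U' hG
  constructor
  · intro hadd w hw
    have h0 : ∀ u ∈ U, ∀ u' ∈ U', (inner ℝ u w : ℝ) * inner ℝ u' w = 0 := by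
      intro u hu u' hu'
      have h1 := h_NEG n ρ h u u' hG (hadd u hu u' hu') w hw
      have h2 := h_NEG n ρ h (-u) u' hG (hadd (-u) (U.neg_mem hu) u' hu') w hw
      rw [inner_neg_left] at h2
      linarith
    by_cases hU : w ∈ Uᗮ
    · exact Or.inl hU
    · right
      rw [Submodule.mem_orthogonal] at hU ⊢
      push Not at hU
      obtain ⟨u, hu, hne⟩ := hU
      intro u' hu'
      exact (mul_eq_zero.1 (h0 u hu u' hu')).resolve_left hne
  · intro hs u hu u' hu'
    haveI := hG.fin
    rw [hG.eq, hG.eq u, hG.eq u', ← integral_add (int_abs hG u) (int_abs hG u')]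
    refine integral_congr_ae ?_
    have hae : ∀ᵐ w ∂ρ, w ∈ ρ.support := Measure.support_mem_ae
    filter_upwards [hae] with w hw
    rw [inner_add_left]
    rcases hs w hw with h1 | h1
    · rw [Submodule.mem_orthogonal] at h1
      rw [h1 u hu]
      simp
    · rw [Submodule.mem_orthogonal] at h1
      rw [h1 u' hu']
      simp

end Pool.Agent.PBX
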