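import Pool.Agent.PBX.Targets

/-!
# PBX: the projection body operator preserves direct sums
-/

set_option autoImplicit false

open MeasureTheory Module Set Filter
open scoped Pointwise

namespace Pool.Agent.PBX
open Pool.Agent.ProjBody

namespace AFW_

/-- complements of complementary subspaces -/
theorem compl {n : ℕ} {U U' : Submodule ℝ (E n)} (h : IsCompl U U') : IsCompl Uᗮ U'ᗮ := by
  constructor
  · rw [disjoint_iff, Submodule.inf_orthogonal, h.sup_eq_top, Submodule.top_orthogonal_eq_bot]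
  · rw [codisjoint_iff]
    have h1 : (Uᗮ ⊔ U'ᗮ)ᗮ = ⊥ := by
      rw [← Submodule.inf_orthogonal, Submodule.orthogonal_orthogonal,
        Submodule.orthogonal_orthogonal, h.inf_eq_bot]
    exact (Submodule.orthogonal_eq_bot_iff).1 h1

theorem perp {n : ℕ} {S : Set (E n)} {z : E n} (hz : ∀ y ∈ S, (inner ℝ z y : ℝ) = 0) :
    z ∈ (Submodule.span ℝ S)ᗮ := by
  rw [Submodule.mem_orthogonal']
  intro u hu
  have h1 : Submodule.span ℝ S ≤ (Submodule.span ℝ {z})ᗮ := by
    rw [Submodule.span_le]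
    intro y hy
    exact Submodule.mem_orthogonal_singleton_iff_inner_right.2 (hz y hy)
  exact Submodule.mem_orthogonal_singleton_iff_inner_right.1 (h1 hu)

theorem lin {m : ℕ} (V V' : Submodule ℝ (E (m + 1))) (hV : IsCompl V V') (w : Fin m → E (m + 1))
    (hw : ∀ i, w i ∈ V ∨ w i ∈ V') (hi : LinearIndependent ℝ w) (z : E (m + 1))
    (hz : ∀ i, (inner ℝ z (w i) : ℝ) = 0) : z ∈ Vᗮ ∨ z ∈ V'ᗮ := by
  have hAV : Submodule.span ℝ (Set.range w ∩ V) ≤ V := Submodule.span_le.2 fun x hx => hx.2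
  have hBV : Submodule.span ℝ (Set.range w ∩ V') ≤ V' := Submodule.span_le.2 fun x hx => hx.2
  have hsup : Submodule.span ℝ (Set.range w) ≤
      Submodule.span ℝ (Set.range w ∩ V) ⊔ Submodule.span ℝ (Set.range w ∩ V') := by
    rw [Submodule.span_le]
    rintro _ ⟨i, rfl⟩
    rcases hw i with h | h
    · exact Submodule.mem_sup_left (Submodule.subset_span ⟨⟨i, rfl⟩, h⟩)
    · exact Submodule.mem_sup_right (Submodule.subset_span ⟨⟨i, rfl⟩, h⟩)
  have h1 : finrank ℝ (Submodule.span ℝ (Set.range w)) = m := by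
    rw [finrank_span_eq_card hi, Fintype.card_fin]
  have h2 := Submodule.finrank_mono hsup
  have h3 := Submodule.finrank_add_le_finrank_add_finrank
    (Submodule.span ℝ (Set.range w ∩ V)) (Submodule.span ℝ (Set.range w ∩ V'))
  have h4 : finrank ℝ V + finrank ℝ V' = m + 1 := by
    rw [Submodule.finrank_add_eq_of_isCompl hV]
    simp
  by_cases hA : Submodule.span ℝ (Set.range w ∩ V) = V
  · left
    rw [← hA]
    apply perp
    rintro _ ⟨⟨i, rfl⟩, -⟩
    exact hz i
  by_cases hB : Submodule.span ℝ (Set.range w ∩ V') = V'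
  · right
    rw [← hB]
    apply perp
    rintro _ ⟨⟨i, rfl⟩, -⟩
    exact hz i
  exfalso
  have h5 := Submodule.finrank_lt_finrank_of_lt (lt_of_le_of_ne hAV hA)
  have h6 := Submodule.finrank_lt_finrank_of_lt (lt_of_le_of_ne hBV hB)
  omega

end AFW_

theorem p_AFW (h_ZZ : T_ZZ) (h_ADS : T_ADS) (h_CRO : T_CRO) (h_SUP : T_SUP) : T_AFW := by
  intro n hn ρ h U U' hG hN hC hA
  obtain ⟨m, rfl⟩ := Nat.exists_eq_succ_of_ne_zero (NeZero.ne n)
  have hfin := hG.fin
  have hs := (h_ADS _ ρ h U U' hG).1 hA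
  have hG' : Gen (nxt ρ) (P h) := h_ZZ m ρ h hG hN
  refine (h_ADS _ (nxt ρ) (P h) Uᗮ U'ᗮ hG').2 ?_
  have hcl : IsClosed {z : E (m + 1) | z ∈ Uᗮᗮ ∨ z ∈ U'ᗮᗮ} :=
    (Submodule.isClosed_orthogonal _).union (Submodule.isClosed_orthogonal _)
  have hmap : ∀ᵐ z ∂((Measure.pi (fun _ : Fin m => ρ)).map crp), z ∈ Uᗮᗮ ∨ z ∈ U'ᗮᗮ := by
    by_cases hm : AEMeasurable (crp : (Fin m → E (m + 1)) → E (m + 1))
        (Measure.pi (fun _ : Fin m => ρ))
    · rw [ae_map_iff hm hcl.measurableSet]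
      have hpi : ∀ᵐ w ∂(Measure.pi (fun _ : Fin m => ρ)), ∀ i, w i ∈ ρ.support :=
        eventually_all.2 fun i => Measure.tendsto_eval_ae_ae.eventually (h_SUP _ ρ).1
      filter_upwards [hpi] with w hw
      by_cases h0 : crp w = 0
      · left
        rw [h0]
        exact Submodule.zero_mem _
      exact AFW_.lin Uᗮ U'ᗮ (AFW_.compl hC) w (fun i => hs _ (hw i))
        ((h_CRO m w).2.2 h0) (crp w) (h_CRO m w).1
    · rw [Measure.map_of_not_aemeasurable hm]
      simp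
  have hae : ∀ᵐ z ∂(nxt ρ), z ∈ Uᗮᗮ ∨ z ∈ U'ᗮᗮ := Measure.ae_smul_measure hmap _
  exact fun w hw => Measure.support_subset_of_isClosed hcl hae hw

end Pool.Agent.PBX
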