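import Pool.Agent.PBX.Targets

/-!
# PBX: target AIT (helper36)

Iterating `T_AFW` an even number of times.
-/

set_option autoImplicit false

open MeasureTheory Module Set Filter Topology
open scoped Pointwise

namespace Pool.Agent.PBX
open Pool.Agent.ProjBody

/-- orthogonal complements of complementary subspaces are complementary -/
theorem AIT_.compl {n : ℕ} {U U' : Submodule ℝ (E n)} (h : IsCompl U U') : IsCompl Uᗮ U'ᗮ := by
  refine ⟨disjoint_iff.2 ?_, codisjoint_iff.2 ?_⟩
  · rw [Submodule.inf_orthogonal, h.sup_eq_top, Submodule.top_orthogonal_eq_bot]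
  · have h1 : (Uᗮ ⊔ U'ᗮ)ᗮ = ⊥ := by
      rw [← Submodule.inf_orthogonal, Submodule.orthogonal_orthogonal,
        Submodule.orthogonal_orthogonal, h.inf_eq_bot]
    exact (Submodule.orthogonal_eq_bot_iff).1 h1

theorem p_AIT (h_AFW : T_AFW) (h_ZZ : T_ZZ) : T_AIT := by
  intro n _ ρ h U U' hG hN hc hA i
  obtain ⟨m, rfl⟩ : ∃ m, n = m + 1 := Nat.exists_eq_succ_of_ne_zero (NeZero.ne n)
  induction i generalizing ρ h with
  | zero => exact hA
  | succ i ih =>
    have h1 := h_ZZ m ρ h hG hN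
    have h2 := h_ZZ m (nxt ρ) (P h) h1 hN.P
    have h3 := h_AFW (m + 1) ρ h U U' hG hN hc hA
    have h4 := h_AFW (m + 1) (nxt ρ) (P h) Uᗮ U'ᗮ h1 hN.P (AIT_.compl hc) h3
    rw [Submodule.orthogonal_orthogonal, Submodule.orthogonal_orthogonal] at h4
    have h5 := ih (nxt (nxt ρ)) (P (P h)) h2 hN.P.P h4
    have h6 : P^[2 * (i + 1)] h = P^[2 * i] (P (P h)) := by
      rw [show 2 * (i + 1) = 2 * i + 1 + 1 by ring, Function.iterate_succ_apply,
        Function.iterate_succ_apply]
    rw [h6]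
    exact h5

end Pool.Agent.PBX
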