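import Pool.Agent.PBX.Targets

/-!
# PBX: every projection body has a generating measure (helper45)
-/

set_option autoImplicit false

open MeasureTheory Module Set Filter Topology
open scoped Pointwise

namespace Pool.Agent.PBX
open Pool.Agent.ProjBody

namespace BBB_

variable {n : ℕ}

/-- the gradient -/
noncomputable def G (f : E n → ℝ) (x : E n) : E n :=
  (InnerProductSpace.toDual ℝ (E n)).symm (fderiv ℝ f x)

theorem inner_G (f : E n → ℝ) (x u : E n) : inner ℝ u (G f x) = fderiv ℝ f x u := by
  rw [real_inner_comm]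
  exact InnerProductSpace.toDual_symm_apply

theorem norm_G {f : E n → ℝ} {L : NNReal} (hf : LipschitzWith L f) (x : E n) : ‖G f x‖ ≤ L := by
  unfold G
  rw [LinearIsometryEquiv.norm_map]
  exact norm_fderiv_le_of_lipschitz ℝ hf

theorem measurable_G (f : E n → ℝ) : Measurable (G f) :=
  (InnerProductSpace.toDual ℝ (E n)).symm.continuous.measurable.comp (measurable_fderiv ℝ f)

end BBB_

open BBB_ in
theorem p_BBB (h_TNT : T_TNT) (h_TSW : T_TSW) : T_BBB := by
  intro n _ h hh
  obtain ⟨a, b, ha, hab⟩ := hh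
  have hKc : IsCompact (Bd h) := Bd_compact ha hab
  have hKv : Convex ℝ (Bd h) := Bd_convex h
  have hKb : Metric.closedBall 0 a ⊆ Bd h := ball_subset_Bd hab.lo
  obtain ⟨⟨L, hL⟩, -, h0, -⟩ := h_TNT n (Bd h) a hKc hKv ha hKb
  have hn : (0 : ℝ) < n := by exact_mod_cast Nat.pos_of_ne_zero (NeZero.ne n)
  have hfin : IsFiniteMeasure (volume.restrict (Bd h)) := by
    refine ⟨?_⟩
    rw [Measure.restrict_apply_univ]
    exact hKc.measure_lt_top
  have hd : ∀ x, x ∉ Bd h → fderiv ℝ (tent (Bd h)) x = 0 := by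
    intro x hx
    have h1 : (tent (Bd h)) =ᶠ[𝓝 x] fun _ => (0 : ℝ) := by
      filter_upwards [(Bd_closed h).isOpen_compl.mem_nhds hx] with y hy
      exact h0 y hy
    rw [h1.fderiv_eq]
    exact fderiv_const_apply 0
  refine ⟨ENNReal.ofReal (n / 2) • (volume.restrict (Bd h)).map (G (tent (Bd h))), ?_, ?_, ?_⟩
  · exact Measure.smul_finite _ ENNReal.ofReal_ne_top
  · refine ⟨L, ?_⟩
    rw [Measure.smul_apply, Measure.map_apply (measurable_G _) measurableSet_closedBall.compl]
    have h1 : G (tent (Bd h)) ⁻¹' (Metric.closedBall 0 (L : ℝ))ᶜ = ∅ := by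
      rw [Set.eq_empty_iff_forall_notMem]
      intro x hx
      apply hx
      rw [Metric.mem_closedBall, dist_zero_right]
      exact norm_G hL x
    rw [h1, measure_empty, smul_zero]
  · intro u
    rw [integral_smul_measure, integral_map (measurable_G _).aemeasurable
      (by
        apply Continuous.aestronglyMeasurable
        fun_prop)]
    have h1 : ∀ x, |(inner ℝ u (G (tent (Bd h)) x) : ℝ)| = |fderiv ℝ (tent (Bd h)) x u| :=
      fun x => by rw [inner_G]
    simp_rw [h1]
    rw [setIntegral_eq_integral_of_forall_compl_eq_zero (fun x hx => by rw [hd x hx]; simp),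
      h_TSW n (Bd h) a hKc hKv ha hKb u, ENNReal.toReal_ofReal (by positivity), smul_eq_mul]
    show sw (Bd h) u = _
    field_simp

end Pool.Agent.PBX
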