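import Pool.Agent.PBX.Targets2

set_option autoImplicit false

/-!
# PBX: body of a sum (`T_BDT`), helper14
-/

open MeasureTheory Module Set Filter Topology
open scoped Pointwise

namespace Pool.Agent.PBX
open Pool.Agent.ProjBody

theorem BDT_.zero {n : ℕ} {η : E n → ℝ} (h : IsN η) : η 0 = 0 := by
  obtain ⟨a, b, ha, hh⟩ := h
  have h1 := hh.lo 0
  have h2 := hh.hi 0
  rw [norm_zero, mul_zero] at h1 h2
  exact le_antisymm h2 h1

theorem p_BDT : T_BDT := by
  classical
  intro n ι _ d T S η hTS hη
  ext y
  constructor
  · intro hy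
    refine ⟨T.symm y, fun j _ p => ?_, T.apply_symm_apply y⟩
    have h1 := hy (S.symm (Pi.single j p))
    have h2 := hTS (T.symm y) (S.symm (Pi.single j p))
    rw [T.apply_symm_apply, S.apply_symm_apply, Finset.sum_eq_single j] at h2
    · rw [Pi.single_eq_same] at h2
      simp only [S.apply_symm_apply] at h1
      rw [Finset.sum_eq_single j, Pi.single_eq_same, h2] at h1
      · exact h1
      · intro i _ hi
        rw [Pi.single_eq_of_ne hi]
        exact BDT_.zero (hη i)
      · intro hj
        exact absurd (Finset.mem_univ j) hj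
    · intro i _ hi
      rw [Pi.single_eq_of_ne hi, inner_zero_right]
    · intro hj
      exact absurd (Finset.mem_univ j) hj
  · rintro ⟨x, hx, rfl⟩ u
    rw [hTS]
    exact Finset.sum_le_sum fun j _ => hx j (Set.mem_univ j) (S u j)

end Pool.Agent.PBX
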