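import Pool.Agent.PBX.Targets

/-!
# PBX: bound of all coordinates
-/

set_option autoImplicit false

open MeasureTheory Module Set
open scoped Pointwise

namespace Pool.Agent.PBX
open Pool.Agent.ProjBody

theorem p_BDU (h_SUP : T_SUP) (h_GEI : T_GEI) : T_BDU := by
  intro n ρ h r R b hG hr hN hb x k
  haveI := hG.fin
  obtain ⟨v, hv⟩ : ∃ v : E n, ∀ x, (inner ℝ v x : ℝ) = b.repr x k := by
    refine ⟨(InnerProductSpace.toDual ℝ (E n)).symm
      (LinearMap.toContinuousLinearMap (b.coord k)), fun x => ?_⟩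
    rw [InnerProductSpace.toDual_symm_apply]
    rfl
  have h1 : h v ≤ 2 * (n * R) := by
    rw [hG.eq v]
    have hmono : ∫ w, |(inner ℝ v w : ℝ)| ∂ρ ≤ ∫ w, 2 * ‖w‖ ∂ρ := by
      apply integral_mono_ae ((h_GEI n ρ h hG).2.1 v) ((h_GEI n ρ h hG).1.const_mul 2)
      filter_upwards [(h_SUP n ρ).2.1] with w hw
      rcases hw with rfl | hw
      · simp
      · rw [hv]
        exact hb w hw k
    have h3 := (h_GEI n ρ h hG).2.2 r R hN
    rw [integral_const_mul] at hmono
    linarith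
  have h2 : r * ‖v‖ ≤ h v := hN.lo v
  rw [← hv x]
  have h4 : |(inner ℝ v x : ℝ)| ≤ ‖v‖ * ‖x‖ := abs_real_inner_le_norm v x
  have h5 : ‖v‖ ≤ 2 * n * (R / r) := by
    have : ‖v‖ ≤ 2 * (n * R) / r := by
      rw [le_div_iff₀ hr]
      linarith
    calc ‖v‖ ≤ 2 * (n * R) / r := this
      _ = 2 * n * (R / r) := by ring
  exact h4.trans (mul_le_mul_of_nonneg_right h5 (norm_nonneg x))

end Pool.Agent.PBX
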