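import Pool.Agent.PBX.Targets2

/-!
# PBX: blocks, sets to norms (`T_BL1`)
-/

namespace Pool.Agent.PBX
open Pool.Agent.ProjBody

theorem p_BL1 (h_SFN : T_SFN) (h_OEO : T_OEO) (h_SMO : T_SMO) : T_BL1 := by
  intro d B hB
  obtain ⟨hd, hcb, hsym, h3⟩ := hB
  haveI : NeZero d := ⟨by omega⟩
  obtain ⟨hN, hBd⟩ := h_SFN d B hcb hsym
  refine ⟨⟨hd, hN, fun h => ?_⟩, hBd⟩
  obtain ⟨hs, ho⟩ := h3 h
  refine ⟨?_, ((h_OEO d B (by omega)).1 ho).2.2⟩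
  refine (h_SMO d (supportFn B) hN).1 ?_
  rw [hBd]
  exact hs

end Pool.Agent.PBX
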