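import Pool.Agent.PBX.Targets2

/-!
# PBX: BL2, blocks: norms to sets (helper62)
-/

open MeasureTheory Module Set
open scoped Pointwise

namespace Pool.Agent.PBX
open Pool.Agent.ProjBody

theorem p_BL2 (h_OEO : T_OEO) (h_SMO : T_SMO) : T_BL2 := by
  intro d η hη
  obtain ⟨hd, hN, h3⟩ := hη
  have hne : NeZero d := ⟨by omega⟩
  obtain ⟨a, b, ha, hnm⟩ := hN
  have hcb : IsConvexBody (Bd η) := Bd_isConvexBody ha hnm
  have hsym : ∀ x ∈ Bd η, -x ∈ Bd η := by
    intro x hx u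
    have h1 := hx (-u)
    have h2 := hnm.smul (-1) u
    rw [neg_one_smul, abs_neg, abs_one, one_mul] at h2
    rw [inner_neg_left, ← inner_neg_right, ← h2]
    exact h1
  refine ⟨hd, hcb, hsym, fun h => ?_⟩
  obtain ⟨hS, hC⟩ := h3 h
  refine ⟨(h_SMO d η ⟨a, b, ha, hnm⟩).2 hS, ?_⟩
  have he : supportFn (Bd η) = η := funext fun u => supportFn_Bd ha hnm u
  refine (h_OEO d (Bd η) (by omega)).2 ⟨hcb, hsym, ?_⟩
  rw [he]
  exact hC

end Pool.Agent.PBX
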