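import Pool.Agent.PBX.Targets

open MeasureTheory Module Set Filter Topology
open scoped Pointwise

namespace Pool.Agent.PBX
open Pool.Agent.ProjBody

namespace BSE_

/-- the standard basis -/
noncomputable def eb (n : ℕ) : Basis (Fin n) ℝ (E n) := (EuclideanSpace.basisFun (Fin n) ℝ).toBasis

theorem det_bound {n : ℕ} (v : Fin n → E n) (h : ∀ k, ‖v k‖ = 1) :
    |(eb n).det v| ≤ (n.factorial : ℝ) := by
  rw [Basis.det_apply]
  have := Matrix.det_le (A := (eb n).toMatrix v) (abv := AbsoluteValue.abs) (x := (1 : ℝ)) (by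
    intro i j
    rw [Basis.toMatrix_apply]
    have h1 : (eb n).repr (v j) i = v j i := by
      simp [eb]
    rw [h1]
    have h2 := PiLp.norm_apply_le (v j) i
    rw [h j] at h2
    simpa using h2)
  simpa using this

theorem det_update {n : ℕ} (b : Basis (Fin n) ℝ (E n)) (x : E n) (k : Fin n) :
    (eb n).det (Function.update b k x) = b.repr x k * (eb n).det b := by
  have h1 : x = ∑ j, b.repr x j • b j := (b.sum_repr x).symm
  conv_lhs => rw [h1]
  rw [AlternatingMap.map_update_sum]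
  rw [Finset.sum_eq_single k]
  · rw [AlternatingMap.map_update_smul, Function.update_eq_self, smul_eq_mul]
  · intro j _ hj
    rw [AlternatingMap.map_update_smul]
    rw [AlternatingMap.map_update_self _ _ hj.symm, smul_zero]
  · intro h; exact absurd (Finset.mem_univ k) h

theorem exists_basis {n : ℕ} (D : Set (E n)) (hD : Submodule.span ℝ D = ⊤) :
    ∃ b : Basis (Fin n) ℝ (E n), ∀ k, b k ∈ D := by
  obtain ⟨s, hs, hsp, hli⟩ := exists_linearIndependent ℝ D
  have hsp' : ⊤ ≤ Submodule.span ℝ (Set.range ((↑) : s → E n)) := by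
    rw [Subtype.range_coe, hsp, hD]
  let b0 : Basis s ℝ (E n) := Basis.mk hli hsp'
  have : Fintype s := FiniteDimensional.fintypeBasisIndex b0
  have hc : Fintype.card s = n := by
    rw [← Module.finrank_eq_card_basis b0]; simp
  let e : s ≃ Fin n := Fintype.equivFinOfCardEq hc
  refine ⟨b0.reindex e, fun k => ?_⟩
  rw [Basis.reindex_apply, Basis.mk_apply]
  exact hs (e.symm k).2

end BSE_

open BSE_ in
theorem p_BSE : T_BSE := by
  intro n D hD h0 hsc
  classical
  have hne : ∀ x ∈ D, x ≠ 0 := fun x hx h => h0 (h ▸ hx)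
  have hpos : ∀ x ∈ D, 0 < ‖x‖ := fun x hx => norm_pos_iff.mpr (hne x hx)
  have hnorm : ∀ x ∈ D, ‖x‖⁻¹ • x ∈ D ∧ ‖(‖x‖⁻¹ • x)‖ = 1 := by
    intro x hx
    refine ⟨hsc x hx _ (inv_ne_zero (hpos x hx).ne'), ?_⟩
    rw [norm_smul, norm_inv, norm_norm, inv_mul_cancel₀ (hpos x hx).ne']
  set S : Set ℝ := {r | ∃ d : Fin n → E n, (∀ k, d k ∈ D ∧ ‖d k‖ = 1) ∧ r = |(eb n).det d|} with hS
  have hbdd : BddAbove S := by
    refine ⟨(n.factorial : ℝ), ?_⟩
    rintro r ⟨d, hd, rfl⟩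
    exact det_bound d fun k => (hd k).2
  obtain ⟨b0, hb0⟩ := exists_basis D hD
  have hmem : |(eb n).det (fun k => ‖b0 k‖⁻¹ • b0 k)| ∈ S :=
    ⟨_, fun k => hnorm _ (hb0 k), rfl⟩
  have hp0 : 0 < |(eb n).det (fun k => ‖b0 k‖⁻¹ • b0 k)| := by
    rw [abs_pos]
    have h1 : (eb n).det (fun k => ‖b0 k‖⁻¹ • b0 k) = (∏ k, ‖b0 k‖⁻¹) • (eb n).det b0 := by
      exact MultilinearMap.map_smul_univ (eb n).det.toMultilinearMap (fun k => ‖b0 k‖⁻¹) b0
    rw [h1]
    refine smul_ne_zero ?_ ((eb n).isUnit_det b0).ne_zero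
    exact Finset.prod_ne_zero_iff.mpr fun k _ => inv_ne_zero (hpos _ (hb0 k)).ne'
  have hM : 0 < sSup S := lt_of_lt_of_le hp0 (le_csSup hbdd hmem)
  obtain ⟨r, ⟨d, hd, rfl⟩, hr⟩ := exists_lt_of_lt_csSup ⟨_, hmem⟩ (half_lt_self hM)
  have hdet : 0 < |(eb n).det d| := lt_trans (half_pos hM) hr
  have hb := (Basis.is_basis_iff_det (eb n) (v := d)).mpr (isUnit_iff_ne_zero.mpr (abs_pos.mp hdet))
  let b : Basis (Fin n) ℝ (E n) := Basis.mk hb.1 hb.2.ge
  have hbk : ∀ k, b k = d k := fun k => Basis.mk_apply _ _ _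
  have hbd : (b : Fin n → E n) = d := funext hbk
  refine ⟨b, fun k => by rw [hbk]; exact hd k, ?_⟩
  intro x hx k
  have h1 : |(eb n).det (Function.update b k (‖x‖⁻¹ • x))| ≤ sSup S := by
    refine le_csSup hbdd ⟨_, ?_, rfl⟩
    intro j
    rw [hbd]
    by_cases hj : j = k
    · subst hj; rw [Function.update_self]; exact hnorm x hx
    · rw [Function.update_of_ne hj]; exact hd j
  rw [AlternatingMap.map_update_smul, det_update, smul_eq_mul, abs_mul, abs_mul, abs_inv, abs_norm, hbd]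
    at h1
  have hx0 := hpos x hx
  have h2 : |b.repr x k| * |(eb n).det d| ≤ ‖x‖ * sSup S := by
    have h3 := mul_le_mul_of_nonneg_left h1 hx0.le
    rwa [← mul_assoc, mul_inv_cancel₀ hx0.ne', one_mul] at h3
  have h4 : |b.repr x k| * (sSup S / 2) ≤ ‖x‖ * sSup S :=
    le_trans (mul_le_mul_of_nonneg_left hr.le (abs_nonneg _)) h2
  nlinarith [h4, hM]

end Pool.Agent.PBX
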