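import Pool.Agent.PBX.Targets2

/-! # PBX: summands of members of the class are members -/

set_option autoImplicit false

open MeasureTheory Module Set Filter Topology
open scoped Pointwise

namespace Pool.Agent.PBX
open Pool.Agent.ProjBody

namespace CDD_

theorem isN_scale {n : ℕ} {h : E n → ℝ} (hh : IsN h) {c : ℝ} (hc : 0 < c) :
    IsN (fun u => c * h u) := by
  obtain ⟨a, b, ha, hh⟩ := hh
  exact ⟨c * a, c * b, mul_pos hc ha, hh.scale hc⟩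

theorem isN_zero {n : ℕ} {h : E n → ℝ} (hh : IsN h) : h 0 = 0 := by
  obtain ⟨a, b, _, hh⟩ := hh
  exact hh.zero

theorem vol_pos {n : ℕ} [NeZero n] {h : E n → ℝ} (hh : IsN h) :
    0 < (volume (Bd h)).toReal := by
  obtain ⟨a, b, ha, hh⟩ := hh
  have h1 : 0 < volume (Metric.closedBall (0 : E n) a) := Metric.measure_closedBall_pos _ _ ha
  have h2 : volume (Metric.closedBall (0 : E n) a) ≤ volume (Bd h) :=
    measure_mono (ball_subset_Bd hh.lo)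
  exact ENNReal.toReal_pos (lt_of_lt_of_le h1 h2).ne' (Bd_compact ha hh).measure_lt_top.ne

theorem pit_scale {n : ℕ} [NeZero n] {h : E n → ℝ} (hh : IsN h) {c : ℝ} (hc : 0 < c) (m : ℕ) :
    ∃ k : ℝ, 0 < k ∧ ∀ u, (P^[m] fun u => c * h u) u = k * (P^[m] h) u := by
  induction m with
  | zero => exact ⟨c, hc, fun u => rfl⟩
  | succ m ih =>
    obtain ⟨k, hk, he⟩ := ih
    obtain ⟨a, b, ha, hN⟩ := hh.Pit m
    refine ⟨k ^ (n - 1), pow_pos hk _, fun u => ?_⟩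
    rw [Function.iterate_succ_apply', Function.iterate_succ_apply']
    have e : (P^[m] fun u => c * h u) = fun u => k * (P^[m] h) u := funext he
    rw [e]
    exact P_scale ha hN hk u

/-- reading off the two parts of a direct sum -/
theorem dsum_inj {a b : ℕ} {α α' : E a → ℝ} {β β' : E b → ℝ} (h1 : α 0 = 0) (h2 : β 0 = 0)
    (h1' : α' 0 = 0) (h2' : β' 0 = 0)
    (h : ∀ u : E (a + b), dsum α β u = dsum α' β' u) : (∀ p, α p = α' p) ∧ ∀ q, β q = β' q := by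
  constructor
  · intro p
    have := h (jn p 0)
    unfold dsum at this
    rw [prL_jn, prR_jn, h2, h2', add_zero, add_zero] at this
    exact this
  · intro q
    have := h (jn 0 q)
    unfold dsum at this
    rw [prL_jn, prR_jn, h1, h1', zero_add, zero_add] at this
    exact this

/-- one step: `P g = dsum α β` -/
theorem one (h_DEC : T_DEC) (h_DSP : T_DSP) {a b : ℕ} [NeZero a] [NeZero b]
    {g : E (a + b) → ℝ} (hg : IsN g) (hρ : ∃ ρ, Gen ρ g) {α : E a → ℝ} {β : E b → ℝ}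
    (hα : IsN α) (hβ : IsN β) (h : ∀ u, P g u = dsum α β u) :
    ∃ (α' : E a → ℝ) (β' : E b → ℝ), IsN α' ∧ IsN β' ∧ (∀ u, g u = dsum α' β' u) ∧
      (∃ c : ℝ, 0 < c ∧ ∀ p, α p = c * P α' p) ∧ ∃ c : ℝ, 0 < c ∧ ∀ q, β q = c * P β' q := by
  obtain ⟨ρ, hρ⟩ := hρ
  obtain ⟨α', β', ρ₁, ρ₂, hα', hβ', g1, g2, he⟩ := h_DEC a b ρ g α β hρ hg hα hβ h
  have hva := vol_pos hα'
  have hvb := vol_pos hβ'
  have e : g = dsum α' β' := funext he
  have h3 : ∀ u : E (a + b), dsum α β u =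
      dsum (fun p => (volume (Bd β')).toReal * P α' p)
        (fun q => (volume (Bd α')).toReal * P β' q) u := by
    intro u
    rw [← h_DSP a b α' β' ρ₁ ρ₂ g1 g2 hα' hβ' u, ← h u, e]
  have h4 := dsum_inj (isN_zero hα) (isN_zero hβ)
    (isN_zero (isN_scale hα'.P hvb)) (isN_zero (isN_scale hβ'.P hva)) h3
  exact ⟨α', β', hα', hβ', he, ⟨_, hvb, h4.1⟩, ⟨_, hva, h4.2⟩⟩

theorem claim (h_DEC : T_DEC) (h_DSP : T_DSP) (h_BBB : T_BBB) {a b : ℕ} [NeZero a] [NeZero b]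
    (m : ℕ) : ∀ (g : E (a + b) → ℝ), IsN g → (∃ ρ, Gen ρ g) → ∀ (α : E a → ℝ) (β : E b → ℝ),
    IsN α → IsN β → (∀ u, (P^[m + 1] g) u = dsum α β u) →
    ∃ (α' : E a → ℝ) (β' : E b → ℝ), IsN α' ∧ IsN β' ∧ (∀ u, g u = dsum α' β' u) ∧
      (∃ c : ℝ, 0 < c ∧ ∀ p, α p = c * (P^[m + 1] α') p) ∧
      ∃ c : ℝ, 0 < c ∧ ∀ q, β q = c * (P^[m + 1] β') q := by
  induction m with
  | zero =>
    intro g hg hρ α β hα hβ h
    exact one h_DEC h_DSP hg hρ hα hβ h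
  | succ m ih =>
    intro g hg hρ α β hα hβ h
    obtain ⟨α₁, β₁, hα₁, hβ₁, he₁, ⟨c, hc, hc'⟩, ⟨d, hd, hd'⟩⟩ :=
      ih (P g) hg.P (h_BBB (a + b) g hg) α β hα hβ h
    obtain ⟨α₂, β₂, hα₂, hβ₂, he₂, ⟨x, hx, hx'⟩, ⟨y, hy, hy'⟩⟩ :=
      one h_DEC h_DSP hg hρ hα₁ hβ₁ he₁
    obtain ⟨k, hk, hk'⟩ := pit_scale hα₂.P hx (m + 1)
    obtain ⟨l, hl, hl'⟩ := pit_scale hβ₂.P hy (m + 1)
    have e1 : α₁ = fun p => x * P α₂ p := funext hx'
    have e2 : β₁ = fun p => y * P β₂ p := funext hy'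
    refine ⟨α₂, β₂, hα₂, hβ₂, he₂, ⟨c * k, mul_pos hc hk, fun p => ?_⟩,
      ⟨d * l, mul_pos hd hl, fun q => ?_⟩⟩
    · rw [hc' p, e1, hk' p, Function.iterate_succ_apply P (m + 1) α₂]
      ring
    · rw [hd' q, e2, hl' q, Function.iterate_succ_apply P (m + 1) β₂]
      ring

end CDD_

open CDD_

theorem p_CDD (h_DEC : T_DEC) (h_DSP : T_DSP) (h_BBB : T_BBB) : T_CDD := by
  intro a b _ _ α β hα hβ hC
  have key : ∀ m : ℕ, (∃ g, IsN g ∧ ∃ c : ℝ, 0 < c ∧ ∀ p, α p = c * (P^[m + 1] g) p) ∧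
      ∃ g, IsN g ∧ ∃ c : ℝ, 0 < c ∧ ∀ q, β q = c * (P^[m + 1] g) q := by
    intro m
    obtain ⟨g, hg, c, hc, he⟩ := hC.2 (m + 1 + 1)
    have hci : 0 < c⁻¹ := inv_pos.2 hc
    have h1 : ∀ u : E (a + b), (P^[m + 1] (P g)) u =
        dsum (fun p => c⁻¹ * α p) (fun q => c⁻¹ * β q) u := by
      intro u
      have h2 := he u
      rw [Function.iterate_succ_apply] at h2
      unfold dsum at h2 ⊢
      rw [← mul_add, h2, inv_mul_cancel_left₀ hc.ne']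
    obtain ⟨α', β', hα', hβ', -, ⟨x, hx, hx'⟩, ⟨y, hy, hy'⟩⟩ :=
      claim h_DEC h_DSP h_BBB m (P g) hg.P (h_BBB (a + b) g hg) _ _ (isN_scale hα hci)
        (isN_scale hβ hci) h1
    refine ⟨⟨α', hα', c * x, mul_pos hc hx, fun p => ?_⟩, ⟨β', hβ', c * y, mul_pos hc hy,
      fun q => ?_⟩⟩
    · have := hx' p
      rw [mul_assoc, ← this, mul_inv_cancel_left₀ hc.ne']
    · have := hy' q
      rw [mul_assoc, ← this, mul_inv_cancel_left₀ hc.ne']
  refine ⟨⟨hα, fun m => ?_⟩, ⟨hβ, fun m => ?_⟩⟩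
  · cases m with
    | zero => exact ⟨α, hα, 1, one_pos, fun u => by rw [one_mul]; rfl⟩
    | succ m => exact (key m).1
  · cases m with
    | zero => exact ⟨β, hβ, 1, one_pos, fun u => by rw [one_mul]; rfl⟩
    | succ m => exact (key m).2

end Pool.Agent.PBX
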