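import Pool.Agent.PBX.Targets2

/-!
# PBX: dimension one (target `T_CL1`)
-/

open MeasureTheory Module Set Filter Topology

namespace Pool.Agent.PBX
open Pool.Agent.ProjBody

namespace CL1_

/-- the unit vector -/
noncomputable def e1 : E 1 := EuclideanSpace.single 0 1

theorem eq_smul (u : E 1) : u = (u 0) • e1 := by
  ext i
  have hi : i = 0 := Subsingleton.elim _ _
  subst hi
  simp [e1]

theorem pos {h : E 1 → ℝ} (hh : IsN h) : 0 < h e1 := by
  obtain ⟨a, b, ha, hN⟩ := hh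
  have h1 := hN.lo e1
  have h2 : ‖e1‖ = 1 := by simp [e1]
  rw [h2, mul_one] at h1
  exact ha.trans_le h1

theorem val {h : E 1 → ℝ} (hh : IsN h) (u : E 1) : h u = |u 0| * h e1 := by
  obtain ⟨a, b, ha, hN⟩ := hh
  have h1 : h u = h ((u 0) • e1) := by rw [← eq_smul u]
  rw [h1, hN.smul]

end CL1_

open CL1_ in
theorem p_CL1 : T_CL1 := by
  intro h hh
  refine ⟨hh, fun m => ⟨h, hh, h e1 / (P^[m] h) e1, div_pos (pos hh) (pos (hh.Pit m)), ?_⟩⟩
  intro u
  have h1 := pos (hh.Pit m)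
  rw [val (hh.Pit m) u, val hh u]
  field_simp

end Pool.Agent.PBX
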