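import Pool.Agent.PBX.Targets2

/-!
# PBX: every centred planar convex body is a member, `T_CL2`
-/

open MeasureTheory Module Set
open scoped Pointwise

namespace Pool.Agent.PBX
open Pool.Agent.ProjBody

namespace CL2_

/-- rotation by minus ninety degrees -/
noncomputable def rotL : E 2 ≃ₗ[ℝ] E 2 where
  toFun u := WithLp.toLp 2 ![u 1, -(u 0)]
  invFun u := WithLp.toLp 2 ![-(u 1), u 0]
  left_inv u := by ext i; fin_cases i <;> simp
  right_inv u := by ext i; fin_cases i <;> simp
  map_add' u v := by ext i; fin_cases i <;> simp; ring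
  map_smul' c u := by ext i; fin_cases i <;> simp

noncomputable def rot : E 2 ≃L[ℝ] E 2 := rotL.toContinuousLinearEquiv

theorem rot_apply (u : E 2) : rot (WithLp.toLp 2 ![-(u 1), u 0]) = u := rotL.right_inv u

theorem claim (h_PL2 : T_PL2) (m : ℕ) : ∀ h : E 2 → ℝ, IsN h → ∃ g, IsN g ∧ ∃ c : ℝ, 0 < c ∧
    ∀ u, h u = c * (P^[m] g) u := by
  induction m with
  | zero => exact fun h hh => ⟨h, hh, 1, one_pos, fun u => by simp⟩
  | succ m ih =>
    intro h hh
    obtain ⟨g, hg, c, hc, hgc⟩ := ih (fun u => h (rot u)) (hh.comp rot)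
    refine ⟨g, hg, c / 2, by positivity, fun u => ?_⟩
    rw [Function.iterate_succ_apply']
    have h1 : P (fun u => h (rot u)) u = 2 * h u := by
      rw [h_PL2 _ (hh.comp rot) u, rot_apply]
    have h2 : (fun u => h (rot u)) = fun u => c * (P^[m] g) u := funext hgc
    obtain ⟨a, b, ha, hab⟩ := hg.Pit m
    rw [h2, P_scale ha hab hc] at h1
    have h3 : c * P (P^[m] g) u = 2 * h u := by simpa using h1
    linarith

end CL2_

theorem p_CL2 (h_PL2 : T_PL2) : T_CL2 := fun h hh => ⟨hh, fun m => CL2_.claim h_PL2 m h hh⟩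

end Pool.Agent.PBX
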