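import Pool.Agent.PBX.Targets2

/-!
# PBX: the class is invariant under linear maps, `T_CLT` (helper93)
-/

open MeasureTheory Module Set
open scoped Pointwise

namespace Pool.Agent.PBX
open Pool.Agent.ProjBody

namespace CLT_

variable {n : ℕ}

theorem key [NeZero n] (m : ℕ) : ∀ T : E n ≃L[ℝ] E n, ∃ (S : E n ≃L[ℝ] E n) (c : ℝ), 0 < c ∧
    ∀ g : E n → ℝ, IsN g → ∀ u, (P^[m] (fun v => g (S v))) u = c * (P^[m] g) (T u) := by
  induction m with
  | zero => exact fun T => ⟨T, 1, one_pos, fun g _ u => by simp⟩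
  | succ m ih =>
    intro T
    obtain ⟨S, c, hc, hS⟩ := ih (adj T.symm)
    have hadj : (adj (adj T.symm)).symm = T := by rw [adj_adj]; rfl
    refine ⟨S, c ^ (n - 1) * dt (adj (adj T.symm)), mul_pos (pow_pos hc _) (dt_pos _), ?_⟩
    intro g hg u
    rw [Function.iterate_succ_apply', Function.iterate_succ_apply']
    have h1 : P^[m] (fun v => g (S v)) = fun u => c * (P^[m] g) (adj T.symm u) :=
      funext (hS g hg)
    obtain ⟨a, b, ha, hab⟩ := (hg.Pit m).comp (adj T.symm)
    rw [h1, P_scale ha hab hc, P_comp, hadj, mul_assoc]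

end CLT_

theorem p_CLT : T_CLT := by
  intro n n' _ T h hh
  obtain rfl : n' = n := by
    have := T.toLinearEquiv.finrank_eq
    simpa using this
  refine ⟨hh.1.comp T, fun m => ?_⟩
  obtain ⟨g, hg, c, hc, hgc⟩ := hh.2 m
  obtain ⟨S, c', hc', hS⟩ := CLT_.key m T
  refine ⟨fun v => g (S v), hg.comp S, c / c', div_pos hc hc', fun u => ?_⟩
  rw [hS g hg u, ← mul_assoc, div_mul_cancel₀ _ hc'.ne']
  exact hgc (T u)

end Pool.Agent.PBX
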