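import Pool.Agent.PBX.Targets

/-!
# PBX: CRC, the cross product is continuous and multiplicative in scalars
-/

open MeasureTheory Module Set
open scoped Pointwise

namespace Pool.Agent.PBX
open Pool.Agent.ProjBody

theorem p_CRC : T_CRC := by
  intro m
  constructor
  · unfold crp
    refine (PiLp.continuous_toLp 2 _).comp (continuous_pi fun i => ?_)
    refine Continuous.matrix_det ?_
    refine continuous_matrix fun a b => ?_
    refine Fin.cases ?_ (fun k => ?_) a
    · show Continuous fun w : Fin m → E (m + 1) => (EuclideanSpace.single i (1 : ℝ) : E (m + 1)) b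
      exact continuous_const
    · show Continuous fun w : Fin m → E (m + 1) => (w k) b
      fun_prop
  · intro c w
    ext i
    have h : mt (Fin.cons (EuclideanSpace.single i 1) (fun i => c i • w i) :
        Fin (m + 1) → E (m + 1)) =
        Matrix.of fun a b => (Fin.cons 1 c : Fin (m + 1) → ℝ) a *
          mt (Fin.cons (EuclideanSpace.single i 1) w : Fin (m + 1) → E (m + 1)) a b := by
      ext a b
      refine Fin.cases ?_ (fun k => ?_) a
      · simp [mt]
      · simp [mt]
    show (mt (Fin.cons (EuclideanSpace.single i 1) (fun i => c i • w i) :
        Fin (m + 1) → E (m + 1))).det = (∏ i, c i) *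
          (mt (Fin.cons (EuclideanSpace.single i 1) w : Fin (m + 1) → E (m + 1))).det
    rw [h, Matrix.det_mul_column, Fin.prod_univ_succ]
    simp

end Pool.Agent.PBX
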