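import Pool.Agent.PBX.Targets

/-! # PBX: cross product, orthogonality and independence -/

set_option autoImplicit false

namespace Pool.Agent.PBX
open Pool.Agent.ProjBody Module

namespace CRO_

theorem det_ne_iff {n : ℕ} (v : Fin n → E n) : (mt v).det ≠ 0 ↔ LinearIndependent ℝ v := by
  have h1 : LinearIndependent ℝ (mt v).row ↔ IsUnit (mt v) := Matrix.linearIndependent_rows_iff_isUnit
  have h2 : (mt v).row = (EuclideanSpace.equiv (Fin n) ℝ).toLinearEquiv.toLinearMap ∘ v := by
    funext i j
    rfl
  rw [h2, LinearMap.linearIndependent_iff_of_injOn] at h1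
  · rw [h1, Matrix.isUnit_iff_isUnit_det, isUnit_iff_ne_zero]
  · exact ((EuclideanSpace.equiv (Fin n) ℝ).toLinearEquiv.injective).injOn

end CRO_

open CRO_

theorem p_CRO (h_CRI : T_CRI) : T_CRO := by
  intro m w
  refine ⟨fun i => ?_, fun hw h0 => ?_, fun h0 => ?_⟩
  · rw [real_inner_comm, h_CRI]
    refine Matrix.det_zero_of_row_eq (i := 0) (j := i.succ) (Fin.succ_ne_zero i).symm ?_
    funext j
    simp [mt]
  · have hlt : finrank ℝ (Submodule.span ℝ (Set.range w)) < finrank ℝ (E (m + 1)) := by
      have h1 := finrank_range_le_card (R := ℝ) w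
      have h2 : finrank ℝ (E (m + 1)) = m + 1 := finrank_euclideanSpace_fin
      simp only [Fintype.card_fin] at h1
      unfold Set.finrank at h1
      omega
    obtain ⟨u, hu⟩ : ∃ u : E (m + 1), u ∉ Submodule.span ℝ (Set.range w) := by
      by_contra hcon
      push Not at hcon
      have : Submodule.span ℝ (Set.range w) = ⊤ := by
        rw [Submodule.eq_top_iff']
        exact hcon
      rw [this, finrank_top] at hlt
      exact lt_irrefl _ hlt
    have h3 : LinearIndependent ℝ (Fin.cons u w : Fin (m + 1) → E (m + 1)) :=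
      linearIndependent_finCons.2 ⟨hw, hu⟩
    rw [← det_ne_iff, ← h_CRI, h0, inner_zero_right] at h3
    exact h3 rfl
  · have h1 : (mt (Fin.cons (crp w) w : Fin (m + 1) → E (m + 1))).det ≠ 0 := by
      rw [← h_CRI]
      exact inner_self_ne_zero.2 h0
    rw [det_ne_iff] at h1
    exact (linearIndependent_finCons.1 h1).1

end Pool.Agent.PBX
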