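import Pool.Agent.PBX.Targets

/-! # PBX: rounding to a sum (T_CS1) -/

open MeasureTheory Module Set Filter Topology
open scoped Pointwise

namespace Pool.Agent.PBX.CS1_
open Pool.Agent.ProjBody

variable {n : ℕ}

open Classical in
/-- projection onto the coordinates in `J` -/
noncomputable def pj (b : Basis (Fin n) ℝ (E n)) (J : Set (Fin n)) : E n →ₗ[ℝ] E n :=
  ∑ k, if k ∈ J then (b.coord k).smulRight (b k) else 0

open Classical in
theorem pj_apply (b : Basis (Fin n) ℝ (E n)) (J : Set (Fin n)) (w : E n) :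
    pj b J w = ∑ k, if k ∈ J then b.repr w k • b k else 0 := by
  unfold pj
  rw [LinearMap.sum_apply]
  refine Finset.sum_congr rfl fun k _ => ?_
  by_cases hk : k ∈ J
  · rw [if_pos hk, if_pos hk]
    rfl
  · rw [if_neg hk, if_neg hk]
    rfl

theorem pj_mem (b : Basis (Fin n) ℝ (E n)) (J : Set (Fin n)) (w : E n) :
    pj b J w ∈ Submodule.span ℝ (b '' J) := by
  classical
  rw [pj_apply]
  refine Submodule.sum_mem _ fun k _ => ?_
  by_cases hk : k ∈ J
  · rw [if_pos hk]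
    exact Submodule.smul_mem _ _ (Submodule.subset_span ⟨k, hk, rfl⟩)
  · rw [if_neg hk]
    exact Submodule.zero_mem _

theorem pj_add (b : Basis (Fin n) ℝ (E n)) (J : Set (Fin n)) (w : E n) :
    pj b J w + pj b Jᶜ w = w := by
  classical
  rw [pj_apply, pj_apply, ← Finset.sum_add_distrib]
  conv_rhs => rw [← b.sum_repr w]
  refine Finset.sum_congr rfl fun k _ => ?_
  by_cases hk : k ∈ J
  · rw [if_pos hk, if_neg (by simpa using hk), add_zero]
  · rw [if_neg hk, if_pos (by simpa using hk), zero_add]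

theorem pj_norm (b : Basis (Fin n) ℝ (E n)) (J : Set (Fin n)) (w : E n) (hb : ∀ k, ‖b k‖ = 1)
    (c : ℝ) (hc : 0 ≤ c) (h : ∀ k ∈ J, |b.repr w k| ≤ c) : ‖pj b J w‖ ≤ n * c := by
  classical
  rw [pj_apply]
  calc ‖∑ k, if k ∈ J then b.repr w k • b k else 0‖
      ≤ ∑ k : Fin n, ‖if k ∈ J then b.repr w k • b k else (0 : E n)‖ := norm_sum_le _ _
    _ ≤ ∑ _k : Fin n, c := by
        refine Finset.sum_le_sum fun k _ => ?_
        by_cases hk : k ∈ J
        · rw [if_pos hk, norm_smul, hb k, mul_one, Real.norm_eq_abs]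
          exact h k hk
        · rw [if_neg hk, norm_zero]
          exact hc
    _ = n * c := by simp

/-- the set of the first alternative -/
def AA (b : Basis (Fin n) ℝ (E n)) (I : Set (Fin n)) (ε : ℝ) : Set (E n) :=
  {w | ∀ k ∈ I, |b.repr w k| ≤ ε * ‖w‖}

theorem AA_closed (b : Basis (Fin n) ℝ (E n)) (I : Set (Fin n)) (ε : ℝ) : IsClosed (AA b I ε) := by
  have h : AA b I ε = ⋂ k ∈ I, {w | |b.repr w k| ≤ ε * ‖w‖} := by
    ext w
    simp [AA]
  rw [h]
  refine isClosed_biInter fun k _ => ?_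
  have hc : Continuous fun w : E n => b.repr w k :=
    (b.coord k).continuous_of_finiteDimensional
  exact isClosed_le hc.abs (continuous_const.mul continuous_norm)

open Classical in
/-- rounding -/
noncomputable def rd (b : Basis (Fin n) ℝ (E n)) (I : Set (Fin n)) (ε : ℝ) (w : E n) : E n :=
  if w ∈ AA b I ε then pj b Iᶜ w else pj b I w

theorem rd_meas (b : Basis (Fin n) ℝ (E n)) (I : Set (Fin n)) (ε : ℝ) :
    Measurable (rd b I ε) := by
  classical
  unfold rd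
  exact Measurable.ite (AA_closed b I ε).measurableSet
    (pj b Iᶜ).continuous_of_finiteDimensional.measurable
    (pj b I).continuous_of_finiteDimensional.measurable

theorem rd_mem (b : Basis (Fin n) ℝ (E n)) (I : Set (Fin n)) (ε : ℝ) (w : E n) :
    rd b I ε w ∈ Submodule.span ℝ (b '' Iᶜ) ∨ rd b I ε w ∈ Submodule.span ℝ (b '' I) := by
  classical
  unfold rd
  by_cases h : w ∈ AA b I ε
  · rw [if_pos h]
    exact Or.inl (pj_mem b Iᶜ w)
  · rw [if_neg h]
    exact Or.inr (pj_mem b I w)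

theorem rd_bound (b : Basis (Fin n) ℝ (E n)) (I : Set (Fin n)) (ε : ℝ) :
    ∃ C : ℝ, 0 ≤ C ∧ ∀ w, ‖rd b I ε w‖ ≤ C * ‖w‖ := by
  classical
  let p₁ : E n →L[ℝ] E n := LinearMap.toContinuousLinearMap (pj b Iᶜ)
  let p₂ : E n →L[ℝ] E n := LinearMap.toContinuousLinearMap (pj b I)
  refine ⟨‖p₁‖ + ‖p₂‖, by positivity, fun w => ?_⟩
  have h1 : ‖pj b Iᶜ w‖ ≤ ‖p₁‖ * ‖w‖ := p₁.le_opNorm w
  have h2 : ‖pj b I w‖ ≤ ‖p₂‖ * ‖w‖ := p₂.le_opNorm w
  have h3 : 0 ≤ ‖p₁‖ * ‖w‖ := by positivity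
  have h4 : 0 ≤ ‖p₂‖ * ‖w‖ := by positivity
  rw [add_mul]
  unfold rd
  by_cases h : w ∈ AA b I ε
  · rw [if_pos h]
    linarith
  · rw [if_neg h]
    linarith

theorem rd_close (b : Basis (Fin n) ℝ (E n)) (I : Set (Fin n)) (ε : ℝ) (hb : ∀ k, ‖b k‖ = 1)
    (hε : 0 < ε) (w : E n) (hw : (∀ k ∈ I, |b.repr w k| ≤ ε * ‖w‖) ∨
      (∀ k ∈ Iᶜ, |b.repr w k| ≤ ε * ‖w‖)) : ‖rd b I ε w - w‖ ≤ n * (ε * ‖w‖) := by
  classical
  have hc : 0 ≤ ε * ‖w‖ := by positivity
  have hs := pj_add b I w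
  unfold rd
  by_cases h : w ∈ AA b I ε
  · rw [if_pos h]
    have h1 : pj b Iᶜ w - w = - pj b I w := by
      conv_lhs => rw [← hs]
      rw [map_add]
      have h2 : pj b Iᶜ (pj b I w + pj b Iᶜ w) = pj b Iᶜ w := by rw [hs]
      rw [map_add] at h2
      rw [h2]
      abel
    rw [h1, norm_neg]
    exact pj_norm b I w hb _ hc h
  · rw [if_neg h]
    have h1 : pj b I w - w = - pj b Iᶜ w := by
      have h3 : pj b I w = w - pj b Iᶜ w := eq_sub_of_add_eq hs
      rw [h3]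
      abel
    rw [h1, norm_neg]
    rcases hw with hw | hw
    · exact absurd hw h
    · exact pj_norm b Iᶜ w hb _ hc hw

theorem compl_orth (V₁ V₂ : Submodule ℝ (E n)) (h : IsCompl V₁ V₂) : IsCompl V₁ᗮ V₂ᗮ := by
  constructor
  · rw [disjoint_iff, Submodule.inf_orthogonal, h.sup_eq_top, Submodule.top_orthogonal_eq_bot]
  · rw [codisjoint_iff]
    have h1 : (V₁ᗮ ⊔ V₂ᗮ)ᗮ = ⊥ := by
      rw [← Submodule.inf_orthogonal, Submodule.orthogonal_orthogonal,
        Submodule.orthogonal_orthogonal, h.inf_eq_bot]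
    rw [← Submodule.orthogonal_orthogonal (V₁ᗮ ⊔ V₂ᗮ), h1, Submodule.bot_orthogonal_eq_top]

theorem span_compl (b : Basis (Fin n) ℝ (E n)) (I : Set (Fin n)) :
    IsCompl (Submodule.span ℝ (b '' Iᶜ)) (Submodule.span ℝ (b '' I)) := by
  constructor
  · exact b.linearIndependent.disjoint_span_image (disjoint_compl_left)
  · rw [codisjoint_iff, ← Submodule.span_union, ← image_union, compl_union_self, image_univ,
      b.span_eq]

theorem orth_ne_bot (b : Basis (Fin n) ℝ (E n)) (V₁ V₂ : Submodule ℝ (E n)) (h : IsCompl V₁ V₂)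
    (k : Fin n) (hk : b k ∈ V₂) : V₁ᗮ ≠ ⊥ := by
  intro h0
  have h1 : V₁ = ⊤ := Submodule.orthogonal_eq_bot_iff.1 h0
  have h2 := h.inf_eq_bot
  rw [h1, top_inf_eq] at h2
  rw [h2] at hk
  exact b.ne_zero k ((Submodule.mem_bot ℝ).1 hk)

end Pool.Agent.PBX.CS1_

namespace Pool.Agent.PBX
open Pool.Agent.ProjBody
open CS1_

theorem p_CS1 (h_SUP : T_SUP) (h_GEI : T_GEI) : T_CS1 := by
  intro n _ ρ h r R ε b I hG hr hN hb hI hI' hε hx
  have := hG.fin
  obtain ⟨hi1, hi2, hi3⟩ := h_GEI n ρ h hG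
  obtain ⟨-, hs2, -⟩ := h_SUP n ρ
  obtain ⟨C, hC, hCb⟩ := rd_bound b I ε
  have hR : 0 < R := hN.b_nonneg hr
  have hm := rd_meas b I ε
  have hc := span_compl b I
  -- integrability
  have hint : ∀ u : E n, Integrable (fun w => |(inner ℝ u (rd b I ε w) : ℝ)|) ρ := by
    intro u
    refine Integrable.mono' (g := fun w => ‖u‖ * C * ‖w‖) (hi1.const_mul _) ?_ ?_
    · have hcu : Continuous fun x : E n => |(inner ℝ u x : ℝ)| := by fun_prop
      exact (hcu.measurable.comp hm).aestronglyMeasurable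
    · refine Filter.Eventually.of_forall fun w => ?_
      rw [Real.norm_eq_abs, abs_abs]
      calc |(inner ℝ u (rd b I ε w) : ℝ)| ≤ ‖u‖ * ‖rd b I ε w‖ := abs_real_inner_le_norm _ _
        _ ≤ ‖u‖ * (C * ‖w‖) := by
            gcongr
            exact hCb w
        _ = ‖u‖ * C * ‖w‖ := by ring
  refine ⟨ρ.map (rd b I ε), fun u => ∫ w, |(inner ℝ u (rd b I ε w) : ℝ)| ∂ρ,
    (Submodule.span ℝ (b '' Iᶜ))ᗮ, (Submodule.span ℝ (b '' I))ᗮ, ?_, compl_orth _ _ hc, ?_, ?_,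
    ?_, ?_⟩
  · refine ⟨?_, ?_, ?_⟩
    · exact Measure.isFiniteMeasure_map ρ _
    · obtain ⟨S, hS⟩ := hG.cpt
      refine ⟨C * S, ?_⟩
      rw [Measure.map_apply hm (Metric.isClosed_closedBall.measurableSet.compl)]
      refine measure_mono_null ?_ hS
      intro w hw hw'
      apply hw
      rw [Metric.mem_closedBall, dist_zero_right] at hw' ⊢
      exact (hCb w).trans (mul_le_mul_of_nonneg_left hw' hC)
    · intro u
      have hcu : Continuous fun x : E n => |(inner ℝ u x : ℝ)| := by fun_prop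
      exact (integral_map hm.aemeasurable hcu.aestronglyMeasurable).symm
  · obtain ⟨k, hk⟩ := hI
    exact orth_ne_bot b _ _ hc k (Submodule.subset_span ⟨k, hk, rfl⟩)
  · obtain ⟨k, hk⟩ := hI'
    exact orth_ne_bot b _ _ hc.symm k (Submodule.subset_span ⟨k, hk, rfl⟩)
  · intro u hu u' hu'
    show (∫ w, |(inner ℝ (u + u') (rd b I ε w) : ℝ)| ∂ρ) =
      (∫ w, |(inner ℝ u (rd b I ε w) : ℝ)| ∂ρ) + ∫ w, |(inner ℝ u' (rd b I ε w) : ℝ)| ∂ρ
    rw [← integral_add (hint u) (hint u')]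
    refine integral_congr_ae (Filter.Eventually.of_forall fun w => ?_)
    show |(inner ℝ (u + u') (rd b I ε w) : ℝ)| =
      |(inner ℝ u (rd b I ε w) : ℝ)| + |(inner ℝ u' (rd b I ε w) : ℝ)|
    rw [inner_add_left]
    rcases rd_mem b I ε w with hw | hw
    · have h0 : (inner ℝ u (rd b I ε w) : ℝ) = 0 := by
        rw [real_inner_comm]
        exact hu _ hw
      rw [h0, zero_add, abs_zero, zero_add]
    · have h0 : (inner ℝ u' (rd b I ε w) : ℝ) = 0 := by
        rw [real_inner_comm]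
        exact hu' _ hw
      rw [h0, add_zero, abs_zero, add_zero]
  · intro u
    show |(∫ w, |(inner ℝ u (rd b I ε w) : ℝ)| ∂ρ) - h u| ≤ _
    rw [hG.eq u, ← integral_sub (hint u) (hi2 u), ← hG.eq u]
    have hle : ∀ᵐ w ∂ρ, ‖|(inner ℝ u (rd b I ε w) : ℝ)| - |(inner ℝ u w : ℝ)|‖ ≤
        ‖u‖ * n * ε * ‖w‖ := by
      filter_upwards [hs2] with w hw
      have hcl : ‖rd b I ε w - w‖ ≤ n * (ε * ‖w‖) := by
        refine rd_close b I ε hb hε w ?_
        rcases hw with hw | hw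
        · left
          intro k _
          rw [hw]
          simp
        · exact hx w hw
      rw [Real.norm_eq_abs]
      calc |(|(inner ℝ u (rd b I ε w) : ℝ)| - |(inner ℝ u w : ℝ)|)|
          ≤ |(inner ℝ u (rd b I ε w) : ℝ) - inner ℝ u w| := abs_abs_sub_abs_le _ _
        _ = |(inner ℝ u (rd b I ε w - w) : ℝ)| := by rw [inner_sub_right]
        _ ≤ ‖u‖ * ‖rd b I ε w - w‖ := abs_real_inner_le_norm _ _
        _ ≤ ‖u‖ * (n * (ε * ‖w‖)) := by gcongr
        _ = ‖u‖ * n * ε * ‖w‖ := by ring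
    have h1 : |∫ w, (|(inner ℝ u (rd b I ε w) : ℝ)| - |(inner ℝ u w : ℝ)|) ∂ρ| ≤
        ∫ w, ‖u‖ * n * ε * ‖w‖ ∂ρ := by
      rw [← Real.norm_eq_abs]
      exact norm_integral_le_of_norm_le (hi1.const_mul _) hle
    rw [integral_const_mul] at h1
    refine h1.trans ?_
    have h2 : ∫ w, ‖w‖ ∂ρ ≤ n * R := hi3 r R hN
    calc ‖u‖ * n * ε * ∫ w, ‖w‖ ∂ρ ≤ ‖u‖ * n * ε * (n * R) := by gcongr
      _ = n ^ 2 * ε * (R / r) * (r * ‖u‖) := by field_simp
      _ ≤ n ^ 2 * ε * (R / r) * h u := by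
          gcongr
          exact hN.lo u

end Pool.Agent.PBX
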