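import Pool.Agent.PBX.Targets2

/-!
# PBX-CSC: the class without factors
-/

set_option autoImplicit false

namespace Pool.Agent.PBX
open Pool.Agent.ProjBody

namespace CSC_

variable {n : ℕ}

theorem P_scaleN [NeZero n] {h : E n → ℝ} (hh : IsN h) {c : ℝ} (hc : 0 < c) :
    P (fun u => c * h u) = fun u => c ^ (n - 1) * P h u := by
  obtain ⟨a, b, ha, hab⟩ := hh
  funext u
  exact P_scale ha hab hc u

theorem Pit_scale [NeZero n] {g : E n → ℝ} (hg : IsN g) {s : ℝ} (hs : 0 < s) (m : ℕ) :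
    P^[m] (fun u => s * g u) = fun u => s ^ ((n - 1) ^ m) * (P^[m] g) u := by
  induction m with
  | zero => simp
  | succ m ih =>
    rw [Function.iterate_succ_apply', ih, P_scaleN (hg.Pit m) (pow_pos hs _),
      Function.iterate_succ_apply', ← pow_mul, ← pow_succ]

end CSC_

theorem p_CSC : T_CSC := by
  intro n h hn hcls m
  haveI : NeZero n := ⟨by omega⟩
  obtain ⟨_, hm⟩ := hcls
  obtain ⟨g, hg, c, hc, hh⟩ := hm m
  have hk : (n - 1) ^ m ≠ 0 := pow_ne_zero _ (by omega)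
  set s : ℝ := c ^ ((((n - 1) ^ m : ℕ) : ℝ)⁻¹) with hs
  have hs0 : 0 < s := Real.rpow_pos_of_pos hc _
  have hsk : s ^ ((n - 1) ^ m) = c := Real.rpow_inv_natCast_pow hc.le hk
  refine ⟨fun u => s * g u, ?_, fun u => ?_⟩
  · obtain ⟨a, b, ha, hab⟩ := hg
    exact ⟨s * a, s * b, mul_pos hs0 ha, hab.scale hs0⟩
  · rw [CSC_.Pit_scale hg hs0 m, hsk]
    exact hh u

end Pool.Agent.PBX
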