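import Pool.Agent.PBX.Targets2

/-! # PBX-DEC: decomposition goes back along `P` -/

set_option autoImplicit false

open MeasureTheory Module Set Filter Topology
open scoped Pointwise

namespace Pool.Agent.PBX
open Pool.Agent.ProjBody

namespace DEC_

variable {a b : ℕ}

theorem normL {g : E (a + b) → ℝ} {c d : ℝ} (hc : 0 < c) (hd : 0 < d) (h : Nm c d g) :
    IsN (fun p : E a => g (jn p 0)) := by
  refine ⟨c, d, hc, ⟨fun u v => ?_, fun r u => ?_, fun u => ?_, fun u => ?_⟩⟩
  · have e : (jn (u + v) (0 : E b) : E (a + b)) = jn u 0 + jn v 0 := by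
      rw [← jn_add, add_zero]
    show g (jn (u + v) 0) ≤ g (jn u 0) + g (jn v 0)
    rw [e]
    exact h.add _ _
  · have e : (jn (r • u) (0 : E b) : E (a + b)) = r • jn u 0 := by
      rw [← jn_smul, smul_zero]
    show g (jn (r • u) 0) = |r| * g (jn u 0)
    rw [e]
    exact h.smul _ _
  · have h1 := norm_prL_le (jn u (0 : E b))
    rw [prL_jn] at h1
    exact (mul_le_mul_of_nonneg_left h1 hc.le).trans (h.lo _)
  · have h1 := norm_le_pr (jn u (0 : E b))
    rw [prL_jn, prR_jn, norm_zero, add_zero] at h1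
    exact (h.hi _).trans (mul_le_mul_of_nonneg_left h1 hd.le)

theorem normR {g : E (a + b) → ℝ} {c d : ℝ} (hc : 0 < c) (hd : 0 < d) (h : Nm c d g) :
    IsN (fun q : E b => g (jn 0 q)) := by
  refine ⟨c, d, hc, ⟨fun u v => ?_, fun r u => ?_, fun u => ?_, fun u => ?_⟩⟩
  · have e : (jn (0 : E a) (u + v) : E (a + b)) = jn 0 u + jn 0 v := by
      rw [← jn_add, add_zero]
    show g (jn 0 (u + v)) ≤ g (jn 0 u) + g (jn 0 v)
    rw [e]
    exact h.add _ _
  · have e : (jn (0 : E a) (r • u) : E (a + b)) = r • jn 0 u := by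
      rw [← jn_smul, smul_zero]
    show g (jn 0 (r • u)) = |r| * g (jn 0 u)
    rw [e]
    exact h.smul _ _
  · have h1 := norm_prR_le (jn (0 : E a) u)
    rw [prR_jn] at h1
    exact (mul_le_mul_of_nonneg_left h1 hc.le).trans (h.lo _)
  · have h1 := norm_le_pr (jn (0 : E a) u)
    rw [prL_jn, prR_jn, norm_zero, zero_add] at h1
    exact (h.hi _).trans (mul_le_mul_of_nonneg_left h1 hd.le)

/-- push forward of a generating measure -/
theorem genMap {m : ℕ} {ρ : Measure (E (a + b))} {g : E (a + b) → ℝ} (h : Gen ρ g)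
    {pr : E (a + b) → E m} (hpr : Continuous pr) (hn : ∀ w, ‖pr w‖ ≤ ‖w‖)
    {j : E m → E (a + b)} (hj : ∀ p w, (inner ℝ (j p) w : ℝ) = inner ℝ p (pr w)) :
    Gen (ρ.map pr) (fun p => g (j p)) := by
  have := h.fin
  refine ⟨Measure.isFiniteMeasure_map ρ pr, ?_, fun u => ?_⟩
  · obtain ⟨R, hR⟩ := h.cpt
    refine ⟨R, ?_⟩
    rw [Measure.map_apply hpr.measurable measurableSet_closedBall.compl]
    refine measure_mono_null (fun w hw => ?_) hR
    intro hw'
    apply hw
    rw [Metric.mem_closedBall, dist_zero_right] at hw' ⊢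
    exact (hn w).trans hw'
  · show g (j u) = _
    rw [h.eq, integral_map hpr.measurable.aemeasurable
      (by
        apply Continuous.aestronglyMeasurable
        fun_prop)]
    simp_rw [hj]

end DEC_

open DEC_ in
theorem p_DEC (h_ABW : T_ABW) : T_DEC := by
  intro a b _ _ ρ g α β hgen hg hα hβ hP
  have h1 : Add2 (UL a b) (UR a b) (P g) := by
    have e : P g = dsum α β := funext hP
    rw [e]
    obtain ⟨_, _, _, hα'⟩ := hα
    obtain ⟨_, _, _, hβ'⟩ := hβ
    exact add2_dsum hα'.zero hβ'.zero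
  have h2 : Add2 (UR a b) (UL a b) g := by
    refine h_ABW (a + b) ρ g (UR a b) (UL a b) hgen hg (isCompl_ULR a b).symm ?_
    rw [UR_orth, UL_orth]
    exact h1
  obtain ⟨c, d, hc, hgN⟩ := hg
  have hd : 0 < d := hgN.b_nonneg hc
  refine ⟨fun p => g (jn p 0), fun q => g (jn 0 q), ρ.map prL, ρ.map prR, normL hc hd hgN,
    normR hc hd hgN, ?_, ?_, fun u => ?_⟩
  · refine genMap hgen continuous_prL norm_prL_le (j := fun p => jn p 0) fun p w => ?_
    rw [inner_jn, prL_jn, prR_jn, inner_zero_left, add_zero]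
  · refine genMap hgen continuous_prR norm_prR_le (j := fun q => jn 0 q) fun q w => ?_
    rw [inner_jn, prL_jn, prR_jn, inner_zero_left, zero_add]
  · have h3 := h2 (jn 0 (prR u)) (mem_UR.2 (prL_jn _ _)) (jn (prL u) 0) (mem_UL.2 (prR_jn _ _))
    rw [← jn_add, zero_add, add_zero, jn_pr] at h3
    rw [h3]
    show _ = g (jn (prL u) 0) + g (jn 0 (prR u))
    rw [add_comm]

end Pool.Agent.PBX
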