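import Pool.Agent.PBX.Targets

/-! # PBX: the alternative -/

set_option autoImplicit false

namespace Pool.Agent.PBX
open Pool.Agent.ProjBody Module MeasureTheory
open scoped Topology

namespace DIC_

theorem isN_scale {n : ℕ} {g : E n → ℝ} (hg : IsN g) {c : ℝ} (hc : 0 < c) :
    IsN (fun u => c * g u) := by
  obtain ⟨a, b, ha, hn⟩ := hg
  exact ⟨_, _, mul_pos hc ha, hn.scale hc⟩

theorem split_scale {n : ℕ} {g : E n → ℝ} (hg : Split g) (c : ℝ) : Split (fun u => c * g u) := by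
  obtain ⟨U, U', h1, h2, h3, h4⟩ := hg
  refine ⟨U, U', h1, h2, h3, fun u hu u' hu' => ?_⟩
  simp only [h4 u hu u' hu']
  ring

theorem near_scale {n : ℕ} {f h : E n → ℝ} {δ c : ℝ} (hc : 0 < c) (hf : ∀ u, h u = c * f u)
    (hN : Near1 f δ) : Near1 h δ := by
  obtain ⟨g, hg, hs, hb⟩ := hN
  refine ⟨fun u => c * g u, isN_scale hg hc, split_scale hs c, fun u => ⟨?_, ?_⟩⟩
  · have := mul_le_mul_of_nonneg_left (hb u).1 hc.le
    rw [hf u]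
    calc (1 - δ) * (c * f u) = c * ((1 - δ) * f u) := by ring
      _ ≤ c * g u := this
  · have := mul_le_mul_of_nonneg_left (hb u).2 hc.le
    rw [hf u]
    calc c * g u ≤ c * ((1 + δ) * f u) := this
      _ = (1 + δ) * (c * f u) := by ring

theorem gen_scale {n : ℕ} {f h : E n → ℝ} {c : ℝ} (hc : 0 < c) (hf : ∀ u, h u = c * f u)
    {ρ : Measure (E n)} (hG : Gen ρ f) : Gen (ENNReal.ofReal c • ρ) h := by
  have := hG.fin
  refine ⟨ρ.smul_finite ENNReal.ofReal_ne_top, ?_, fun u => ?_⟩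
  · obtain ⟨R, hR⟩ := hG.cpt
    exact ⟨R, by simp [hR]⟩
  · rw [hf u, hG.eq u, integral_smul_measure, ENNReal.toReal_ofReal hc.le]
    rfl

theorem supp_scale {n : ℕ} {c : ℝ} (hc : 0 < c) (ρ : Measure (E n)) :
    ρ.support ⊆ (ENNReal.ofReal c • ρ).support := by
  intro x hx
  rw [Measure.mem_support_iff_forall] at hx ⊢
  intro U hU
  have h1 := hx U hU
  rw [Measure.smul_apply, smul_eq_mul]
  exact ENNReal.mul_pos (ENNReal.ofReal_pos.2 hc).ne' h1.ne'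

theorem dn_scale {n : ℕ} {c : ℝ} (hc : 0 < c) (ρ : Measure (E n)) :
    Dn ρ ⊆ Dn (ENNReal.ofReal c • ρ) := by
  rintro x ⟨hx, t, ht, hm⟩
  exact ⟨hx, t, ht, supp_scale hc ρ hm⟩

theorem dense_scale {n : ℕ} {f h : E n → ℝ} {δ δ' c : ℝ} (hc : 0 < c) (hf : ∀ u, h u = c * f u)
    (hδ : δ' ≤ δ) (hN : Dense f δ') : Dense h δ := by
  obtain ⟨ρ, hG, hd⟩ := hN
  refine ⟨ENNReal.ofReal c • ρ, gen_scale hc hf hG, fun z hz => ?_⟩
  obtain ⟨x, hx, hxz⟩ := hd z hz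
  exact ⟨x, dn_scale hc ρ hx, hxz.trans hδ⟩

/-- normalised vectors: the coordinates are connected -/
theorem conn {n : ℕ} {ε : ℝ} {D : Set (E n)} (b : Basis (Fin n) ℝ (E n))
    (h0 : (0 : E n) ∉ D) (hsm : ∀ x ∈ D, ∀ c : ℝ, c ≠ 0 → c • x ∈ D)
    (hbx : ∀ x ∈ D, ∀ k, |b.repr x k| ≤ 2 * ‖x‖)
    (hno : ∀ I : Set (Fin n), I.Nonempty → Iᶜ.Nonempty →
      ¬ ∀ x ∈ D, (∀ k ∈ I, |b.repr x k| ≤ ε * ‖x‖) ∨ (∀ k ∈ Iᶜ, |b.repr x k| ≤ ε * ‖x‖)) :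
    Conn b ε D := by
  intro I hI hIc
  have h1 := hno I hI hIc
  push Not at h1
  obtain ⟨x, hx, ⟨k, hk, hk1⟩, l, hl, hl1⟩ := h1
  have hx0 : x ≠ 0 := fun h => h0 (h ▸ hx)
  have hxn : 0 < ‖x‖ := norm_pos_iff.2 hx0
  have hrep : ∀ j, |b.repr (‖x‖⁻¹ • x) j| = ‖x‖⁻¹ * |b.repr x j| := by
    intro j
    rw [map_smul, Finsupp.smul_apply, smul_eq_mul, abs_mul, abs_of_pos (inv_pos.2 hxn)]
  have hge : ∀ j, ε * ‖x‖ < |b.repr x j| → ε ≤ |b.repr (‖x‖⁻¹ • x) j| := by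
    intro j hj
    rw [hrep]
    calc ε = ‖x‖⁻¹ * (ε * ‖x‖) := by field_simp
      _ ≤ ‖x‖⁻¹ * |b.repr x j| := mul_le_mul_of_nonneg_left hj.le (inv_pos.2 hxn).le
  refine ⟨‖x‖⁻¹ • x, hsm x hx _ (inv_ne_zero hxn.ne'), fun j => ?_, ⟨k, hk, hge k hk1⟩,
    ⟨l, hl, hge l hl1⟩⟩
  rw [hrep]
  calc ‖x‖⁻¹ * |b.repr x j| ≤ ‖x‖⁻¹ * (2 * ‖x‖) :=
        mul_le_mul_of_nonneg_left (hbx x hx j) (inv_pos.2 hxn).le
    _ = 2 := by field_simp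

end DIC_

open DIC_

theorem p_DIC (h_NUM : T_NUM) (h_BBB : T_BBB) (h_RNI : T_RNI) (h_BSE : T_BSE) (h_BDU : T_BDU)
    (h_CS1 : T_CS1) (h_LV1 : T_LV1) (h_LV2 : T_LV2) (h_SUP : T_SUP) (h_SPN : T_SPN) : T_DIC := by
  intro n _ h hn hC δ hδ hδ1
  have hnR : (3 : ℝ) ≤ n := by exact_mod_cast hn
  obtain ⟨r₀, R₀, hr₀, hNm⟩ := hC.1
  have hR₀ : 0 < R₀ := hNm.b_nonneg hr₀
  have hrR : r₀ ≤ R₀ := by
    let e : E n := EuclideanSpace.single 0 1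
    have he : ‖e‖ = 1 := by simp [e]
    have h1 := (hNm.lo e).trans (hNm.hi e)
    rw [he] at h1
    linarith
  have hκ : 1 ≤ R₀ / r₀ := by rwa [le_div_iff₀ hr₀, one_mul]
  obtain ⟨q, ε, hε, hε1, hN1, hN2⟩ := h_NUM n (R₀ / r₀) δ (by omega) hκ hδ
  generalize hi : n + 8 + 4 * q = i at hN1 hN2
  obtain ⟨g₀, hg₀, c, hc, hcg⟩ := hC.2 (2 * i + 1)
  have hg : IsN (P g₀) := hg₀.P
  have hcg' : ∀ u, h u = c * (P^[2 * i] (P g₀)) u := by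
    intro u
    rw [hcg u, Function.iterate_succ_apply]
  obtain ⟨ρ, hG⟩ := h_BBB n g₀ hg₀
  generalize P g₀ = g at hg hcg' hG
  have hNP : Nm (c⁻¹ * r₀) (c⁻¹ * R₀) (P^[2 * i] g) := by
    have h1 := hNm.scale (inv_pos.2 hc)
    have h2 : (fun u => c⁻¹ * h u) = P^[2 * i] g := by
      funext u
      rw [hcg' u, ← mul_assoc, inv_mul_cancel₀ hc.ne', one_mul]
    rwa [h2] at h1
  obtain ⟨r, R, hr, hNg, hRr⟩ := h_RNI n g (2 * i) _ _ hg (mul_pos (inv_pos.2 hc) hr₀) hNP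
  rw [mul_div_mul_left _ _ (inv_ne_zero hc.ne')] at hRr
  have hR : 0 < R := hNg.b_nonneg hr
  have hQ : R / r ≤ R₀ / r₀ * ((n : ℝ) ^ n) ^ (2 * i) := by
    rw [div_le_iff₀ hr]
    linarith
  have := hG.fin
  have hsm := (h_SUP n ρ).2.2
  have h0 : (0 : E n) ∉ Dn ρ := fun h => h.1 rfl
  obtain ⟨b, hb, hbx⟩ := h_BSE n (Dn ρ) (h_SPN n ρ g hG hg) h0 hsm
  have hco := h_BDU n ρ g r R b hG hr hNg hbx
  by_cases hI : ∃ I : Set (Fin n), I.Nonempty ∧ Iᶜ.Nonempty ∧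
      ∀ x ∈ Dn ρ, (∀ k ∈ I, |b.repr x k| ≤ ε * ‖x‖) ∨ (∀ k ∈ Iᶜ, |b.repr x k| ≤ ε * ‖x‖)
  · left
    obtain ⟨I, hI1, hI2, hI3⟩ := hI
    obtain ⟨ρ', g', U, U', hG', hU1, hU2, hU3, hU4, hclose⟩ :=
      h_CS1 n ρ g r R ε b I hG hr hNg (fun k => (hb k).2) hI1 hI2 hε hI3
    refine near_scale hc hcg' (h_LV1 n ρ' g' g U U' (n ^ 2 * ε * (R / r)) δ i (by omega) hg hG'
      hU1 hU2 hU3 hU4 hclose (by positivity) ?_ hδ1)
    have h1 : (0 : ℝ) ≤ ((n : ℝ) - 1) ^ (2 * i) := by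
      apply pow_nonneg
      linarith
    have h2 : (n : ℝ) ^ 2 * ε * (R / r) ≤ n ^ 2 * ε * (R₀ / r₀ * ((n : ℝ) ^ n) ^ (2 * i)) :=
      mul_le_mul_of_nonneg_left hQ (by positivity)
    exact (mul_le_mul_of_nonneg_right h2 h1).trans hN1
  · right
    have hConn : Conn b ε (Dn ρ) := by
      refine conn b h0 hsm hbx (fun I h1 h2 h3 => hI ⟨I, h1, h2, h3⟩)
    refine dense_scale hc hcg' hN2 (h_LV2 n ρ g b ε _ q i hn hG hg hb (fun x k => ?_) ?_ hε hε1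
      hConn hi.le)
    · refine (hco x k).trans (mul_le_mul_of_nonneg_right ?_ (norm_nonneg x))
      exact mul_le_mul_of_nonneg_left hQ (by positivity)
    · have : (0 : ℝ) < n := by linarith
      positivity

end Pool.Agent.PBX
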