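import Pool.Agent.PBX.Targets

/-! # PBX, target DIS: the zonoid formula for simple functions -/

set_option autoImplicit false

open MeasureTheory Module Set Filter Topology
open scoped Pointwise

namespace Pool.Agent.PBX
open Pool.Agent.ProjBody

namespace DIS_

theorem det_scale {m : ℕ} (u : E (m + 1)) (c : Fin m → ℝ) (w : Fin m → E (m + 1)) :
    (mt (Fin.cons u (fun i => c i • w i) : Fin (m + 1) → E (m + 1))).det =
      (∏ i, c i) * (mt (Fin.cons u w : Fin (m + 1) → E (m + 1))).det := by
  have h : mt (Fin.cons u (fun i => c i • w i) : Fin (m + 1) → E (m + 1)) =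
      Matrix.diagonal (Fin.cons 1 c : Fin (m + 1) → ℝ) *
        mt (Fin.cons u w : Fin (m + 1) → E (m + 1)) := by
    ext i j
    rw [Matrix.diagonal_mul]
    refine Fin.cases ?_ (fun k => ?_) i
    · simp [mt]
    · simp [mt]
  rw [h, Matrix.det_mul, Matrix.det_diagonal, Fin.prod_univ_succ]
  simp

theorem int_left {n : ℕ} (ρ : Measure (E n)) [IsFiniteMeasure ρ] (s : SimpleFunc (E n) (E n))
    (v : E n) : ∫ w, |(inner ℝ v (s w) : ℝ)| ∂ρ =
      ∑ y : {y // y ∈ s.range}, |(inner ℝ v (ρ.real (s ⁻¹' {(y : E n)}) • (y : E n)) : ℝ)| := by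
  have hi : Integrable s ρ := s.integrable_of_isFiniteMeasure
  have h1 := SimpleFunc.map_integral (μ := ρ) s (fun y => |(inner ℝ v y : ℝ)|) hi (by simp)
  have h2 : (s.map (fun y => |(inner ℝ v y : ℝ)|)).integral ρ =
      ∫ w, |(inner ℝ v (s w) : ℝ)| ∂ρ := by
    rw [SimpleFunc.integral_eq_integral _ (SimpleFunc.integrable_of_isFiniteMeasure _)]
    rfl
  rw [← h2, h1, ← Finset.sum_coe_sort]
  refine Finset.sum_congr rfl (fun y _ => ?_)
  rw [real_inner_smul_right, abs_mul, abs_of_nonneg measureReal_nonneg, smul_eq_mul]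

theorem int_right {n m : ℕ} (ρ : Measure (E n)) [IsFiniteMeasure ρ] (s : SimpleFunc (E n) (E n))
    (g : (Fin m → E n) → ℝ) :
    ∫ w : Fin m → E n, g (fun i => s (w i)) ∂(Measure.pi fun _ => ρ) =
      ∑ f : Fin m → {y // y ∈ s.range}, (∏ i, ρ.real (s ⁻¹' {(f i : E n)})) *
        g (fun i => (f i : E n)) := by
  classical
  have hmeas : ∀ f : Fin m → {y // y ∈ s.range},
      MeasurableSet (Set.pi univ (fun i => s ⁻¹' {(f i : E n)})) := fun f =>
    MeasurableSet.pi (to_countable _) (fun i _ => s.measurableSet_fiber _)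
  have hpt : ∀ w : Fin m → E n, g (fun i => s (w i)) =
      ∑ f : Fin m → {y // y ∈ s.range},
        (Set.pi univ (fun i => s ⁻¹' {(f i : E n)})).indicator
          (fun _ => g (fun i => (f i : E n))) w := by
    intro w
    rw [Finset.sum_eq_single (fun i => (⟨s (w i), SimpleFunc.mem_range_self s (w i)⟩ :
      {y // y ∈ s.range}))]
    · rw [indicator_of_mem]
      intro i _
      simp
    · intro f _ hf
      rw [indicator_of_notMem]
      intro hw
      apply hf
      funext i
      apply Subtype.ext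
      have := hw i (mem_univ i)
      simp only [mem_preimage, mem_singleton_iff] at this
      exact this.symm
    · intro h
      exact absurd (Finset.mem_univ _) h
  rw [integral_congr_ae (Filter.Eventually.of_forall hpt), integral_finsetSum]
  · refine Finset.sum_congr rfl (fun f _ => ?_)
    rw [integral_indicator_const _ (hmeas f), smul_eq_mul]
    congr 1
    rw [Measure.real, Measure.pi_pi, ENNReal.toReal_prod]
    rfl
  · intro f _
    exact (integrable_const _).indicator (hmeas f)

end DIS_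

/-- Target DIS. -/
theorem p_DIS (h_ZBD : T_ZBD) (h_ZSW : T_ZSW) : T_DIS := by
  intro m ρ _ s u
  have hfun : (fun v => ∫ w, |(inner ℝ v (s w) : ℝ)| ∂ρ) =
      fun v => ∑ y : {y // y ∈ s.range},
        |(inner ℝ v (ρ.real (s ⁻¹' {(y : E (m + 1))}) • (y : E (m + 1))) : ℝ)| :=
    funext (fun v => DIS_.int_left ρ s v)
  rw [hfun]
  unfold P
  rw [(h_ZBD (m + 1) {y // y ∈ s.range}
      (fun y => ρ.real (s ⁻¹' {(y : E (m + 1))}) • (y : E (m + 1)))).2.2,
    h_ZSW m {y // y ∈ s.range}
      (fun y => ρ.real (s ⁻¹' {(y : E (m + 1))}) • (y : E (m + 1))) u,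
    DIS_.int_right ρ s
      (fun w => |(mt (Fin.cons u w : Fin (m + 1) → E (m + 1))).det|)]
  congr 1
  refine Finset.sum_congr rfl (fun f _ => ?_)
  rw [DIS_.det_scale, abs_mul, abs_of_nonneg (Finset.prod_nonneg fun i _ => measureReal_nonneg)]

end Pool.Agent.PBX
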