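import Pool.Agent.PBX.Targets2

/-! # PBX: the body of a direct sum -/

set_option autoImplicit false

namespace Pool.Agent.PBX
open Pool.Agent.ProjBody

theorem p_DSB : T_DSB := by
  intro a b α β hα hβ
  obtain ⟨a₁, b₁, -, hα⟩ := hα
  obtain ⟨a₂, b₂, -, hβ⟩ := hβ
  have hα0 : α 0 = 0 := hα.zero
  have hβ0 : β 0 = 0 := hβ.zero
  ext x
  constructor
  · intro hx
    refine ⟨fun p => ?_, fun q => ?_⟩
    · have h1 := hx (jn p 0)
      rw [inner_jn] at h1
      simpa [dsum, hβ0] using h1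
    · have h1 := hx (jn 0 q)
      rw [inner_jn] at h1
      simpa [dsum, hα0] using h1
  · rintro ⟨h1, h2⟩ u
    rw [inner_jn]
    exact add_le_add (h1 (prL u)) (h2 (prR u))

end Pool.Agent.PBX
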