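import Pool.Agent.PBX.Targets2

/-! # PBX, target `T_DSG`: generating measure of a direct sum -/

set_option autoImplicit false

open MeasureTheory Module Set Filter Topology
open scoped Pointwise

namespace Pool.Agent.PBX
open Pool.Agent.ProjBody

namespace DSG_

theorem integrable_inner {n : ℕ} (ρ : Measure (E n)) [IsFiniteMeasure ρ] (R : ℝ)
    (hR : ρ (Metric.closedBall 0 R)ᶜ = 0) (u : E n) :
    Integrable (fun w => |(inner ℝ u w : ℝ)|) ρ := by
  refine Integrable.of_bound (C := ‖u‖ * R) ?_ ?_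
  · exact (Continuous.abs (by fun_prop)).aestronglyMeasurable
  · have : ∀ᵐ w ∂ρ, w ∈ Metric.closedBall (0 : E n) R := by
      rw [ae_iff]
      exact hR
    filter_upwards [this] with w hw
    rw [mem_closedBall_zero_iff] at hw
    rw [Real.norm_eq_abs, abs_abs]
    exact (abs_real_inner_le_norm u w).trans (mul_le_mul_of_nonneg_left hw (norm_nonneg _))

theorem cL (a b : ℕ) : Continuous (fun p : E a => (jn p 0 : E (a + b))) :=
  continuous_jn.comp (continuous_id.prodMk continuous_const)

theorem cR (a b : ℕ) : Continuous (fun q : E b => (jn 0 q : E (a + b))) :=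
  continuous_jn.comp (continuous_const.prodMk continuous_id)

theorem nL {a b : ℕ} (p : E a) : ‖(jn p 0 : E (a + b))‖ = ‖p‖ := by
  have h := norm_sq_jn (jn p 0 : E (a + b))
  rw [prL_jn, prR_jn, norm_zero] at h
  have h' : ‖(jn p 0 : E (a + b))‖ ^ 2 = ‖p‖ ^ 2 := by rw [h]; ring
  exact (sq_eq_sq₀ (norm_nonneg _) (norm_nonneg _)).1 h'

theorem nR {a b : ℕ} (q : E b) : ‖(jn 0 q : E (a + b))‖ = ‖q‖ := by
  have h := norm_sq_jn (jn 0 q : E (a + b))
  rw [prL_jn, prR_jn, norm_zero] at h
  have h' : ‖(jn 0 q : E (a + b))‖ ^ 2 = ‖q‖ ^ 2 := by rw [h]; ring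
  exact (sq_eq_sq₀ (norm_nonneg _) (norm_nonneg _)).1 h'

theorem iL {a b : ℕ} (u : E (a + b)) (p : E a) :
    (inner ℝ u (jn p 0 : E (a + b)) : ℝ) = inner ℝ (prL u : E a) p := by
  rw [inner_jn, prL_jn, prR_jn, inner_zero_right, add_zero]

theorem iR {a b : ℕ} (u : E (a + b)) (q : E b) :
    (inner ℝ u (jn 0 q : E (a + b)) : ℝ) = inner ℝ (prR u : E b) q := by
  rw [inner_jn, prL_jn, prR_jn, inner_zero_right, zero_add]

end DSG_

open DSG_ in
theorem p_DSG : T_DSG := by
  intro a b α β ρ₁ ρ₂ h1 h2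
  have := h1.fin
  have := h2.fin
  obtain ⟨R₁, hR₁⟩ := h1.cpt
  obtain ⟨R₂, hR₂⟩ := h2.cpt
  have mL : Measurable (fun p : E a => (jn p 0 : E (a + b))) := (cL a b).measurable
  have mR : Measurable (fun q : E b => (jn 0 q : E (a + b))) := (cR a b).measurable
  refine ⟨ρ₁.map (fun p => jn p 0) + ρ₂.map (fun q => jn 0 q), ?_, ?_, ?_⟩
  · infer_instance
  · refine ⟨max R₁ R₂, ?_⟩
    rw [Measure.add_apply, Measure.map_apply mL Metric.isClosed_closedBall.measurableSet.compl,
      Measure.map_apply mR Metric.isClosed_closedBall.measurableSet.compl, add_eq_zero]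
    constructor
    · refine measure_mono_null ?_ hR₁
      intro p hp
      simp only [mem_preimage, mem_compl_iff, mem_closedBall_zero_iff, not_le, nL] at hp ⊢
      exact (le_max_left _ _).trans_lt hp
    · refine measure_mono_null ?_ hR₂
      intro p hp
      simp only [mem_preimage, mem_compl_iff, mem_closedBall_zero_iff, not_le, nR] at hp ⊢
      exact (le_max_right _ _).trans_lt hp
  · intro u
    have hc : Continuous (fun w : E (a + b) => |(inner ℝ u w : ℝ)|) :=
      Continuous.abs (by fun_prop)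
    have i1 := integrable_inner ρ₁ R₁ hR₁ (prL u)
    have i2 := integrable_inner ρ₂ R₂ hR₂ (prR u)
    have e1 : (fun p : E a => |(inner ℝ u (jn p 0 : E (a + b)) : ℝ)|) =
        fun p => |(inner ℝ (prL u : E a) p : ℝ)| := by
      funext p; rw [iL]
    have e2 : (fun q : E b => |(inner ℝ u (jn 0 q : E (a + b)) : ℝ)|) =
        fun q => |(inner ℝ (prR u : E b) q : ℝ)| := by
      funext q; rw [iR]
    rw [integral_add_measure, integral_map mL.aemeasurable hc.aestronglyMeasurable,
      integral_map mR.aemeasurable hc.aestronglyMeasurable, e1, e2]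
    · unfold dsum
      rw [h1.eq, h2.eq]
    · rw [integrable_map_measure hc.aestronglyMeasurable mL.aemeasurable]
      change Integrable (fun p : E a => |(inner ℝ u (jn p 0 : E (a + b)) : ℝ)|) ρ₁
      rw [e1]
      exact i1
    · rw [integrable_map_measure hc.aestronglyMeasurable mR.aemeasurable]
      change Integrable (fun q : E b => |(inner ℝ u (jn 0 q : E (a + b)) : ℝ)|) ρ₂
      rw [e2]
      exact i2

end Pool.Agent.PBX
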