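import Pool.Agent.PBX.Targets2

/-!
# PBX: the projection body of a direct sum on the summands
-/

open MeasureTheory Module Set Filter Topology
open scoped Pointwise

namespace Pool.Agent.PBX
open Pool.Agent.ProjBody

namespace DSL_

variable {a b : ℕ}

theorem mem_seg {n : ℕ} {u z : E n} (h : z ∈ segment ℝ 0 u) :
    ∃ s t : ℝ, 0 ≤ s ∧ 0 ≤ t ∧ s + t = 1 ∧ z = t • u := by
  obtain ⟨s, t, hs, ht, hst, rfl⟩ := h
  exact ⟨s, t, hs, ht, hst, by rw [smul_zero, zero_add]⟩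

theorem seg_mem {n : ℕ} {u : E n} {s t : ℝ} (hs : 0 ≤ s) (ht : 0 ≤ t) (hst : s + t = 1) :
    t • u ∈ segment ℝ 0 u := ⟨s, t, hs, ht, hst, by rw [smul_zero, zero_add]⟩

/-- sweeping in a left direction -/
theorem add_left (A : Set (E a)) (B : Set (E b)) (p : E a) :
    {x : E (a + b) | prL x ∈ A ∧ prR x ∈ B} + segment ℝ 0 (jn p 0) =
      {x | prL x ∈ A + segment ℝ 0 p ∧ prR x ∈ B} := by
  ext x
  constructor
  · rintro ⟨y, ⟨hy1, hy2⟩, z, hz, rfl⟩
    obtain ⟨s, t, hs, ht, hst, rfl⟩ := mem_seg hz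
    refine ⟨?_, ?_⟩
    · change prL (y + t • jn p 0) ∈ _
      rw [prL_add, prL_smul, prL_jn]
      exact Set.add_mem_add hy1 (seg_mem hs ht hst)
    · change prR (y + t • jn p 0) ∈ _
      rw [prR_add, prR_smul, prR_jn, smul_zero, add_zero]
      exact hy2
  · rintro ⟨⟨y, hy, z, hz, hyz⟩, hx⟩
    obtain ⟨s, t, hs, ht, hst, rfl⟩ := mem_seg hz
    refine ⟨jn y (prR x), ⟨?_, ?_⟩, t • jn p 0, seg_mem hs ht hst, ?_⟩
    · rw [prL_jn]
      exact hy
    · rw [prR_jn]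
      exact hx
    · change jn y (prR x) + t • jn p 0 = x
      rw [← jn_smul, smul_zero, ← jn_add, add_zero]
      conv_rhs => rw [← jn_pr x]
      rw [← hyz]

/-- sweeping in a right direction -/
theorem add_right (A : Set (E a)) (B : Set (E b)) (q : E b) :
    {x : E (a + b) | prL x ∈ A ∧ prR x ∈ B} + segment ℝ 0 (jn 0 q) =
      {x | prL x ∈ A ∧ prR x ∈ B + segment ℝ 0 q} := by
  ext x
  constructor
  · rintro ⟨y, ⟨hy1, hy2⟩, z, hz, rfl⟩
    obtain ⟨s, t, hs, ht, hst, rfl⟩ := mem_seg hz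
    refine ⟨?_, ?_⟩
    · change prL (y + t • jn 0 q) ∈ _
      rw [prL_add, prL_smul, prL_jn, smul_zero, add_zero]
      exact hy1
    · change prR (y + t • jn 0 q) ∈ _
      rw [prR_add, prR_smul, prR_jn]
      exact Set.add_mem_add hy2 (seg_mem hs ht hst)
  · rintro ⟨hx, ⟨y, hy, z, hz, hyz⟩⟩
    obtain ⟨s, t, hs, ht, hst, rfl⟩ := mem_seg hz
    refine ⟨jn (prL x) y, ⟨?_, ?_⟩, t • jn 0 q, seg_mem hs ht hst, ?_⟩
    · rw [prL_jn]
      exact hx
    · rw [prR_jn]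
      exact hy
    · change jn (prL x) y + t • jn 0 q = x
      rw [← jn_smul, smul_zero, ← jn_add, add_zero]
      conv_rhs => rw [← jn_pr x]
      rw [← hyz]

theorem meas_add {n : ℕ} (h : E n → ℝ) (u : E n) :
    MeasurableSet (Bd h + segment ℝ 0 u) :=
  ((Bd_closed h).add_right_of_isCompact (isCompact_seg u)).measurableSet

end DSL_

theorem p_DSL (_h_DSN : T_DSN) (h_DSB : T_DSB) (h_DSV : T_DSV) : T_DSL := by
  intro a b α β hα hβ
  have hB := h_DSB a b α β hα hβ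
  have mα := (Bd_closed α).measurableSet
  have mβ := (Bd_closed β).measurableSet
  have h0 := h_DSV a b _ _ mα mβ
  constructor
  · intro p
    have h1 := h_DSV a b _ _ (DSL_.meas_add α p) mβ
    unfold P sw
    rw [hB, DSL_.add_left, h0, h1, ENNReal.toReal_mul, ENNReal.toReal_mul]
    ring
  · intro q
    have h1 := h_DSV a b _ _ mα (DSL_.meas_add β q)
    unfold P sw
    rw [hB, DSL_.add_right, h0, h1, ENNReal.toReal_mul, ENNReal.toReal_mul]
    ring

end Pool.Agent.PBX
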