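import Pool.Agent.PBX.Targets2

/-! # PBX: direct sum of norms is a norm -/

namespace Pool.Agent.PBX
open Pool.Agent.ProjBody

theorem p_DSN : T_DSN := by
  intro a b α β hα hβ
  obtain ⟨a1, b1, ha1, h1⟩ := hα
  obtain ⟨a2, b2, ha2, h2⟩ := hβ
  refine ⟨min a1 a2, |b1| + |b2|, lt_min ha1 ha2, ⟨fun u v => ?_, fun c u => ?_, fun u => ?_,
    fun u => ?_⟩⟩
  · unfold dsum
    rw [prL_add, prR_add]
    have e1 := h1.add (prL u) (prL v)
    have e2 := h2.add (prR u) (prR v)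
    linarith
  · unfold dsum
    rw [prL_smul, prR_smul, h1.smul, h2.smul]
    ring
  · unfold dsum
    have e0 := norm_le_pr u
    have e1 := h1.lo (prL u)
    have e2 := h2.lo (prR u)
    have hm : 0 ≤ min a1 a2 := (lt_min ha1 ha2).le
    have e3 : min a1 a2 * ‖u‖ ≤ min a1 a2 * (‖(prL u : E a)‖ + ‖(prR u : E b)‖) :=
      mul_le_mul_of_nonneg_left e0 hm
    have e4 : min a1 a2 * ‖(prL u : E a)‖ ≤ a1 * ‖(prL u : E a)‖ :=
      mul_le_mul_of_nonneg_right (min_le_left _ _) (norm_nonneg _)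
    have e5 : min a1 a2 * ‖(prR u : E b)‖ ≤ a2 * ‖(prR u : E b)‖ :=
      mul_le_mul_of_nonneg_right (min_le_right _ _) (norm_nonneg _)
    linarith
  · unfold dsum
    have e1 := h1.hi (prL u)
    have e2 := h2.hi (prR u)
    have e3 : b1 * ‖(prL u : E a)‖ ≤ |b1| * ‖u‖ :=
      (mul_le_mul_of_nonneg_right (le_abs_self b1) (norm_nonneg _)).trans
        (mul_le_mul_of_nonneg_left (norm_prL_le u) (abs_nonneg _))
    have e4 : b2 * ‖(prR u : E b)‖ ≤ |b2| * ‖u‖ :=
      (mul_le_mul_of_nonneg_right (le_abs_self b2) (norm_nonneg _)).trans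
        (mul_le_mul_of_nonneg_left (norm_prR_le u) (abs_nonneg _))
    linarith

end Pool.Agent.PBX
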