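import Pool.Agent.PBX.Targets2

/-!
# PBX: the projection body operator on a direct sum
-/

set_option autoImplicit false

open MeasureTheory Module Set Filter
open scoped Pointwise

namespace Pool.Agent.PBX
open Pool.Agent.ProjBody

theorem DSP_.zero {n : ℕ} {h : E n → ℝ} (hN : IsN h) : h 0 = 0 := by
  obtain ⟨a, b, _, hh⟩ := hN
  exact hh.zero

theorem p_DSP (h_AFW : T_AFW) (h_DSG : T_DSG) (h_DSN : T_DSN) (h_DSL : T_DSL) : T_DSP := by
  intro a b _ _ α β ρ₁ ρ₂ h1 h2 hα hβ u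
  obtain ⟨ρ, hρ⟩ := h_DSG a b α β ρ₁ ρ₂ h1 h2
  have hadd := h_AFW (a + b) ρ (dsum α β) (UL a b) (UR a b) hρ (h_DSN a b α β hα hβ)
    (isCompl_ULR a b) (add2_dsum (DSP_.zero hα) (DSP_.zero hβ))
  rw [UL_orth, UR_orth] at hadd
  have h3 := hadd (jn 0 (prR u)) (mem_UR.2 (by simp)) (jn (prL u) 0) (mem_UL.2 (by simp))
  have h4 : (jn 0 (prR u) : E (a + b)) + jn (prL u) 0 = u := by
    rw [← jn_add, add_zero, zero_add, jn_pr]
  rw [h4, (h_DSL a b α β hα hβ).1, (h_DSL a b α β hα hβ).2] at h3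
  rw [h3, dsum, add_comm]

end Pool.Agent.PBX
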