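import Pool.Agent.PBX.Targets2

/-! # PBX: T_DSV, the volume of a product in `E (a + b)` (helper9) -/

set_option autoImplicit false

open MeasureTheory Module Set Filter Topology
open scoped Pointwise

namespace Pool.Agent.PBX
open Pool.Agent.ProjBody

namespace DSV_

/-- the linear isometry `E (a + b) ≃ E a × E b` -/
noncomputable def iso (a b : ℕ) : E (a + b) ≃ₗᵢ[ℝ] WithLp 2 (E a × E b) where
  toLinearEquiv := (jnL a b).symm.trans (WithLp.linearEquiv 2 ℝ (E a × E b)).symm
  norm_map' := by
    intro u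
    have h1 : ((jnL a b).symm.trans (WithLp.linearEquiv 2 ℝ (E a × E b)).symm) u =
        WithLp.toLp 2 ((prL u : E a), (prR u : E b)) := rfl
    rw [h1, WithLp.prod_norm_eq_of_L2]
    have h2 := norm_sq_jn u
    rw [Real.sqrt_eq_iff_mul_self_eq (by positivity) (norm_nonneg u)]
    show ‖(prL u : E a)‖ ^ 2 + ‖(prR u : E b)‖ ^ 2 = _
    rw [← h2]
    ring

end DSV_

open DSV_ in
theorem p_DSV : T_DSV := by
  intro a b A B hA hB
  have h1 : MeasurePreserving (fun u : E (a + b) => ((prL u : E a), (prR u : E b))) :=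
    (WithLp.volume_preserving_ofLp (E a) (E b)).comp (iso a b).measurePreserving
  have h2 := h1.measure_preimage (hA.prod hB).nullMeasurableSet
  have h3 : (fun u : E (a + b) => ((prL u : E a), (prR u : E b))) ⁻¹' (A ×ˢ B) =
      {x : E (a + b) | prL x ∈ A ∧ prR x ∈ B} := rfl
  rw [h3] at h2
  rw [h2, Measure.volume_eq_prod, Measure.prod_prod]

end Pool.Agent.PBX
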