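import Pool.Agent.PBX.Targets

/-!
# PBX: DWN, going down the orbit (helper13)
-/

open MeasureTheory Module Set
open scoped Pointwise

namespace Pool.Agent.PBX
open Pool.Agent.ProjBody

theorem p_DWN (h_ZZ : T_ZZ) (h_SJ : T_SJ) (h_MJ : T_MJ) (h_MMB : T_MMB) (h_SPN : T_SPN) : T_DWN := by
  intro n hn ρ h hG hN i
  obtain ⟨m, rfl⟩ : ∃ m, n = m + 1 := Nat.exists_eq_succ_of_ne_zero hn.out
  induction i with
  | zero => exact ⟨ρ, by simpa using hG, by simp⟩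
  | succ i ih =>
    obtain ⟨ρ', hG', hsub⟩ := ih
    have hN' : IsN (P^[2 * i] h) := hN.Pit _
    have hG1 : Gen (nxt ρ') (P (P^[2 * i] h)) := h_ZZ m ρ' _ hG' hN'
    have hG2 : Gen (nxt (nxt ρ')) (P (P (P^[2 * i] h))) := h_ZZ m _ _ hG1 hN'.P
    have e : P^[2 * (i + 1)] h = P (P (P^[2 * i] h)) := by
      rw [show 2 * (i + 1) = 2 * i + 1 + 1 from rfl, Function.iterate_succ_apply',
        Function.iterate_succ_apply']
    refine ⟨nxt (nxt ρ'), by rw [e]; exact hG2, ?_⟩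
    rw [Function.iterate_succ_apply']
    have h1 : MM (MM^[i] (Dn ρ)) ⊆ MM (Dn ρ') := ((h_MMB _ _ _).1 hsub).2
    have h2 : MM (Dn ρ') ⊆ J (J (Dn ρ')) := h_MJ _ _ (h_SPN _ _ _ hG' hN')
    have f1 : IsFiniteMeasure ρ' := hG'.fin
    have f2 : IsFiniteMeasure (nxt ρ') := hG1.fin
    have h3 : J (J (Dn ρ')) ⊆ J (Dn (nxt ρ')) := ((h_MMB _ _ _).1 (h_SJ m ρ')).1
    exact h1.trans (h2.trans (h3.trans (h_SJ m (nxt ρ'))))

end Pool.Agent.PBX
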