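import Pool.Agent.PBX.Targets

/-!
# PBX: dyadic numbers, `T_GDY`
-/

open MeasureTheory Module Set
open scoped Pointwise

namespace Pool.Agent.PBX
open Pool.Agent.ProjBody

namespace GDY_

variable {n : ℕ}

theorem mono {B : Basis (Fin n) ℝ (E n)} {X Y : Set (E n)} (h : X ⊆ Y) : GG B X ⊆ GG B Y :=
  fun _ ha k l hkl => h (ha k l hkl)

end GDY_

theorem p_GDY (h_GRG : T_GRG) (h_VEX : T_VEX) (h_MMI : T_MMI) : T_GDY := by
  intro n B D hn hD hB hf
  have up : ∀ s t : ℕ, s ≤ t → GG B (MM^[s] D) ⊆ GG B (MM^[t] D) := fun s t hst =>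
    GDY_.mono (h_MMI n D hD s t hst)
  have h0 : ∀ s, (0 : ℝ) ∈ GG B (MM^[s] D) := by
    intro s
    apply up 0 s (Nat.zero_le s)
    intro k l _
    rw [zero_smul, add_zero]
    exact hB l
  have h1' : (1 : ℝ) ∈ GG B (MM^[1] D) := by
    intro k l hkl
    have hr : ∀ j, B.repr (∑ j, B j) j = 1 := by
      intro j
      rw [map_sum, Finsupp.finsetSum_apply, Finset.sum_eq_single j]
      · simp
      · intro i _ hij
        simp [hij]
      · intro h; exact absurd (Finset.mem_univ j) h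
    have := h_VEX n B D (∑ j, B j) l k hB hf (Ne.symm hkl) (by rw [hr]; exact one_ne_zero)
    rw [hr, hr, one_smul] at this
    exact this
  have h1 : ∀ s, 1 ≤ s → (1 : ℝ) ∈ GG B (MM^[s] D) := fun s hs => up 1 s hs h1'
  intro q
  induction q with
  | zero =>
    intro j hj
    have hj' : |j| ≤ 2 := by simpa using hj
    -- 2 and 1/2
    have t1 := (h_GRG n B D 1 1 1 hn hD hB le_rfl h1' h1' h1').1
    have t2 := (h_GRG n B D 3 (1 + 1) 1 hn hD hB (by norm_num) (h1 3 (by norm_num)) t1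
      (h1 3 (by norm_num))).2.2.2.1 (by norm_num)
    have t3 := (h_GRG n B D 3 (1 + 1)⁻¹ 1 hn hD hB (by norm_num) (h1 3 (by norm_num)) t2
      (h1 3 (by norm_num))).2.2.1
    have t4 := (h_GRG n B D 3 1 1 hn hD hB (by norm_num) (h1 3 (by norm_num))
      (h1 3 (by norm_num)) (h1 3 (by norm_num))).2.2.1
    have e6 : 6 + 4 * 0 = 6 := rfl
    rw [e6]
    obtain ⟨hl, hr⟩ := abs_le.1 hj'
    have hcases : j = -2 ∨ j = -1 ∨ j = 0 ∨ j = 1 ∨ j = 2 := by omega
    rcases hcases with rfl | rfl | rfl | rfl | rfl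
    · have : (((-2 : ℤ) : ℝ) / 2 ^ (2 ^ 0)) = -1 := by norm_num
      rw [this]
      exact up 5 6 (by norm_num) t4
    · have : (((-1 : ℤ) : ℝ) / 2 ^ (2 ^ 0)) = -(1 + 1)⁻¹ := by norm_num
      rw [this]
      exact up 5 6 (by norm_num) t3
    · have : (((0 : ℤ) : ℝ) / 2 ^ (2 ^ 0)) = 0 := by norm_num
      rw [this]
      exact h0 6
    · have : (((1 : ℤ) : ℝ) / 2 ^ (2 ^ 0)) = (1 + 1)⁻¹ := by norm_num
      rw [this]
      exact up 3 6 (by norm_num) t2
    · have : (((2 : ℤ) : ℝ) / 2 ^ (2 ^ 0)) = 1 := by norm_num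
      rw [this]
      exact h1 6 (by norm_num)
  | succ q ih =>
    intro j hj
    set N : ℤ := 2 ^ (2 ^ q) with hN
    have hN0 : 0 < N := by rw [hN]; positivity
    have hNN : (2 : ℤ) ^ (2 ^ (q + 1)) = N * N := by
      rw [hN, ← pow_add]
      congr 1
      rw [pow_succ]; ring
    have hNR : (2 : ℝ) ^ (2 ^ (q + 1)) = (N : ℝ) * N := by
      have := congrArg (fun z : ℤ => (z : ℝ)) hNN
      push_cast at this
      exact this
    have hNR1 : (2 : ℝ) ^ (2 ^ q) = (N : ℝ) := by rw [hN]; push_cast; rfl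
    rw [hNN] at hj
    obtain ⟨hl, hr⟩ := abs_le.1 hj
    have hdm := Int.mul_ediv_add_emod j N
    have hm0 := Int.emod_nonneg j hN0.ne'
    have hm1 := Int.emod_lt_of_pos j hN0
    have hd1 : |j / N| ≤ N := by
      rw [abs_le]
      constructor
      · rw [Int.le_ediv_iff_mul_le hN0]; linarith
      · have : j / N ≤ N * N / N := Int.ediv_le_ediv hN0 hr
        rwa [Int.mul_ediv_cancel _ hN0.ne'] at this
    have hm2 : |j % N| ≤ N := by
      rw [abs_le]; constructor <;> linarith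
    have hone : |(1 : ℤ)| ≤ N := by rw [abs_one]; omega
    have a1 := ih (j / N) hd1
    have a2 := ih (j % N) hm2
    have a3 := ih 1 hone
    have hs : 1 ≤ 6 + 4 * q := by omega
    have b1 := (h_GRG n B D _ _ _ hn hD hB hs (h1 _ hs) a2 a3).2.1
    have b2 := up _ (6 + 4 * q + 2) (by omega) a1
    have c1 := (h_GRG n B D _ _ _ hn hD hB (by omega) (h1 _ (by omega)) b2 b1).1
    have e : 6 + 4 * (q + 1) = 6 + 4 * q + 2 + 2 := by ring
    rw [e]
    have hval : (j : ℝ) / 2 ^ (2 ^ (q + 1)) = ((j / N : ℤ) : ℝ) / 2 ^ (2 ^ q) +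
        ((j % N : ℤ) : ℝ) / 2 ^ (2 ^ q) * (((1 : ℤ) : ℝ) / 2 ^ (2 ^ q)) := by
      have hNpos : (N : ℝ) ≠ 0 := by exact_mod_cast hN0.ne'
      have hj2 : (j : ℝ) = N * ((j / N : ℤ) : ℝ) + ((j % N : ℤ) : ℝ) := by
        have := congrArg (fun z : ℤ => (z : ℝ)) hdm
        push_cast at this
        exact this.symm
      rw [hNR, hNR1]
      field_simp
      push_cast
      rw [hj2, mul_one]
    rw [hval]
    exact c1

end Pool.Agent.PBX
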