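import Pool.Agent.PBX.Targets

/-! # PBX: T_GEI, integrability for generating measures (helper9) -/

set_option autoImplicit false

open MeasureTheory Module Set Filter Topology
open scoped Pointwise

namespace Pool.Agent.PBX
open Pool.Agent.ProjBody

namespace GEI_

variable {n : ℕ}

theorem int_norm {ρ : Measure (E n)} {h : E n → ℝ} (hg : Gen ρ h) :
    Integrable (fun w => ‖w‖) ρ := by
  haveI := hg.fin
  obtain ⟨R, hR⟩ := hg.cpt
  refine Integrable.of_bound (C := R) (by fun_prop) ?_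
  have h1 : ∀ᵐ w ∂ρ, w ∈ Metric.closedBall (0 : E n) R := by
    rw [ae_iff]
    exact hR
  filter_upwards [h1] with w hw
  rw [Real.norm_eq_abs, abs_of_nonneg (norm_nonneg w)]
  simpa using hw

theorem int_inner {ρ : Measure (E n)} {h : E n → ℝ} (hg : Gen ρ h) (u : E n) :
    Integrable (fun w => |(inner ℝ u w : ℝ)|) ρ := by
  refine Integrable.mono' ((int_norm hg).const_mul ‖u‖) ?_ (Eventually.of_forall fun w => ?_)
  · have hc : Continuous (fun w : E n => |(inner ℝ u w : ℝ)|) := by fun_prop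
    exact hc.aestronglyMeasurable
  · rw [Real.norm_eq_abs, abs_abs]
    exact abs_real_inner_le_norm u w

end GEI_

open GEI_ in
theorem p_GEI : T_GEI := by
  intro n ρ h hg
  refine ⟨int_norm hg, int_inner hg, fun r R hN => ?_⟩
  let b := EuclideanSpace.basisFun (Fin n) ℝ
  have h1 : ∀ w : E n, ‖w‖ ≤ ∑ j, |(inner ℝ (b j) w : ℝ)| := by
    intro w
    calc ‖w‖ = ‖∑ j, (inner ℝ (b j) w : ℝ) • b j‖ := by rw [b.sum_repr']
      _ ≤ ∑ j, ‖(inner ℝ (b j) w : ℝ) • b j‖ := norm_sum_le _ _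
      _ = ∑ j, |(inner ℝ (b j) w : ℝ)| := by
        refine Finset.sum_congr rfl fun j _ => ?_
        rw [norm_smul, b.norm_eq_one, mul_one, Real.norm_eq_abs]
  calc ∫ w, ‖w‖ ∂ρ ≤ ∫ w, ∑ j, |(inner ℝ (b j) w : ℝ)| ∂ρ :=
        integral_mono (int_norm hg) (integrable_finset_sum _ fun j _ => int_inner hg (b j)) h1
    _ = ∑ j, ∫ w, |(inner ℝ (b j) w : ℝ)| ∂ρ :=
        integral_finset_sum _ fun j _ => int_inner hg (b j)
    _ = ∑ j, h (b j) := Finset.sum_congr rfl fun j _ => (hg.eq (b j)).symm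
    _ ≤ ∑ _j : Fin n, R := Finset.sum_le_sum fun j _ => by
        have := hN.hi (b j)
        rwa [b.norm_eq_one, mul_one] at this
    _ = n * R := by simp

end Pool.Agent.PBX
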