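import Pool.Agent.PBX.Targets

/-!
# PBX: product (GMU)
-/

open MeasureTheory Module Set
open scoped Pointwise

namespace Pool.Agent.PBX
open Pool.Agent.ProjBody

theorem GMU_third (n : ℕ) (hn : 3 ≤ n) (k l : Fin n) : ∃ m : Fin n, m ≠ k ∧ m ≠ l := by
  have h : ({k, l} : Finset (Fin n)).card < Fintype.card (Fin n) := by
    have h2 : ({k, l} : Finset (Fin n)).card ≤ 2 := Finset.card_le_two
    rw [Fintype.card_fin]
    omega
  obtain ⟨m, hm⟩ : ∃ m, m ∉ ({k, l} : Finset (Fin n)) := by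
    by_contra hcon
    have hall : ∀ m, m ∈ ({k, l} : Finset (Fin n)) := by
      intro m
      by_contra hm
      exact hcon ⟨m, hm⟩
    have huniv : ({k, l} : Finset (Fin n)) = Finset.univ := Finset.eq_univ_iff_forall.mpr hall
    rw [huniv, Finset.card_univ] at h
    exact lt_irrefl _ h
  refine ⟨m, ?_, ?_⟩
  · rintro rfl
    exact hm (by simp)
  · rintro rfl
    exact hm (by simp)

theorem p_GMU (h_VCO : T_VCO) : T_GMU := by
  intro n B X a c hn hB ha hc k l hkl
  obtain ⟨m, hmk, hml⟩ := GMU_third n hn k l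
  have h1 : B l + a • B m ∈ X := ha m l hml
  have h2 : B m + c • B k ∈ X := hc k m (Ne.symm hmk)
  have h3 := h_VCO n B X l m k a c hB (Ne.symm hml) hmk (Ne.symm hkl) h1 h2
  rw [neg_smul, ← sub_eq_add_neg]
  exact h3

end Pool.Agent.PBX
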