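import Pool.Agent.PBX.Targets

/-!
# PBX: GRG, ring operations
-/

open MeasureTheory Module Set
open scoped Pointwise

namespace Pool.Agent.PBX
open Pool.Agent.ProjBody

theorem p_GRG (h_GMU : T_GMU) (h_GSU : T_GSU) (h_MMB : T_MMB) (h_MMI : T_MMI) : T_GRG := by
  intro n B D s a c hn hD hB hs h1 ha hc
  have mono : ∀ (X Y : Set (E n)) (t : ℝ), X ⊆ Y → t ∈ GG B X → t ∈ GG B Y :=
    fun X Y t hXY ht k l hkl => hXY (ht k l hkl)
  have e1 : MM^[s + 1] D = MM (MM^[s] D) := Function.iterate_succ_apply' MM s D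
  have e2 : MM^[s + 2] D = MM (MM (MM^[s] D)) := by
    rw [Function.iterate_succ_apply' MM (s + 1) D, e1]
  have i01 : D ⊆ MM^[s] D := h_MMI n D hD 0 s (Nat.zero_le s)
  have i12 : MM^[s] D ⊆ MM (MM^[s] D) := by
    rw [← e1]
    exact h_MMI n D hD s (s + 1) (Nat.le_succ s)
  have i13 : MM^[s] D ⊆ MM (MM (MM^[s] D)) := by
    rw [← e2]
    exact h_MMI n D hD s (s + 2) (by omega)
  have i23 : MM (MM^[s] D) ⊆ MM (MM (MM^[s] D)) := by
    rw [← e2, ← e1]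
    exact h_MMI n D hD (s + 1) (s + 2) (by omega)
  have hBs : ∀ j, B j ∈ MM^[s] D := fun j => i01 (hB j)
  have neg : ∀ t : ℝ, t ∈ GG B (MM^[s] D) → -t ∈ GG B (MM (MM^[s] D)) := by
    intro t ht
    have h := h_GMU n B _ t 1 hn hBs ht h1
    rwa [mul_one] at h
  rw [e2]
  refine ⟨?_, ?_, mono _ _ _ i23 (neg a ha), ?_, mono _ _ _ i13 ha⟩
  · have h := h_GSU n B _ a (-c) hn hBs h1 ha (neg c hc)
    rwa [sub_neg_eq_add] at h
  · have h := h_GMU n B (MM (MM^[s] D)) (-a) c hn (fun j => i12 (hBs j)) (neg a ha)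
      (mono _ _ _ i12 hc)
    rwa [neg_mul, neg_neg] at h
  · intro ha0 k l hkl
    obtain ⟨s', rfl⟩ : ∃ s', s = s' + 1 := ⟨s - 1, by omega⟩
    have h := ha l k (Ne.symm hkl)
    rw [Function.iterate_succ_apply'] at h ⊢
    have h2 := (h_MMB n (MM^[s'] D) ∅).2.2.1 _ h a⁻¹ (inv_ne_zero ha0)
    have e3 : a⁻¹ • (B k + a • B l) = B l + a⁻¹ • B k := by
      rw [smul_add, smul_smul, inv_mul_cancel₀ ha0, one_smul, add_comm]
    rwa [e3] at h2

end Pool.Agent.PBX
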