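import Pool.Agent.PBX.Targets

/-!
# PBX: difference of scalars (`T_GSU`)
-/

open Module Set

namespace Pool.Agent.PBX
open Pool.Agent.ProjBody

namespace GSU_

variable {n : ℕ}

/-- the intersection of two planes spanned by points of `X` -/
theorem mem_MM_of_planes {X : Set (E n)} {x u1 u2 v1 v2 : E n} (hx : x ≠ 0)
    (hu1 : u1 ∈ X) (hu2 : u2 ∈ X) (hv1 : v1 ∈ X) (hv2 : v2 ∈ X)
    (h1 : x ∈ Submodule.span ℝ {u1, u2}) (h2 : x ∈ Submodule.span ℝ {v1, v2})
    (h : ∀ s t s' t' : ℝ, s • u1 + t • u2 = s' • v1 + t' • v2 →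
      ∃ c : ℝ, s • u1 + t • u2 = c • x) : x ∈ MM X := by
  refine ⟨hx, fun y hy => ?_⟩
  have e1 : ({u1, u2} : Set (E n)) ⊆ X := by
    intro z hz
    rcases hz with hz | hz
    · rw [hz]; exact hu1
    · rw [Set.mem_singleton_iff.1 hz]; exact hu2
  have e2 : ({v1, v2} : Set (E n)) ⊆ X := by
    intro z hz
    rcases hz with hz | hz
    · rw [hz]; exact hv1
    · rw [Set.mem_singleton_iff.1 hz]; exact hv2
  obtain ⟨s, t, hst⟩ := Submodule.mem_span_pair.1 (hy _ e1 h1)
  obtain ⟨s', t', hst'⟩ := Submodule.mem_span_pair.1 (hy _ e2 h2)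
  obtain ⟨c, hc⟩ := h s t s' t' (hst.trans hst'.symm)
  exact ⟨c, hst.symm.trans hc⟩

theorem exists_third (hn : 3 ≤ n) (k l : Fin n) : ∃ m : Fin n, m ≠ k ∧ m ≠ l := by
  classical
  by_contra h
  have h1 : ∀ m : Fin n, m ∈ ({k, l} : Finset (Fin n)) := by
    intro m
    by_contra hm
    refine h ⟨m, ?_, ?_⟩
    · intro e; apply hm; simp [e]
    · intro e; apply hm; simp [e]
  have h2 : (Finset.univ : Finset (Fin n)) ⊆ {k, l} := fun m _ => h1 m
  have h3 := Finset.card_le_card h2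
  have h4 : ({k, l} : Finset (Fin n)).card ≤ 2 := Finset.card_le_two
  rw [Finset.card_univ, Fintype.card_fin] at h3
  omega

theorem step1 (B : Basis (Fin n) ℝ (E n)) {X : Set (E n)} {a : ℝ} (hX : ∀ j, B j ∈ X)
    (h1 : (1 : ℝ) ∈ GG B X) (ha : a ∈ GG B X) {k l m : Fin n} (hkl : k ≠ l) (hmk : m ≠ k)
    (hml : m ≠ l) : B l + B m + a • B k ∈ MM X := by
  have hlk := hkl.symm
  have hkm := hmk.symm
  have hlm := hml.symm
  have hp : B l + B m + a • B k ≠ 0 := by
    intro h0
    have := congrArg (fun v => B.repr v l) h0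
    simp [Finsupp.single_apply, hml, hkl] at this
  have hlm1 : B l + B m ∈ X := by
    have := h1 m l hml
    rwa [one_smul] at this
  refine mem_MM_of_planes (u1 := B l + a • B k) (u2 := B m) (v1 := B l + B m) (v2 := B k) hp
    (ha k l hkl) (hX m) hlm1 (hX k) ?_ ?_ ?_
  · rw [Submodule.mem_span_pair]
    exact ⟨1, 1, by module⟩
  · rw [Submodule.mem_span_pair]
    exact ⟨1, a, by module⟩
  · intro s t s' t' e
    have el := congrArg (fun v => B.repr v l) e
    have em := congrArg (fun v => B.repr v m) e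
    simp [Finsupp.single_apply, hml, hkl, hlk, hlm] at el
    simp [Finsupp.single_apply, hmk, hml, hkm, hlm] at em
    refine ⟨s, ?_⟩
    rw [em, ← el]
    module

theorem step2 (B : Basis (Fin n) ℝ (E n)) {Y : Set (E n)} {a c : ℝ} (hY : ∀ j, B j ∈ Y)
    (hc : c ∈ GG B Y) {k l m : Fin n} (hkl : k ≠ l) (hmk : m ≠ k)
    (hml : m ≠ l) (hp : B l + B m + a • B k ∈ Y) : B l + (a - c) • B k ∈ MM Y := by
  have hlk := hkl.symm
  have hkm := hmk.symm
  have hlm := hml.symm
  have hq : B l + (a - c) • B k ≠ 0 := by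
    intro h0
    have := congrArg (fun v => B.repr v l) h0
    simp [Finsupp.single_apply, hkl] at this
  refine mem_MM_of_planes (u1 := B l + B m + a • B k) (u2 := B m + c • B k) (v1 := B l)
    (v2 := B k) hq hp (hc k m hkm) (hY l) (hY k) ?_ ?_ ?_
  · rw [Submodule.mem_span_pair]
    exact ⟨1, -1, by module⟩
  · rw [Submodule.mem_span_pair]
    exact ⟨1, a - c, by module⟩
  · intro s t s' t' e
    have em := congrArg (fun v => B.repr v m) e
    simp [Finsupp.single_apply, hmk, hml, hkm, hlm] at em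
    refine ⟨s, ?_⟩
    have ht : t = -s := by linarith
    rw [ht]
    module

end GSU_

theorem p_GSU (h_MMB : T_MMB) : T_GSU := by
  intro n B X a c hn hX h1 ha hc k l hkl
  obtain ⟨m, hmk, hml⟩ := GSU_.exists_third hn k l
  have hY : ∀ j, B j ∈ MM X := fun j => (h_MMB n X X).2.1 (B j) (hX j) (B.ne_zero j)
  exact GSU_.step2 B hY hc hkl hmk hml (GSU_.step1 B hX h1 ha hkl hmk hml)

end Pool.Agent.PBX
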