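import Pool.Agent.PBX.Targets

/-! # PBX-LAB: linear algebra of dual bases -/

set_option autoImplicit false

open MeasureTheory Module Set Filter Topology
open scoped Pointwise

namespace Pool.Agent.PBX
open Pool.Agent.ProjBody

namespace LAB_

variable {n : ℕ} {ι : Type*}

/-- the vector `z` with `⟨z, y⟩ = b.repr y k` -/
noncomputable def ds (b : Basis ι ℝ (E n)) (k : ι) : E n :=
  (InnerProductSpace.toDual ℝ (E n)).symm (LinearMap.toContinuousLinearMap (b.coord k))

theorem ds_inner (b : Basis ι ℝ (E n)) (k : ι) (y : E n) :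
    (inner ℝ (ds b k) y : ℝ) = b.repr y k := by
  unfold ds
  rw [InnerProductSpace.toDual_symm_apply]
  rfl

theorem ds_sum [Fintype ι] (b : Basis ι ℝ (E n)) (u : E n) :
    u = ∑ k, (inner ℝ u (b k) : ℝ) • ds b k := by
  refine ext_inner_right ℝ fun y => ?_
  rw [sum_inner]
  simp only [real_inner_smul_left, ds_inner]
  conv_lhs => rw [← b.sum_repr y, inner_sum]
  refine Finset.sum_congr rfl fun k _ => ?_
  rw [real_inner_smul_right, mul_comm]

theorem ds_mem_J (b : Basis ι ℝ (E n)) {D : Set (E n)} (hb : ∀ k, b k ∈ D) (k : ι) :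
    ds b k ∈ J D := by
  classical
  have hs : ∀ l, b.repr (b l) k = if l = k then 1 else 0 := fun l => by
    rw [b.repr_self, Finsupp.single_apply]
  refine ⟨fun h => ?_, fun y hy => ?_⟩
  · have h1 := ds_inner b k (b k)
    rw [h, inner_zero_left, hs k, if_pos rfl] at h1
    exact zero_ne_one h1
  · rw [ds_inner] at hy
    rw [← b.linearCombination_repr y, Finsupp.linearCombination_apply, Finsupp.sum]
    refine Submodule.sum_mem _ fun l _ => ?_
    by_cases hl : l = k
    · rw [hl, hy, zero_smul]
      exact Submodule.zero_mem _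
    · refine Submodule.smul_mem _ _ (Submodule.subset_span ⟨hb l, ?_⟩)
      show (inner ℝ (ds b k) (b l) : ℝ) = 0
      rw [ds_inner, hs l, if_neg hl]

/-- one half -/
theorem half [Fintype ι] (b : Basis ι ℝ (E n)) {U U' : Submodule ℝ (E n)} (hc : IsCompl U U')
    (h : ∀ k, ds b k ∈ U ∨ ds b k ∈ U') (k0 : ι) (h0 : ds b k0 ∈ U) : b k0 ∈ U'ᗮ := by
  classical
  rw [Submodule.mem_orthogonal]
  intro u hu
  set w := ∑ k ∈ Finset.univ.filter (fun k => ds b k ∈ U), (inner ℝ u (b k) : ℝ) • ds b k with hw
  have h1 : w ∈ U := by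
    refine Submodule.sum_mem _ fun k hk => Submodule.smul_mem _ _ ?_
    exact (Finset.mem_filter.1 hk).2
  have h2 : u - w ∈ U' := by
    have e : u - w = ∑ k ∈ Finset.univ.filter (fun k => ¬ ds b k ∈ U),
        (inner ℝ u (b k) : ℝ) • ds b k := by
      conv_lhs => rw [ds_sum b u]
      rw [hw, sub_eq_iff_eq_add']
      exact (Finset.sum_filter_add_sum_filter_not Finset.univ (fun k => ds b k ∈ U)
        (fun k => (inner ℝ u (b k) : ℝ) • ds b k)).symm
    rw [e]
    refine Submodule.sum_mem _ fun k hk => Submodule.smul_mem _ _ ?_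
    exact (h k).resolve_left (Finset.mem_filter.1 hk).2
  have h3 : w ∈ U' := by
    have := U'.sub_mem hu h2
    rwa [sub_sub_cancel] at this
  have h4 : w = 0 := Submodule.disjoint_def.1 hc.disjoint w h1 h3
  have h5 : (inner ℝ w (b k0) : ℝ) = inner ℝ u (b k0) := by
    rw [hw, sum_inner, Finset.sum_eq_single k0]
    · rw [real_inner_smul_left, ds_inner, b.repr_self, Finsupp.single_eq_same, mul_one]
    · intro k _ hk
      rw [real_inner_smul_left, ds_inner, b.repr_self, Finsupp.single_eq_of_ne hk, mul_zero]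
    · intro hk
      exact absurd (by simp [h0]) hk
  rw [← h5, h4, inner_zero_left]

end LAB_

open LAB_ in
/-- LAB -/
theorem p_LAB : T_LAB := by
  intro n D U U' hspan hc hJ d hd
  by_cases hd0 : d = 0
  · left
    rw [hd0]
    exact Submodule.zero_mem _
  have hli : LinearIndepOn ℝ id ({d} : Set (E n)) := LinearIndepOn.singleton (by exact hd0)
  have hsub : ({d} : Set (E n)) ⊆ D := by
    intro x hx
    rw [Set.mem_singleton_iff.1 hx]
    exact hd
  let b := Basis.extendLe hli hsub hspan.ge
  have : Fintype (hli.extend hsub) := FiniteDimensional.fintypeBasisIndex b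
  have hbD : ∀ k, b k ∈ D := fun k => by
    have : b k = (k : E n) := Basis.extendLe_apply_self hli hsub hspan.ge k
    rw [this]
    exact hli.extend_subset hsub k.2
  have hmem : d ∈ hli.extend hsub := hli.subset_extend hsub (Set.mem_singleton d)
  have hbk : b ⟨d, hmem⟩ = d := Basis.extendLe_apply_self hli hsub hspan.ge ⟨d, hmem⟩
  have hJ' : ∀ k, ds b k ∈ U ∨ ds b k ∈ U' := fun k => hJ _ (ds_mem_J b hbD k)
  rcases hJ' ⟨d, hmem⟩ with h | h
  · right
    rw [← hbk]
    exact half b hc hJ' _ h
  · left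
    rw [← hbk]
    exact half b hc.symm (fun k => (hJ' k).symm) _ h

end Pool.Agent.PBX
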