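import Pool.Agent.PBX.Targets

/-! # PBX: layer cake for `|f - g|` (target LAY) -/

set_option autoImplicit false

open MeasureTheory Set

namespace Pool.Agent.PBX
open Pool.Agent.ProjBody

theorem LAY_fibre (a b : ℝ) (ha : 0 ≤ a) (ha' : a ≤ 1) (hb : 0 ≤ b) (hb' : b ≤ 1) :
    (volume.restrict (Ioc (0 : ℝ) 1)) (symmDiff {s : ℝ | s ≤ a} {s : ℝ | s ≤ b}) =
      ENNReal.ofReal |a - b| := by
  have h1 : symmDiff {s : ℝ | s ≤ a} {s : ℝ | s ≤ b} = Ioc (min a b) (max a b) := by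
    ext s
    rw [Set.mem_symmDiff, mem_Ioc, min_lt_iff, le_max_iff]
    show (s ≤ a ∧ ¬ s ≤ b) ∨ (s ≤ b ∧ ¬ s ≤ a) ↔ _
    rw [not_le, not_le]
    constructor
    · rintro (⟨h, h'⟩ | ⟨h, h'⟩)
      · exact ⟨Or.inr h', Or.inl h⟩
      · exact ⟨Or.inl h', Or.inr h⟩
    · rintro ⟨h | h, h' | h'⟩
      · exact absurd h' (not_le.2 h)
      · exact Or.inr ⟨h', h⟩
      · exact Or.inl ⟨h', h⟩
      · exact absurd h' (not_le.2 h)
  rw [h1, Measure.restrict_apply measurableSet_Ioc, Ioc_inter_Ioc]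
  have h2 : max (min a b) 0 = min a b := max_eq_left (le_min ha hb)
  have h3 : min (max a b) 1 = max a b := min_eq_left (max_le ha' hb')
  rw [h2, h3, Real.volume_Ioc, max_sub_min_eq_abs]
  rw [abs_sub_comm]

theorem p_LAY : T_LAY := by
  intro n f g hf hg hf1 hg1
  set D : Set (ℝ × E n) := symmDiff {p | p.1 ≤ f p.2} {p | p.1 ≤ g p.2} with hD
  have hDm : MeasurableSet D :=
    (measurableSet_le measurable_fst (hf.comp measurable_snd)).symmDiff
      (measurableSet_le measurable_fst (hg.comp measurable_snd))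
  have h1 := Measure.prod_apply (μ := volume.restrict (Ioc (0 : ℝ) 1)) (ν := (volume : Measure (E n)))
    hDm
  have h2 := Measure.prod_apply_symm (μ := volume.restrict (Ioc (0 : ℝ) 1))
    (ν := (volume : Measure (E n))) hDm
  have h3 : ∀ s, Prod.mk s ⁻¹' D = symmDiff {x | s ≤ f x} {x | s ≤ g x} := fun s => rfl
  have h4 : ∀ x : E n, (fun s : ℝ => (s, x)) ⁻¹' D = symmDiff {s | s ≤ f x} {s | s ≤ g x} :=
    fun x => rfl
  simp only [h3] at h1
  simp only [h4] at h2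
  rw [← h1, h2]
  refine lintegral_congr fun x => ?_
  exact (LAY_fibre (f x) (g x) (hf1 x).1 (hf1 x).2 (hg1 x).1 (hg1 x).2).symm

end Pool.Agent.PBX
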