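import Pool.Agent.PBX.Targets

open MeasureTheory Module Set
open scoped Pointwise

namespace Pool.Agent.PBX
open Pool.Agent.ProjBody

theorem LV1_int {n : ℕ} {ρ : Measure (E n)} {g : E n → ℝ} (hg : Gen ρ g) (u : E n) :
    Integrable (fun w => |(inner ℝ u w : ℝ)|) ρ := by
  have := hg.fin
  obtain ⟨R, hR⟩ := hg.cpt
  have hb : ∀ᵐ w ∂ρ, ‖|(inner ℝ u w : ℝ)|‖ ≤ ‖u‖ * R := by
    rw [ae_iff]
    refine measure_mono_null (fun w hw => ?_) hR
    simp only [Set.mem_ofPred_eq, not_le] at hw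
    simp only [mem_compl_iff, Metric.mem_closedBall, dist_zero_right, not_le]
    by_contra hc
    push Not at hc
    have h1 : |(inner ℝ u w : ℝ)| ≤ ‖u‖ * ‖w‖ := abs_real_inner_le_norm u w
    have h2 : ‖u‖ * ‖w‖ ≤ ‖u‖ * R := mul_le_mul_of_nonneg_left hc (norm_nonneg u)
    rw [Real.norm_eq_abs, abs_abs] at hw
    linarith
  exact Integrable.of_bound (by fun_prop) (‖u‖ * R) hb

theorem LV1_add {n : ℕ} {ρ : Measure (E n)} {g : E n → ℝ} (hg : Gen ρ g) (u v : E n) :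
    g (u + v) ≤ g u + g v := by
  rw [hg.eq, hg.eq u, hg.eq v, ← integral_add (LV1_int hg u) (LV1_int hg v)]
  refine integral_mono (LV1_int hg _) ((LV1_int hg u).add (LV1_int hg v)) (fun w => ?_)
  simp only [inner_add_left]
  exact abs_add_le _ _

theorem LV1_smul {n : ℕ} {ρ : Measure (E n)} {g : E n → ℝ} (hg : Gen ρ g) (c : ℝ) (u : E n) :
    g (c • u) = |c| * g u := by
  rw [hg.eq, hg.eq u, ← integral_const_mul]
  refine integral_congr_ae (Filter.Eventually.of_forall fun w => ?_)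
  simp only [real_inner_smul_left, abs_mul]

theorem p_LV1 (h_AIT : T_AIT) : T_LV1 := by
  intro n _ ρ' g h U U' η δ i hn hN0 hG hUU hU hU' hA hgh hη hηδ hδ
  obtain ⟨a, b, ha, hab⟩ := hN0
  have hn1 : (1 : ℝ) ≤ (n : ℝ) - 1 := by
    have : (2 : ℝ) ≤ n := by exact_mod_cast hn
    linarith
  have hpow : (1 : ℝ) ≤ ((n : ℝ) - 1) ^ (2 * i) := one_le_pow₀ hn1
  have hηle : η ≤ δ / 2 := le_trans (by nlinarith) hηδ
  have hη1 : η ≤ 1 / 2 := by linarith
  have hlo : ∀ u, (1 - η) * h u ≤ g u := fun u => by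
    have := (abs_le.1 (hgh u)).1
    linarith
  have hup : ∀ u, g u ≤ (1 + η) * h u := fun u => by
    have := (abs_le.1 (hgh u)).2
    linarith
  have hgN : IsN g := by
    refine ⟨(1 - η) * a, (1 + η) * b, by nlinarith, ?_⟩
    constructor
    · exact LV1_add hG
    · exact LV1_smul hG
    · intro u
      calc (1 - η) * a * ‖u‖ = (1 - η) * (a * ‖u‖) := by ring
        _ ≤ (1 - η) * h u := mul_le_mul_of_nonneg_left (hab.lo u) (by linarith)
        _ ≤ g u := hlo u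
    · intro u
      calc g u ≤ (1 + η) * h u := hup u
        _ ≤ (1 + η) * (b * ‖u‖) := mul_le_mul_of_nonneg_left (hab.hi u) (by linarith)
        _ = (1 + η) * b * ‖u‖ := by ring
  have hN : IsN h := ⟨a, b, ha, hab⟩
  obtain ⟨e1, e2⟩ := Pit_bounds (2 * i) hN hgN (by linarith : (0 : ℝ) < 1 - η)
    (by linarith : (0 : ℝ) < 1 + η) hlo hup
  have hcast : (((n - 1) ^ (2 * i) : ℕ) : ℝ) = ((n : ℝ) - 1) ^ (2 * i) := by
    rw [Nat.cast_pow, Nat.cast_sub (by omega), Nat.cast_one]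
  set N : ℕ := (n - 1) ^ (2 * i) with hNdef
  have hNη : (N : ℝ) * η ≤ δ / 2 := by rw [hcast]; linarith
  have hNη0 : 0 ≤ (N : ℝ) * η := by positivity
  obtain ⟨a', b', ha', hab'⟩ := hN.Pit (2 * i)
  have hpos : ∀ u, 0 ≤ (P^[2 * i] h) u := fun u => le_trans (by positivity) (hab'.lo u)
  have hl : 1 - δ ≤ (1 - η) ^ N := by
    have := one_add_mul_le_pow (a := -η) (by linarith) N
    have h2 : (1 + -η) ^ N = (1 - η) ^ N := by ring
    rw [h2] at this
    linarith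
  have hu : (1 + η) ^ N ≤ 1 + δ := by
    have h1 : (1 + η) ^ N ≤ Real.exp ((N : ℝ) * η) := by
      rw [mul_comm, Real.exp_mul, Real.rpow_natCast]
      exact pow_le_pow_left₀ (by linarith) (by linarith [Real.add_one_le_exp η]) N
    have hx1 : (N : ℝ) * η ≤ 1 := by linarith
    have h2 := Real.abs_exp_sub_one_sub_id_le (x := (N : ℝ) * η) (by rw [abs_of_nonneg hNη0]; exact hx1)
    have h3 := (abs_le.1 h2).2
    nlinarith
  refine ⟨P^[2 * i] g, hgN.Pit (2 * i), ⟨U, U', hUU, hU, hU', h_AIT n ρ' g U U' hG hgN hUU hA i⟩, fun u => ⟨?_, ?_⟩⟩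
  · exact le_trans (mul_le_mul_of_nonneg_right hl (hpos u)) (e1 u)
  · exact le_trans (e2 u) (mul_le_mul_of_nonneg_right hu (hpos u))

end Pool.Agent.PBX
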