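import Pool.Agent.PBX.Targets

/-! # PBX, target LV2: second case of the alternative -/

open MeasureTheory Module Set Filter Topology
open scoped Pointwise

namespace Pool.Agent.PBX
open Pool.Agent.ProjBody

namespace LV2_

theorem norm_le {n : ℕ} (b : Basis (Fin n) ℝ (E n)) (hb : ∀ k, ‖b k‖ = 1) (y : E n) (e : ℝ)
    (h : ∀ k, |b.repr y k| ≤ e) : ‖y‖ ≤ n * e := by
  calc ‖y‖ = ‖∑ k, b.repr y k • b k‖ := by rw [b.sum_repr]
    _ ≤ ∑ k : Fin n, ‖b.repr y k • b k‖ := norm_sum_le _ _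
    _ ≤ ∑ _k : Fin n, e := by
        refine Finset.sum_le_sum fun k _ => ?_
        rw [norm_smul, hb k, mul_one, Real.norm_eq_abs]
        exact h k
    _ = n * e := by simp

end LV2_

theorem p_LV2 (h_DWN : T_DWN) (h_VDN : T_VDN) (h_MMB : T_MMB) (h_MMI : T_MMI) : T_LV2 := by
  intro n _ ρ h b ε κ q i hn hG hN hb hrep hκ hε hε1 hC hi
  obtain ⟨ρ', hG', hsub⟩ := h_DWN n ρ h hG hN i
  refine ⟨ρ', hG', fun z hz => ?_⟩
  have h0 : (0 : E n) ∉ Dn ρ := fun h0 => h0.1 rfl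
  have hv : ∀ k, |b.repr z k / κ| ≤ 1 := by
    intro k
    rw [abs_div, abs_of_pos hκ, div_le_one hκ]
    have := hrep z k
    rw [hz, mul_one] at this
    exact this
  obtain ⟨x, hx, hxv⟩ := h_VDN n b ε (Dn ρ) hn hε hε1 h0 (fun j => (hb j).1) hC q
    (fun k => b.repr z k / κ) hv
  have hx2 : x ∈ MM^[i] (Dn ρ) := h_MMI n (Dn ρ) h0 _ _ hi hx
  have hx3 : κ • x ∈ MM^[i] (Dn ρ) := by
    obtain ⟨j, rfl⟩ : ∃ j, i = j + 1 := ⟨i - 1, by omega⟩
    rw [Function.iterate_succ_apply'] at hx2 ⊢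
    exact (h_MMB n (MM^[j] (Dn ρ)) (MM^[j] (Dn ρ))).2.2.1 x hx2 κ hκ.ne'
  refine ⟨κ • x, hsub hx3, ?_⟩
  have h4 : ∀ k, |b.repr (κ • x - z) k| ≤ κ * ((2 / ε) ^ (2 * n) / 2 ^ (2 ^ q)) := by
    intro k
    have e1 : b.repr (κ • x - z) k = κ * (b.repr x k - b.repr z k / κ) := by
      rw [map_sub, map_smul]
      simp only [Finsupp.coe_sub, Pi.sub_apply, Finsupp.coe_smul, Pi.smul_apply, smul_eq_mul]
      field_simp
    rw [e1, abs_mul, abs_of_pos hκ]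
    exact mul_le_mul_of_nonneg_left (hxv k) hκ.le
  refine (LV2_.norm_le b (fun k => (hb k).2) _ _ h4).trans (le_of_eq ?_)
  ring

end Pool.Agent.PBX
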