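import Pool.Agent.PBX.Targets

/-!
# PBX: target MJ (flats and normals)
-/

set_option autoImplicit false

open MeasureTheory Module Set
open scoped Pointwise

namespace Pool.Agent.PBX
open Pool.Agent.ProjBody

namespace MJ_

/-- the dual vector of a basis vector -/
noncomputable def dv {n : ℕ} {ι : Type} (b : Basis ι ℝ (E n)) (d : ι) : E n :=
  (InnerProductSpace.toDual ℝ (E n)).symm (LinearMap.toContinuousLinearMap (b.coord d))

theorem dv_inner {n : ℕ} {ι : Type} (b : Basis ι ℝ (E n)) (d : ι) (x : E n) :
    inner ℝ (dv b d) x = b.repr x d := by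
  unfold dv
  rw [InnerProductSpace.toDual_symm_apply]
  rfl

theorem claim {n : ℕ} {D : Set (E n)} (hD : Submodule.span ℝ D = ⊤) {S : Set (E n)} (hS : S ⊆ D)
    {y : E n} (hy : ∀ s ∈ S, inner ℝ y s = 0) :
    y ∈ Submodule.span ℝ (J D ∩ {z | ∀ s ∈ S, inner ℝ z s = 0}) := by
  classical
  obtain ⟨S₀, h1, h2, h3⟩ := exists_linearIndependent ℝ S
  obtain ⟨B₀, k1, k2, k3, k4⟩ := exists_linearIndepOn_id_extension (K := ℝ) (s := S₀) (t := D) h3
    (h1.trans hS)
  have k5 : (⊤ : Submodule ℝ (E n)) ≤ Submodule.span ℝ (Set.range ((↑) : B₀ → E n)) := by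
    rw [Subtype.range_coe, ← hD, Submodule.span_le]
    exact k3
  let b : Basis B₀ ℝ (E n) := Basis.mk k4 k5
  have hb : ∀ d : B₀, b d = d := fun d => Basis.mk_apply k4 k5 d
  have : Finite B₀ := Module.Finite.finite_basis b
  let _ : Fintype B₀ := Fintype.ofFinite B₀
  have hbb : ∀ d e : B₀, inner ℝ (dv b d) (e : E n) = if e = d then 1 else 0 := by
    intro d e
    rw [dv_inner, ← hb e, b.repr_self, Finsupp.single_apply]
  have hy2 : y = ∑ d : B₀, (inner ℝ y (d : E n) : ℝ) • dv b d := by
    refine InnerProductSpace.ext_inner_right_basis b fun e => ?_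
    rw [hb, sum_inner]
    simp only [inner_smul_left, hbb, conj_trivial, mul_ite, mul_one, mul_zero]
    rw [Finset.sum_ite_eq]
    simp
  rw [hy2]
  refine Submodule.sum_mem _ fun d _ => ?_
  by_cases hd : (d : E n) ∈ S₀
  · rw [hy _ (h1 hd), zero_smul]
    exact Submodule.zero_mem _
  · refine Submodule.smul_mem _ _ (Submodule.subset_span ⟨⟨?_, ?_⟩, ?_⟩)
    · intro h0
      have := hbb d d
      rw [h0, inner_zero_left, if_pos rfl] at this
      exact zero_ne_one this
    · intro z hz
      rw [dv_inner] at hz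
      have h4 : z = ∑ e : B₀, b.repr z e • (e : E n) := by
        conv_lhs => rw [← b.sum_repr z]
        exact Finset.sum_congr rfl fun e _ => by rw [hb]
      rw [h4]
      refine Submodule.sum_mem _ fun e _ => ?_
      by_cases he : e = d
      · rw [he, hz, zero_smul]
        exact Submodule.zero_mem _
      · refine Submodule.smul_mem _ _ (Submodule.subset_span ⟨k1 e.2, ?_⟩)
        show inner ℝ (dv b d) (e : E n) = 0
        rw [hbb, if_neg he]
    · have h6 : ∀ x ∈ Submodule.span ℝ S₀, inner ℝ (dv b d) x = 0 := by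
        intro x hx
        induction hx using Submodule.span_induction with
        | mem x hx =>
          have := hbb d ⟨x, k2 hx⟩
          rw [if_neg (fun h => hd (by rw [← h]; exact hx))] at this
          exact this
        | zero => exact inner_zero_right _
        | add x y _ _ hx hy => rw [inner_add_right, hx, hy, add_zero]
        | smul a x _ hx => rw [inner_smul_right, hx, mul_zero]
      intro s hs
      exact h6 s (by rw [h2]; exact Submodule.subset_span hs)

end MJ_

open MJ_ in
theorem p_MJ : T_MJ := by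
  intro n D hD x hx
  obtain ⟨hx0, hx1⟩ := hx
  refine ⟨hx0, fun y hy => ?_⟩
  have key : ∀ z ∈ (Submodule.span ℝ (J D ∩ {z | inner ℝ x z = 0}))ᗮ, ∃ c : ℝ, z = c • x := by
    intro z hz
    refine hx1 z fun S hS hxS => ?_
    rw [← Submodule.orthogonal_orthogonal (Submodule.span ℝ S), Submodule.mem_orthogonal]
    intro u hu
    rw [Submodule.mem_orthogonal] at hu hz
    refine hz u ?_
    have h1 : u ∈ Submodule.span ℝ (J D ∩ {z | ∀ s ∈ S, inner ℝ z s = 0}) :=
      claim hD hS fun s hs => by
        rw [real_inner_comm]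
        exact hu s (Submodule.subset_span hs)
    refine Submodule.span_mono ?_ h1
    rintro w ⟨hw1, hw2⟩
    refine ⟨hw1, ?_⟩
    show inner ℝ x w = 0
    have h3 : ∀ v ∈ Submodule.span ℝ S, inner ℝ v w = 0 := by
      intro v hv
      induction hv using Submodule.span_induction with
      | mem v hv => rw [real_inner_comm]; exact hw2 v hv
      | zero => exact inner_zero_left _
      | add a b _ _ ha hb => rw [inner_add_left, ha, hb, add_zero]
      | smul a b _ hb => rw [inner_smul_left, hb, mul_zero]
    exact h3 x hxS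
  rw [← Submodule.orthogonal_orthogonal (Submodule.span ℝ (J D ∩ {z | inner ℝ x z = 0})),
    Submodule.mem_orthogonal]
  intro z hz
  obtain ⟨c, rfl⟩ := key z hz
  rw [inner_smul_left, hy, mul_zero]

end Pool.Agent.PBX
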