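import Pool.Agent.PBX.Targets

/-!
# PBX: basic facts on `MM` (T_MMB)
-/

open MeasureTheory Module Set
open scoped Pointwise

namespace Pool.Agent.PBX
open Pool.Agent.ProjBody

theorem p_MMB : T_MMB := by
  intro n D D'
  refine ⟨fun h => ⟨?_, ?_⟩, ?_, ?_, fun h => h.1 rfl⟩
  · rintro x ⟨hx, hy⟩
    exact ⟨hx, fun y h0 => Submodule.span_mono (Set.inter_subset_inter_left _ h) (hy y h0)⟩
  · rintro x ⟨hx, hy⟩
    exact ⟨hx, fun y hS => hy y fun S hSD hxS => hS S (hSD.trans h) hxS⟩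
  · intro x hxD hx
    refine ⟨hx, fun y hS => ?_⟩
    have h1 := hS {x} (Set.singleton_subset_iff.2 hxD) (Submodule.mem_span_singleton_self x)
    obtain ⟨a, ha⟩ := Submodule.mem_span_singleton.1 h1
    exact ⟨a, ha.symm⟩
  · rintro x ⟨hx, hy⟩ c hc
    refine ⟨smul_ne_zero hc hx, fun y hS => ?_⟩
    obtain ⟨a, ha⟩ := hy y fun S hSD hxS => hS S hSD (Submodule.smul_mem _ c hxS)
    refine ⟨a * c⁻¹, ?_⟩
    rw [ha, smul_smul, mul_assoc, inv_mul_cancel₀ hc, mul_one]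

end Pool.Agent.PBX
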