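import Pool.Agent.PBX.Targets

/-! # PBX: the iterates of `MM` increase (`T_MMI`) -/

set_option autoImplicit false

namespace Pool.Agent.PBX
open Pool.Agent.ProjBody

theorem MMI_.ne (h_MMB : T_MMB) {n : ℕ} {D : Set (E n)} (h0 : (0 : E n) ∉ D) (k : ℕ) :
    (0 : E n) ∉ MM^[k] D := by
  cases k with
  | zero => exact h0
  | succ k =>
    rw [Function.iterate_succ_apply']
    exact (h_MMB n (MM^[k] D) (MM^[k] D)).2.2.2

theorem p_MMI (h_MMB : T_MMB) : T_MMI := by
  intro n D h0 s t hst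
  have hm : Monotone (fun k : ℕ => MM^[k] D) := by
    refine monotone_nat_of_le_succ fun k x hx => ?_
    have hx0 : x ≠ 0 := fun e => MMI_.ne h_MMB h0 k (e ▸ hx)
    change x ∈ MM^[k + 1] D
    rw [Function.iterate_succ_apply']
    exact (h_MMB n (MM^[k] D) (MM^[k] D)).2.1 x hx hx0
  exact hm hst

end Pool.Agent.PBX
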