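import Pool.Agent.PBX.Targets

open MeasureTheory Module Set

namespace Pool.Agent.PBX
open Pool.Agent.ProjBody

theorem MNA_nonneg {n : ℕ} {h : E n → ℝ} (hh : IsN h) (u : E n) : 0 ≤ h u := by
  obtain ⟨a, b, ha, hN⟩ := hh
  exact le_trans (mul_nonneg ha.le (norm_nonneg u)) (hN.lo u)

theorem MNA_mono {n : ℕ} {h : E n → ℝ} (hh : IsN h) {δ δ' : ℝ} (hd : δ ≤ δ') (H : Near1 h δ) : Near1 h δ' := by
  obtain ⟨g, hg, hs, hb⟩ := H
  refine ⟨g, hg, hs, fun u => ⟨?_, ?_⟩⟩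
  · refine le_trans ?_ (hb u).1
    exact mul_le_mul_of_nonneg_right (by linarith) (MNA_nonneg hh u)
  · refine le_trans (hb u).2 ?_
    exact mul_le_mul_of_nonneg_right (by linarith) (MNA_nonneg hh u)

theorem p_MNA (h_DIC : T_DIC) (h_SLM : T_SLM) (h_STC : T_STC) : T_MNA := by
  intro n _ h hn hC
  have hh : IsN h := hC.1
  by_cases hall : ∀ δ : ℝ, 0 < δ → Near1 h δ
  · exact Or.inl (h_SLM n h hh hall)
  · right
    push Not at hall
    obtain ⟨δ₁, h1, h2⟩ := hall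
    refine h_STC n h hh ⟨min δ₁ 1, lt_min h1 one_pos, fun δ hδ hle => ?_⟩
    rcases h_DIC n h hn hC δ hδ (le_trans hle (min_le_right _ _)) with h3 | h3
    · exact absurd (MNA_mono hh (le_trans hle (min_le_left _ _)) h3) h2
    · exact h3

end Pool.Agent.PBX
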