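import Pool.Agent.PBX.Targets

/-!
# PBX: additivity at one pair (target T_NEG)
-/

open MeasureTheory Module Set Filter Topology
open scoped Pointwise

namespace Pool.Agent.PBX
open Pool.Agent.ProjBody

/-- The functions under the integral are integrable. -/
theorem NEG_int {n : ℕ} {ρ : Measure (E n)} {h : E n → ℝ} (H : Gen ρ h) (u : E n) :
    Integrable (fun w => |(inner ℝ u w : ℝ)|) ρ := by
  have := H.fin
  obtain ⟨R, hR⟩ := H.cpt
  have hae : ∀ᵐ w ∂ρ, ‖w‖ ≤ R := by
    rw [ae_iff]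
    refine measure_mono_null ?_ hR
    intro w hw
    simp only [mem_ofPred_eq] at hw
    simp only [mem_compl_iff, Metric.mem_closedBall, dist_zero_right]
    exact hw
  refine Integrable.of_bound (C := ‖u‖ * R) ?_ ?_
  · exact (continuous_abs.comp (continuous_const.inner continuous_id)).aestronglyMeasurable
  · filter_upwards [hae] with w hw
    rw [Real.norm_eq_abs, abs_abs]
    exact (abs_real_inner_le_norm u w).trans (mul_le_mul_of_nonneg_left hw (norm_nonneg u))

/-- Additivity at one pair. -/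
theorem p_NEG : T_NEG := by
  intro n ρ h u v H hadd w hw
  have hu := NEG_int H u
  have hv := NEG_int H v
  have huv := NEG_int H (u + v)
  have hint : ∫ w, (|(inner ℝ u w : ℝ)| + |(inner ℝ v w : ℝ)| - |(inner ℝ (u + v) w : ℝ)|) ∂ρ
      = 0 := by
    refine (integral_sub (hu.add hv) huv).trans ?_
    have e2 : ∫ w, ((fun w => |(inner ℝ u w : ℝ)|) + fun w => |(inner ℝ v w : ℝ)|) w ∂ρ
        = h u + h v := by
      refine (integral_add hu hv).trans ?_
      rw [← H.eq, ← H.eq]
    rw [e2, ← H.eq, hadd, sub_self]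
  have hnn : ∀ w : E n, 0 ≤ |(inner ℝ u w : ℝ)| + |(inner ℝ v w : ℝ)|
      - |(inner ℝ (u + v) w : ℝ)| := by
    intro w
    rw [inner_add_left]
    linarith [abs_add_le (inner ℝ u w : ℝ) (inner ℝ v w : ℝ)]
  have hz := (integral_eq_zero_iff_of_nonneg (μ := ρ) (f := fun w => |(inner ℝ u w : ℝ)|
    + |(inner ℝ v w : ℝ)| - |(inner ℝ (u + v) w : ℝ)|) (fun w => hnn w)
    ((hu.add hv).sub huv)).1 hint
  have hcl : IsClosed {w : E n | |(inner ℝ u w : ℝ)| + |(inner ℝ v w : ℝ)|
      - |(inner ℝ (u + v) w : ℝ)| = 0} := by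
    refine isClosed_eq ?_ continuous_const
    fun_prop
  have hmem := Measure.support_subset_of_isClosed hcl (μ := ρ) (by
    filter_upwards [hz] with w hw using hw) hw
  simp only [mem_ofPred_eq] at hmem
  rw [inner_add_left] at hmem
  have habs : |(inner ℝ u w : ℝ) + inner ℝ v w| = |(inner ℝ u w : ℝ)| + |(inner ℝ v w : ℝ)| := by
    linarith
  rcases abs_add_eq_add_abs_iff (inner ℝ u w : ℝ) (inner ℝ v w) |>.1 habs with ⟨h1, h2⟩ | ⟨h1, h2⟩
  · exact mul_nonneg h1 h2
  · exact mul_nonneg_of_nonpos_of_nonpos h1 h2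

end Pool.Agent.PBX
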