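import Pool.Agent.PBX.Targets

/-!
# PBX-NUM: numbers
-/

set_option autoImplicit false

open Filter Topology

namespace Pool.Agent.PBX

namespace NUM_

/-- a double exponential beats every exponential -/
theorem exists_q (C E δ : ℝ) (hC : 0 ≤ C) (hE : 0 ≤ E) (hδ : 0 < δ) :
    ∃ q : ℕ, C * E ^ q / 2 ^ (2 ^ q) ≤ δ := by
  obtain ⟨k, hk⟩ := pow_unbounded_of_one_lt E (by norm_num : (1 : ℝ) < 2)
  have h1 := tendsto_pow_const_div_const_pow_of_one_lt k (by norm_num : (1 : ℝ) < 2)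
  have h2 : Tendsto (fun q : ℕ => 2 ^ q) atTop atTop :=
    tendsto_pow_atTop_atTop_of_one_lt (by norm_num : (1 : ℕ) < 2)
  have h3 := h1.comp h2
  have h4 := h3.const_mul C
  rw [mul_zero] at h4
  obtain ⟨q, hq⟩ := (h4.eventually (gt_mem_nhds hδ)).exists
  refine ⟨q, le_trans ?_ hq.le⟩
  simp only [Function.comp]
  rw [mul_div_assoc]
  apply mul_le_mul_of_nonneg_left _ hC
  apply div_le_div_of_nonneg_right _ (by positivity)
  push_cast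
  calc E ^ q ≤ (2 ^ k) ^ q := pow_le_pow_left₀ hE hk.le q
    _ = (2 ^ q) ^ k := by rw [← pow_mul, ← pow_mul, mul_comm]

end NUM_

theorem p_NUM : T_NUM := by
  intro n κ δ hn hκ hδ
  have hn1 : (1 : ℝ) ≤ n := by exact_mod_cast hn
  have hn0 : (0 : ℝ) < n := by linarith
  have hnn : (1 : ℝ) ≤ (n : ℝ) ^ n := one_le_pow₀ hn1
  -- `M q = κ (n^n)^(2i) n^(2i) = m0 * D ^ q`
  set m0 : ℝ := κ * ((n : ℝ) ^ n) ^ (2 * (n + 8)) * (n : ℝ) ^ (2 * (n + 8)) with hm0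
  set D : ℝ := ((n : ℝ) ^ n) ^ 8 * (n : ℝ) ^ 8 with hD
  set C0 : ℝ := 2 + 4 * (n : ℝ) ^ 2 / δ with hC0
  have hC0' : 0 ≤ C0 := by positivity
  have hm0' : 0 ≤ m0 := by positivity
  have hD' : 0 ≤ D := by positivity
  obtain ⟨q, hq⟩ := NUM_.exists_q (2 * (n : ℝ) ^ 2 * C0 ^ (2 * n) * m0 ^ (2 * n + 1))
    (D ^ (2 * n + 1)) δ (by positivity) (by positivity) hδ
  set X : ℝ := κ * ((n : ℝ) ^ n) ^ (2 * (n + 8 + 4 * q)) with hX
  set M : ℝ := X * (n : ℝ) ^ (2 * (n + 8 + 4 * q)) with hM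
  have hX1 : 1 ≤ X := by
    have := one_le_pow₀ (n := 2 * (n + 8 + 4 * q)) hnn
    nlinarith
  have hY1 : (1 : ℝ) ≤ (n : ℝ) ^ (2 * (n + 8 + 4 * q)) := one_le_pow₀ hn1
  have hM1 : 1 ≤ M := by nlinarith
  have hXM : X ≤ M := by nlinarith
  have hMq : M = m0 * D ^ q := by
    have e1 : 2 * (n + 8 + 4 * q) = 2 * (n + 8) + 8 * q := by ring
    have key : ∀ a b : ℝ, κ * a ^ (2 * (n + 8) + 8 * q) * b ^ (2 * (n + 8) + 8 * q) =
        κ * a ^ (2 * (n + 8)) * b ^ (2 * (n + 8)) * (a ^ 8 * b ^ 8) ^ q := by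
      intro a b
      rw [pow_add, pow_add, pow_mul a 8 q, pow_mul b 8 q, mul_pow]
      ring
    rw [hM, hX, hm0, hD, e1]
    exact key _ _
  refine ⟨q, min 1 (δ / (2 * (n : ℝ) ^ 2 * M)), by positivity, min_le_left _ _, ?_, ?_⟩
  · have h1 : min 1 (δ / (2 * (n : ℝ) ^ 2 * M)) ≤ δ / (2 * (n : ℝ) ^ 2 * M) := min_le_right _ _
    have h2 : ((n : ℝ) - 1) ^ (2 * (n + 8 + 4 * q)) ≤ (n : ℝ) ^ (2 * (n + 8 + 4 * q)) :=
      pow_le_pow_left₀ (by linarith) (by linarith) _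
    have h3 : 0 ≤ ((n : ℝ) - 1) ^ (2 * (n + 8 + 4 * q)) := pow_nonneg (by linarith) _
    calc (n : ℝ) ^ 2 * min 1 (δ / (2 * (n : ℝ) ^ 2 * M)) * X *
          ((n : ℝ) - 1) ^ (2 * (n + 8 + 4 * q))
        ≤ (n : ℝ) ^ 2 * (δ / (2 * (n : ℝ) ^ 2 * M)) * X * (n : ℝ) ^ (2 * (n + 8 + 4 * q)) := by
          gcongr
      _ = δ / 2 := by
          rw [show (n : ℝ) ^ 2 * (δ / (2 * (n : ℝ) ^ 2 * M)) * X *
            (n : ℝ) ^ (2 * (n + 8 + 4 * q)) = (n : ℝ) ^ 2 * (δ / (2 * (n : ℝ) ^ 2 * M)) * M by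
              rw [hM]; ring]
          field_simp
  · set ε : ℝ := min 1 (δ / (2 * (n : ℝ) ^ 2 * M)) with hε
    have hε0 : 0 < ε := by positivity
    have h1 : 2 / ε ≤ C0 * M := by
      rw [div_le_iff₀ hε0]
      rcases min_choice (1 : ℝ) (δ / (2 * (n : ℝ) ^ 2 * M)) with h | h
      · rw [hε, h, mul_one]
        have : 0 ≤ 4 * (n : ℝ) ^ 2 / δ := by positivity
        nlinarith
      · rw [hε, h, hC0]
        have e : (2 + 4 * (n : ℝ) ^ 2 / δ) * M * (δ / (2 * (n : ℝ) ^ 2 * M)) =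
          2 + δ / (n : ℝ) ^ 2 := by
          field_simp
          ring
        rw [e]
        have : 0 ≤ δ / (n : ℝ) ^ 2 := by positivity
        linarith
    have h2 : (2 / ε) ^ (2 * n) ≤ (C0 * M) ^ (2 * n) :=
      pow_le_pow_left₀ (by positivity) h1 _
    calc (2 * (n : ℝ) * X) * n * (2 / ε) ^ (2 * n) / 2 ^ (2 ^ q)
        ≤ (2 * (n : ℝ) * M) * n * (C0 * M) ^ (2 * n) / 2 ^ (2 ^ q) := by
          gcongr
      _ = 2 * (n : ℝ) ^ 2 * C0 ^ (2 * n) * m0 ^ (2 * n + 1) * (D ^ (2 * n + 1)) ^ q /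
          2 ^ (2 ^ q) := by
          rw [hMq]
          congr 1
          have e : (D ^ (2 * n + 1)) ^ q = (D ^ q) ^ (2 * n) * D ^ q := by
            rw [← pow_mul, mul_comm, pow_mul, pow_succ]
          rw [e, mul_pow, mul_pow, pow_succ]
          ring
      _ ≤ δ := hq

end Pool.Agent.PBX
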