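import Pool.Agent.PBX.Targets

/-!
# PBX: target `ORD`, counting embeddings
-/

namespace Pool.Agent.PBX

namespace ORD_

theorem fib {k : ℕ} {ι : Type} [Fintype ι] [DecidableEq ι] (A : Finset ι) (hA : A.card = k) :
    (Finset.univ.filter (fun f : Fin k ↪ ι => Finset.univ.map f = A)).card = k.factorial := by
  have h1 : Fintype.card (Fin k ↪ A) = k.factorial := by
    rw [Fintype.card_embedding_eq, Fintype.card_coe, Fintype.card_fin, hA, Nat.descFactorial_self]
  rw [← h1, ← Finset.card_univ]
  symm
  refine Finset.card_bij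
    (fun (f : Fin k ↪ A) _ => f.trans (Function.Embedding.subtype (fun x => x ∈ A))) ?_ ?_ ?_
  · intro f _
    rw [Finset.mem_filter]
    refine ⟨Finset.mem_univ _, ?_⟩
    refine Finset.eq_of_subset_of_card_le ?_ ?_
    · intro x hx
      rw [Finset.mem_map] at hx
      obtain ⟨i, _, rfl⟩ := hx
      exact (f i).2
    · rw [Finset.card_map, Finset.card_univ, Fintype.card_fin, hA]
  · intro f _ g _ h
    ext i
    exact DFunLike.congr_fun h i
  · intro g hg
    rw [Finset.mem_filter] at hg
    have hm : ∀ i, g i ∈ A := by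
      intro i
      rw [← hg.2]
      exact Finset.mem_map_of_mem g (Finset.mem_univ i)
    refine ⟨⟨fun i => ⟨g i, hm i⟩, ?_⟩, Finset.mem_univ _, ?_⟩
    · intro i j hij
      exact g.injective (congrArg Subtype.val hij)
    · ext i
      rfl

end ORD_

theorem p_ORD : T_ORD := by
  intro k ι _ _ g
  have hmaps : ∀ f ∈ (Finset.univ : Finset (Fin k ↪ ι)),
      Finset.univ.map f ∈ Finset.powersetCard k (Finset.univ : Finset ι) := by
    intro f _
    rw [Finset.mem_powersetCard]
    exact ⟨Finset.subset_univ _, by rw [Finset.card_map, Finset.card_univ, Fintype.card_fin]⟩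
  rw [← Finset.sum_fiberwise_of_maps_to hmaps, Finset.mul_sum]
  refine Finset.sum_congr rfl fun A hA => ?_
  have hA' : A.card = k := (Finset.mem_powersetCard.1 hA).2
  have h1 : ∀ f ∈ Finset.univ.filter (fun f : Fin k ↪ ι => Finset.univ.map f = A),
      g (Finset.univ.map f) = g A := by
    intro f hf
    rw [(Finset.mem_filter.1 hf).2]
  rw [Finset.sum_congr rfl h1, Finset.sum_const, ORD_.fib A hA', nsmul_eq_mul]

end Pool.Agent.PBX
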