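import Pool.Agent.PBX.Targets
import Pool.Agent.ProjBody.Cube

/-!
# PBX: volume of a parallelepiped, `T_PAR` (helper93)
-/

open MeasureTheory Module Set
open scoped Pointwise

namespace Pool.Agent.PBX
open Pool.Agent.ProjBody

namespace PAR_

variable {n : ℕ}

/-- the linear map `t ↦ ∑ t i • w i` -/
noncomputable def L (w : Fin n → E n) : E n →ₗ[ℝ] E n where
  toFun t := ∑ i, t i • w i
  map_add' s t := by simp [add_smul, Finset.sum_add_distrib]
  map_smul' c t := by simp [mul_smul, Finset.smul_sum]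

theorem L_apply (w : Fin n → E n) (t : E n) : L w t = ∑ i, t i • w i := rfl

theorem det_L (w : Fin n → E n) : LinearMap.det (L w) = (mt w).det := by
  rw [← LinearMap.det_toMatrix (EuclideanSpace.basisFun (Fin n) ℝ).toBasis, ← Matrix.det_transpose]
  congr 1
  ext i j
  rw [Matrix.transpose_apply, LinearMap.toMatrix_apply]
  simp [L_apply, mt]

/-- the cube -/
def cube (n : ℕ) : Set (E n) := {x | ∀ i, x i ∈ Icc (-1 : ℝ) 1}

theorem Zt_eq (w : Fin n → E n) : Zt w = L w '' cube n := by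
  ext x
  constructor
  · rintro ⟨t, ht, rfl⟩
    exact ⟨WithLp.toLp 2 t, fun i => abs_le.1 (ht i), rfl⟩
  · rintro ⟨t, ht, rfl⟩
    exact ⟨fun i => t i, fun i => abs_le.2 (ht i), rfl⟩

theorem vol_cube (n : ℕ) : (volume (cube n)).toReal = 2 ^ n := by
  have h := volume_box (fun _ : Fin n => (-1 : ℝ)) (fun _ => 1)
  have h1 : box (fun _ : Fin n => (-1 : ℝ)) (fun _ => 1) = cube n := rfl
  rw [← h1, h, ENNReal.toReal_prod]
  norm_num

end PAR_

theorem p_PAR : T_PAR := by
  intro n w
  unfold vz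
  rw [PAR_.Zt_eq, Measure.addHaar_image_linearMap, PAR_.det_L, ENNReal.toReal_mul, PAR_.vol_cube,
    ENNReal.toReal_ofReal (abs_nonneg _), mul_comm]

end Pool.Agent.PBX
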