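import Pool.Agent.PBX.Targets2

/-!
# PBX: PBC, projection bodies are centred
-/

open MeasureTheory Module Set Filter Topology
open scoped Pointwise

namespace Pool.Agent.PBX
open Pool.Agent.ProjBody

theorem p_PBC : T_PBC := by
  intro n _ M L hML x hx
  by_contra hxL
  obtain ⟨-, ⟨hLc, hLv, -⟩, hbr⟩ := hML
  obtain ⟨f, s, hf1, hf2⟩ := geometric_hahn_banach_closed_point hLv hLc.isClosed hxL
  obtain ⟨w, hw⟩ : ∃ w : E n, ∀ y, f y = inner ℝ y w := by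
    refine ⟨(InnerProductSpace.toDual ℝ (E n)).symm f, fun y => ?_⟩
    rw [real_inner_comm, InnerProductSpace.toDual_symm_apply]
  have hw0 : w ≠ 0 := by
    rintro rfl
    have h1 := hf1 x hx
    rw [hw, inner_zero_right] at h1
    rw [hw, inner_zero_right] at hf2
    linarith
  have hwn : 0 < ‖w‖ := norm_pos_iff.2 hw0
  obtain ⟨v, hv⟩ : ∃ v : E n, v = ‖w‖⁻¹ • w := ⟨_, rfl⟩
  have hv1 : ‖v‖ = 1 := by
    rw [hv, norm_smul, norm_inv, norm_norm, inv_mul_cancel₀ hwn.ne']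
  have hin : ∀ y : E n, (inner ℝ y v : ℝ) = ‖w‖⁻¹ * f y := by
    intro y
    rw [hv, inner_smul_right, hw]
  have e1 : supportFn L v ≤ ‖w‖⁻¹ * s := by
    refine csSup_le ⟨_, x, hx, rfl⟩ ?_
    rintro _ ⟨y, hy, rfl⟩
    show (inner ℝ y v : ℝ) ≤ _
    rw [hin]
    exact mul_le_mul_of_nonneg_left (hf1 y hy).le (inv_nonneg.2 hwn.le)
  have hbdd : BddAbove ((fun y : E n => (inner ℝ y (-v) : ℝ)) '' L) :=
    (hLc.image (by fun_prop)).bddAbove
  have e2 : (inner ℝ x (-v) : ℝ) ≤ supportFn L (-v) := le_csSup hbdd ⟨x, hx, rfl⟩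
  have hv1' : ‖-v‖ = 1 := by rw [norm_neg, hv1]
  have e3 : supportFn L (-v) = supportFn L v := by
    rw [hbr v hv1, hbr (-v) hv1', brightness_eq_br M hv1, brightness_eq_br M hv1']
    have h1 : -v = (-1 : ℝ) • v := by rw [neg_smul, one_smul]
    rw [h1, br_smul (by norm_num)]
  have e4 : (inner ℝ x (-v) : ℝ) = ‖w‖⁻¹ * f (-x) := by
    rw [← hin, inner_neg_right, inner_neg_left]
  have e5 : ‖w‖⁻¹ * s < ‖w‖⁻¹ * f (-x) := mul_lt_mul_of_pos_left hf2 (inv_pos.2 hwn)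
  rw [e3] at e2
  linarith

end Pool.Agent.PBX
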