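import Pool.Agent.PBX.Targets2

/-! # PBX, job PBP: projection body and the operator P -/

set_option autoImplicit false

namespace Pool.Agent.PBX
open Pool.Agent.ProjBody

theorem p_PBP (h_SFN : T_SFN) (h_PBC : T_PBC) : T_PBP := by
  intro n _ M L hML hM u
  obtain ⟨hMb, hLb, hbr⟩ := hML
  obtain ⟨hMN, hMB⟩ := h_SFN n M hMb hM
  obtain ⟨hLN, _⟩ := h_SFN n L hLb (h_PBC n M L ⟨hMb, hLb, hbr⟩)
  have hPN : IsN (P (supportFn M)) := hMN.P
  obtain ⟨a, b, _, hL⟩ := hLN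
  obtain ⟨a', b', _, hP⟩ := hPN
  have hunit : ∀ v : E n, ‖v‖ = 1 → supportFn L v = P (supportFn M) v := by
    intro v hv
    rw [hbr v hv, brightness_eq_br M hv]
    unfold P
    rw [hMB, sw_eq hMb.1 hMb.2.1, hv, one_mul]
  rcases eq_or_ne u 0 with rfl | hu
  · rw [hL.zero, hP.zero]
  · have hu' : ‖u‖ ≠ 0 := norm_ne_zero_iff.2 hu
    have hv1 : ‖‖u‖⁻¹ • u‖ = 1 := by
      rw [norm_smul, norm_inv, norm_norm, inv_mul_cancel₀ hu']
    have huv : ‖u‖ • (‖u‖⁻¹ • u) = u := by rw [smul_smul, mul_inv_cancel₀ hu', one_smul]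
    have h1 := hunit _ hv1
    rw [← huv, hL.smul, hP.smul, h1]

end Pool.Agent.PBX
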