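import Pool.Agent.PBX.Targets2

/-!
# PBX: projection bodies in the plane (target PL2, helper94)
-/

open MeasureTheory Module Set
open scoped Pointwise

namespace Pool.Agent.PBX
open Pool.Agent.ProjBody

/-- rotation by a right angle -/
noncomputable def PL2_rot (u : E 2) : E 2 := WithLp.toLp 2 ![-(u 1), u 0]

lemma PL2_rot0 (u : E 2) : PL2_rot u 0 = -(u 1) := by simp [PL2_rot]
lemma PL2_rot1 (u : E 2) : PL2_rot u 1 = u 0 := by simp [PL2_rot]

lemma PL2_inner (x y : E 2) : (inner ℝ x y : ℝ) = x 0 * y 0 + x 1 * y 1 := by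
  rw [PiLp.inner_apply, Fin.sum_univ_two]
  simp [mul_comm]

lemma PL2_smul (c : ℝ) (u : E 2) : PL2_rot (c • u) = c • PL2_rot u := by
  ext i
  fin_cases i
  · simp [PL2_rot]
  · simp [PL2_rot]

lemma PL2_norm (u : E 2) : ‖PL2_rot u‖ = ‖u‖ := by
  have h1 : ‖PL2_rot u‖ ^ 2 = ‖u‖ ^ 2 := by
    rw [← real_inner_self_eq_norm_sq, ← real_inner_self_eq_norm_sq, PL2_inner, PL2_inner,
      PL2_rot0, PL2_rot1]
    ring
  exact (pow_left_inj₀ (norm_nonneg _) (norm_nonneg _) two_ne_zero).1 h1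

lemma PL2_orth (u : E 2) : PL2_rot u ∈ (ℝ ∙ u)ᗮ := by
  rw [Submodule.mem_orthogonal_singleton_iff_inner_right, PL2_inner, PL2_rot0, PL2_rot1]
  ring

/-- in the plane the orthogonal complement of a unit vector is spanned by the rotated vector -/
lemma PL2_repr (v : E 2) (hv : ‖v‖ = 1) (y : E 2) (hy : y ∈ (ℝ ∙ v)ᗮ) :
    y = (inner ℝ (PL2_rot v) y : ℝ) • PL2_rot v := by
  rw [Submodule.mem_orthogonal_singleton_iff_inner_right, PL2_inner] at hy
  have h1 : v 0 * v 0 + v 1 * v 1 = 1 := by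
    rw [← PL2_inner, real_inner_self_eq_norm_sq, hv]
    norm_num
  have h2 : (inner ℝ (PL2_rot v) y : ℝ) = -(v 1) * y 0 + v 0 * y 1 := by
    rw [PL2_inner, PL2_rot0, PL2_rot1]
  rw [h2]
  ext i
  fin_cases i
  · show y 0 = (-(v 1) * y 0 + v 0 * y 1) * PL2_rot v 0
    rw [PL2_rot0]
    linear_combination v 0 * hy - y 0 * h1
  · show y 1 = (-(v 1) * y 0 + v 0 * y 1) * PL2_rot v 1
    rw [PL2_rot1]
    linear_combination v 1 * hy - y 1 * h1

/-- the isometry of the line onto the orthogonal complement -/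
noncomputable def PL2_iso (v : E 2) (hv : ‖v‖ = 1) : ℝ ≃ₗᵢ[ℝ] (ℝ ∙ v)ᗮ :=
  LinearIsometryEquiv.ofSurjective
    { toFun := fun s => ⟨s • PL2_rot v, Submodule.smul_mem _ _ (PL2_orth v)⟩
      map_add' := fun s t => by
        apply Subtype.ext
        simp [add_smul]
      map_smul' := fun s t => by
        apply Subtype.ext
        simp [mul_smul]
      norm_map' := fun s => by
        show ‖s • PL2_rot v‖ = ‖s‖
        rw [norm_smul, PL2_norm, hv, mul_one] }
    (fun y => ⟨inner ℝ (PL2_rot v) (y : E 2), by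
      apply Subtype.ext
      exact (PL2_repr v hv y y.2).symm⟩)

lemma PL2_iso_apply (v : E 2) (hv : ‖v‖ = 1) (s : ℝ) :
    ((PL2_iso v hv s : (ℝ ∙ v)ᗮ) : E 2) = s • PL2_rot v := rfl

lemma PL2_proj (v : E 2) (hv : ‖v‖ = 1) (x : E 2) :
    (ℝ ∙ v)ᗮ.orthogonalProjectionOnto x = PL2_iso v hv (inner ℝ (PL2_rot v) x : ℝ) := by
  apply Subtype.ext
  rw [PL2_iso_apply, PL2_repr v hv _ ((ℝ ∙ v)ᗮ.orthogonalProjectionOnto x).2]
  congr 1
  exact Submodule.inner_orthogonalProjectionOnto_eq_of_mem_left ⟨PL2_rot v, PL2_orth v⟩ x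

lemma PL2_unit (h : E 2 → ℝ) (hh : IsN h) (v : E 2) (hv : ‖v‖ = 1) :
    br (Bd h) v = 2 * h (PL2_rot v) := by
  obtain ⟨a, b, ha, hN⟩ := hh
  set w := PL2_rot v with hw
  have hw1 : ‖w‖ = 1 := by rw [hw, PL2_norm, hv]
  have hpos : 0 < h w := by
    have := hN.lo w
    rw [hw1, mul_one] at this
    linarith
  have hev : ∀ u, h (-u) = h u := by
    intro u
    have := hN.smul (-1) u
    simpa using this
  have habs : ∀ x ∈ Bd h, ∀ u, |(inner ℝ x u : ℝ)| ≤ h u := by
    intro x hx u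
    rw [abs_le]
    constructor
    · have := hx (-u)
      rw [inner_neg_right, hev] at this
      linarith
    · exact hx u
  have hset : PL2_iso v hv ⁻¹' ((ℝ ∙ v)ᗮ.orthogonalProjectionOnto '' Bd h)
      = Icc (-(h w)) (h w) := by
    ext s
    constructor
    · rintro ⟨x, hx, hxs⟩
      rw [PL2_proj v hv x] at hxs
      have h1 := (PL2_iso v hv).injective hxs
      have h2 := habs x hx w
      rw [real_inner_comm] at h1
      rw [h1] at h2
      exact abs_le.1 h2
    · intro hs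
      obtain ⟨x, hx, hxw⟩ := exists_support ha hN w
      refine ⟨(s / h w) • x, ?_, ?_⟩
      · intro u
        rw [real_inner_smul_left]
        have h3 : |s / h w| ≤ 1 := by
          rw [abs_div, abs_of_pos hpos, div_le_one hpos]
          exact abs_le.2 hs
        have h4 := habs x hx u
        calc s / h w * (inner ℝ x u : ℝ) ≤ |s / h w * (inner ℝ x u : ℝ)| := le_abs_self _
          _ = |s / h w| * |(inner ℝ x u : ℝ)| := abs_mul _ _
          _ ≤ 1 * h u := mul_le_mul h3 h4 (abs_nonneg _) zero_le_one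
          _ = h u := one_mul _
      · rw [PL2_proj v hv]
        congr 1
        rw [real_inner_smul_right, real_inner_comm, ← hw, hxw]
        field_simp
  unfold br
  have hcomp : IsCompact ((ℝ ∙ v)ᗮ.orthogonalProjectionOnto '' Bd h) :=
    (Bd_compact ha hN).image (by fun_prop)
  have hmp := (PL2_iso v hv).measurePreserving
  rw [← hmp.measure_preimage hcomp.measurableSet.nullMeasurableSet, hset, Real.volume_Icc,
    ENNReal.toReal_ofReal (by linarith)]
  ring

theorem p_PL2 : T_PL2 := by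
  intro h hh u
  show P h u = 2 * h (PL2_rot u)
  have hh' := hh
  obtain ⟨a, b, ha, hN⟩ := hh'
  unfold P
  rw [sw_eq (Bd_compact ha hN) (Bd_convex h)]
  rcases eq_or_ne u 0 with rfl | hu
  · have h0 : PL2_rot (0 : E 2) = 0 := by
      have := PL2_smul 0 (0 : E 2)
      simpa using this
    rw [h0, hN.zero, norm_zero]
    ring
  have hu' : ‖u‖ ≠ 0 := norm_ne_zero_iff.2 hu
  set v := ‖u‖⁻¹ • u with hv
  have hv1 : ‖v‖ = 1 := by
    rw [hv, norm_smul, norm_inv, norm_norm, inv_mul_cancel₀ hu']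
  have huv : ‖u‖ • v = u := by rw [hv, smul_smul, mul_inv_cancel₀ hu', one_smul]
  have hb : br (Bd h) u = br (Bd h) v := by
    rw [hv, br_smul (inv_ne_zero hu')]
  rw [hb, PL2_unit h hh v hv1]
  have h5 : h (PL2_rot u) = ‖u‖ * h (PL2_rot v) := by
    conv_lhs => rw [← huv]
    rw [PL2_smul, hN.smul, abs_of_nonneg (norm_nonneg u)]
  rw [h5]
  ring

end Pool.Agent.PBX
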