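import Pool.Agent.PBX.Targets

/-! # PBX, job POL: multiaffine homogeneous functions -/

set_option autoImplicit false

namespace Pool.Agent.PBX

theorem POL_exp {ι : Type} [Fintype ι] [DecidableEq ι] (F : (ι → ℝ) → ℝ)
    (h1 : ∀ t : ι → ℝ, (∀ i, 0 ≤ t i) → ∀ (i : ι) (s : ℝ), 0 ≤ s →
      F (Function.update t i s) =
        (1 - s) * F (Function.update t i 0) + s * F (Function.update t i 1)) (s : Finset ι) :
    ∀ t : ι → ℝ, (∀ i, 0 ≤ t i) →
    F t = ∑ A ∈ s.powerset, (∏ i ∈ A, t i) * (∏ i ∈ s \ A, (1 - t i)) *
      F (fun j => if j ∈ A then 1 else if j ∈ s then 0 else t j) := by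
  induction s using Finset.induction_on with
  | empty => intro t ht; simp
  | insert a s ha ih =>
    intro t ht
    rw [ih t ht, Finset.sum_powerset_insert ha, ← Finset.sum_add_distrib]
    refine Finset.sum_congr rfl (fun A hA => ?_)
    have hAs : A ⊆ s := Finset.mem_powerset.mp hA
    have haA : a ∉ A := fun h => ha (hAs h)
    set u : ι → ℝ := fun j => if j ∈ A then 1 else if j ∈ s then 0 else t j with hu
    have hu0 : ∀ i, 0 ≤ u i := by
      intro i
      simp only [hu]
      split_ifs
      · exact zero_le_one
      · exact le_rfl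
      · exact ht i
    have hua : Function.update u a (t a) = u := by
      funext j
      by_cases hj : j = a
      · subst hj
        simp [hu, haA, ha]
      · simp [Function.update_of_ne hj]
    have e0 : Function.update u a 0 =
        fun j => if j ∈ A then 1 else if j ∈ insert a s then 0 else t j := by
      funext j
      by_cases hj : j = a
      · subst hj
        simp [haA]
      · rw [Function.update_of_ne hj]
        simp [hu, hj]
    have e1 : Function.update u a 1 =
        fun j => if j ∈ insert a A then 1 else if j ∈ insert a s then 0 else t j := by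
      funext j
      by_cases hj : j = a
      · subst hj
        simp
      · rw [Function.update_of_ne hj]
        simp [hu, hj]
    have hF := h1 u hu0 a (t a) (ht a)
    rw [hua, e0, e1] at hF
    have d1 : insert a s \ A = insert a (s \ A) := by
      ext j
      simp only [Finset.mem_sdiff, Finset.mem_insert]
      constructor
      · rintro ⟨h | h, h'⟩
        · exact Or.inl h
        · exact Or.inr ⟨h, h'⟩
      · rintro (h | ⟨h, h'⟩)
        · exact ⟨Or.inl h, h ▸ haA⟩
        · exact ⟨Or.inr h, h'⟩
    have d2 : insert a s \ insert a A = s \ A := by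
      ext j
      simp only [Finset.mem_sdiff, Finset.mem_insert, not_or]
      constructor
      · rintro ⟨h | h, h', h''⟩
        · exact absurd h h'
        · exact ⟨h, h''⟩
      · rintro ⟨h, h'⟩
        exact ⟨Or.inr h, fun hh => ha (hh ▸ h), h'⟩
    rw [d1, d2, Finset.prod_insert (fun h => ha (Finset.mem_sdiff.mp h).1),
      Finset.prod_insert haA, hF]
    ring

open Polynomial in
theorem p_POL : T_POL := by
  intro n ι _ _ F h1 h2
  -- values on scaled indicators
  have key : ∀ (S : Finset ι) (r : ℝ), 0 ≤ r → r ^ n * F (fun j => if j ∈ S then 1 else 0) =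
      ∑ A ∈ S.powerset, r ^ A.card * (1 - r) ^ (S.card - A.card) *
        F (fun j => if j ∈ A then 1 else 0) := by
    intro S r hr
    have ht : ∀ i : ι, 0 ≤ (fun j => if j ∈ S then (1 : ℝ) else 0) i := by
      intro i
      dsimp only
      split_ifs
      · exact zero_le_one
      · exact le_rfl
    rw [← h2 _ ht r hr]
    have ht' : ∀ i : ι, 0 ≤ (fun j => r * (if j ∈ S then (1 : ℝ) else 0)) i := by
      intro i
      exact mul_nonneg hr (ht i)
    rw [POL_exp F h1 S _ ht']
    refine Finset.sum_congr rfl (fun A hA => ?_)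
    have hAS : A ⊆ S := Finset.mem_powerset.mp hA
    have p1 : ∏ i ∈ A, (r * (if i ∈ S then (1 : ℝ) else 0)) = r ^ A.card := by
      rw [Finset.prod_congr rfl (g := fun _ => r) (fun i hi => by rw [if_pos (hAS hi), mul_one]),
        Finset.prod_const]
    have p2 : ∏ i ∈ S \ A, (1 - r * (if i ∈ S then (1 : ℝ) else 0)) =
        (1 - r) ^ (S.card - A.card) := by
      rw [Finset.prod_congr rfl (g := fun _ => 1 - r)
        (fun i hi => by rw [if_pos (Finset.mem_sdiff.mp hi).1, mul_one]),
        Finset.prod_const, Finset.card_sdiff_of_subset hAS]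
    have p3 : (fun j => if j ∈ A then (1 : ℝ) else if j ∈ S then 0 else
        r * (if j ∈ S then (1 : ℝ) else 0)) = fun j => if j ∈ A then 1 else 0 := by
      funext j
      by_cases hjA : j ∈ A
      · simp [hjA]
      · by_cases hjS : j ∈ S <;> simp [hjA, hjS]
    rw [p1, p2, p3]
  -- the polynomial identity
  have poly : ∀ S : Finset ι, (X ^ n * C (F (fun j => if j ∈ S then 1 else 0)) : ℝ[X]) =
      ∑ A ∈ S.powerset, X ^ A.card * (1 - X) ^ (S.card - A.card) *
        C (F (fun j => if j ∈ A then 1 else 0)) := by
    intro S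
    refine Polynomial.eq_of_infinite_eval_eq _ _ ((Set.Ici_infinite (0 : ℝ)).mono ?_)
    intro r hr
    have hr' : 0 ≤ r := hr
    change Polynomial.eval r _ = Polynomial.eval r _
    rw [Polynomial.eval_finsetSum]
    simp only [eval_mul, eval_pow, eval_X, eval_C, eval_sub, eval_one]
    exact key S r hr'
  have small : ∀ S : Finset ι, S.card < n → F (fun j => if j ∈ S then 1 else 0) = 0 := by
    intro S hS
    have h := congrArg (fun p : ℝ[X] => p.coeff n) (poly S)
    simp only [Polynomial.coeff_mul_C, Polynomial.coeff_X_pow_self, one_mul] at h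
    rw [h, Polynomial.finsetSum_coeff]
    refine Finset.sum_eq_zero (fun A hA => ?_)
    rw [Polynomial.coeff_mul_C]
    have hAS : A ⊆ S := Finset.mem_powerset.mp hA
    have hc := Finset.card_le_card hAS
    rw [Polynomial.coeff_eq_zero_of_natDegree_lt, zero_mul]
    have hd : ((1 - X : ℝ[X]) ^ (S.card - A.card)).natDegree ≤ S.card - A.card := by
      refine (Polynomial.natDegree_pow_le).trans ?_
      have : (1 - X : ℝ[X]).natDegree ≤ 1 := by
        refine (Polynomial.natDegree_sub_le _ _).trans ?_
        simp
      calc (S.card - A.card) * (1 - X : ℝ[X]).natDegree ≤ (S.card - A.card) * 1 :=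
            Nat.mul_le_mul_left _ this
        _ = S.card - A.card := mul_one _
    have hm := Polynomial.natDegree_mul_le (p := (X ^ A.card : ℝ[X]))
      (q := (1 - X) ^ (S.card - A.card))
    rw [Polynomial.natDegree_X_pow] at hm
    omega
  have h := congrArg (fun p : ℝ[X] => p.coeff n) (poly Finset.univ)
  simp only [Polynomial.coeff_mul_C, Polynomial.coeff_X_pow_self, one_mul, Finset.mem_univ,
    if_true] at h
  rw [h, Polynomial.finsetSum_coeff, Finset.powerset_univ]
  rw [← Finset.sum_subset (Finset.subset_univ (Finset.powersetCard n Finset.univ))]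
  · refine Finset.sum_congr rfl (fun A hA => ?_)
    have hc : A.card = n := (Finset.mem_powersetCard.mp hA).2
    rw [Polynomial.coeff_mul_C, hc, Polynomial.coeff_X_pow_mul']
    simp [Polynomial.coeff_zero_eq_eval_zero]
  · intro A _ hA
    have hc : A.card ≠ n := fun h => hA (Finset.mem_powersetCard.mpr ⟨Finset.subset_univ _, h⟩)
    rw [Polynomial.coeff_mul_C]
    rcases lt_or_gt_of_ne hc with hlt | hgt
    · rw [small A hlt, mul_zero]
    · rw [Polynomial.coeff_X_pow_mul', if_neg (by omega), zero_mul]

end Pool.Agent.PBX
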