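import Pool.Agent.PBX.Targets2

/-!
# PBX: polytopes have vertices (target T_PVX)
-/

open MeasureTheory Module Set Filter Topology
open scoped Pointwise

namespace Pool.Agent.PBX
open Pool.Agent.ProjBody

/-- A linear function which is at most `c` on `F` is at most `c` on the convex hull. -/
theorem PVX_le {n : ℕ} {F : Set (E n)} {u : E n} {c : ℝ} (h : ∀ y ∈ F, (inner ℝ y u : ℝ) ≤ c) :
    ∀ y ∈ convexHull ℝ F, (inner ℝ y u : ℝ) ≤ c := by
  intro y hy
  have hsub : convexHull ℝ F ⊆ {y : E n | (inner ℝ y u : ℝ) ≤ c} := by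
    refine convexHull_min h ?_
    intro x hx z hz p q hp hq hpq
    simp only [mem_ofPred_eq] at hx hz ⊢
    rw [inner_add_left, real_inner_smul_left, real_inner_smul_left]
    calc p * inner ℝ x u + q * inner ℝ z u ≤ p * c + q * c := by gcongr
      _ = c := by rw [← add_mul, hpq, one_mul]
  exact hsub hy

/-- Polytopes have vertices. -/
theorem p_PVX : T_PVX := by
  intro n F hF hne
  have hFne : F.Nonempty := by
    rw [convexHull_nonempty_iff] at hne
    exact hne
  let N : E n → Set (E n) := fun x => {u | ∀ y ∈ F, (inner ℝ y u : ℝ) ≤ inner ℝ x u}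
  have hcov : ⋃ x : F, ((Submodule.span ℝ (N x) : Submodule ℝ (E n)) : Set (E n)) = univ := by
    rw [eq_univ_iff_forall]
    intro u
    obtain ⟨x, hx, hmax⟩ := Set.exists_max_image F (fun y => (inner ℝ y u : ℝ)) hF hFne
    rw [mem_iUnion]
    exact ⟨⟨x, hx⟩, Submodule.subset_span hmax⟩
  have : Finite F := hF
  obtain ⟨⟨x, hx⟩, htop⟩ := Subspace.exists_eq_top_of_iUnion_eq_univ hcov
  obtain ⟨f, hf1, hf2, hf3⟩ := Submodule.exists_fun_fin_finrank_span_eq ℝ (N x)
  have hfr : finrank ℝ (Submodule.span ℝ (N x)) = n := by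
    rw [htop, finrank_top, finrank_euclideanSpace_fin]
  have hxK : x ∈ convexHull ℝ F := subset_convexHull ℝ F hx
  refine ⟨x, hxK, fun i => f (Fin.cast hfr.symm i), ?_, ?_⟩
  · exact hf3.comp _ (Fin.cast_injective _)
  · intro i
    have hN := hf1 (Fin.cast hfr.symm i)
    symm
    apply IsGreatest.csSup_eq
    refine ⟨⟨x, hxK, rfl⟩, ?_⟩
    rintro _ ⟨y, hy, rfl⟩
    exact PVX_le hN y hy

end Pool.Agent.PBX
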