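import Pool.Agent.PBX.Targets2

/-! # PBX: structure theorem for bodies (T_R1) -/

set_option autoImplicit false

open MeasureTheory Module Set Filter Topology
open scoped Pointwise

namespace Pool.Agent.PBX
open Pool.Agent.ProjBody

/-- Structure theorem. -/
theorem p_R1 (h_OEO : T_OEO) (h_STA : T_STA) (h_STB : T_STB) (h_TAJ : T_TAJ) (h_SFT : T_SFT)
    (h_BDT : T_BDT) (h_SFN : T_SFN) (h_BL1 : T_BL1) (h_BL2 : T_BL2) : T_R1 := by
  intro n K hn
  have hne : NeZero n := ⟨by omega⟩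
  constructor
  · intro hK
    obtain ⟨hcb, hcen, hcls⟩ := (h_OEO n K hn).1 hK
    obtain ⟨ι, hι, d, η, S, hblk, hS⟩ := h_STA n (supportFn K) (by omega) hcls
    obtain ⟨T, hT⟩ := (h_TAJ n ι d).2 S
    refine ⟨ι, hι, d, fun j => Bd (η j), T, fun j => h_BL2 _ _ (hblk j), ?_⟩
    have h1 := h_BDT n ι d T S η hT (fun j => (hblk j).2.1)
    have h2 : (fun u => ∑ j, η j (S u j)) = supportFn K := funext fun u => (hS u).symm
    rw [h2, (h_SFN n K hcb hcen).2] at h1
    exact h1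
  · rintro ⟨ι, hι, d, B, T, hB, rfl⟩
    obtain ⟨S, hS⟩ := (h_TAJ n ι d).1 T
    have h1 := h_SFT n ι d T S B hS (fun j => (hB j).2.1)
    have hStr : Str (supportFn (T '' Set.pi Set.univ B)) :=
      ⟨ι, hι, d, fun j => supportFn (B j), S, fun j => (h_BL1 _ _ (hB j)).1, h1⟩
    have hcls := h_STB n _ (by omega) hStr
    have h2 := h_BDT n ι d T S (fun j => supportFn (B j)) hS
      (fun j => (h_BL1 _ _ (hB j)).1.2.1)
    have h3 : (fun u => ∑ j, supportFn (B j) (S u j)) = supportFn (T '' Set.pi Set.univ B) :=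
      funext fun u => (h1 u).symm
    have h4 : (fun j => Bd (supportFn (B j))) = B := funext fun j => (h_BL1 _ _ (hB j)).2
    rw [h3, h4] at h2
    refine (h_OEO n _ hn).2 ⟨?_, ?_, hcls⟩
    · obtain ⟨a, b, ha, hab⟩ := hcls.1
      have h5 := Bd_isConvexBody ha hab
      rwa [h2] at h5
    · rintro _ ⟨y, hy, rfl⟩
      refine ⟨-y, ?_, map_neg T y⟩
      intro j hj
      exact (hB j).2.2.1 _ (hy j hj)

end Pool.Agent.PBX
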