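import Pool.Agent.PBX.Targets2

/-! # PBX: R1F, the structure theorem with `Fin k` as index type -/

set_option autoImplicit false

open Set

namespace Pool.Agent.PBX
open Pool.Agent.ProjBody

namespace R1F_

/-- reindexing a product of sets -/
lemma image_congrLeft {n : ℕ} {ι κ : Type} (e : κ ≃ ι) (d : ι → ℕ) (B : ∀ j, Set (E (d j)))
    (T : (∀ j, E (d j)) ≃ₗ[ℝ] E n) :
    ((LinearEquiv.piCongrLeft ℝ (fun i => E (d i)) e).trans T) ''
      Set.pi Set.univ (fun j => B (e j)) = T '' Set.pi Set.univ B := by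
  have key : ∀ (x : ∀ j : κ, E (d (e j))) (j : κ),
      LinearEquiv.piCongrLeft ℝ (fun i => E (d i)) e x (e j) = x j := fun x j =>
    Equiv.piCongrLeft_apply_apply (fun i => E (d i)) e x j
  ext y
  constructor
  · rintro ⟨x, hx, rfl⟩
    refine ⟨LinearEquiv.piCongrLeft ℝ (fun i => E (d i)) e x, ?_, rfl⟩
    intro i _
    obtain ⟨j, rfl⟩ := e.surjective i
    rw [key]
    exact hx j trivial
  · rintro ⟨x, hx, rfl⟩
    refine ⟨(LinearEquiv.piCongrLeft ℝ (fun i => E (d i)) e).symm x, ?_, ?_⟩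
    · intro j _
      have h := key ((LinearEquiv.piCongrLeft ℝ (fun i => E (d i)) e).symm x) j
      rw [LinearEquiv.apply_symm_apply] at h
      rw [← h]
      exact hx (e j) trivial
    · simp

end R1F_

theorem p_R1F (h_R1 : T_R1) : T_R1F := by
  intro n K hn
  rw [h_R1 n K hn]
  constructor
  · rintro ⟨ι, hι, d, B, T, hB, hK⟩
    refine ⟨Fintype.card ι, fun j => d ((Fintype.equivFin ι).symm j),
      fun j => B ((Fintype.equivFin ι).symm j),
      (LinearEquiv.piCongrLeft ℝ (fun i => E (d i)) (Fintype.equivFin ι).symm).trans T,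
      fun j => hB _, ?_⟩
    rw [hK]
    exact (R1F_.image_congrLeft (Fintype.equivFin ι).symm d B T).symm
  · rintro ⟨k, d, B, T, hB, hK⟩
    exact ⟨Fin k, inferInstance, d, B, T, hB, hK⟩

end Pool.Agent.PBX
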