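import Pool.Agent.PBX.Targets2

/-! # PBX, target R2: smooth or direct sum -/

set_option autoImplicit false

open MeasureTheory Module Set Filter Topology
open scoped Pointwise

namespace Pool.Agent.PBX
open Pool.Agent.ProjBody

/-- Target R2. -/
theorem p_R2 (h_OEO : T_OEO) (h_MNA : T_MNA) (h_SMO : T_SMO) (h_SDS : T_SDS) (h_SFN : T_SFN) :
    T_R2 := by
  intro n K hn hK
  haveI : NeZero n := ⟨by omega⟩
  obtain ⟨hb, hc, hcls⟩ := (h_OEO n K (by omega)).1 hK
  obtain ⟨hN, hBd⟩ := h_SFN n K hb hc
  rcases h_MNA n (supportFn K) hn hcls with h | h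
  · right
    have := h_SDS n (supportFn K) hN h
    rwa [hBd] at this
  · left
    have := (h_SMO n (supportFn K) hN).2 h
    rwa [hBd] at this

end Pool.Agent.PBX
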