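import Pool.Agent.PBX.Targets2

/-!
# PBX: the members of the class in dimension three that are not smooth
-/

open MeasureTheory Module Set
open scoped Pointwise

namespace Pool.Agent.PBX
open Pool.Agent.ProjBody

namespace R3_

/-- the line as `E 1` -/
noncomputable def lin1 : ℝ ≃ₗ[ℝ] E 1 where
  toFun t := t • EuclideanSpace.single 0 1
  invFun q := q 0
  left_inv t := by simp
  right_inv q := by
    ext i
    fin_cases i
    simp
  map_add' s t := add_smul _ _ _
  map_smul' s t := by simp [mul_smul]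

theorem lin1_apply (t : ℝ) : lin1 t = t • (EuclideanSpace.single 0 1 : E 1) := rfl

/-- the Euclidean norm of `E 1` -/
def nu (q : E 1) : ℝ := |q 0|

theorem norm1 (q : E 1) : ‖q‖ = |q 0| := by
  rw [EuclideanSpace.norm_eq]
  simp [Real.sqrt_sq_eq_abs]

theorem nu_isN : IsN nu := by
  refine ⟨1, 1, one_pos, ?_, ?_, ?_, ?_⟩
  · intro u v
    simpa [nu] using abs_add_le (u 0) (v 0)
  · intro c u
    simp [nu, abs_mul]
  · intro u
    rw [norm1, nu, one_mul]
  · intro u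
    rw [norm1, nu, one_mul]

theorem single_ne : (EuclideanSpace.single 0 1 : E 1) ≠ 0 := by
  intro h
  have := congrArg (fun q : E 1 => q 0) h
  simp at this

theorem IsN.pos' {n : ℕ} {h : E n → ℝ} (hh : IsN h) {u : E n} (hu : u ≠ 0) : 0 < h u := by
  obtain ⟨a, b, ha, hh⟩ := hh
  exact lt_of_lt_of_le (mul_pos ha (norm_pos_iff.2 hu)) (hh.lo u)

theorem expand (A : (E 2 × ℝ) ≃ₗ[ℝ] E 3) (x : E 3) (p : E 2) (t : ℝ) :
    (inner ℝ x (A (p, t)) : ℝ) = inner ℝ x (A (EuclideanSpace.single 0 1, 0)) * p 0 +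
      inner ℝ x (A (EuclideanSpace.single 1 1, 0)) * p 1 + inner ℝ x (A (0, 1)) * t := by
  have h1 : ((p, t) : E 2 × ℝ) = p 0 • ((EuclideanSpace.single 0 1, 0) : E 2 × ℝ) +
      p 1 • ((EuclideanSpace.single 1 1, 0) : E 2 × ℝ) + t • ((0, 1) : E 2 × ℝ) := by
    ext i
    · fin_cases i <;> simp
    · simp
  rw [h1, map_add, map_add, map_smul, map_smul, map_smul, inner_add_right, inner_add_right,
    inner_smul_right, inner_smul_right, inner_smul_right]
  ring

/-- the dual map -/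
theorem dual (A : (E 2 × ℝ) ≃ₗ[ℝ] E 3) : ∃ T : (E 2 × ℝ) ≃ₗ[ℝ] E 3, ∀ (q p : E 2) (s t : ℝ),
    (inner ℝ (T (q, s)) (A (p, t)) : ℝ) = inner ℝ q p + s * t := by
  let S : E 3 →ₗ[ℝ] (E 2 × ℝ) :=
    { toFun := fun x => (WithLp.toLp 2 ![inner ℝ x (A (EuclideanSpace.single 0 1, 0)),
        inner ℝ x (A (EuclideanSpace.single 1 1, 0))], inner ℝ x (A (0, 1)))
      map_add' := fun x y => by
        ext i
        · fin_cases i <;> simp [inner_add_left]
        · simp [inner_add_left]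
      map_smul' := fun c x => by
        ext i
        · fin_cases i <;> simp [inner_smul_left]
        · simp [inner_smul_left] }
  have hS : ∀ (x : E 3) (p : E 2) (t : ℝ),
      (inner ℝ x (A (p, t)) : ℝ) = inner ℝ (S x).1 p + (S x).2 * t := by
    intro x p t
    have h1 : (inner ℝ (S x).1 p : ℝ) = inner ℝ x (A (EuclideanSpace.single 0 1, 0)) * p 0 +
        inner ℝ x (A (EuclideanSpace.single 1 1, 0)) * p 1 := by
      rw [PiLp.inner_apply, Fin.sum_univ_two, RCLike.inner_apply, RCLike.inner_apply,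
        conj_trivial, conj_trivial]
      have e0 : (S x).1 0 = inner ℝ x (A (EuclideanSpace.single 0 1, 0)) := rfl
      have e1 : (S x).1 1 = inner ℝ x (A (EuclideanSpace.single 1 1, 0)) := rfl
      rw [e0, e1]
      ring
    have h2 : (S x).2 = inner ℝ x (A (0, 1)) := rfl
    rw [expand A x p t, h1, h2]
  have hinj : Function.Injective S := by
    rw [← LinearMap.ker_eq_bot, LinearMap.ker_eq_bot']
    intro x hx
    have h0 : (inner ℝ x (A (A.symm x)) : ℝ) = 0 := by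
      have := hS x (A.symm x).1 (A.symm x).2
      rw [hx] at this
      simpa using this
    rw [LinearEquiv.apply_symm_apply] at h0
    exact inner_self_eq_zero.1 h0
  have hdim : finrank ℝ (E 3) = finrank ℝ (E 2 × ℝ) := by simp
  let e := LinearMap.linearEquivOfInjective S hinj hdim
  refine ⟨e.symm, fun q p s t => ?_⟩
  have h1 : S (e.symm (q, s)) = (q, s) := e.apply_symm_apply (q, s)
  rw [hS, h1]

theorem mem_iff {A T : (E 2 × ℝ) ≃ₗ[ℝ] E 3} {h : E 3 → ℝ} {α : E 2 → ℝ} (hα0 : α 0 = 0)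
    (hd : ∀ (q p : E 2) (s t : ℝ), (inner ℝ (T (q, s)) (A (p, t)) : ℝ) = inner ℝ q p + s * t)
    (hA : ∀ (p : E 2) (t : ℝ), h (A (p, t)) = α p + |t|) (q : E 2) (s : ℝ) :
    T (q, s) ∈ Bd h ↔ q ∈ Bd α ∧ s ∈ Icc (-1 : ℝ) 1 := by
  constructor
  · intro hx
    refine ⟨fun p => ?_, ?_⟩
    · have := hx (A (p, 0))
      rw [hd, hA] at this
      simpa using this
    · have h1 := hx (A (0, 1))
      have h2 := hx (A (0, -1))
      rw [hd, hA, hα0] at h1 h2
      simp only [inner_zero_right, abs_one, abs_neg] at h1 h2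
      constructor <;> linarith
  · rintro ⟨hq, hs⟩ u
    have h1 := hd q (A.symm u).1 s (A.symm u).2
    have h2 := hA (A.symm u).1 (A.symm u).2
    have h3 : A ((A.symm u).1, (A.symm u).2) = u := A.apply_symm_apply u
    rw [h3] at h1 h2
    rw [h1, h2]
    have h4 : s * (A.symm u).2 ≤ |(A.symm u).2| := by
      calc s * (A.symm u).2 ≤ |s * (A.symm u).2| := le_abs_self _
        _ = |s| * |(A.symm u).2| := abs_mul _ _
        _ ≤ 1 * |(A.symm u).2| := by
            apply mul_le_mul_of_nonneg_right (abs_le.2 hs) (abs_nonneg _)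
        _ = _ := one_mul _
    have := hq (A.symm u).1
    linarith

theorem bd_eq {A T : (E 2 × ℝ) ≃ₗ[ℝ] E 3} {h : E 3 → ℝ} {α : E 2 → ℝ} (hα0 : α 0 = 0)
    (hd : ∀ (q p : E 2) (s t : ℝ), (inner ℝ (T (q, s)) (A (p, t)) : ℝ) = inner ℝ q p + s * t)
    (hA : ∀ (p : E 2) (t : ℝ), h (A (p, t)) = α p + |t|) :
    Bd h = T '' (Bd α ×ˢ Icc (-1 : ℝ) 1) := by
  ext x
  rw [Set.mem_image]
  constructor
  · intro hx
    have h3 : T ((T.symm x).1, (T.symm x).2) = x := T.apply_symm_apply x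
    rw [← h3, mem_iff hα0 hd hA] at hx
    exact ⟨_, Set.mk_mem_prod hx.1 hx.2, h3⟩
  · rintro ⟨⟨q, s⟩, hqs, rfl⟩
    exact (mem_iff hα0 hd hA q s).2 hqs

theorem neg_mem {n : ℕ} {h : E n → ℝ} (hh : IsN h) : ∀ x ∈ Bd h, -x ∈ Bd h := by
  obtain ⟨a, b, _, hh⟩ := hh
  intro x hx u
  have h1 := hx (-u)
  have h2 := hh.smul (-1) u
  rw [neg_one_smul, abs_neg, abs_one, one_mul] at h2
  rw [inner_neg_left, ← inner_neg_right, ← h2]
  exact h1

theorem isN_zero {n : ℕ} {h : E n → ℝ} (hh : IsN h) : h 0 = 0 := by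
  obtain ⟨a, b, _, hh⟩ := hh
  exact hh.zero

/-- from a splitting of a norm to coordinates `E 2 × ℝ` -/
theorem coords (h_SPD : T_SPD) (h : E 3 → ℝ) (hN : IsN h) (hs : Split h) :
    ∃ (A : (E 2 × ℝ) ≃ₗ[ℝ] E 3) (α : E 2 → ℝ), IsN α ∧
      ∀ (p : E 2) (t : ℝ), h (A (p, t)) = α p + |t| := by
  suffices hsuf : ∃ (A : (E 2 × ℝ) ≃ₗ[ℝ] E 3) (α : E 2 → ℝ) (c : ℝ), IsN α ∧ 0 < c ∧
      ∀ (p : E 2) (t : ℝ), h (A (p, t)) = α p + |t| * c by
    obtain ⟨A, α, c, hα, hc, hA⟩ := hsuf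
    refine ⟨((LinearEquiv.refl ℝ (E 2)).prodCongr
      (LinearEquiv.smulOfNeZero ℝ ℝ c⁻¹ (inv_ne_zero hc.ne'))).trans A, α, hα, ?_⟩
    intro p t
    have := hA p (c⁻¹ • t)
    simp only [LinearEquiv.trans_apply, LinearEquiv.prodCongr_apply, LinearEquiv.refl_apply,
      LinearEquiv.smulOfNeZero_apply]
    rw [this, smul_eq_mul, abs_mul, abs_of_pos (inv_pos.2 hc)]
    field_simp
  obtain ⟨a, b, T, α, β, ha, hb, hα, hβ, hT⟩ := h_SPD 3 h hN hs
  have hab : a + b = 3 := by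
    have := T.toLinearEquiv.finrank_eq
    simpa using this
  have hcase : (a = 2 ∧ b = 1) ∨ (a = 1 ∧ b = 2) := by omega
  rcases hcase with ⟨rfl, rfl⟩ | ⟨rfl, rfl⟩
  · obtain ⟨a', b', _, hβ'⟩ := id hβ
    refine ⟨(((LinearEquiv.refl ℝ (E 2)).prodCongr lin1).trans (jnL 2 1)).trans
      T.toLinearEquiv, α, β (EuclideanSpace.single 0 1), hα, IsN.pos' hβ single_ne, ?_⟩
    intro p t
    have h1 := hT (jn p (t • EuclideanSpace.single 0 1))
    rw [dsum, prL_jn, prR_jn, hβ'.smul] at h1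
    exact h1
  · obtain ⟨a', b', _, hα'⟩ := id hα
    refine ⟨(((LinearEquiv.prodComm ℝ (E 2) ℝ).trans
      (lin1.prodCongr (LinearEquiv.refl ℝ (E 2)))).trans (jnL 1 2)).trans
      T.toLinearEquiv, β, α (EuclideanSpace.single 0 1), hβ, IsN.pos' hα single_ne, ?_⟩
    intro p t
    have h1 := hT (jn (t • EuclideanSpace.single 0 1) p)
    rw [dsum, prL_jn, prR_jn, hα'.smul] at h1
    exact h1.trans (add_comm _ _)

end R3_

open R3_ in
theorem p_R3 (h_OEO : T_OEO) (h_MNA : T_MNA) (h_SMO : T_SMO) (h_SPD : T_SPD) (h_CL1 : T_CL1)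
    (h_CL2 : T_CL2) (h_CDS : T_CDS) (h_CLT : T_CLT) (h_SFN : T_SFN) : T_R3 := by
  intro K
  constructor
  · rintro ⟨hK, hns⟩
    obtain ⟨hcb, hcen, hcls⟩ := (h_OEO 3 K (by norm_num)).1 hK
    obtain ⟨hN, hBd⟩ := h_SFN 3 K hcb hcen
    have hspl : Split (supportFn K) := by
      rcases h_MNA 3 (supportFn K) le_rfl hcls with h | h
      · exact h
      · exfalso
        apply hns
        rw [← hBd]
        exact (h_SMO 3 (supportFn K) hN).2 h
    obtain ⟨A, α, hα, hA⟩ := coords h_SPD (supportFn K) hN hspl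
    obtain ⟨T, hT⟩ := dual A
    have h1 := bd_eq (isN_zero hα) hT hA
    obtain ⟨a', b', ha', hα'⟩ := id hα
    refine ⟨Bd α, T, Bd_isConvexBody ha' hα', neg_mem hα, ?_⟩
    rw [← h1, hBd]
  · rintro ⟨Q, T, hQ, hQc, rfl⟩
    obtain ⟨hη, hBη⟩ := h_SFN 2 Q hQ hQc
    obtain ⟨A, hA'⟩ := dual T
    have hA : ∀ (q p : E 2) (s t : ℝ),
        (inner ℝ (T (q, s)) (A (p, t)) : ℝ) = inner ℝ q p + s * t := by
      intro q p s t
      rw [real_inner_comm, hA', real_inner_comm q p, mul_comm]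
    set η := supportFn Q with hηd
    let h0 : E 3 → ℝ := fun u => η (A.symm u).1 + |(A.symm u).2|
    have hh0 : ∀ (p : E 2) (t : ℝ), h0 (A (p, t)) = η p + |t| := by
      intro p t
      simp [h0]
    have hcls : Cls h0 := by
      have h1 : Cls (dsum η nu : E (2 + 1) → ℝ) := h_CDS 2 1 η nu (h_CL2 η hη) (h_CL1 nu nu_isN)
      have h2 := h_CLT (2 + 1) 3 ((A.symm.trans
        (((LinearEquiv.refl ℝ (E 2)).prodCongr lin1).trans (jnL 2 1))).toContinuousLinearEquiv)
        (dsum η nu) h1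
      have h3 : (fun u => dsum η nu ((A.symm.trans
          (((LinearEquiv.refl ℝ (E 2)).prodCongr lin1).trans (jnL 2 1))).toContinuousLinearEquiv
          u)) = h0 := by
        funext u
        show η (prL (jn (A.symm u).1 (lin1 (A.symm u).2))) +
          nu (prR (jn (A.symm u).1 (lin1 (A.symm u).2))) = _
        rw [prL_jn, prR_jn, lin1_apply]
        simp [nu, h0]
      rw [h3] at h2
      exact h2
    have hN0 : IsN h0 := hcls.1
    have hBd : Bd h0 = T '' (Q ×ˢ Icc (-1 : ℝ) 1) := by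
      rw [bd_eq (isN_zero hη) hA hh0, hBη]
    rw [← hBd]
    obtain ⟨a', b', ha', hN0'⟩ := id hN0
    have hsup : supportFn (Bd h0) = h0 := funext fun u => supportFn_Bd ha' hN0' u
    refine ⟨(h_OEO 3 (Bd h0) (by norm_num)).2
      ⟨Bd_isConvexBody ha' hN0', neg_mem hN0, by rw [hsup]; exact hcls⟩, ?_⟩
    intro hsm
    have hst := (h_SMO 3 h0 hN0).1 hsm
    have hu : A ((0 : E 2), (1 : ℝ)) ≠ 0 := by
      rw [Ne, LinearEquiv.map_eq_zero_iff, Prod.mk_eq_zero]
      simp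
    have he : (EuclideanSpace.single 0 1 : E 2) ≠ 0 := by
      intro h
      have := congrArg (fun q : E 2 => q 0) h
      simp at this
    have hv : A ((EuclideanSpace.single 0 1 : E 2), (0 : ℝ)) ≠ 0 := by
      rw [Ne, LinearEquiv.map_eq_zero_iff, Prod.mk_eq_zero]
      exact fun h => he h.1
    obtain ⟨c, _, hc⟩ := hst _ _ hu hv (by
      rw [← map_add, Prod.mk_add_mk, hh0, hh0, hh0, isN_zero hη]
      simp [add_comm])
    rw [← map_smul] at hc
    have := A.injective hc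
    rw [Prod.smul_mk, smul_zero, Prod.mk.injEq] at this
    exact he this.1

end Pool.Agent.PBX
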