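import Pool.Agent.PBX.Targets2

/-! # PBX: members with a vertex (T_R4) -/

open MeasureTheory Module Set Filter Topology
open scoped Pointwise

namespace Pool.Agent.PBX.R4_
open Pool.Agent.ProjBody

variable {n : ℕ}

theorem inner_le (B : Set (E n)) (hB : IsCompact B) (p : E n) {y : E n} (hy : y ∈ B) :
    (inner ℝ y p : ℝ) ≤ supportFn B p := by
  refine le_csSup ?_ ⟨y, hy, rfl⟩
  exact (hB.image (by fun_prop : Continuous fun x : E n => (inner ℝ x p : ℝ))).bddAbove

theorem scale_eq (B : Set (E n)) (hB : IsCompact B) (p x : E n) (hx : x ∈ B)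
    (h : (inner ℝ x p : ℝ) = supportFn B p) (c : ℝ) (hc : 0 ≤ c) :
    (inner ℝ x (c • p) : ℝ) = supportFn B (c • p) := by
  symm
  refine IsGreatest.csSup_eq ⟨⟨x, hx, rfl⟩, ?_⟩
  rintro _ ⟨y, hy, rfl⟩
  show (inner ℝ y (c • p) : ℝ) ≤ inner ℝ x (c • p)
  rw [real_inner_smul_right, real_inner_smul_right, h]
  exact mul_le_mul_of_nonneg_left (inner_le B hB p hy) hc

/-- all normals of a smooth body at one point are on one line -/
theorem line (B : Set (E n)) (hB : IsCompact B) (hS : IsSmooth B) (x p q : E n) (hx : x ∈ B)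
    (hp : (inner ℝ x p : ℝ) = supportFn B p) (hq : (inner ℝ x q : ℝ) = supportFn B q)
    (hp0 : p ≠ 0) : q ∈ Submodule.span ℝ {p} := by
  rcases eq_or_ne q 0 with h0 | hq0
  · rw [h0]
    exact Submodule.zero_mem _
  have hpn : 0 < ‖p‖ := norm_pos_iff.2 hp0
  have hqn : 0 < ‖q‖ := norm_pos_iff.2 hq0
  have h1 : ‖p‖⁻¹ • p = ‖q‖⁻¹ • q := by
    refine hS x hx _ _ ?_ ?_ (scale_eq B hB p x hx hp _ (inv_nonneg.2 hpn.le))
      (scale_eq B hB q x hx hq _ (inv_nonneg.2 hqn.le))
    · rw [norm_smul, norm_inv, norm_norm, inv_mul_cancel₀ hpn.ne']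
    · rw [norm_smul, norm_inv, norm_norm, inv_mul_cancel₀ hqn.ne']
  rw [Submodule.mem_span_singleton]
  refine ⟨‖q‖ * ‖p‖⁻¹, ?_⟩
  rw [mul_smul, h1, smul_smul, mul_inv_cancel₀ hqn.ne', one_smul]

end Pool.Agent.PBX.R4_

namespace Pool.Agent.PBX
open Pool.Agent.ProjBody
open R4_

theorem p_R4 (h_R1F : T_R1F) (h_TAJ : T_TAJ) (h_SFT : T_SFT) : T_R4 := by
  intro n K hn hV
  rw [h_R1F n K hn]
  constructor
  · rintro ⟨k, d, B, T, hB, rfl⟩
    refine ⟨k, d, B, T, fun j => ⟨?_, (hB j).2.1, (hB j).2.2.1⟩, rfl⟩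
    by_contra hcon
    have h3 : 3 ≤ d j := by
      have := (hB j).1
      omega
    have hsm : IsSmooth (B j) := ((hB j).2.2.2 h3).1
    obtain ⟨S, hS⟩ := (h_TAJ n (Fin k) d).1 T
    have hsf := h_SFT n (Fin k) d T S B hS (fun j => (hB j).2.1)
    obtain ⟨x₀, hx₀, u, hu, hxu⟩ := hV
    obtain ⟨x, hx, rfl⟩ := hx₀
    have hxB : ∀ l, x l ∈ B l := fun l => hx l (mem_univ l)
    have hle : ∀ (v : E n) (l : Fin k), (inner ℝ (x l) (S v l) : ℝ) ≤ supportFn (B l) (S v l) :=
      fun v l => inner_le (B l) (hB l).2.1.1 _ (hxB l)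
    have heq : ∀ i, (inner ℝ (x j) (S (u i) j) : ℝ) = supportFn (B j) (S (u i) j) := by
      intro i
      have h1 := hxu i
      rw [hS, hsf] at h1
      exact (Finset.sum_eq_sum_iff_of_le fun l _ => hle (u i) l).1 h1 j (Finset.mem_univ j)
    -- the coordinate map
    let φ : E n →ₗ[ℝ] E (d j) := (LinearMap.proj j).comp S.toLinearMap
    have hφ : Function.Surjective φ := by
      intro y
      refine ⟨S.symm (Pi.single j y), ?_⟩
      show S (S.symm (Pi.single j y)) j = y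
      rw [LinearEquiv.apply_symm_apply, Pi.single_eq_same]
    have hspan : Submodule.span ℝ (range u) = ⊤ := by
      apply hu.span_eq_top_of_card_eq_finrank'
      simp
    have htop : Submodule.span ℝ (φ '' range u) = ⊤ := by
      rw [← Submodule.map_span, hspan, Submodule.map_top, LinearMap.range_eq_top]
      exact hφ
    have hfin : finrank ℝ (⊤ : Submodule ℝ (E (d j))) = d j := by
      rw [finrank_top]
      simp
    by_cases hz : ∀ i, φ (u i) = 0
    · have h0 : Submodule.span ℝ (φ '' range u) = ⊥ := by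
        rw [Submodule.span_eq_bot]
        rintro _ ⟨_, ⟨i, rfl⟩, rfl⟩
        exact hz i
      rw [← htop, h0, finrank_bot] at hfin
      omega
    · push Not at hz
      obtain ⟨i₀, hi₀⟩ := hz
      have h1 : Submodule.span ℝ (φ '' range u) ≤ Submodule.span ℝ {φ (u i₀)} := by
        rw [Submodule.span_le]
        rintro _ ⟨_, ⟨i, rfl⟩, rfl⟩
        exact line (B j) (hB j).2.1.1 hsm (x j) _ _ (hxB j) (heq i₀) (heq i) hi₀
      rw [htop, top_le_iff] at h1
      have h2 := finrank_span_singleton (K := ℝ) hi₀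
      rw [h1, hfin] at h2
      omega
  · rintro ⟨k, d, B, T, hB, rfl⟩
    refine ⟨k, d, B, T, fun j => ⟨?_, (hB j).2.1, (hB j).2.2, ?_⟩, rfl⟩
    · rcases (hB j).1 with h | h <;> omega
    · intro h3
      rcases (hB j).1 with h | h <;> omega

end Pool.Agent.PBX
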