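import Pool.Agent.PBX.Targets

/-! # PBX, target RAD: difference quotients of a Lipschitz function of bounded support -/

open MeasureTheory Module Set Filter
open scoped Pointwise Topology NNReal

namespace Pool.Agent.PBX
open Pool.Agent.ProjBody

namespace RAD_

theorem diff_bound {n : ℕ} {f : E n → ℝ} {L : NNReal} (hf : LipschitzWith L f) (u : E n) (k : ℕ)
    (x : E n) : ((k : ℝ) + 1) * |f (x + ((k : ℝ) + 1)⁻¹ • u) - f x| ≤ L * ‖u‖ := by
  have hk : (0 : ℝ) < (k : ℝ) + 1 := by positivity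
  have h1 := hf.dist_le_mul (x + ((k : ℝ) + 1)⁻¹ • u) x
  rw [Real.dist_eq, dist_eq_norm, add_sub_cancel_left, norm_smul, norm_inv,
    Real.norm_of_nonneg hk.le] at h1
  calc ((k : ℝ) + 1) * |f (x + ((k : ℝ) + 1)⁻¹ • u) - f x|
      ≤ ((k : ℝ) + 1) * (L * (((k : ℝ) + 1)⁻¹ * ‖u‖)) := mul_le_mul_of_nonneg_left h1 hk.le
    _ = L * ‖u‖ := by field_simp

theorem norm_small {n : ℕ} (u : E n) (k : ℕ) : ‖((k : ℝ) + 1)⁻¹ • u‖ ≤ ‖u‖ := by
  have hk : (0 : ℝ) < (k : ℝ) + 1 := by positivity
  rw [norm_smul, norm_inv, Real.norm_of_nonneg hk.le]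
  have h2 : ((k : ℝ) + 1)⁻¹ ≤ 1 := by
    apply inv_le_one_of_one_le₀
    have : (0 : ℝ) ≤ k := Nat.cast_nonneg k
    linarith
  calc ((k : ℝ) + 1)⁻¹ * ‖u‖ ≤ 1 * ‖u‖ := mul_le_mul_of_nonneg_right h2 (norm_nonneg _)
    _ = ‖u‖ := one_mul _

end RAD_

theorem p_RAD : T_RAD := by
  intro n f L R hf hR u
  have hc : Continuous f := hf.continuous
  have key : Tendsto (fun k : ℕ => ∫ x, ((k : ℝ) + 1) * |f (x + ((k : ℝ) + 1)⁻¹ • u) - f x|) atTop
      (𝓝 (∫ x, |fderiv ℝ f x u|)) := by
    apply tendsto_integral_of_dominated_convergence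
      (Set.indicator (Metric.closedBall (0 : E n) (R + ‖u‖)) (fun _ => (L : ℝ) * ‖u‖))
    · intro k
      have : Continuous fun x : E n => ((k : ℝ) + 1) * |f (x + ((k : ℝ) + 1)⁻¹ • u) - f x| := by
        fun_prop
      exact this.aestronglyMeasurable
    · refine (integrable_indicator_iff Metric.isClosed_closedBall.measurableSet).2 ?_
      refine integrableOn_const ?_
      exact (isCompact_closedBall (0 : E n) (R + ‖u‖)).measure_lt_top.ne
    · intro k
      refine Filter.Eventually.of_forall fun x => ?_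
      have h0 : (0 : ℝ) ≤ ((k : ℝ) + 1) * |f (x + ((k : ℝ) + 1)⁻¹ • u) - f x| := by positivity
      rw [Real.norm_of_nonneg h0]
      by_cases hx : x ∈ Metric.closedBall (0 : E n) (R + ‖u‖)
      · rw [Set.indicator_of_mem hx]
        exact RAD_.diff_bound hf u k x
      · rw [Set.indicator_of_notMem hx]
        have hx' : R + ‖u‖ < ‖x‖ := by simpa using hx
        have h1 : f x = 0 := hR x (by linarith [norm_nonneg u])
        have h2 : f (x + ((k : ℝ) + 1)⁻¹ • u) = 0 := by
          apply hR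
          have h3 := norm_sub_norm_le x (-(((k : ℝ) + 1)⁻¹ • u))
          rw [norm_neg, sub_neg_eq_add] at h3
          have h4 := RAD_.norm_small u k
          linarith
        rw [h1, h2]
        simp
    · filter_upwards [hf.ae_differentiableAt (μ := (volume : Measure (E n)))] with x hx
      have hl : Tendsto (fun k : ℕ => ‖((k : ℝ) + 1)‖) atTop atTop := by
        refine tendsto_norm_atTop_atTop.comp ?_
        exact tendsto_atTop_add_const_right _ _ tendsto_natCast_atTop_atTop
      have h1 := hx.hasFDerivAt.lim u hl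
      have h2 := h1.abs
      refine h2.congr fun k => ?_
      have hk : (0 : ℝ) < (k : ℝ) + 1 := by positivity
      rw [smul_eq_mul, abs_mul, abs_of_pos hk]
  refine key.congr fun k => ?_
  exact integral_const_mul _ _

end Pool.Agent.PBX
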