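import Pool.Agent.PBX.Targets

/-!
# PBX: roundness, one step (target T_RND)
-/

open MeasureTheory Module Set Filter Topology
open scoped Pointwise

namespace Pool.Agent.PBX
open Pool.Agent.ProjBody

/-- Roundness, one step. -/
theorem p_RND : T_RND := by
  intro n _ h r R hN hr hP
  have hk := kap_pos n
  have hnpos : (0 : ℝ) < n := by exact_mod_cast NeZero.pos n
  have hR : 0 < R := hP.b_nonneg hr
  set k := kap n with hkdef
  obtain ⟨T, hT⟩ := near_auerbach hN
  have hg : Nm (1 : ℝ) n (fun u => h (T u)) := by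
    obtain ⟨a0, b0, ha0, hh⟩ := hN
    constructor
    · intro u v; simp only [map_add]; exact hh.add _ _
    · intro c u; simp only [map_smul]; exact hh.smul _ _
    · intro u; rw [one_mul]; exact (hT u).1
    · intro u; exact (hT u).2
  have hPg := P_Nm one_pos hg
  rw [one_pow, mul_one] at hPg
  set d := dt (adj T) with hd
  have hd0 : 0 < d := dt_pos _
  have hrel : ∀ v, P (fun u => h (T u)) (adj T v) = d * P h v := by
    intro v
    rw [P_comp, ContinuousLinearEquiv.symm_apply_apply]
  have h1 : ∀ v, k * ‖adj T v‖ ≤ d * (R * ‖v‖) := by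
    intro v
    refine (hPg.lo (adj T v)).trans ?_
    rw [hrel]
    gcongr
    exact hP.hi v
  have h2 : ∀ v, d * (r * ‖v‖) ≤ k * (n : ℝ) ^ (n - 1) * ‖adj T v‖ := by
    intro v
    refine le_trans ?_ (hPg.hi (adj T v))
    rw [hrel]
    gcongr
    exact hP.lo v
  set C : ℝ := d * R / k with hC
  have hC0 : 0 < C := by positivity
  set c : ℝ := d * r / (k * (n : ℝ) ^ (n - 1)) with hc
  have hc0 : 0 < c := by positivity
  have h9 : ∀ v, ‖adj T v‖ ≤ C * ‖v‖ := by
    intro v
    have := h1 v
    rw [hC, div_mul_eq_mul_div, le_div_iff₀ hk]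
    linarith
  have h10 : ∀ v, ‖(adj T).symm v‖ ≤ (1 / c) * ‖v‖ := by
    intro v
    have := h2 ((adj T).symm v)
    rw [ContinuousLinearEquiv.apply_symm_apply] at this
    rw [one_div, ← div_eq_inv_mul, le_div_iff₀ hc0, hc, mul_div_assoc', div_le_iff₀ (by positivity)]
    linarith
  have h11 := norm_le_of_adj h9
  have h12 := norm_symm_le_of_adj h10
  obtain ⟨a0, b0, ha0, hh⟩ := hN
  refine ⟨1 / C, n / c, by positivity, ⟨hh.add, hh.smul, ?_, ?_⟩, le_of_eq ?_⟩
  · intro w
    have e1 := (hT (T.symm w)).1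
    rw [ContinuousLinearEquiv.apply_symm_apply] at e1
    have e2 := h11 (T.symm w)
    rw [ContinuousLinearEquiv.apply_symm_apply] at e2
    rw [div_mul_eq_mul_div, one_mul, div_le_iff₀ hC0]
    nlinarith
  · intro w
    have e1 := (hT (T.symm w)).2
    rw [ContinuousLinearEquiv.apply_symm_apply] at e1
    calc h w ≤ n * ‖T.symm w‖ := e1
      _ ≤ n * (1 / c * ‖w‖) := by gcongr; exact h12 w
      _ = n / c * ‖w‖ := by ring
  · have hnn : (n : ℝ) ^ n = (n : ℝ) ^ (n - 1) * n := by
      rw [← pow_succ]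
      congr 1
      have := NeZero.pos n
      omega
    rw [hnn, hc, hC]
    field_simp

end Pool.Agent.PBX
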