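import Pool.Agent.PBX.Targets

/-! # PBX-RNI: roundness iterated (helper86) -/

set_option autoImplicit false

namespace Pool.Agent.PBX
open Pool.Agent.ProjBody

theorem p_RNI (h_RND : T_RND) : T_RNI := by
  intro n _ h i
  induction i generalizing h with
  | zero =>
    intro r R _ hr hNm
    refine ⟨r, R, hr, hNm, ?_⟩
    rw [pow_zero, one_mul, div_mul_cancel₀ _ hr.ne']
  | succ i ih =>
    intro r R hN hr hNm
    obtain ⟨r1, R1, hr1, hNm1, h1⟩ := ih (P h) r R hN.P hr (by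
      rw [← Function.iterate_succ_apply]
      exact hNm)
    obtain ⟨r', R', hr', hNm', h2⟩ := h_RND n h r1 R1 hN hr1 hNm1
    refine ⟨r', R', hr', hNm', h2.trans ?_⟩
    have h3 : R1 / r1 ≤ ((n : ℝ) ^ n) ^ i * (R / r) := by
      rw [div_le_iff₀ hr1]
      exact h1
    have h4 : (0 : ℝ) ≤ (n : ℝ) ^ n := by positivity
    calc (n : ℝ) ^ n * (R1 / r1) * r' ≤ (n : ℝ) ^ n * (((n : ℝ) ^ n) ^ i * (R / r)) * r' := by
          exact mul_le_mul_of_nonneg_right (mul_le_mul_of_nonneg_left h3 h4) hr'.le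
      _ = ((n : ℝ) ^ n) ^ (i + 1) * (R / r) * r' := by ring

end Pool.Agent.PBX
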