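import Pool.Agent.PBX.Targets2

/-!
# PBX: solving for the scaling factors
-/

set_option autoImplicit false

namespace Pool.Agent.PBX
open Pool.Agent.ProjBody

theorem p_SCS : T_SCS := by
  intro a b va vb x y ha hb hva hvb hx hy
  obtain ⟨a', rfl⟩ : ∃ a', a = a' + 1 := ⟨a - 1, by omega⟩
  obtain ⟨b', rfl⟩ : ∃ b', b = b' + 1 := ⟨b - 1, by omega⟩
  simp only [Nat.add_sub_cancel]
  have hX : 0 < x / vb := div_pos hx hvb
  have hY : 0 < y / va := div_pos hy hva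
  obtain ⟨k, hk⟩ : ∃ k, k = (x / vb) / (y / va) := ⟨_, rfl⟩
  have hk0 : 0 < k := by rw [hk]; exact div_pos hX hY
  have hZ : 0 < (x / vb) / k ^ (b' + 1) := div_pos hX (pow_pos hk0 _)
  obtain ⟨s, hs0, hs⟩ : ∃ s : ℝ, 0 < s ∧ s ^ (a' + b' + 1) = (x / vb) / k ^ (b' + 1) :=
    ⟨((x / vb) / k ^ (b' + 1)) ^ (((a' + b' + 1 : ℕ) : ℝ)⁻¹), Real.rpow_pos_of_pos hZ _,
      Real.rpow_inv_natCast_pow hZ.le (Nat.succ_ne_zero _)⟩
  refine ⟨s, k * s, hs0, mul_pos hk0 hs0, ?_, ?_⟩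
  · have e : s ^ a' * ((k * s) ^ (b' + 1) * vb) = s ^ (a' + b' + 1) * k ^ (b' + 1) * vb := by ring
    rw [e, hs, div_mul_cancel₀ _ (pow_pos hk0 _).ne', div_mul_cancel₀ _ hvb.ne']
  · have e : (k * s) ^ b' * (s ^ (a' + 1) * va) = s ^ (a' + b' + 1) * k ^ b' * va := by ring
    have e2 : (x / vb) / k ^ (b' + 1) * k ^ b' = (x / vb) / k := by
      rw [pow_succ]
      field_simp
    have e3 : (x / vb) / k = y / va := by
      rw [hk]
      field_simp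
    rw [e, hs, e2, e3, div_mul_cancel₀ _ hva.ne']

end Pool.Agent.PBX
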