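import Pool.Agent.PBX.Targets

/-!
# PBX: symmetric difference of a convex body and its translate
-/

open MeasureTheory Module Set
open scoped Pointwise

namespace Pool.Agent.PBX
open Pool.Agent.ProjBody

namespace SDF_
variable {n : ℕ}

theorem br_dil {K : Set (E n)} {u : E n} (hu : u ≠ 0) {c : ℝ} (hc : 0 ≤ c) :
    br (c • K) u = c ^ (n - 1) * br K u := by
  have h3 : finrank ℝ (ℝ ∙ u)ᗮ = n - 1 := by
    have e1 := (ℝ ∙ u).finrank_add_finrank_orthogonal
    rw [finrank_span_singleton hu, finrank_euclideanSpace_fin] at e1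
    omega
  unfold br
  rw [image_smul_set, Measure.addHaar_smul, h3, ENNReal.toReal_mul,
    ENNReal.toReal_ofReal (abs_nonneg _), abs_of_nonneg (by positivity)]

theorem fib {S : Set ℝ} (hc : IsCompact S) (hv : Convex ℝ S) {t s : ℝ}
    (h1 : s - t / 2 ∈ S) (h2 : s + t / 2 ∈ S) :
    ENNReal.ofReal t ≤ volume {r : ℝ | r + t ∈ S ∧ r ∉ S} := by
  have h0 : S = Icc (sInf S) (sSup S) :=
    eq_Icc_of_connected_compact ⟨⟨_, h1⟩, hv.isPreconnected⟩ hc
  set a := sInf S
  set b := sSup S
  rw [h0] at h1 h2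
  have h3 : Ico (a - t) a ⊆ {r : ℝ | r + t ∈ S ∧ r ∉ S} := by
    intro r hr
    rw [h0]
    refine ⟨⟨by linarith [hr.1], by linarith [hr.2, h1.1, h2.2]⟩, fun h => ?_⟩
    exact absurd h.1 (not_le.2 hr.2)
  refine le_trans ?_ (measure_mono h3)
  rw [Real.volume_Ico]
  exact le_of_eq (by congr 1; ring)

theorem fib_compact {K : Set (E n)} (hK : IsCompact K) {v : E n} (hv : ‖v‖ = 1)
    (y : (ℝ ∙ v)ᗮ) : IsCompact {s : ℝ | s • v + (y : E n) ∈ K} := by
  have hcomp : IsCompact ((fun x : E n => inner ℝ v x) '' K) := hK.image (by fun_prop)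
  have hcl : IsClosed {s : ℝ | s • v + (y : E n) ∈ K} :=
    hK.isClosed.preimage (f := fun s : ℝ => s • v + (y : E n)) (by fun_prop)
  refine hcomp.of_isClosed_subset hcl ?_
  intro s hs
  refine ⟨_, hs, ?_⟩
  have hvy : inner ℝ v (y : E n) = 0 := by
    have := y.2
    rw [Submodule.mem_orthogonal_singleton_iff_inner_right] at this
    exact this
  show inner ℝ v (s • v + (y : E n)) = s
  rw [inner_add_right, hvy, inner_smul_right, real_inner_self_eq_norm_sq, hv]
  ring

theorem fib_convex {K : Set (E n)} (hc : Convex ℝ K) (v y : E n) :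
    Convex ℝ {s : ℝ | s • v + y ∈ K} := by
  intro a ha b hb p q hp hq hpq
  have h := hc ha hb hp hq hpq
  have h2 : p • (a • v + y) + q • (b • v + y) = (p • a + q • b) • v + y := by
    have h3 : y = p • y + q • y := by rw [← add_smul, hpq, one_smul]
    have h4 : (p • a + q • b) • v + y = (p • a + q • b) • v + (p • y + q • y) := by rw [← h3]
    rw [h4]
    simp only [smul_eq_mul, add_smul, mul_smul, smul_add]
    abel
  rw [h2] at h
  exact h

theorem low {K : Set (E n)} (hK : IsCompact K) (hc : Convex ℝ K) {L : Set (E n)}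
    (hL : IsCompact L) {v : E n} (hv : ‖v‖ = 1) {t : ℝ}
    (h : ∀ x ∈ L, x + (t / 2) • v ∈ K ∧ x - (t / 2) • v ∈ K) :
    ENNReal.ofReal t * volume ((ℝ ∙ v)ᗮ.orthogonalProjectionOnto '' L) ≤
      volume ({x | x + t • v ∈ K} \ K) := by
  have hP : MeasurableSet ((ℝ ∙ v)ᗮ.orthogonalProjectionOnto '' L) :=
    (hL.image (by fun_prop)).measurableSet
  have hK' : MeasurableSet ({x : E n | x + t • v ∈ K} \ K) :=
    (hK.measurableSet.preimage (by fun_prop : Measurable fun x : E n => x + t • v)).diff
      hK.measurableSet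
  rw [volume_eq_lintegral v hv hK', ← lintegral_indicator_const hP]
  apply lintegral_mono
  intro y
  by_cases hy : y ∈ (ℝ ∙ v)ᗮ.orthogonalProjectionOnto '' L
  · rw [indicator_of_mem hy]
    obtain ⟨x, hx, hxy⟩ := hy
    have hx2 : (inner ℝ v x : ℝ) • v + (y : E n) = x := by
      have h1 := (ℝ ∙ v).starProjection_add_starProjection_orthogonal x
      rw [Submodule.starProjection_unit_singleton ℝ hv x] at h1
      have h2 : (ℝ ∙ v)ᗮ.starProjection x = (y : E n) := by
        rw [← hxy]; rfl
      rw [h2] at h1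
      exact h1
    have hset : {s : ℝ | s • v + (y : E n) ∈ {x : E n | x + t • v ∈ K} \ K} =
        {r : ℝ | r + t ∈ {s : ℝ | s • v + (y : E n) ∈ K} ∧
          r ∉ {s : ℝ | s • v + (y : E n) ∈ K}} := by
      ext r
      have h3 : (r + t) • v + (y : E n) = r • v + (y : E n) + t • v := by
        rw [add_smul]; abel
      show (r • v + (y : E n) + t • v ∈ K ∧ ¬ (r • v + (y : E n) ∈ K)) ↔
        ((r + t) • v + (y : E n) ∈ K ∧ ¬ (r • v + (y : E n) ∈ K))
      rw [h3]
    show ENNReal.ofReal t ≤ volume {s : ℝ | s • v + (y : E n) ∈ {x : E n | x + t • v ∈ K} \ K}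
    rw [hset]
    apply fib (fib_compact hK hv y) (fib_convex hc v y) (s := inner ℝ v x)
    · show ((inner ℝ v x : ℝ) - t / 2) • v + (y : E n) ∈ K
      have h4 : ((inner ℝ v x : ℝ) - t / 2) • v + (y : E n) = x - (t / 2) • v := by
        rw [sub_smul]
        nth_rewrite 2 [← hx2]
        abel
      rw [h4]
      exact (h x hx).2
    · show ((inner ℝ v x : ℝ) + t / 2) • v + (y : E n) ∈ K
      have h4 : ((inner ℝ v x : ℝ) + t / 2) • v + (y : E n) = x + (t / 2) • v := by
        rw [add_smul]
        nth_rewrite 2 [← hx2]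
        abel
      rw [h4]
      exact (h x hx).1
  · rw [indicator_of_notMem hy]
    exact bot_le

theorem translate_volume (K : Set (E n)) (u : E n) :
    volume {x : E n | x + u ∈ K} = volume K :=
  measure_preimage_add_right volume u K

theorem symm_eq {K : Set (E n)} (hK : IsCompact K) (u : E n) :
    (volume (symmDiff K {x | x + u ∈ K})).toReal =
      2 * (volume ({x | x + u ∈ K} \ K)).toReal := by
  have hKm := hK.measurableSet
  have hK'm : MeasurableSet {x : E n | x + u ∈ K} :=
    hKm.preimage (by fun_prop : Measurable fun x : E n => x + u)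
  have hf : volume K ≠ ⊤ := hK.measure_lt_top.ne
  have hf' : volume {x : E n | x + u ∈ K} ≠ ⊤ := by rw [translate_volume]; exact hf
  have h1 : volume (K \ {x | x + u ∈ K}) + volume (K ∩ {x | x + u ∈ K}) = volume K :=
    measure_sdiff_add_inter K hK'm
  have h2 : volume ({x | x + u ∈ K} \ K) + volume ({x | x + u ∈ K} ∩ K) =
      volume {x : E n | x + u ∈ K} := measure_sdiff_add_inter _ hKm
  rw [translate_volume, inter_comm, ← h1] at h2
  have hi : volume (K ∩ {x | x + u ∈ K}) ≠ ⊤ := measure_ne_top_of_subset inter_subset_left hf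
  have h3 := (ENNReal.add_left_inj hi).1 h2
  have hd : volume ({x | x + u ∈ K} \ K) ≠ ⊤ := measure_ne_top_of_subset sdiff_subset hf'
  rw [Set.symmDiff_def, measure_union (disjoint_sdiff_sdiff) (hK'm.diff hKm), ← h3,
    ENNReal.toReal_add hd hd]
  ring

end SDF_

open SDF_ in
theorem p_SDF : T_SDF := by
  intro n _ K a hK hc ha hball u
  have hKm := hK.measurableSet
  have hf : volume K ≠ ⊤ := hK.measure_lt_top.ne
  rw [symm_eq hK u]
  constructor
  · have h1 : {x | x + u ∈ K} ⊆ K + segment ℝ 0 (-u) := by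
      intro x hx
      exact ⟨x + u, hx, -u, right_mem_segment ℝ 0 (-u), by simp⟩
    have h2 : K ⊆ K + segment ℝ 0 (-u) := by
      intro x hx
      exact ⟨x, hx, 0, left_mem_segment ℝ 0 (-u), by simp⟩
    have hKs : IsCompact (K + segment ℝ 0 (-u)) := hK.add (isCompact_seg _)
    have h3 : volume ({x | x + u ∈ K} \ K) ≤ volume ((K + segment ℝ 0 (-u)) \ K) :=
      measure_mono (sdiff_subset_sdiff_left h1)
    have h4 : volume ((K + segment ℝ 0 (-u)) \ K) = volume (K + segment ℝ 0 (-u)) - volume K :=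
      measure_sdiff h2 hKm.nullMeasurableSet hf
    have h5 : (volume ((K + segment ℝ 0 (-u)) \ K)).toReal = sw K (-u) := by
      rw [h4, ENNReal.toReal_sub_of_le (measure_mono h2) hKs.measure_lt_top.ne]
      rfl
    have h6 : sw K (-u) = sw K u := by
      have := sw_smul hK hc (-1) u
      rw [neg_one_smul] at this
      rw [this]
      norm_num
    have h7 : (volume ({x | x + u ∈ K} \ K)).toReal ≤ sw K u := by
      rw [← h6, ← h5]
      exact ENNReal.toReal_mono
        (measure_ne_top_of_subset sdiff_subset hKs.measure_lt_top.ne) h3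
    linarith
  · intro hu
    rcases eq_or_ne u 0 with rfl | hu0
    · have : sw K 0 = 0 := by simp [sw]
      rw [this]
      simp
    have hu' : ‖u‖ ≠ 0 := norm_ne_zero_iff.2 hu0
    set t := ‖u‖ with ht
    set v := t⁻¹ • u with hv
    have hv1 : ‖v‖ = 1 := by
      rw [hv, norm_smul, norm_inv, ht, norm_norm, inv_mul_cancel₀ hu']
    have huv : t • v = u := by rw [hv, smul_smul, mul_inv_cancel₀ hu', one_smul]
    have ht0 : 0 ≤ t := norm_nonneg u
    set l := t / (2 * a) with hl
    have hl0 : 0 ≤ l := by positivity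
    have hl1 : l ≤ 1 := by rw [hl, div_le_one (by positivity)]; exact hu
    have hv0 : v ≠ 0 := by rintro h; rw [h] at hv1; simp at hv1
    have hla : l * a = t / 2 := by rw [hl]; field_simp
    have hLc : IsCompact ((1 - l) • K) := hK.smul _
    have key : ∀ x ∈ (1 - l) • K, ∀ w : E n, ‖w‖ ≤ t / 2 → x + w ∈ K := by
      rintro _ ⟨x, hx, rfl⟩ w hw
      rcases eq_or_lt_of_le hl0 with h0 | h0
      · have hw0 : w = 0 := by
          apply norm_le_zero_iff.1
          rw [← hla, ← h0] at hw
          simpa using hw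
        rw [← h0, hw0]
        simpa using hx
      · have hwK : l⁻¹ • w ∈ K := by
          apply hball
          rw [Metric.mem_closedBall, dist_zero_right, norm_smul, norm_inv, Real.norm_eq_abs,
            abs_of_pos h0, inv_mul_le_iff₀ h0, hla]
          exact hw
        have h := hc hx hwK (by linarith : (0 : ℝ) ≤ 1 - l) hl0 (by ring)
        rw [smul_smul, mul_inv_cancel₀ h0.ne', one_smul] at h
        exact h
    have hkey : ∀ x ∈ (1 - l) • K, x + (t / 2) • v ∈ K ∧ x - (t / 2) • v ∈ K := by
      intro x hx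
      have hn : ‖(t / 2) • v‖ ≤ t / 2 := by
        rw [norm_smul, hv1, mul_one, Real.norm_eq_abs, abs_of_nonneg (by positivity)]
      refine ⟨key x hx _ hn, ?_⟩
      rw [sub_eq_add_neg]
      exact key x hx _ (by rw [norm_neg]; exact hn)
    have h1 := low hK hc hLc hv1 hkey
    rw [huv] at h1
    have hd : volume ({x | x + u ∈ K} \ K) ≠ ⊤ := by
      apply measure_ne_top_of_subset sdiff_subset
      rw [translate_volume]
      exact hf
    have h2 := ENNReal.toReal_mono hd h1
    rw [ENNReal.toReal_mul, ENNReal.toReal_ofReal ht0] at h2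
    have h3 : t * br ((1 - l) • K) v ≤ (volume ({x | x + u ∈ K} \ K)).toReal := h2
    rw [br_dil hv0 (by linarith)] at h3
    have h4 : br K v = br K u := by rw [hv, br_smul (inv_ne_zero hu')]
    rw [h4] at h3
    have h5 : sw K u = t * br K u := sw_eq hK hc u
    rw [h5]
    calc (1 - l) ^ (n - 1) * (2 * (t * br K u)) = 2 * (t * ((1 - l) ^ (n - 1) * br K u)) := by ring
      _ ≤ 2 * (volume ({x | x + u ∈ K} \ K)).toReal := by linarith

end Pool.Agent.PBX
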