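import Pool.Agent.PBX.Targets2

/-!
# PBX: SFN, the support function of a centred convex body
-/

open MeasureTheory Module Set Filter Topology
open scoped Pointwise

namespace Pool.Agent.PBX
open Pool.Agent.ProjBody

namespace SFN_

variable {n : ℕ} {K : Set (E n)}

theorem zero_mem_interior (hK : IsConvexBody K) (hs : ∀ x ∈ K, -x ∈ K) :
    (0 : E n) ∈ interior K := by
  obtain ⟨x, hx⟩ := hK.2.2
  have h1 : -K = K := by
    ext y
    rw [Set.mem_neg]
    exact ⟨fun h => by simpa using hs _ h, fun h => hs y h⟩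
  have h2 : -x ∈ interior K := by
    rw [mem_interior] at hx ⊢
    obtain ⟨t, ht, hto, hxt⟩ := hx
    refine ⟨-t, fun y hy => ?_, hto.neg, by simpa using hxt⟩
    rw [Set.mem_neg] at hy
    simpa using hs _ (ht hy)
  have h3 := hK.2.1.interior hx h2 (show (0 : ℝ) ≤ 1 / 2 by norm_num)
    (show (0 : ℝ) ≤ 1 / 2 by norm_num) (by norm_num)
  have h4 : (1 / 2 : ℝ) • x + (1 / 2 : ℝ) • (-x) = 0 := by
    rw [smul_neg, add_neg_cancel]
  rwa [h4] at h3

theorem bdd (hK : IsConvexBody K) : ∃ R : ℝ, 0 ≤ R ∧ ∀ x ∈ K, ∀ u, inner ℝ x u ≤ R * ‖u‖ := by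
  obtain ⟨R, hR⟩ := hK.1.isBounded.subset_closedBall (0 : E n)
  refine ⟨max R 0, le_max_right _ _, fun x hx u => ?_⟩
  have h1 := hR hx
  rw [Metric.mem_closedBall, dist_zero_right] at h1
  calc inner ℝ x u ≤ ‖x‖ * ‖u‖ := real_inner_le_norm _ _
    _ ≤ max R 0 * ‖u‖ := mul_le_mul_of_nonneg_right (h1.trans (le_max_left _ _)) (norm_nonneg u)

theorem le_sf (hK : IsConvexBody K) {x : E n} (hx : x ∈ K) (u : E n) :
    inner ℝ x u ≤ supportFn K u := by
  obtain ⟨R, -, hR⟩ := bdd hK
  refine le_csSup ⟨R * ‖u‖, ?_⟩ ⟨x, hx, rfl⟩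
  rintro _ ⟨y, hy, rfl⟩
  exact hR y hy u

theorem sf_le (hK : IsConvexBody K) {u : E n} {c : ℝ} (h : ∀ x ∈ K, inner ℝ x u ≤ c) :
    supportFn K u ≤ c := by
  have hne : K.Nonempty := hK.2.2.mono interior_subset
  refine csSup_le (hne.image _) ?_
  rintro _ ⟨y, hy, rfl⟩
  exact h y hy

end SFN_

open SFN_ in
theorem p_SFN : T_SFN := by
  intro n _ K hK hs
  have h0 := zero_mem_interior hK hs
  have h0K : (0 : E n) ∈ K := interior_subset h0
  obtain ⟨R, hR0, hR⟩ := bdd hK
  obtain ⟨r, hr, hrK⟩ := Metric.isOpen_iff.1 isOpen_interior 0 h0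
  have hball : ∀ x : E n, ‖x‖ ≤ r / 2 → x ∈ K := fun x hx => interior_subset (hrK (by
    rw [Metric.mem_ball, dist_zero_right]
    linarith))
  have hle : ∀ (c : ℝ) (u : E n), supportFn K (c • u) ≤ |c| * supportFn K u := by
    intro c u
    refine sf_le hK fun x hx => ?_
    rw [inner_smul_right]
    rcases le_total 0 c with hc | hc
    · rw [abs_of_nonneg hc]
      exact mul_le_mul_of_nonneg_left (le_sf hK hx u) hc
    · rw [abs_of_nonpos hc]
      have h1 := le_sf hK (hs x hx) u
      rw [inner_neg_left] at h1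
      nlinarith
  have hzero : 0 ≤ supportFn K 0 := by
    have := le_sf hK h0K 0
    rwa [inner_zero_left] at this
  have hnm : Nm (r / 2) R (supportFn K) := by
    refine ⟨fun u v => ?_, fun c u => ?_, fun u => ?_, fun u => ?_⟩
    · refine sf_le hK fun x hx => ?_
      rw [inner_add_right]
      exact add_le_add (le_sf hK hx u) (le_sf hK hx v)
    · refine le_antisymm (hle c u) ?_
      rcases eq_or_ne c 0 with hc | hc
      · rw [hc, abs_zero, zero_mul, zero_smul]
        exact hzero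
      · have h1 := hle c⁻¹ (c • u)
        rw [smul_smul, inv_mul_cancel₀ hc, one_smul, abs_inv] at h1
        have h2 : 0 < |c| := abs_pos.2 hc
        calc |c| * supportFn K u ≤ |c| * (|c|⁻¹ * supportFn K (c • u)) :=
              mul_le_mul_of_nonneg_left h1 h2.le
          _ = supportFn K (c • u) := by rw [mul_inv_cancel_left₀ h2.ne']
    · rcases eq_or_ne u 0 with hu | hu
      · rw [hu, norm_zero, mul_zero]
        exact hzero
      · have hu' : 0 < ‖u‖ := norm_pos_iff.2 hu
        have h1 := le_sf hK (hball ((r / 2 / ‖u‖) • u) (by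
          rw [norm_smul, Real.norm_of_nonneg (by positivity), div_mul_cancel₀ _ hu'.ne'])) u
        rw [inner_smul_left, real_inner_self_eq_norm_sq] at h1
        have h2 : (starRingEnd ℝ) (r / 2 / ‖u‖) * ‖u‖ ^ 2 = r / 2 * ‖u‖ := by
          simp only [conj_trivial]
          field_simp
        rwa [h2] at h1
    · exact sf_le hK fun x hx => hR x hx u
  refine ⟨⟨r / 2, R, by positivity, hnm⟩, ?_⟩
  ext x
  refine ⟨fun hx => ?_, fun hx u => le_sf hK hx u⟩
  by_contra hxK
  obtain ⟨f, c, hf, hfx⟩ := geometric_hahn_banach_closed_point hK.2.1 hK.1.isClosed hxK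
  set v := (InnerProductSpace.toDual ℝ (E n)).symm f with hv
  have hfv : ∀ y, f y = inner ℝ y v := fun y => by
    rw [real_inner_comm, hv, InnerProductSpace.toDual_symm_apply]
  have h1 : supportFn K v ≤ c := sf_le hK fun y hy => by
    rw [← hfv]
    exact (hf y hy).le
  have h2 := hx v
  rw [← hfv] at h2
  linarith

end Pool.Agent.PBX
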