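import Pool.Agent.PBX.Targets2

/-! # PBX: support function of the image of a product (target SFT) -/

set_option autoImplicit false

open Set

namespace Pool.Agent.PBX
open Pool.Agent.ProjBody

theorem SFT_max {d : ℕ} {K : Set (E d)} (hK : IsConvexBody K) (v : E d) :
    ∃ m ∈ K, (∀ x ∈ K, (inner ℝ x v : ℝ) ≤ inner ℝ m v) ∧ supportFn K v = inner ℝ m v := by
  obtain ⟨hc, -, hi⟩ := hK
  have hne : K.Nonempty := hi.mono interior_subset
  obtain ⟨m, hm, hmax⟩ := hc.exists_isMaxOn hne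
    (f := fun x : E d => (inner ℝ x v : ℝ)) (by fun_prop)
  have h1 : ∀ x ∈ K, (inner ℝ x v : ℝ) ≤ inner ℝ m v := fun x hx => hmax hx
  refine ⟨m, hm, h1, ?_⟩
  have h2 : IsGreatest ((fun x : E d => (inner ℝ x v : ℝ)) '' K) (inner ℝ m v) := by
    refine ⟨⟨m, hm, rfl⟩, ?_⟩
    rintro _ ⟨x, hx, rfl⟩
    exact h1 x hx
  exact h2.csSup_eq

theorem p_SFT : T_SFT := by
  intro n ι _ d T S B hTS hB u
  choose m hm hmax hsup using fun j => SFT_max (hB j) (S u j)
  have h2 : IsGreatest ((fun x : E n => (inner ℝ x u : ℝ)) '' (T '' Set.pi Set.univ B))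
      (inner ℝ (T m) u) := by
    refine ⟨⟨T m, ⟨m, fun j _ => hm j, rfl⟩, rfl⟩, ?_⟩
    rintro _ ⟨_, ⟨x, hx, rfl⟩, rfl⟩
    simp only
    rw [hTS, hTS]
    exact Finset.sum_le_sum fun j _ => hmax j _ (hx j (Set.mem_univ j))
  have h3 : supportFn (T '' Set.pi Set.univ B) u = inner ℝ (T m) u := h2.csSup_eq
  rw [h3, hTS]
  exact Finset.sum_congr rfl fun j _ => (hsup j).symm

end Pool.Agent.PBX
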