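import Pool.Agent.PBX.Targets

set_option autoImplicit false

/-!
# PBX: directions of the next measure (`T_SJ`), helper14
-/

open MeasureTheory Module Set Filter Topology
open scoped Pointwise

namespace Pool.Agent.PBX
open Pool.Agent.ProjBody

/-- a point of `J D` is orthogonal to `m` independent elements of `D` -/
theorem SJ_.pts (m : ℕ) (D : Set (E (m + 1))) (x : E (m + 1)) (hx : x ∈ J D) :
    ∃ w : Fin m → E (m + 1), (∀ i, w i ∈ D) ∧ LinearIndependent ℝ w ∧
      (∀ z : E (m + 1), (∀ i, inner ℝ z (w i) = 0) → z ∈ Submodule.span ℝ {x}) := by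
  obtain ⟨hx0, hx1⟩ := hx
  set S : Set (E (m + 1)) := D ∩ {z | inner ℝ x z = 0} with hS
  have hspan : Submodule.span ℝ S = (Submodule.span ℝ {x})ᗮ := by
    apply le_antisymm
    · rw [Submodule.span_le]
      rintro z ⟨-, hz⟩
      exact Submodule.mem_orthogonal_singleton_iff_inner_right.2 hz
    · intro y hy
      exact hx1 y (Submodule.mem_orthogonal_singleton_iff_inner_right.1 hy)
  have hfin : finrank ℝ (Submodule.span ℝ S) = m := by
    rw [hspan]
    have : Fact (finrank ℝ (E (m + 1)) = m + 1) := ⟨by simp⟩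
    exact Submodule.finrank_orthogonal_span_singleton hx0
  obtain ⟨f, hf1, hf2, hf3⟩ := Submodule.exists_fun_fin_finrank_span_eq ℝ S
  refine ⟨fun i => f (Fin.cast hfin.symm i), fun i => (hf1 _).1,
    hf3.comp _ (Fin.cast_injective _), fun z hz => ?_⟩
  have h1 : z ∈ (Submodule.span ℝ S)ᗮ := by
    rw [← hf2, Submodule.mem_orthogonal']
    intro u hu
    induction hu using Submodule.span_induction with
    | mem u hu =>
      obtain ⟨i, rfl⟩ := hu
      exact hz (Fin.cast hfin i)
    | zero => exact inner_zero_right _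
    | add u v _ _ hu hv => rw [inner_add_right, hu, hv, add_zero]
    | smul c u _ hu => rw [inner_smul_right, hu, mul_zero]
  rw [hspan, Submodule.orthogonal_orthogonal] at h1
  exact h1

/-- the cross product of support points is a support point -/
theorem SJ_.sup (m : ℕ) (ρ : Measure (E (m + 1))) [IsFiniteMeasure ρ]
    (hc : Continuous (crp : (Fin m → E (m + 1)) → E (m + 1))) (v : Fin m → E (m + 1))
    (hv : ∀ i, v i ∈ ρ.support) : crp v ∈ (nxt ρ).support := by
  rw [Measure.mem_support_iff_forall]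
  intro U hU
  obtain ⟨V, hVU, hVo, hV⟩ := mem_nhds_iff.1 hU
  refine lt_of_lt_of_le ?_ (measure_mono hVU)
  obtain ⟨δ, hδ, hb⟩ := Metric.mem_nhds_iff.1 ((hVo.preimage hc).mem_nhds hV)
  have h1 : 0 < (Measure.pi (fun _ : Fin m => ρ)) (crp ⁻¹' V) := by
    refine lt_of_lt_of_le ?_ (measure_mono hb)
    rw [Measure.pi_ball _ _ hδ, pos_iff_ne_zero, Finset.prod_ne_zero_iff]
    intro i _
    exact ((Measure.mem_support_iff_forall _).1 (hv i) _ (Metric.ball_mem_nhds _ hδ)).ne'
  unfold nxt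
  rw [Measure.smul_apply, Measure.map_apply hc.measurable hVo.measurableSet, smul_eq_mul,
    pos_iff_ne_zero]
  refine mul_ne_zero ?_ h1.ne'
  rw [← pos_iff_ne_zero, ENNReal.ofReal_pos]
  positivity

theorem p_SJ (h_CRO : T_CRO) (h_CRC : T_CRC) : T_SJ := by
  intro m ρ _ x hx
  obtain ⟨hc, hm⟩ := h_CRC m
  obtain ⟨w, hw1, hw2, hw3⟩ := SJ_.pts m (Dn ρ) x hx
  choose hw0 c hc0 hcs using hw1
  have hz := SJ_.sup m ρ hc (fun i => c i • w i) hcs
  have hz0 : crp (fun i => c i • w i) ≠ 0 := by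
    rw [hm]
    exact smul_ne_zero (Finset.prod_ne_zero_iff.2 fun i _ => hc0 i) ((h_CRO m w).2.1 hw2)
  have hz1 : ∀ i, (inner ℝ (crp (fun i => c i • w i)) (w i) : ℝ) = 0 := by
    intro i
    have h := (h_CRO m (fun i => c i • w i)).1 i
    rw [inner_smul_right] at h
    exact (mul_eq_zero.1 h).resolve_left (hc0 i)
  obtain ⟨a, ha⟩ := Submodule.mem_span_singleton.1 (hw3 _ hz1)
  refine ⟨hx.1, a, ?_, ?_⟩
  · rintro rfl
    rw [zero_smul] at ha
    exact hz0 ha.symm
  · rw [ha]
    exact hz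

end Pool.Agent.PBX
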