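import Pool.Agent.PBX.Targets

/-!
# PBX: SLM (limits of sums, compactness)
-/

set_option autoImplicit false

open MeasureTheory Module Set Filter Topology
open scoped Pointwise

namespace Pool.Agent.PBX
open Pool.Agent.ProjBody

namespace SLM_

variable {n : ℕ}

theorem cont {a b : ℝ} {h : E n → ℝ} (hh : Nm a b h) (hb : 0 ≤ b) : Continuous h := by
  have h1 : LipschitzWith ⟨b, hb⟩ h := by
    refine LipschitzWith.of_dist_le_mul fun u v => ?_
    rw [Real.dist_eq, dist_eq_norm]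
    show |h u - h v| ≤ b * ‖u - v‖
    have e1 := hh.add (u - v) v
    have e2 := hh.add (v - u) u
    rw [sub_add_cancel] at e1 e2
    have e3 := hh.hi (u - v)
    have e4 := hh.hi (v - u)
    rw [norm_sub_rev] at e4
    rw [abs_le]
    constructor <;> linarith
  exact h1.continuous

/-- the projection of a nearby decomposition -/
theorem proj {a b δ : ℝ} {h g : E n → ℝ} (ha : 0 < a) (hh : Nm a b h) (hδ : 0 < δ)
    (hδ' : δ ≤ 1 / 2) (hg : IsN g) (hs : Split g)
    (hb : ∀ u, (1 - δ) * h u ≤ g u ∧ g u ≤ (1 + δ) * h u) :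
    ∃ p : E n →L[ℝ] E n, (∀ u, p (p u) = p u) ∧ 1 ≤ ‖p‖ ∧ 1 ≤ ‖1 - p‖ ∧
      (∀ u, ‖p u‖ ≤ 3 * b / a * ‖u‖) ∧
      ∀ u, (1 - δ) * (h (p u) + h (u - p u)) ≤ (1 + δ) * h u := by
  obtain ⟨U, U', hc, hU, hU', hadd⟩ := hs
  obtain ⟨a', b', ha', hg'⟩ := hg
  have hg0 : ∀ u, 0 ≤ g u := fun u => (mul_nonneg ha'.le (norm_nonneg u)).trans (hg'.lo u)
  let q : E n →ₗ[ℝ] E n := U.subtype ∘ₗ (Submodule.projectionOnto U U' hc)
  have hq1 : ∀ u, q u ∈ U := fun u => (Submodule.projectionOnto U U' hc u).2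
  have hq2 : ∀ u ∈ U, q u = u := by
    intro u hu
    have := Submodule.projectionOnto_apply_left hc ⟨u, hu⟩
    show ((Submodule.projectionOnto U U' hc u : U) : E n) = u
    rw [this]
  have hq3 : ∀ u ∈ U', q u = 0 := by
    intro u hu
    have := Submodule.projectionOnto_apply_right hc ⟨u, hu⟩
    show ((Submodule.projectionOnto U U' hc u : U) : E n) = 0
    rw [this]
    rfl
  have hq4 : ∀ u, u - q u ∈ U' := by
    intro u
    have h1 : u ∈ U ⊔ U' := by
      rw [hc.sup_eq_top]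
      trivial
    obtain ⟨x, hx, y, hy, rfl⟩ := Submodule.mem_sup.1 h1
    rw [map_add, hq2 x hx, hq3 y hy, add_zero, add_sub_cancel_left]
    exact hy
  have hsum : ∀ u, g u = g (q u) + g (u - q u) := by
    intro u
    have := hadd (q u) (hq1 u) (u - q u) (hq4 u)
    rwa [add_sub_cancel] at this
  let p : E n →L[ℝ] E n := LinearMap.toContinuousLinearMap q
  have hp : ∀ u, p u = q u := fun u => rfl
  refine ⟨p, fun u => ?_, ?_, ?_, fun u => ?_, fun u => ?_⟩
  · rw [hp, hp, hq2 _ (hq1 u)]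
  · obtain ⟨u, hu, hu0⟩ := Submodule.exists_mem_ne_zero_of_ne_bot hU
    have h1 := p.le_opNorm u
    rw [hp, hq2 u hu] at h1
    have h2 : 0 < ‖u‖ := norm_pos_iff.2 hu0
    by_contra hcon
    push Not at hcon
    nlinarith
  · obtain ⟨u, hu, hu0⟩ := Submodule.exists_mem_ne_zero_of_ne_bot hU'
    have h1 := (1 - p).le_opNorm u
    have h3 : (1 - p) u = u := by
      show u - p u = u
      rw [hp, hq3 u hu, sub_zero]
    rw [h3] at h1
    have h2 : 0 < ‖u‖ := norm_pos_iff.2 hu0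
    by_contra hcon
    push Not at hcon
    nlinarith
  · rw [hp]
    have e1 := (hb (q u)).1
    have e2 := (hb u).2
    have e3 := hsum u
    have e4 := hg0 (u - q u)
    have e5 := hh.lo (q u)
    have e6 := hh.hi u
    have e7 : 0 ≤ h (q u) := (mul_nonneg ha.le (norm_nonneg _)).trans e5
    have e8 : 0 ≤ h u := (mul_nonneg ha.le (norm_nonneg _)).trans (hh.lo u)
    have e9 : 1 / 2 * h (q u) ≤ 3 / 2 * h u := by nlinarith
    rw [div_mul_eq_mul_div, le_div_iff₀ ha]
    linarith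
  · rw [hp]
    have e1 := (hb (q u)).1
    have e2 := (hb (u - q u)).1
    have e3 := (hb u).2
    have e4 := hsum u
    linarith

end SLM_

theorem p_SLM : T_SLM := by
  intro n _ h hN hnear
  obtain ⟨a, b, ha, hh⟩ := hN
  have hb : 0 < b := hh.b_nonneg ha
  have hcont : Continuous h := SLM_.cont hh hb.le
  have hδ : ∀ k : ℕ, 0 < 1 / ((k : ℝ) + 2) ∧ 1 / ((k : ℝ) + 2) ≤ 1 / 2 := by
    intro k
    have hk : (0 : ℝ) ≤ k := Nat.cast_nonneg k
    refine ⟨by positivity, ?_⟩
    apply one_div_le_one_div_of_le (by norm_num)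
    linarith
  have hex : ∀ k : ℕ, ∃ p : E n →L[ℝ] E n, (∀ u, p (p u) = p u) ∧ 1 ≤ ‖p‖ ∧ 1 ≤ ‖1 - p‖ ∧
      (∀ u, ‖p u‖ ≤ 3 * b / a * ‖u‖) ∧
      ∀ u, (1 - 1 / ((k : ℝ) + 2)) * (h (p u) + h (u - p u)) ≤ (1 + 1 / ((k : ℝ) + 2)) * h u := by
    intro k
    obtain ⟨g, hg, hs, hb'⟩ := hnear _ (hδ k).1
    exact SLM_.proj ha hh (hδ k).1 (hδ k).2 hg hs hb'
  choose p hp1 hp2 hp3 hp4 hp5 using hex
  have hcomp : IsCompact (Metric.closedBall (0 : E n →L[ℝ] E n) (3 * b / a)) :=
    isCompact_closedBall _ _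
  have hmem : ∀ k, p k ∈ Metric.closedBall (0 : E n →L[ℝ] E n) (3 * b / a) := by
    intro k
    rw [Metric.mem_closedBall, dist_zero_right]
    exact ContinuousLinearMap.opNorm_le_bound _ (by positivity) (hp4 k)
  obtain ⟨P, -, φ, hφ, hlim⟩ := hcomp.tendsto_subseq hmem
  have hpt : ∀ u, Tendsto (fun k => (p (φ k)) u) atTop (𝓝 (P u)) := fun u =>
    ((ContinuousLinearMap.apply ℝ (E n) u).continuous.tendsto P).comp hlim
  have hPP : ∀ u, P (P u) = P u := by
    have h1 : Tendsto (fun k => p (φ k) * p (φ k)) atTop (𝓝 (P * P)) := hlim.mul hlim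
    have h2 : (fun k => p (φ k) * p (φ k)) = fun k => p (φ k) := by
      funext k
      ext1 u
      exact hp1 (φ k) u
    rw [h2] at h1
    have h3 := tendsto_nhds_unique h1 hlim
    intro u
    have := congrArg (fun q : E n →L[ℝ] E n => q u) h3
    exact this
  have hP1 : 1 ≤ ‖P‖ := ge_of_tendsto' hlim.norm fun k => hp2 (φ k)
  have hP2 : 1 ≤ ‖1 - P‖ :=
    ge_of_tendsto' (tendsto_const_nhds.sub hlim).norm fun k => hp3 (φ k)
  have hδ0 : Tendsto (fun k : ℕ => 1 / ((φ k : ℝ) + 2)) atTop (𝓝 0) := by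
    have h1 : Tendsto (fun k : ℕ => 1 / ((k : ℝ) + 2)) atTop (𝓝 0) := by
      apply Tendsto.div_atTop tendsto_const_nhds
      exact tendsto_atTop_add_const_right _ _ tendsto_natCast_atTop_atTop
    exact h1.comp hφ.tendsto_atTop
  have hsum : ∀ u, h (P u) + h (u - P u) = h u := by
    intro u
    apply le_antisymm
    · have l1 : Tendsto (fun k => (1 - 1 / ((φ k : ℝ) + 2)) *
          (h ((p (φ k)) u) + h (u - (p (φ k)) u))) atTop (𝓝 ((1 - 0) * (h (P u) + h (u - P u)))) :=
        (tendsto_const_nhds.sub hδ0).mul (((hcont.tendsto _).comp (hpt u)).add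
          ((hcont.tendsto _).comp (tendsto_const_nhds.sub (hpt u))))
      have l2 : Tendsto (fun k => (1 + 1 / ((φ k : ℝ) + 2)) * h u) atTop
          (𝓝 ((1 + 0) * h u)) := (tendsto_const_nhds.add hδ0).mul tendsto_const_nhds
      have := le_of_tendsto_of_tendsto' l1 l2 fun k => hp5 (φ k) u
      linarith
    · have := hh.add (P u) (u - P u)
      rwa [add_sub_cancel] at this
  refine ⟨LinearMap.range P.toLinearMap, LinearMap.ker P.toLinearMap, ?_, ?_, ?_, ?_⟩
  · constructor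
    · rw [Submodule.disjoint_def]
      rintro x ⟨y, rfl⟩ hx
      have h1 : P (P y) = 0 := hx
      rw [hPP] at h1
      exact h1
    · rw [codisjoint_iff, Submodule.eq_top_iff']
      intro x
      rw [Submodule.mem_sup]
      refine ⟨P x, ⟨x, rfl⟩, x - P x, ?_, by rw [add_sub_cancel]⟩
      show P (x - P x) = 0
      rw [map_sub, hPP, sub_self]
  · intro hbot
    have h1 : P = 0 := by
      ext1 u
      have : P u ∈ LinearMap.range P.toLinearMap := ⟨u, rfl⟩
      rw [hbot, Submodule.mem_bot] at this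
      exact this
    rw [h1, norm_zero] at hP1
    linarith
  · intro hbot
    have h1 : 1 - P = 0 := by
      ext1 u
      have : u - P u ∈ LinearMap.ker P.toLinearMap := by
        show P (u - P u) = 0
        rw [map_sub, hPP, sub_self]
      rw [hbot, Submodule.mem_bot] at this
      exact this
    rw [h1, norm_zero] at hP2
    linarith
  · rintro _ ⟨x, rfl⟩ u' hu'
    have h1 : P u' = 0 := hu'
    have h2 := hsum (P x + u')
    rw [map_add, hPP, h1, add_zero, add_sub_cancel_left] at h2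
    exact h2.symm

end Pool.Agent.PBX
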