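import Pool.Agent.PBX.Targets2

open MeasureTheory Module Set
open scoped Pointwise

namespace Pool.Agent.PBX
open Pool.Agent.ProjBody

theorem p_SMO : T_SMO := by
  intro n _ h hN
  obtain ⟨a, b, ha, hh⟩ := hN
  constructor
  · intro hS u v hu hv huv
    obtain ⟨x, hx, hxe⟩ := exists_support ha hh (u + v)
    rw [inner_add_right, huv] at hxe
    have h1 := hx u
    have h2 := hx v
    have hxu : inner ℝ x u = h u := by linarith
    have hxv : inner ℝ x v = h v := by linarith
    have hu0 : 0 < ‖u‖ := norm_pos_iff.2 hu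
    have hv0 : 0 < ‖v‖ := norm_pos_iff.2 hv
    have key := hS x hx (‖u‖⁻¹ • u) (‖v‖⁻¹ • v)
      (by rw [norm_smul, norm_inv, norm_norm, inv_mul_cancel₀ hu0.ne'])
      (by rw [norm_smul, norm_inv, norm_norm, inv_mul_cancel₀ hv0.ne'])
      (by rw [supportFn_Bd ha hh, real_inner_smul_right, hh.smul, abs_of_pos (inv_pos.2 hu0), hxu])
      (by rw [supportFn_Bd ha hh, real_inner_smul_right, hh.smul, abs_of_pos (inv_pos.2 hv0), hxv])
    refine ⟨‖v‖ * ‖u‖⁻¹, by positivity, ?_⟩
    rw [mul_smul, key, smul_smul, mul_inv_cancel₀ hv0.ne', one_smul]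
  · intro hS x hx u v hu hv hxu hxv
    rw [supportFn_Bd ha hh] at hxu hxv
    have h1 := hx (u + v)
    have h2 := hh.add u v
    rw [inner_add_right, hxu, hxv] at h1
    have hu0 : u ≠ 0 := by
      rintro rfl
      simp at hu
    have hv0 : v ≠ 0 := by
      rintro rfl
      simp at hv
    obtain ⟨c, hc, rfl⟩ := hS u v hu0 hv0 (le_antisymm h2 h1)
    rw [norm_smul, hu, mul_one, Real.norm_eq_abs, abs_of_pos hc] at hv
    rw [hv, one_smul]

end Pool.Agent.PBX
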