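import Pool.Agent.PBX.Targets2

/-!
# PBX: SPD, coordinates for a split norm (helper13)
-/

open MeasureTheory Module Set
open scoped Pointwise

namespace Pool.Agent.PBX
open Pool.Agent.ProjBody

theorem SPD_comp {n a : ℕ} (L : E a →ₗ[ℝ] E n) (hL : Function.Injective L) {h : E n → ℝ}
    (hh : IsN h) : IsN fun p => h (L p) := by
  obtain ⟨r, R, hr, hN⟩ := hh
  obtain ⟨K, hK, hanti⟩ := L.exists_antilipschitzWith (LinearMap.ker_eq_bot.2 hL)
  let L' : E a →L[ℝ] E n := LinearMap.toContinuousLinearMap L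
  have hK' : (0 : ℝ) < K := by exact_mod_cast hK
  refine ⟨r / K, |R| * ‖L'‖, by positivity, ⟨?_, ?_, ?_, ?_⟩⟩
  · intro u v
    show h (L (u + v)) ≤ _
    rw [map_add]
    exact hN.add _ _
  · intro c u
    show h (L (c • u)) = _
    rw [map_smul]
    exact hN.smul _ _
  · intro u
    have h1 : ‖u‖ ≤ K * ‖L u‖ := by
      have := hanti.le_mul_dist u 0
      rwa [dist_zero_right, map_zero, dist_zero_right] at this
    calc r / K * ‖u‖ ≤ r / K * (K * ‖L u‖) := by gcongr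
      _ = r * ‖L u‖ := by field_simp
      _ ≤ h (L u) := hN.lo _
  · intro u
    have h1 : ‖L u‖ ≤ ‖L'‖ * ‖u‖ := L'.le_opNorm u
    calc h (L u) ≤ R * ‖L u‖ := hN.hi _
      _ ≤ |R| * ‖L u‖ := by gcongr; exact le_abs_self R
      _ ≤ |R| * (‖L'‖ * ‖u‖) := by gcongr
      _ = |R| * ‖L'‖ * ‖u‖ := by ring

theorem p_SPD : T_SPD := by
  rintro n h hh ⟨U, U', hc, hU, hU', hadd⟩
  let e1 : E (finrank ℝ U) ≃ₗ[ℝ] U := LinearEquiv.ofFinrankEq _ _ (by simp)
  let e2 : E (finrank ℝ U') ≃ₗ[ℝ] U' := LinearEquiv.ofFinrankEq _ _ (by simp)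
  let T : E (finrank ℝ U + finrank ℝ U') ≃ₗ[ℝ] E n :=
    (jnL _ _).symm.trans ((LinearEquiv.prodCongr e1 e2).trans (Submodule.prodEquivOfIsCompl U U' hc))
  have hT : ∀ u, T u = (e1 (prL u) : E n) + (e2 (prR u) : E n) := by
    intro u
    rfl
  have p1 : 1 ≤ finrank ℝ U := by
    have : Nontrivial U := Submodule.nontrivial_iff_ne_bot.2 hU
    exact Module.finrank_pos
  have p2 : 1 ≤ finrank ℝ U' := by
    have : Nontrivial U' := Submodule.nontrivial_iff_ne_bot.2 hU'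
    exact Module.finrank_pos
  refine ⟨finrank ℝ U, finrank ℝ U', T.toContinuousLinearEquiv, fun p => h (e1 p),
    fun q => h (e2 q), p1, p2, ?_, ?_, ?_⟩
  · exact SPD_comp (U.subtype ∘ₗ e1.toLinearMap)
      (Subtype.val_injective.comp e1.injective) hh
  · exact SPD_comp (U'.subtype ∘ₗ e2.toLinearMap)
      (Subtype.val_injective.comp e2.injective) hh
  · intro u
    show h (T u) = _
    rw [hT, hadd _ (e1 (prL u)).2 _ (e2 (prR u)).2]
    rfl

end Pool.Agent.PBX
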