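import Pool.Agent.PBX.Targets

/-! # PBX, target SPN: the directions of a generating measure of a norm span the space -/

set_option autoImplicit false

open MeasureTheory Module Set

namespace Pool.Agent.PBX
open Pool.Agent.ProjBody

/-- Target SPN. -/
theorem p_SPN (h_SUP : T_SUP) : T_SPN := by
  intro n ρ h hG hN
  have := hG.fin
  by_contra hne
  have h1 : (Submodule.span ℝ (Dn ρ))ᗮ ≠ ⊥ := fun h0 =>
    hne ((Submodule.orthogonal_eq_bot_iff).1 h0)
  obtain ⟨u, hu, hu0⟩ := Submodule.exists_mem_ne_zero_of_ne_bot h1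
  have h2 : ∀ᵐ w ∂ρ, |(inner ℝ u w : ℝ)| = 0 := by
    filter_upwards [(h_SUP n ρ).2.1] with w hw
    rcases hw with rfl | hw
    · simp
    · rw [abs_eq_zero]
      exact (Submodule.mem_orthogonal' _ _).1 hu w (Submodule.subset_span hw)
  have h3 : h u = 0 := by
    rw [hG.eq u]
    exact integral_eq_zero_of_ae h2
  obtain ⟨a, b, ha, hab⟩ := hN
  have h4 := hab.lo u
  have h5 : 0 < a * ‖u‖ := mul_pos ha (norm_pos_iff.2 hu0)
  linarith

end Pool.Agent.PBX
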