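import Pool.Agent.PBX.Targets2

/-!
# PBX: `Str` is closed under direct sums (`T_SSM`)
-/

open MeasureTheory Module Set Filter Topology
open scoped Pointwise

namespace Pool.Agent.PBX
open Pool.Agent.ProjBody

theorem p_SSM : T_SSM := by
  rintro a b α β ⟨ι₁, i1, d₁, η₁, T₁, hb1, h1⟩ ⟨ι₂, i2, d₂, η₂, T₂, hb2, h2⟩
  let d : ι₁ ⊕ ι₂ → ℕ := Sum.elim d₁ d₂
  let η : ∀ j, E (d j) → ℝ := fun j => match j with
    | Sum.inl i => η₁ i
    | Sum.inr i => η₂ i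
  let T : E (a + b) ≃ₗ[ℝ] (∀ j, E (d j)) :=
    ((jnL a b).symm.trans (T₁.prodCongr T₂)).trans
      (LinearEquiv.sumPiEquivProdPi ℝ ι₁ ι₂ (fun j => E (d j))).symm
  refine ⟨ι₁ ⊕ ι₂, inferInstance, d, η, T, ?_, ?_⟩
  · rintro (i | i)
    · exact hb1 i
    · exact hb2 i
  · intro u
    rw [Fintype.sum_sum_type]
    show α (prL u) + β (prR u) =
      ∑ i, η₁ i (T₁ (prL u) i) + ∑ i, η₂ i (T₂ (prR u) i)
    rw [h1, h2]

end Pool.Agent.PBX
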