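import Pool.Agent.PBX.Targets2

namespace Pool.Agent.PBX
open Pool.Agent.ProjBody

theorem p_SST : T_SST := by
  intro n n' T h hS
  obtain ⟨ι, hι, d, η, S, hB, hu⟩ := hS
  refine ⟨ι, hι, d, η, T.symm.trans S, hB, fun u => ?_⟩
  have := hu (T.symm u)
  simpa using this

end Pool.Agent.PBX
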