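import Pool.Agent.PBX.Targets2

/-! # PBX: members of the class are built from blocks (`T_STA`) -/

set_option autoImplicit false

open MeasureTheory Module Set

namespace Pool.Agent.PBX
open Pool.Agent.ProjBody

/-- a single block -/
theorem STA_.one {n : ℕ} {h : E n → ℝ} (hb : BlkN n h) : Str h := by
  refine ⟨Unit, inferInstance, fun _ => n, fun _ => h,
    (LinearEquiv.funUnique Unit ℝ (E n)).symm, fun _ => hb, fun u => ?_⟩
  simp

theorem p_STA (h_MNA : T_MNA) (h_SPD : T_SPD) (h_CLT : T_CLT) (h_CDD : T_CDD) (h_SSM : T_SSM)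
    (h_SST : T_SST) : T_STA := by
  intro n
  induction n using Nat.strong_induction_on with
  | _ n ih =>
    intro h hn hC
    by_cases h3 : 3 ≤ n
    · haveI : NeZero n := ⟨by omega⟩
      rcases h_MNA n h h3 hC with hs | hs
      · obtain ⟨a, b, T, α, β, ha, hb, hα, hβ, he⟩ := h_SPD n h hC.1 hs
        haveI : NeZero a := ⟨by omega⟩
        haveI : NeZero b := ⟨by omega⟩
        have hab : a + b = n := by
          have e := T.toLinearEquiv.finrank_eq
          rw [finrank_euclideanSpace_fin, finrank_euclideanSpace_fin] at e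
          exact e
        have hfe : (fun u => h (T u)) = dsum α β := funext he
        have hC1 : Cls (dsum α β : E (a + b) → ℝ) := by
          rw [← hfe]
          exact h_CLT n (a + b) T h hC
        obtain ⟨hCα, hCβ⟩ := h_CDD a b α β hα hβ hC1
        have h1 := ih a (by omega) α ha hCα
        have h2 := ih b (by omega) β hb hCβ
        have h4 := h_SSM a b α β h1 h2
        rw [← hfe] at h4
        exact h_SST n (a + b) T.toLinearEquiv h h4
      · exact STA_.one ⟨hn, hC.1, fun _ => ⟨hs, hC⟩⟩
    · exact STA_.one ⟨hn, hC.1, fun h4 => absurd h4 h3⟩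

end Pool.Agent.PBX
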