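import Pool.Agent.PBX.Targets2

/-!
# PBX-STB: everything built from blocks is a member (helper53)
-/

set_option autoImplicit false

open MeasureTheory Module Set Filter Topology
open scoped Pointwise

namespace Pool.Agent.PBX
open Pool.Agent.ProjBody

theorem STB_blk (h_CL1 : T_CL1) (h_CL2 : T_CL2) (d : ℕ) (η : E d → ℝ) (h : BlkN d η) :
    Cls η := by
  obtain ⟨h1, h2, h3⟩ := h
  rcases Nat.lt_or_ge d 3 with hd | hd
  · interval_cases d
    · exact h_CL1 η h2
    · exact h_CL2 η h2
  · exact (h3 hd).2

/-- composition with an arbitrary linear equivalence -/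
theorem STB_clt (h_CLT : T_CLT) {n n' : ℕ} (hn : 1 ≤ n) (T : E n' ≃ₗ[ℝ] E n) (h : E n → ℝ)
    (hh : Cls h) : Cls (fun u => h (T u)) := by
  have : NeZero n := ⟨by omega⟩
  exact h_CLT n n' T.toContinuousLinearEquiv h hh

theorem STB_ind (h_CL1 : T_CL1) (h_CL2 : T_CL2) (h_CDS : T_CDS) (h_CLT : T_CLT) (ι : Type)
    [Finite ι] : ∀ (_ : Fintype ι) (d : ι → ℕ) (η : ∀ j, E (d j) → ℝ) (n : ℕ), 1 ≤ n →
    ∀ T : E n ≃ₗ[ℝ] (∀ j, E (d j)), (∀ j, BlkN (d j) (η j)) →
      Cls (fun u => ∑ j, η j (T u j)) := by
  induction ι using Finite.induction_empty_option with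
  | of_equiv e ih =>
    rename_i α β
    intro _ d η n hn T hb
    have : Fintype α := Fintype.ofEquiv β e.symm
    have h := ih inferInstance (fun a => d (e a)) (fun a => η (e a)) n hn
      (T.trans (LinearEquiv.piCongrLeft ℝ (fun b => E (d b)) e).symm) (fun a => hb (e a))
    have e1 : (fun u => ∑ j, η j (T u j)) = fun u => ∑ a, η (e a) ((T.trans
        (LinearEquiv.piCongrLeft ℝ (fun b => E (d b)) e).symm) u a) := by
      funext u
      rw [← Equiv.sum_comp e]
      rfl
    rw [e1]
    exact h
  | h_empty =>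
    intro _ d η n hn T hb
    exfalso
    have : Nonempty (Fin n) := ⟨⟨0, hn⟩⟩
    have : Nontrivial (E n) := inferInstance
    obtain ⟨x, hx⟩ := exists_ne (0 : E n)
    apply hx
    apply T.injective
    funext j
    exact j.elim
  | h_option ih =>
    rename_i α hα
    intro inst d η n hn T hb
    obtain rfl : inst = instFintypeOption := Subsingleton.elim _ _
    have h0 : Cls (η none) := STB_blk h_CL1 h_CL2 _ _ (hb none)
    have hd0 : 1 ≤ d none := (hb none).1
    let T1 : E n ≃ₗ[ℝ] E (d none) × (∀ a, E (d (some a))) :=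
      T.trans (LinearEquiv.piOptionEquivProd ℝ)
    have hT1 : ∀ u, T1 u = (T u none, fun a => T u (some a)) := fun u => rfl
    rcases isEmpty_or_nonempty α with hE | hN
    · -- one block
      let T2 : E n ≃ₗ[ℝ] E (d none) := T1.trans (LinearEquiv.prodUnique)
      have hT2 : ∀ u, T2 u = T u none := fun u => rfl
      have h1 := STB_clt h_CLT hd0 T2 (η none) h0
      have e1 : (fun u => ∑ j, η j (T u j)) = fun u => η none (T2 u) := by
        funext u
        rw [Fintype.sum_option, hT2]
        simp
      rw [e1]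
      exact h1
    · obtain ⟨a0⟩ := hN
      set N : ℕ := finrank ℝ (∀ a, E (d (some a))) with hNdef
      have hN1 : 1 ≤ N := by
        have h1 : N = ∑ a, d (some a) := by
          rw [hNdef, finrank_pi_fintype]
          simp
        have h2 : d (some a0) ≤ ∑ a, d (some a) :=
          Finset.single_le_sum (f := fun a => d (some a)) (fun _ _ => Nat.zero_le _)
            (Finset.mem_univ a0)
        have h3 := (hb (some a0)).1
        omega
      have hfin : finrank ℝ (E N) = finrank ℝ (∀ a, E (d (some a))) := by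
        rw [← hNdef]; simp
      let T' : E N ≃ₗ[ℝ] (∀ a, E (d (some a))) := LinearEquiv.ofFinrankEq _ _ hfin
      have h1 : Cls (fun v : E N => ∑ a, η (some a) (T' v a)) :=
        ih inferInstance (fun a => d (some a)) (fun a => η (some a)) N hN1 T'
          (fun a => hb (some a))
      have : NeZero (d none) := ⟨by omega⟩
      have : NeZero N := ⟨by omega⟩
      have h2 := h_CDS (d none) N (η none) _ h0 h1
      let S : E n ≃ₗ[ℝ] E (d none + N) :=
        (T1.trans ((LinearEquiv.refl ℝ (E (d none))).prodCongr T'.symm)).trans (jnL (d none) N)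
      have hS : ∀ u, S u = jn (T u none) (T'.symm fun a => T u (some a)) := fun u => rfl
      have h3 := STB_clt h_CLT (by omega) S _ h2
      have e1 : (fun u => ∑ j, η j (T u j)) = fun u =>
          (dsum (η none) (fun v : E N => ∑ a, η (some a) (T' v a)) :
            E (d none + N) → ℝ) (S u) := by
        funext u
        rw [Fintype.sum_option, hS]
        simp only [dsum, prL_jn, prR_jn, LinearEquiv.apply_symm_apply]
      rw [e1]
      exact h3

theorem p_STB (h_CL1 : T_CL1) (h_CL2 : T_CL2) (h_CDS : T_CDS) (h_CLT : T_CLT) : T_STB := by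
  rintro n h hn ⟨ι, hι, d, η, T, hb, hh⟩
  have e : h = fun u => ∑ j, η j (T u j) := funext hh
  rw [e]
  exact STB_ind h_CL1 h_CL2 h_CDS h_CLT ι hι d η n hn T hb

end Pool.Agent.PBX
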