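import Pool.Agent.PBX.Targets

/-!
# PBX: STC, dense directions imply strict convexity
-/

open MeasureTheory Module Set Filter Topology
open scoped Pointwise

namespace Pool.Agent.PBX
open Pool.Agent.ProjBody

theorem p_STC (h_NEG : T_NEG) : T_STC := by
  intro n h _ hD u v hu hv huv
  obtain ⟨δ₀, hδ₀, hD⟩ := hD
  have hu' : 0 < ‖u‖ := norm_pos_iff.2 hu
  have hv' : 0 < ‖v‖ := norm_pos_iff.2 hv
  by_cases heq : (inner ℝ u v : ℝ) = ‖u‖ * ‖v‖
  · rw [inner_eq_norm_mul_iff_real] at heq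
    refine ⟨‖v‖ / ‖u‖, div_pos hv' hu', ?_⟩
    rw [div_eq_inv_mul, mul_smul, heq, smul_smul, inv_mul_cancel₀ hu'.ne', one_smul]
  · exfalso
    have hlt : (inner ℝ u v : ℝ) < ‖u‖ * ‖v‖ := lt_of_le_of_ne (real_inner_le_norm u v) heq
    set z₀ : E n := ‖u‖ • v - ‖v‖ • u with hz₀
    have h1 : (inner ℝ v z₀ : ℝ) = ‖v‖ * (‖u‖ * ‖v‖ - inner ℝ u v) := by
      rw [hz₀, inner_sub_right, inner_smul_right, inner_smul_right, real_inner_self_eq_norm_sq,
        real_inner_comm u v]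
      ring
    have h2 : (inner ℝ u z₀ : ℝ) = -(‖u‖ * (‖u‖ * ‖v‖ - inner ℝ u v)) := by
      rw [hz₀, inner_sub_right, inner_smul_right, inner_smul_right, real_inner_self_eq_norm_sq]
      ring
    have h1' : 0 < (inner ℝ v z₀ : ℝ) := by
      rw [h1]; exact mul_pos hv' (sub_pos.2 hlt)
    have h2' : (inner ℝ u z₀ : ℝ) < 0 := by
      rw [h2]; exact neg_neg_of_pos (mul_pos hu' (sub_pos.2 hlt))
    have hz₀0 : z₀ ≠ 0 := by
      intro h3
      rw [h3, inner_zero_right] at h1'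
      exact lt_irrefl _ h1'
    have hz₀' : 0 < ‖z₀‖ := norm_pos_iff.2 hz₀0
    set z : E n := ‖z₀‖⁻¹ • z₀ with hz
    have hz1 : ‖z‖ = 1 := by
      rw [hz, norm_smul, norm_inv, norm_norm, inv_mul_cancel₀ hz₀'.ne']
    have h3 : 0 < (inner ℝ v z : ℝ) := by
      rw [hz, inner_smul_right]
      exact mul_pos (inv_pos.2 hz₀') h1'
    have h4 : (inner ℝ u z : ℝ) < 0 := by
      rw [hz, inner_smul_right]
      exact mul_neg_of_pos_of_neg (inv_pos.2 hz₀') h2'
    set δ := min δ₀ (min (inner ℝ v z / (2 * ‖v‖)) (-inner ℝ u z / (2 * ‖u‖))) with hδd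
    have hδ : 0 < δ := lt_min hδ₀ (lt_min (div_pos h3 (by positivity))
      (div_pos (neg_pos.2 h4) (by positivity)))
    have hδv : 2 * (‖v‖ * δ) ≤ inner ℝ v z := by
      have h5 : δ ≤ inner ℝ v z / (2 * ‖v‖) := (min_le_right _ _).trans (min_le_left _ _)
      rw [le_div_iff₀ (by positivity)] at h5
      linarith
    have hδu : 2 * (‖u‖ * δ) ≤ -inner ℝ u z := by
      have h5 : δ ≤ -inner ℝ u z / (2 * ‖u‖) := (min_le_right _ _).trans (min_le_right _ _)
      rw [le_div_iff₀ (by positivity)] at h5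
      linarith
    obtain ⟨ρ, hρ, hρD⟩ := hD δ hδ (min_le_left _ _)
    obtain ⟨x, ⟨_, c, hc, hcx⟩, hxz⟩ := hρD z hz1
    have h5 := h_NEG n ρ h u v hρ huv (c • x) hcx
    rw [inner_smul_right, inner_smul_right] at h5
    have h6 : |(inner ℝ v (x - z) : ℝ)| ≤ ‖v‖ * δ :=
      (abs_real_inner_le_norm _ _).trans (mul_le_mul_of_nonneg_left hxz hv'.le)
    have h7 : |(inner ℝ u (x - z) : ℝ)| ≤ ‖u‖ * δ :=
      (abs_real_inner_le_norm _ _).trans (mul_le_mul_of_nonneg_left hxz hu'.le)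
    rw [inner_sub_right, abs_le] at h6 h7
    have h8 : 0 < (inner ℝ v x : ℝ) := by linarith [h6.1, mul_pos hv' hδ]
    have h9 : (inner ℝ u x : ℝ) < 0 := by linarith [h7.2, mul_pos hu' hδ]
    have h10 : c * (inner ℝ u x : ℝ) * (c * inner ℝ v x) =
        c ^ 2 * (inner ℝ u x * inner ℝ v x) := by ring
    rw [h10] at h5
    have h11 : (inner ℝ u x : ℝ) * inner ℝ v x < 0 := mul_neg_of_neg_of_pos h9 h8
    have h12 : 0 < c ^ 2 := by positivity
    exact absurd h5 (not_le.2 (mul_neg_of_pos_of_neg h12 h11))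

end Pool.Agent.PBX
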