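import Pool.Agent.PBX.Targets

/-!
# PBX: T_SUP, basic facts on the support of a measure (helper50)
-/

open MeasureTheory Module Set

namespace Pool.Agent.PBX
open Pool.Agent.ProjBody

theorem p_SUP : T_SUP := by
  intro n ρ _
  have h1 : ∀ᵐ w ∂ρ, w ∈ ρ.support := Measure.support_mem_ae
  refine ⟨h1, ?_, ?_⟩
  · filter_upwards [h1] with w hw
    by_cases h0 : w = 0
    · exact Or.inl h0
    · exact Or.inr ⟨h0, 1, one_ne_zero, by rwa [one_smul]⟩
  · rintro x ⟨hx, d, hd, hdx⟩ c hc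
    refine ⟨smul_ne_zero hc hx, d * c⁻¹, mul_ne_zero hd (inv_ne_zero hc), ?_⟩
    rw [smul_smul, mul_assoc, inv_mul_cancel₀ hc, mul_one]
    exact hdx

end Pool.Agent.PBX
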