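import Pool.Agent.PBX.Targets2

/-!
# PBX: adjoint of a linear map of a product (helper45)
-/

set_option autoImplicit false

open MeasureTheory Module Set Filter Topology
open scoped Pointwise

namespace Pool.Agent.PBX
open Pool.Agent.ProjBody

namespace TAJ_

variable {V W : Type} [NormedAddCommGroup V] [InnerProductSpace ℝ V] [FiniteDimensional ℝ V]
  [NormedAddCommGroup W] [InnerProductSpace ℝ W] [FiniteDimensional ℝ W]

theorem adjoint_equiv (A : V ≃ₗ[ℝ] W) :
    ∃ B : W ≃ₗ[ℝ] V, ∀ x u, (inner ℝ (A x) u : ℝ) = inner ℝ x (B u) := by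
  refine ⟨LinearEquiv.ofLinear (LinearMap.adjoint (A : V →ₗ[ℝ] W))
    (LinearMap.adjoint (A.symm : W →ₗ[ℝ] V)) ?_ ?_, fun x u => ?_⟩
  · rw [← LinearMap.adjoint_comp]
    simp
  · rw [← LinearMap.adjoint_comp]
    simp
  · exact (LinearMap.adjoint_inner_right (A : V →ₗ[ℝ] W) x u).symm

end TAJ_

open TAJ_ in
theorem p_TAJ : T_TAJ := by
  intro n ι _ d
  let e : PiLp 2 (fun j => E (d j)) ≃ₗ[ℝ] (∀ j, E (d j)) := WithLp.linearEquiv 2 ℝ _
  constructor
  · intro T
    obtain ⟨B, hB⟩ := adjoint_equiv (e.trans T)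
    refine ⟨B.trans e, fun x u => ?_⟩
    have h := hB (e.symm x) u
    rw [LinearEquiv.trans_apply, LinearEquiv.apply_symm_apply, PiLp.inner_apply] at h
    exact h
  · intro S
    obtain ⟨B, hB⟩ := adjoint_equiv (S.trans e.symm)
    refine ⟨e.symm.trans B, fun x u => ?_⟩
    have h := hB u (e.symm x)
    rw [LinearEquiv.trans_apply, PiLp.inner_apply] at h
    rw [LinearEquiv.trans_apply, real_inner_comm, ← h]
    exact Finset.sum_congr rfl fun j _ => real_inner_comm _ _

end Pool.Agent.PBX
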