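import Pool.Agent.PBX.Targets

/-! # PBX: the tent function of a convex body -/

set_option autoImplicit false

open MeasureTheory Module Set Filter Topology
open scoped Pointwise

namespace Pool.Agent.PBX
open Pool.Agent.ProjBody

namespace TNT_

variable {n : ℕ}

theorem nhds0 {K : Set (E n)} {a : ℝ} (ha : 0 < a) (hb : Metric.closedBall 0 a ⊆ K) :
    K ∈ 𝓝 (0 : E n) :=
  Filter.mem_of_superset (Metric.closedBall_mem_nhds 0 ha) hb

theorem gauge_le_one_iff {K : Set (E n)} {a : ℝ} (hK : IsCompact K) (hc : Convex ℝ K) (ha : 0 < a)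
    (hb : Metric.closedBall 0 a ⊆ K) (x : E n) : gauge K x ≤ 1 ↔ x ∈ K := by
  rw [gauge_le_one_iff_mem_closure hc (nhds0 ha hb), hK.isClosed.closure_eq]

theorem gauge_le_iff {K : Set (E n)} {a : ℝ} (hK : IsCompact K) (hc : Convex ℝ K) (ha : 0 < a)
    (hb : Metric.closedBall 0 a ⊆ K) (x : E n) {r : ℝ} (hr : 0 ≤ r) :
    gauge K x ≤ r ↔ x ∈ r • K := by
  rcases hr.eq_or_lt with h | h
  · subst h
    have hne : K.Nonempty := ⟨0, hb (Metric.mem_closedBall_self ha.le)⟩
    rw [Set.zero_smul_set hne]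
    have hbd : Bornology.IsVonNBounded ℝ K :=
      (NormedSpace.isVonNBounded_iff ℝ).2 hK.isBounded
    have hab : Absorbent ℝ K := absorbent_nhds_zero (nhds0 ha hb)
    constructor
    · intro h0
      have h1 : gauge K x = 0 := le_antisymm h0 (gauge_nonneg x)
      exact (gauge_eq_zero hab hbd).1 h1
    · intro h0
      have h1 : x = 0 := h0
      rw [h1, gauge_zero]
  · rw [Set.mem_smul_set_iff_inv_smul_mem₀ h.ne', ← gauge_le_one_iff hK hc ha hb,
      gauge_smul_of_nonneg (inv_nonneg.2 h.le), smul_eq_mul, inv_mul_le_iff₀ h, mul_one]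

end TNT_

open TNT_

theorem p_TNT : T_TNT := by
  intro n _ K a hK hc ha hb
  refine ⟨?_, fun x => ⟨le_max_left _ _, ?_⟩, fun x hx => ?_, fun s hs hs1 => ?_⟩
  · obtain ⟨L, hL⟩ := hc.lipschitz_gauge (nhds0 ha hb)
    refine ⟨0 + L, ?_⟩
    exact ((LipschitzWith.const (1 : ℝ)).sub hL).const_max 0
  · unfold tent
    refine max_le zero_le_one ?_
    have := gauge_nonneg (s := K) x
    linarith
  · unfold tent
    refine max_eq_left ?_
    have : ¬ gauge K x ≤ 1 := fun h => hx ((gauge_le_one_iff hK hc ha hb x).1 h)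
    linarith [not_le.1 this]
  · ext x
    rw [← gauge_le_iff hK hc ha hb x (sub_nonneg.2 hs1), Set.mem_ofPred_eq]
    unfold tent
    rw [le_max_iff]
    constructor
    · rintro (h | h)
      · linarith
      · linarith
    · intro h
      right
      linarith

end Pool.Agent.PBX
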