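import Pool.Agent.PBX.Targets

/-! # PBX, target `T_TSW`: integral of the gradient of the tent function -/

set_option autoImplicit false

open MeasureTheory Module Set Filter Topology
open scoped Pointwise

namespace Pool.Agent.PBX
open Pool.Agent.ProjBody

namespace TSW_

variable {n : ℕ}

/-- measure of the symmetric difference of a level set with its translate -/
noncomputable def ps (K : Set (E n)) (w : E n) (s : ℝ) : ENNReal :=
  volume (symmDiff {x | s ≤ tent K (x + w)} {x | s ≤ tent K x})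

theorem measurable_psi (f g : E n → ℝ) (hf : Measurable f) (hg : Measurable g) :
    Measurable fun s : ℝ => volume (symmDiff {x | s ≤ f x} {x | s ≤ g x}) := by
  have hS : MeasurableSet (symmDiff {p : ℝ × E n | p.1 ≤ f p.2} {p : ℝ × E n | p.1 ≤ g p.2}) :=
    (measurableSet_le measurable_fst (hf.comp measurable_snd)).symmDiff
      (measurableSet_le measurable_fst (hg.comp measurable_snd))
  exact measurable_measure_prodMk_left (ν := (volume : Measure (E n))) hS

theorem compact_shift {C : Set (E n)} (hC : IsCompact C) (w : E n) :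
    IsCompact {x | x + w ∈ C} := by
  have : {x | x + w ∈ C} = (fun x => x + -w) '' C := by
    ext x
    constructor
    · intro hx
      exact ⟨x + w, hx, by simp⟩
    · rintro ⟨y, hy, rfl⟩
      simpa using hy
  rw [this]
  exact hC.image (by fun_prop)

theorem fin_symm {C C' : Set (E n)} (hC : IsCompact C) (hC' : IsCompact C') :
    volume (symmDiff C C') ≠ ⊤ :=
  ((measure_mono symmDiff_subset_union).trans_lt (hC.union hC').measure_lt_top).ne

theorem integral_pow_sub [NeZero n] (A : ℝ) (hA : 0 ≤ A) :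
    ∫⁻ s in Ioc (0 : ℝ) 1, ENNReal.ofReal (2 * ((1 - s) ^ (n - 1) * A)) =
      ENNReal.ofReal (2 / n * A) := by
  rw [← ofReal_integral_eq_lintegral_ofReal]
  · congr 1
    rw [← intervalIntegral.integral_of_le zero_le_one]
    have h1 : (fun s : ℝ => 2 * ((1 - s) ^ (n - 1) * A)) =
        fun s : ℝ => (2 * A) * (fun r => r ^ (n - 1)) (1 - s) := by
      funext s; simp only; ring
    rw [h1, intervalIntegral.integral_const_mul,
      intervalIntegral.integral_comp_sub_left (fun r : ℝ => r ^ (n - 1)) 1]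
    simp only [sub_self, sub_zero, integral_pow]
    have hn : n - 1 + 1 = n := Nat.sub_add_cancel (NeZero.one_le)
    have hn' : ((n - 1 : ℕ) : ℝ) + 1 = n := by exact_mod_cast hn
    rw [hn', hn, one_pow, zero_pow (NeZero.ne n)]
    ring
  · exact (Continuous.integrableOn_Icc (by fun_prop)).mono_set Ioc_subset_Icc_self
  · filter_upwards [ae_restrict_mem measurableSet_Ioc] with s hs
    have : (0 : ℝ) ≤ 1 - s := by linarith [hs.2]
    positivity

end TSW_

open TSW_ in
theorem p_TSW (h_LAY : T_LAY) (h_SDF : T_SDF) (h_SDL : T_SDL) (h_RAD : T_RAD) (h_TNT : T_TNT) :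
    T_TSW := by
  intro n _ K a hK hc ha hball u
  obtain ⟨⟨L, hL⟩, h01, h0, hlev⟩ := h_TNT n K a hK hc ha hball
  obtain ⟨R, hR⟩ := hK.isBounded.subset_closedBall 0
  have hz : ∀ x, R < ‖x‖ → tent K x = 0 := by
    intro x hx
    refine h0 x (fun hxK => ?_)
    have := hR hxK
    rw [mem_closedBall_zero_iff] at this
    linarith
  refine tendsto_nhds_unique (h_RAD n (tent K) L R hL hz u) ?_
  set A := sw K u with hA
  have hA0 : 0 ≤ A := sw_nonneg hK hc u
  have hmeas : Measurable (tent K) := hL.continuous.measurable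
  have hmeas' : ∀ w, Measurable (fun x => tent K (x + w)) := fun w =>
    hmeas.comp (measurable_add_const w)
  have hps : ∀ w, Measurable (ps K w) := fun w => measurable_psi _ _ (hmeas' w) hmeas
  -- the level sets
  have hcomp : ∀ s : ℝ, IsCompact ((1 - s) • K) := fun s => hK.smul _
  have hconv : ∀ s : ℝ, Convex ℝ ((1 - s) • K) := fun s => hc.smul _
  have hpe : ∀ w s, 0 < s → s ≤ 1 →
      ps K w s = volume (symmDiff ((1 - s) • K) {x | x + w ∈ (1 - s) • K}) := by
    intro w s hs hs'
    unfold ps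
    rw [symmDiff_comm, hlev s hs hs']
    congr 2
    ext x
    have := Set.ext_iff.mp (hlev s hs hs') (x + w)
    simpa using this
  have hint : ∀ w, ∫ x, |tent K (x + w) - tent K x| =
      (∫⁻ s in Ioc (0 : ℝ) 1, ps K w s).toReal := by
    intro w
    rw [integral_eq_lintegral_of_nonneg_ae (ae_of_all _ (fun x => abs_nonneg _))
      (by
        have h := ((hmeas' w).sub hmeas).abs
        exact h.aestronglyMeasurable)]
    rw [h_LAY n _ _ (hmeas' w) hmeas (fun x => h01 _) h01]
    rfl
  have hball' : ∀ s : ℝ, s < 1 → Metric.closedBall (0 : E n) ((1 - s) * a) ⊆ (1 - s) • K := by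
    intro s hs
    have h1 : (0 : ℝ) < 1 - s := by linarith
    have h2 := Set.smul_set_mono (a := (1 - s : ℝ)) hball
    rw [smul_closedBall _ _ ha.le] at h2
    simpa [Real.norm_eq_abs, abs_of_pos h1] using h2
  have hlim : Tendsto (fun k : ℕ => ∫⁻ s in Ioc (0 : ℝ) 1,
      ENNReal.ofReal ((k : ℝ) + 1) * ps K (((k : ℝ) + 1)⁻¹ • u) s) atTop
      (𝓝 (∫⁻ s in Ioc (0 : ℝ) 1, ENNReal.ofReal (2 * ((1 - s) ^ (n - 1) * A)))) := by
    have hne : ∀ᵐ s ∂(volume.restrict (Ioc (0 : ℝ) 1)), s ∈ Ioo (0 : ℝ) 1 := by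
      have h1 : ∀ᵐ s ∂(volume.restrict (Ioc (0 : ℝ) 1)), s ≠ 1 := by
        refine ae_restrict_of_ae ?_
        exact Measure.ae_ne volume 1
      filter_upwards [ae_restrict_mem measurableSet_Ioc, h1] with s hs hs1
      exact ⟨hs.1, lt_of_le_of_ne hs.2 hs1⟩
    have key : ∀ (k : ℕ) (s : ℝ), s ∈ Ioo (0 : ℝ) 1 →
        ENNReal.ofReal ((k : ℝ) + 1) * ps K (((k : ℝ) + 1)⁻¹ • u) s =
          ENNReal.ofReal (((k : ℝ) + 1) * (volume (symmDiff ((1 - s) • K)
            {x | x + ((k : ℝ) + 1)⁻¹ • u ∈ (1 - s) • K})).toReal) := by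
      intro k s hs
      rw [hpe _ s hs.1 hs.2.le, ENNReal.ofReal_mul (by positivity),
        ENNReal.ofReal_toReal (fin_symm (hcomp s) (compact_shift (hcomp s) _))]
    refine tendsto_lintegral_of_dominated_convergence (fun _ => ENNReal.ofReal (2 * A))
      (fun k => (hps _).const_mul _) ?_ ?_ ?_
    · intro k
      filter_upwards [hne] with s hs
      have h1 : (0 : ℝ) < 1 - s := by linarith [hs.2]
      rw [key k s hs]
      apply ENNReal.ofReal_le_ofReal
      have h2 := (h_SDF n ((1 - s) • K) ((1 - s) * a) (hcomp s) (hconv s) (by positivity)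
        (hball' s hs.2) (((k : ℝ) + 1)⁻¹ • u)).1
      rw [sw_smul (hcomp s) (hconv s), sw_dilate hK hc h1, ← hA] at h2
      have hk : (0 : ℝ) < (k : ℝ) + 1 := by positivity
      rw [abs_of_pos (by positivity : (0 : ℝ) < ((k : ℝ) + 1)⁻¹)] at h2
      have h3 : (1 - s) ^ (n - 1) ≤ 1 := pow_le_one₀ h1.le (by linarith [hs.1])
      calc ((k : ℝ) + 1) * _ ≤ ((k : ℝ) + 1) * (2 * (((k : ℝ) + 1)⁻¹ * ((1 - s) ^ (n - 1) * A))) :=
            mul_le_mul_of_nonneg_left h2 hk.le
        _ = 2 * ((1 - s) ^ (n - 1) * A) := by field_simp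
        _ ≤ 2 * A := by nlinarith
    · simp [ENNReal.mul_eq_top]
    · filter_upwards [hne] with s hs
      have h1 : (0 : ℝ) < 1 - s := by linarith [hs.2]
      have h2 := h_SDL n ((1 - s) • K) ((1 - s) * a) (hcomp s) (hconv s) (by positivity)
        (hball' s hs.2) u
      rw [sw_dilate hK hc h1, ← hA] at h2
      simp_rw [fun k => key k s hs]
      exact (ENNReal.continuous_ofReal.tendsto _).comp h2
  rw [integral_pow_sub A hA0] at hlim
  have h3 := (ENNReal.tendsto_toReal (ENNReal.ofReal_ne_top)).comp hlim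
  rw [ENNReal.toReal_ofReal (by positivity)] at h3
  refine h3.congr (fun k => ?_)
  simp only [Function.comp]
  rw [lintegral_const_mul _ (hps _), ENNReal.toReal_mul, ENNReal.toReal_ofReal (by positivity),
    hint]

end Pool.Agent.PBX
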