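import Pool.Agent.PBX.Targets

/-! # PBX-VAF: the volume of a zonotope is affine in every length -/

set_option autoImplicit false

open MeasureTheory Module Set
open scoped Pointwise

namespace Pool.Agent.PBX
open Pool.Agent.ProjBody

namespace VAF_

variable {n : ℕ} {ι : Type} [Fintype ι] [DecidableEq ι]

theorem sum_upd (w : ι → E n) (t τ : ι → ℝ) (i : ι) (s : ℝ) :
    ∑ j, τ j • (Function.update t i s j • w j) =
      ∑ j, τ j • (Function.update t i 0 j • w j) + τ i • (s • w i) := by
  have h : ∀ j, τ j • (Function.update t i s j • w j) =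
      τ j • (Function.update t i 0 j • w j) + (if j = i then τ i • (s • w i) else 0) := by
    intro j
    by_cases hj : j = i
    · subst hj
      simp
    · rw [Function.update_of_ne hj, Function.update_of_ne hj, if_neg hj, add_zero]
  rw [Finset.sum_congr rfl (fun j _ => h j), Finset.sum_add_distrib, Finset.sum_ite_eq']
  simp

theorem sum_upd0 (w : ι → E n) (t τ : ι → ℝ) (i : ι) (a : ℝ) :
    ∑ j, Function.update τ i a j • (Function.update t i 0 j • w j) =
      ∑ j, τ j • (Function.update t i 0 j • w j) := by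
  apply Finset.sum_congr rfl
  intro j _
  by_cases hj : j = i
  · subst hj
    simp
  · rw [Function.update_of_ne hj a τ]

theorem zt_upd (w : ι → E n) (t : ι → ℝ) (i : ι) (s : ℝ) :
    Zt (fun j => Function.update t i s j • w j) =
      (-(s • w i)) +ᵥ (Zt (fun j => Function.update t i 0 j • w j) +
        segment ℝ 0 ((2 * s) • w i)) := by
  ext x
  rw [Set.mem_vadd_set]
  constructor
  · rintro ⟨τ, hτ, hx⟩
    refine ⟨∑ j, τ j • (Function.update t i 0 j • w j) + ((τ i + 1) / 2) • ((2 * s) • w i),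
      Set.add_mem_add ⟨τ, hτ, rfl⟩ ?_, ?_⟩
    · rw [segment_eq_image]
      refine ⟨(τ i + 1) / 2, ?_, by simp⟩
      have h := abs_le.1 (hτ i)
      constructor <;> linarith [h.1, h.2]
    · have hx' : x = ∑ j, τ j • (Function.update t i s j • w j) := hx
      rw [vadd_eq_add, hx', sum_upd w t τ i s]
      module
  · rintro ⟨y, hy, hx⟩
    obtain ⟨z, ⟨τ, hτ, hz⟩, u, hu, hy⟩ := Set.mem_add.1 hy
    rw [segment_eq_image] at hu
    obtain ⟨θ, hθ, hu⟩ := hu
    refine ⟨Function.update τ i (2 * θ - 1), ?_, ?_⟩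
    · intro j
      by_cases hj : j = i
      · subst hj
        rw [Function.update_self, abs_le]
        constructor <;> linarith [hθ.1, hθ.2]
      · rw [Function.update_of_ne hj]
        exact hτ j
    · rw [← hx, ← hy, ← hu, hz, vadd_eq_add]
      rw [sum_upd w t (Function.update τ i (2 * θ - 1)) i s, sum_upd0, Function.update_self]
      module

theorem vz_upd (h_ZBD : T_ZBD) (w : ι → E n) (t : ι → ℝ) (i : ι) (s : ℝ) (hs : 0 ≤ s) :
    vz (fun j => Function.update t i s j • w j) =
      vz (fun j => Function.update t i 0 j • w j) +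
        2 * s * sw (Zt (fun j => Function.update t i 0 j • w j)) (w i) := by
  obtain ⟨hcp, hcv, _⟩ := h_ZBD n ι (fun j => Function.update t i 0 j • w j)
  have h1 := sw_smul hcp hcv (2 * s) (w i)
  rw [abs_of_nonneg (by linarith)] at h1
  rw [← h1]
  unfold vz sw
  rw [zt_upd w t i s, measure_vadd]
  ring

omit [DecidableEq ι] in
theorem zt_smul (w : ι → E n) (t : ι → ℝ) (r : ℝ) :
    Zt (fun j => (r * t j) • w j) = r • Zt (fun j => t j • w j) := by
  ext x
  rw [Set.mem_smul_set]
  constructor
  · rintro ⟨τ, hτ, hx⟩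
    refine ⟨∑ j, τ j • (t j • w j), ⟨τ, hτ, rfl⟩, ?_⟩
    rw [hx, Finset.smul_sum]
    apply Finset.sum_congr rfl
    intro j _
    module
  · rintro ⟨y, ⟨τ, hτ, hy⟩, hx⟩
    refine ⟨τ, hτ, ?_⟩
    rw [← hx, hy, Finset.smul_sum]
    apply Finset.sum_congr rfl
    intro j _
    module

end VAF_

open VAF_ in
theorem p_VAF (h_ZBD : T_ZBD) : T_VAF := by
  intro n _ ι _ _ w
  refine ⟨?_, ?_⟩
  · intro t _ i s hs
    rw [vz_upd h_ZBD w t i s hs, vz_upd h_ZBD w t i 1 zero_le_one]
    ring
  · intro t _ r hr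
    unfold vz
    rw [zt_smul, Measure.addHaar_smul, ENNReal.toReal_mul, ENNReal.toReal_ofReal (abs_nonneg _),
      finrank_euclideanSpace_fin, abs_of_nonneg (pow_nonneg hr n)]

end Pool.Agent.PBX
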