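import Pool.Agent.PBX.Targets

/-!
# PBX: T_VDN, density in coordinates (helper85)
-/

set_option autoImplicit false

open MeasureTheory Module Set Filter Topology
open scoped Pointwise

namespace Pool.Agent.PBX
open Pool.Agent.ProjBody

namespace VDN_

variable {n : ℕ}

theorem repr_sum (b : Basis (Fin n) ℝ (E n)) (c : Fin n → ℝ) (k : Fin n) :
    b.repr (∑ j, c j • b j) k = c k := by
  classical
  rw [map_sum, Finsupp.finsetSum_apply, Finset.sum_eq_single k]
  · simp
  · intro j _ hj
    simp [hj]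
  · intro h
    exact absurd (Finset.mem_univ k) h

/-- rounding down to a multiple of `1 / N` -/
theorem round (a : ℝ) (N : ℕ) (hN : 0 < N) (ha : |a| ≤ 1) :
    |⌊a * N⌋| ≤ (N : ℤ) ∧ |(⌊a * N⌋ : ℝ) / N - a| ≤ 1 / N := by
  have hN' : (0 : ℝ) < N := by exact_mod_cast hN
  obtain ⟨h1, h2⟩ := abs_le.1 ha
  have h3 := Int.floor_le (a * N)
  have h4 := Int.lt_floor_add_one (a * N)
  constructor
  · rw [abs_le]
    constructor
    · apply Int.le_floor.2
      push_cast
      nlinarith
    · have : (⌊a * N⌋ : ℝ) ≤ N := by nlinarith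
      exact_mod_cast this
  · have e : (⌊a * N⌋ : ℝ) / N - a = ((⌊a * N⌋ : ℝ) - a * N) / N := by
      field_simp
    rw [e, abs_div, abs_of_pos hN']
    apply div_le_div_of_nonneg_right _ hN'.le
    rw [abs_le]
    constructor <;> linarith

end VDN_

open VDN_ in
theorem p_VDN (h_VFR : T_VFR) (h_VST : T_VST) (h_GDY : T_GDY) (h_MMB : T_MMB) (h_MMI : T_MMI) :
    T_VDN := by
  classical
  intro n b ε D hn hε hε1 h0 hb hconn q v hv
  have hn0 : 0 < n := by omega
  set o : Fin n := ⟨0, hn0⟩ with ho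
  obtain ⟨lam, hlo, hlam, hlk⟩ := h_VFR n b ε D hε hε1 h0 hb hconn o
  have hep : 0 < ε / 2 := by linarith
  have hlpos : ∀ k, 0 < |lam k| := fun k => lt_of_lt_of_le (pow_pos hep n) (hlam k).1
  have hlne : ∀ k, lam k ≠ 0 := fun k => abs_pos.1 (hlpos k)
  have hbne : ∀ j, b j ≠ 0 := fun j => b.ne_zero j
  have hbX : ∀ m j, b j ∈ MM^[m] D := fun m j => h_MMI n D h0 0 m (Nat.zero_le m) (hb j)
  have hscal : ∀ (X : Set (E n)) (x : E n), x ∈ MM X → ∀ c : ℝ, c ≠ 0 → c • x ∈ MM X :=
    fun X x hx c hc => (h_MMB n X X).2.2.1 x hx c hc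
  have hup : ∀ (X : Set (E n)) (x : E n), x ∈ X → x ≠ 0 → x ∈ MM X :=
    fun X x hx hx0 => (h_MMB n X X).2.1 x hx hx0
  have hMM : ∀ (m : ℕ) (X : Set (E n)), MM (MM^[m] X) = MM^[m + 1] X :=
    fun m X => (Function.iterate_succ_apply' MM m X).symm
  -- the new basis
  set D' : Set (E n) := MM (MM^[n] D) with hD'
  have hsum : ∑ k, lam k • b k ∈ D' := h_VST n b _ o lam (hbX n) hlk hlo
  let B : Basis (Fin n) ℝ (E n) := b.isUnitSMul (w := lam) fun k => isUnit_iff_ne_zero.2 (hlne k)
  have hBk : ∀ k, B k = lam k • b k := fun k => b.isUnitSMul_apply _ k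
  have hBD : ∀ j, B j ∈ D' := by
    intro j
    rw [hBk]
    exact hscal _ _ (hup _ _ (hbX n j) (hbne j)) _ (hlne j)
  have hsumB : ∑ j, B j ∈ D' := by
    rw [Finset.sum_congr rfl fun j _ => hBk j]
    exact hsum
  have h0' : (0 : E n) ∉ D' := (h_MMB n (MM^[n] D) D).2.2.2
  have hG := h_GDY n B D' hn h0' hBD hsumB q
  set N : ℕ := 2 ^ (2 ^ q) with hN
  have hNpos : 0 < N := by positivity
  have hNR : ((2 : ℝ) ^ (2 ^ q)) = (N : ℝ) := by rw [hN]; push_cast; rfl
  have hNR' : (0 : ℝ) < N := by exact_mod_cast hNpos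
  have h2e : (0 : ℝ) < 2 / ε := by positivity
  rw [hNR]
  by_cases hv0 : ∀ k, v k = 0
  · -- a small multiple of `b o`
    set c : ℝ := (2 / ε) ^ (2 * n) / N with hc
    have hcpos : 0 < c := by positivity
    refine ⟨c • b o, ?_, ?_⟩
    · have e : n + 8 + 4 * q = (n + 7 + 4 * q) + 1 := by omega
      rw [e, ← hMM]
      exact hscal _ _ (hup _ _ (hbX _ o) (hbne o)) _ hcpos.ne'
    · intro k
      rw [hv0 k, sub_zero, map_smul, Finsupp.smul_apply, b.repr_self, Finsupp.single_apply]
      by_cases hk : o = k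
      · simp [hk, abs_of_pos hcpos]
      · simp [hk, hcpos.le]
  · push Not at hv0
    obtain ⟨k0, hk0⟩ := hv0
    have : Nonempty (Fin n) := ⟨o⟩
    obtain ⟨l, hl⟩ := Finite.exists_max (fun k => |v k / lam k|)
    set t : Fin n → ℝ := fun k => v k / lam k with ht
    have htl : 0 < |t l| := by
      refine lt_of_lt_of_le ?_ (hl k0)
      exact abs_pos.2 (div_ne_zero hk0 (hlne k0))
    have htl0 : t l ≠ 0 := abs_pos.1 htl
    set a : Fin n → ℝ := fun k => t k / t l with ha
    have ha1 : ∀ k, |a k| ≤ 1 := by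
      intro k
      simp only [ha]
      rw [abs_div, div_le_one htl]
      exact hl k
    set a' : Fin n → ℝ := fun k => if k = l then 1 else (⌊a k * N⌋ : ℝ) / N with ha'
    have ha'l : a' l = 1 := by simp [ha']
    have ha'k : ∀ k, k ≠ l → a' k ∈ GG B (MM^[6 + 4 * q] D') := by
      intro k hk
      have h1 := round (a k) N hNpos (ha1 k)
      have e : ((N : ℕ) : ℤ) = 2 ^ (2 ^ q) := by
        rw [hN]
        push_cast
        rfl
      have h2 := hG ⌊a k * N⌋ (by
        rw [← e]
        exact h1.1)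
      rw [hNR] at h2
      simp only [ha', if_neg hk]
      exact h2
    have hdiff : ∀ k, |a' k - a k| ≤ 1 / N := by
      intro k
      by_cases hk : k = l
      · subst hk
        have e : a k = 1 := by
          simp only [ha]
          exact div_self htl0
        rw [ha'l, e, sub_self, abs_zero]
        positivity
      · simp only [ha', if_neg hk]
        exact (round (a k) N hNpos (ha1 k)).2
    have hX' : ∑ k, a' k • B k ∈ MM (MM^[6 + 4 * q] D') := by
      apply h_VST n B _ l a' _ _ ha'l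
      · intro j
        exact h_MMI n D' h0' 0 (6 + 4 * q) (Nat.zero_le _) (hBD j)
      · intro k hk
        exact ha'k k hk k l hk
    refine ⟨t l • ∑ k, a' k • B k, ?_, ?_⟩
    · have h1 := hscal _ _ hX' _ htl0
      rw [hMM, hD', hMM, ← Function.iterate_add_apply] at h1
      have e : 6 + 4 * q + 1 + (n + 1) = n + 8 + 4 * q := by omega
      rwa [e] at h1
    · intro k
      have e1 : t l • ∑ k, a' k • B k = ∑ k, (t l * a' k * lam k) • b k := by
        rw [Finset.smul_sum]
        refine Finset.sum_congr rfl fun j _ => ?_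
        rw [hBk, smul_smul, smul_smul]
      rw [e1, repr_sum]
      have e2 : v k = t l * a k * lam k := by
        simp only [ha]
        rw [mul_div_cancel₀ _ htl0]
        simp only [ht]
        rw [div_mul_cancel₀ _ (hlne k)]
      have e3 : t l * a' k * lam k - v k = t l * lam k * (a' k - a k) := by
        rw [e2]; ring
      rw [e3, abs_mul, abs_mul]
      have h1 : |t l| ≤ (2 / ε) ^ n := by
        simp only [ht]
        rw [abs_div]
        have h5 : |v l| / |lam l| ≤ 1 / (ε / 2) ^ n :=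
          div_le_div₀ zero_le_one (hv l) (pow_pos hep n) (hlam l).1
        have h6 : 1 / (ε / 2) ^ n = (2 / ε) ^ n := by
          rw [← one_div_pow]
          congr 1
          field_simp
        rwa [h6] at h5
      have h2 : |lam k| ≤ (2 / ε) ^ n := (hlam k).2
      have h3 : |t l| * |lam k| ≤ (2 / ε) ^ (2 * n) := by
        rw [two_mul, pow_add]
        exact mul_le_mul h1 h2 (abs_nonneg _) (by positivity)
      calc |t l| * |lam k| * |a' k - a k| ≤ (2 / ε) ^ (2 * n) * (1 / N) :=
            mul_le_mul h3 (hdiff k) (abs_nonneg _) (by positivity)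
        _ = (2 / ε) ^ (2 * n) / N := by ring

end Pool.Agent.PBX
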