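import Pool.Agent.PBX.Targets

/-!
# PBX: VEX, first construction
-/

open MeasureTheory Module Set
open scoped Pointwise

namespace Pool.Agent.PBX
open Pool.Agent.ProjBody

theorem p_VEX : T_VEX := by
  classical
  intro n b D x k l hD hx hkl hk
  obtain ⟨p, hp⟩ : ∃ p, p = b.repr x k • b k + b.repr x l • b l := ⟨_, rfl⟩
  rw [← hp]
  have hpk : b.repr p k = b.repr x k := by
    rw [hp]
    simp [hkl.symm]
  refine ⟨fun h0 => hk (by rw [← hpk, h0]; simp), fun y hy => ?_⟩
  have h1 : y ∈ Submodule.span ℝ ({b k, b l} : Set (E n)) := by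
    refine hy _ ?_ ?_
    · rintro z (rfl | rfl)
      · exact hD k
      · exact hD l
    · rw [hp]
      exact Submodule.mem_span_pair.2 ⟨_, _, rfl⟩
  obtain ⟨α, β, hαβ⟩ := Submodule.mem_span_pair.1 h1
  obtain ⟨S, hS⟩ : ∃ S : Set (E n), S = insert x {z | ∃ j, j ≠ k ∧ j ≠ l ∧ z = b j} := ⟨_, rfl⟩
  have h2 : p ∈ Submodule.span ℝ S := by
    have e1 := b.sum_repr x
    rw [← Finset.add_sum_erase Finset.univ _ (Finset.mem_univ k),
      ← Finset.add_sum_erase (Finset.univ.erase k) _
        (Finset.mem_erase.2 ⟨hkl.symm, Finset.mem_univ l⟩), ← add_assoc, ← hp] at e1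
    have e2 : p = x - ∑ j ∈ (Finset.univ.erase k).erase l, b.repr x j • b j :=
      eq_sub_of_add_eq e1
    rw [e2]
    refine sub_mem (Submodule.subset_span (by rw [hS]; exact mem_insert _ _)) ?_
    refine sum_mem fun j hj => Submodule.smul_mem _ _ (Submodule.subset_span ?_)
    rw [hS]
    refine mem_insert_of_mem _ ⟨j, ?_, ?_, rfl⟩
    · exact (Finset.mem_erase.1 (Finset.mem_erase.1 hj).2).1
    · exact (Finset.mem_erase.1 hj).1
  have h3 : y ∈ Submodule.span ℝ S := by
    refine hy _ ?_ h2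
    rw [hS]
    rintro z (rfl | ⟨j, -, -, rfl⟩)
    · exact hx
    · exact hD j
  have h4' : ∀ y ∈ Submodule.span ℝ S, b.repr x l * b.repr y k = b.repr x k * b.repr y l := by
    intro y h
    induction h using Submodule.span_induction with
    | mem z hz =>
      rw [hS] at hz
      rcases hz with rfl | ⟨j, hjk, hjl, rfl⟩
      · ring
      · simp [hjk, hjl]
    | zero => simp
    | add u v _ _ hu hv =>
      rw [map_add, Finsupp.add_apply, Finsupp.add_apply]
      linarith
    | smul a u _ hu =>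
      rw [map_smul, Finsupp.smul_apply, Finsupp.smul_apply, smul_eq_mul, smul_eq_mul]
      linear_combination a * hu
  have h4 := h4' y h3
  have h5 : b.repr y k = α := by
    rw [← hαβ]
    simp [hkl.symm]
  have h6 : b.repr y l = β := by
    rw [← hαβ]
    simp [hkl]
  rw [h5, h6] at h4
  refine ⟨α / b.repr x k, ?_⟩
  rw [← hαβ, hp, smul_add, smul_smul, smul_smul, div_mul_cancel₀ _ hk]
  congr 2
  field_simp
  linarith

end Pool.Agent.PBX
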