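import Pool.Agent.PBX.Targets

/-!
# PBX: the frame
-/

set_option autoImplicit false

open MeasureTheory Module Set Filter Topology
open scoped Pointwise

namespace Pool.Agent.PBX
open Pool.Agent.ProjBody

namespace VFR_

theorem step (h_VEX : T_VEX) (h_VCO : T_VCO) (h_MMB : T_MMB) (h_MMI : T_MMI)
    {n : ℕ} (b : Basis (Fin n) ℝ (E n)) {ε : ℝ} {D : Set (E n)} (hε : 0 < ε) (hε1 : ε ≤ 1)
    (h0 : (0 : E n) ∉ D) (hb : ∀ j, b j ∈ D) (hC : Conn b ε D) (o : Fin n) (t : ℕ) (ht : 1 ≤ t)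
    (htn : t ≤ n) : ∃ (I : Finset (Fin n)) (lam : Fin n → ℝ), o ∈ I ∧ t ≤ I.card ∧ lam o = 1 ∧
      (∀ k ∈ I, (ε / 2) ^ t ≤ |lam k| ∧ |lam k| ≤ (2 / ε) ^ t) ∧
      ∀ k ∈ I, k ≠ o → b o + lam k • b k ∈ MM^[t] D := by
  have hq0 : 0 < ε / 2 := by positivity
  have hq1 : ε / 2 ≤ 1 := by linarith
  have hp1 : 1 ≤ 2 / ε := by rw [le_div_iff₀ hε]; linarith
  induction t, ht using Nat.le_induction with
  | base =>
    refine ⟨{o}, fun _ => 1, Finset.mem_singleton_self o, by simp, rfl, ?_, ?_⟩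
    · intro k _
      rw [pow_one, pow_one, abs_one]
      exact ⟨hq1, hp1⟩
    · intro k hk hko
      exact absurd (Finset.mem_singleton.1 hk) hko
  | succ t ht ih =>
    obtain ⟨I, lam, hoI, hcard, hlo, hbd, hmem⟩ := ih (by omega)
    have hinc : MM^[t] D ⊆ MM^[t + 1] D := h_MMI n D h0 t (t + 1) (Nat.le_succ t)
    have hpl : ∀ k ∈ I, (ε / 2) ^ (t + 1) ≤ |lam k| ∧ |lam k| ≤ (2 / ε) ^ (t + 1) := by
      intro k hk
      obtain ⟨h1, h2⟩ := hbd k hk
      refine ⟨le_trans ?_ h1, le_trans h2 ?_⟩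
      · exact pow_le_pow_of_le_one hq0.le hq1 (Nat.le_succ t)
      · exact pow_le_pow_right₀ hp1 (Nat.le_succ t)
    by_cases hc : t + 1 ≤ I.card
    · exact ⟨I, lam, hoI, hc, hlo, hpl, fun k hk hko => hinc (hmem k hk hko)⟩
    · have hne : ((I : Set (Fin n))ᶜ).Nonempty := by
        by_contra hemp
        rw [Set.not_nonempty_iff_eq_empty, Set.compl_empty_iff] at hemp
        have h1 : I = Finset.univ := by
          rw [← Finset.coe_eq_univ]
          exact hemp
        rw [h1, Finset.card_univ, Fintype.card_fin] at hc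
        omega
      obtain ⟨x, hx, hx2, ⟨k, hk, hxk⟩, l, hl, hxl⟩ := hC (I : Set (Fin n)) ⟨o, hoI⟩ hne
      have hkI : k ∈ I := hk
      have hlI : l ∉ I := hl
      have hkl : k ≠ l := fun h => hlI (h ▸ hkI)
      have hol : o ≠ l := fun h => hlI (h ▸ hoI)
      have hak : 0 < |b.repr x k| := lt_of_lt_of_le hε hxk
      have hxk0 : b.repr x k ≠ 0 := abs_pos.1 hak
      have h1 := h_VEX n b D x k l hb hx hkl hxk0
      have h2 := (h_MMB n D D).2.2.1 _ h1 (b.repr x k)⁻¹ (inv_ne_zero hxk0)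
      set μ : ℝ := b.repr x l / b.repr x k with hμ
      have h3 : b k + μ • b l ∈ MM D := by
        rw [smul_add, smul_smul, smul_smul, inv_mul_cancel₀ hxk0, one_smul] at h2
        rwa [hμ, div_eq_inv_mul]
      have hμ1 : ε / 2 ≤ |μ| := by
        rw [hμ, abs_div, le_div_iff₀ hak]
        nlinarith [hx2 k, abs_nonneg (b.repr x k)]
      have hμ2 : |μ| ≤ 2 / ε := by
        rw [hμ, abs_div, div_le_div_iff₀ hak hε]
        nlinarith [hx2 l, abs_nonneg (b.repr x l)]
      have h4 : b k + μ • b l ∈ MM^[t] D := by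
        have h5 : MM^[1] D ⊆ MM^[t] D := h_MMI n D h0 1 t ht
        exact h5 h3
      have hbt : ∀ j, b j ∈ MM^[t] D := by
        have h5 : MM^[0] D ⊆ MM^[t] D := h_MMI n D h0 0 t (Nat.zero_le t)
        exact fun j => h5 (hb j)
      have key : ∃ ν : ℝ, ((ε / 2) ^ (t + 1) ≤ |ν| ∧ |ν| ≤ (2 / ε) ^ (t + 1)) ∧
          b o + ν • b l ∈ MM^[t + 1] D := by
        by_cases hko : k = o
        · refine ⟨μ, ⟨le_trans ?_ hμ1, le_trans hμ2 ?_⟩, ?_⟩
          · calc (ε / 2) ^ (t + 1) ≤ (ε / 2) ^ 1 :=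
                pow_le_pow_of_le_one hq0.le hq1 (by omega)
              _ = ε / 2 := pow_one _
          · calc 2 / ε = (2 / ε) ^ 1 := (pow_one _).symm
              _ ≤ (2 / ε) ^ (t + 1) := pow_le_pow_right₀ hp1 (by omega)
          · rw [← hko]
            exact hinc h4
        · obtain ⟨g1, g2⟩ := hbd k hkI
          refine ⟨-(lam k * μ), ⟨?_, ?_⟩, ?_⟩
          · rw [abs_neg, abs_mul, pow_succ]
            exact mul_le_mul g1 hμ1 hq0.le (abs_nonneg _)
          · rw [abs_neg, abs_mul, pow_succ]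
            exact mul_le_mul g2 hμ2 (abs_nonneg _) (by positivity)
          · have h6 := h_VCO n b (MM^[t] D) o k l (lam k) μ hbt (Ne.symm hko) hkl hol
              (hmem k hkI hko) h4
            rw [Function.iterate_succ_apply', neg_smul, ← sub_eq_add_neg]
            exact h6
      obtain ⟨ν, hν, hν2⟩ := key
      refine ⟨insert l I, Function.update lam l ν, Finset.mem_insert_of_mem hoI, ?_, ?_, ?_, ?_⟩
      · rw [Finset.card_insert_of_notMem hlI]
        omega
      · rw [Function.update_of_ne hol, hlo]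
      · intro j hj
        rcases Finset.mem_insert.1 hj with rfl | hj
        · rw [Function.update_self]
          exact hν
        · have hjl : j ≠ l := fun h => hlI (h ▸ hj)
          rw [Function.update_of_ne hjl]
          exact hpl j hj
      · intro j hj hjo
        rcases Finset.mem_insert.1 hj with rfl | hj
        · rw [Function.update_self]
          exact hν2
        · have hjl : j ≠ l := fun h => hlI (h ▸ hj)
          rw [Function.update_of_ne hjl]
          exact hinc (hmem j hj hjo)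

end VFR_

theorem p_VFR (h_VEX : T_VEX) (h_VCO : T_VCO) (h_MMB : T_MMB) (h_MMI : T_MMI) : T_VFR := by
  intro n b ε D hε hε1 h0 hb hC o
  have hn : 1 ≤ n := Nat.lt_of_le_of_lt (Nat.zero_le o.1) o.2
  obtain ⟨I, lam, _, hcard, hlo, hbd, hmem⟩ :=
    VFR_.step h_VEX h_VCO h_MMB h_MMI b hε hε1 h0 hb hC o n hn le_rfl
  have hI : I = Finset.univ := by
    refine Finset.eq_univ_of_card I ?_
    refine le_antisymm (Finset.card_le_univ I) ?_
    rw [Fintype.card_fin]
    exact hcard
  subst hI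
  exact ⟨lam, hlo, fun k => hbd k (Finset.mem_univ k), fun k => hmem k (Finset.mem_univ k)⟩

end Pool.Agent.PBX
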