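import Pool.Agent.PBX.Targets

/-!
# PBX: volume of a zonotope
-/

open MeasureTheory Module Set Filter Topology
open scoped Pointwise

namespace Pool.Agent.PBX
open Pool.Agent.ProjBody

namespace VOL_

/-- zero vectors do not matter -/
theorem zt_ind {n k : ℕ} {ι : Type} [Fintype ι] [DecidableEq ι] (w : ι → E n) (f : Fin k ↪ ι) :
    Zt (fun j => (if j ∈ Finset.univ.map f then (1 : ℝ) else 0) • w j) =
      Zt (fun i => w (f i)) := by
  have key : ∀ t : ι → ℝ,
      ∑ j, t j • ((if j ∈ Finset.univ.map f then (1 : ℝ) else 0) • w j) =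
        ∑ i, t (f i) • w (f i) := by
    intro t
    have h1 : ∀ j, t j • ((if j ∈ Finset.univ.map f then (1 : ℝ) else 0) • w j) =
        if j ∈ Finset.univ.map f then t j • w j else 0 := by
      intro j
      split_ifs
      · rw [one_smul]
      · rw [zero_smul, smul_zero]
    rw [Finset.sum_congr rfl fun j _ => h1 j, ← Finset.sum_filter,
      Finset.filter_mem_eq_inter, Finset.univ_inter, Finset.sum_map]
  ext x
  constructor
  · rintro ⟨t, ht, rfl⟩
    exact ⟨fun i => t (f i), fun i => ht _, key t⟩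
  · rintro ⟨t, ht, rfl⟩
    refine ⟨Function.extend f t 0, fun j => ?_, ?_⟩
    · by_cases h : ∃ i, f i = j
      · obtain ⟨i, rfl⟩ := h
        rw [f.injective.extend_apply]
        exact ht i
      · rw [Function.extend_apply' _ _ _ h]
        simp
    · rw [key]
      refine Finset.sum_congr rfl fun i _ => ?_
      rw [f.injective.extend_apply]

/-- only injective index functions matter -/
theorem sum_inj {k : ℕ} {ι : Type} [Fintype ι] [DecidableEq ι] (D : (Fin k → ι) → ℝ)
    (hD : ∀ f, ¬ Function.Injective f → D f = 0) :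
    ∑ f : Fin k ↪ ι, D f = ∑ f : Fin k → ι, D f := by
  classical
  have h1 : ∑ f ∈ Finset.univ.filter (fun f : Fin k → ι => Function.Injective f), D f =
      ∑ f : Fin k → ι, D f := by
    refine Finset.sum_subset (Finset.filter_subset _ _) fun f _ hf => hD f fun h => hf ?_
    exact Finset.mem_filter.2 ⟨Finset.mem_univ _, h⟩
  rw [← h1]
  refine Finset.sum_bij (fun f _ => (f : Fin k → ι)) ?_ ?_ ?_ ?_
  · intro f _
    exact Finset.mem_filter.2 ⟨Finset.mem_univ _, f.injective⟩
  · intro f _ g _ h
    exact DFunLike.coe_injective h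
  · intro f hf
    exact ⟨⟨f, (Finset.mem_filter.1 hf).2⟩, Finset.mem_univ _, rfl⟩
  · intro f _
    rfl

end VOL_

theorem p_VOL (h_VAF : T_VAF) (h_POL : T_POL) (h_PAR : T_PAR) (h_ORD : T_ORD) : T_VOL := by
  classical
  intro n _ ι _ w
  have h1 := h_POL n ι (fun t => vz (fun j => t j • w j)) (h_VAF n ι w).1 (h_VAF n ι w).2
  have h2 : vz (fun j => (1 : ℝ) • w j) = vz w := by
    congr 1
    funext j
    rw [one_smul]
  have h3 : ∀ f : Fin n ↪ ι,
      vz (fun j => (if j ∈ Finset.univ.map f then (1 : ℝ) else 0) • w j) =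
        2 ^ n * |(mt (fun i => w (f i))).det| := by
    intro f
    rw [← h_PAR]
    unfold vz
    rw [VOL_.zt_ind]
  have h4 := h_ORD n ι (fun A => vz (fun j => (if j ∈ A then (1 : ℝ) else 0) • w j))
  rw [Finset.sum_congr rfl fun f _ => h3 f, ← Finset.mul_sum] at h4
  have h5 := VOL_.sum_inj (fun f : Fin n → ι => |(mt (fun i => w (f i))).det|) (by
    intro f hf
    rw [Function.not_injective_iff] at hf
    obtain ⟨i, j, hij, hne⟩ := hf
    have h6 : (mt (fun i => w (f i))).det = 0 := by
      refine Matrix.det_zero_of_row_eq hne ?_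
      funext l
      simp only [mt, Matrix.of_apply, hij]
    simp only [h6, abs_zero])
  rw [h5] at h4
  have hn : (n.factorial : ℝ) ≠ 0 := by exact_mod_cast n.factorial_ne_zero
  rw [← h2]
  simp only at h1
  rw [h1]
  field_simp
  linarith

end Pool.Agent.PBX
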