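import Pool.Agent.PBX.Targets

/-!
# PBX: VST (star)
-/

set_option autoImplicit false

open MeasureTheory Module Set
open scoped Pointwise

namespace Pool.Agent.PBX
open Pool.Agent.ProjBody

namespace VST_

variable {n : ℕ}

/-- the spanning set of the flat `y_k = a_k y_l` -/
def S (b : Basis (Fin n) ℝ (E n)) (a : Fin n → ℝ) (l k : Fin n) : Set (E n) :=
  {x | x = b l + a k • b k ∨ ∃ j, j ≠ k ∧ j ≠ l ∧ x = b j}

/-- the functional `y ↦ y_k - a_k y_l` -/
noncomputable def φ (b : Basis (Fin n) ℝ (E n)) (a : Fin n → ℝ) (l k : Fin n) : E n →ₗ[ℝ] ℝ :=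
  b.coord k - a k • b.coord l

theorem φ_apply (b : Basis (Fin n) ℝ (E n)) (a : Fin n → ℝ) (l k : Fin n) (y : E n) :
    φ b a l k y = b.repr y k - a k * b.repr y l := by
  simp [φ, Basis.coord_apply]

theorem φ_span (b : Basis (Fin n) ℝ (E n)) (a : Fin n → ℝ) {l k : Fin n} (hkl : k ≠ l) {y : E n}
    (hy : y ∈ Submodule.span ℝ (S b a l k)) : b.repr y k = a k * b.repr y l := by
  have h : Submodule.span ℝ (S b a l k) ≤ LinearMap.ker (φ b a l k) := by
    rw [Submodule.span_le]
    rintro x (rfl | ⟨j, hj1, hj2, rfl⟩)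
    · rw [SetLike.mem_coe, LinearMap.mem_ker, φ_apply]
      simp [Finsupp.single_apply, hkl, hkl.symm]
    · rw [SetLike.mem_coe, LinearMap.mem_ker, φ_apply]
      simp [Finsupp.single_apply, hj1, hj2]
  have h1 := h hy
  rw [LinearMap.mem_ker, φ_apply] at h1
  linarith

end VST_

open VST_ in
theorem p_VST : T_VST := by
  classical
  intro n b X l a hb hX hal
  refine ⟨?_, ?_⟩
  · intro h
    have h1 : b.repr (∑ k, a k • b k) l = 0 := by rw [h]; simp
    rw [Basis.repr_sum_self] at h1
    rw [hal] at h1
    exact one_ne_zero h1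
  · intro y hy
    refine ⟨b.repr y l, ?_⟩
    have key : ∀ k, b.repr y k = a k * b.repr y l := by
      intro k
      by_cases hkl : k = l
      · rw [hkl, hal, one_mul]
      · refine φ_span b a hkl (hy (S b a l k) ?_ ?_)
        · rintro x (rfl | ⟨j, _, _, rfl⟩)
          · exact hX k hkl
          · exact hb j
        · have h1 : ∑ j, a j • b j = (b l + a k • b k) +
              ∑ j ∈ (Finset.univ.erase k).erase l, a j • b j := by
            have e1 := Finset.add_sum_erase (Finset.univ) (fun j => a j • b j) (Finset.mem_univ k)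
            have e2 := Finset.add_sum_erase (Finset.univ.erase k) (fun j => a j • b j)
              (Finset.mem_erase.mpr ⟨Ne.symm hkl, Finset.mem_univ l⟩)
            rw [← e1, ← e2, hal, one_smul]
            abel
          rw [h1]
          refine Submodule.add_mem _ (Submodule.subset_span (Or.inl rfl)) ?_
          refine Submodule.sum_mem _ fun j hj => Submodule.smul_mem _ _ (Submodule.subset_span ?_)
          rw [Finset.mem_erase, Finset.mem_erase] at hj
          exact Or.inr ⟨j, hj.2.1, hj.1, rfl⟩
    calc y = ∑ k, b.repr y k • b k := (b.sum_repr y).symm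
      _ = ∑ k, b.repr y l • (a k • b k) := by
        refine Finset.sum_congr rfl fun k _ => ?_
        rw [key k, smul_smul, mul_comm]
      _ = b.repr y l • ∑ k, a k • b k := by rw [Finset.smul_sum]

end Pool.Agent.PBX
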