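import Pool.Agent.PBX.Targets

/-! # PBX: target ZBD (zonotope: compact, convex, support function) -/

set_option autoImplicit false

open Set
open scoped Pointwise

namespace Pool.Agent.PBX
open Pool.Agent.ProjBody

namespace ZBD_

variable {n : ℕ} {ι : Type} [Fintype ι]

/-- the linear map `t ↦ ∑ t i • w i` -/
noncomputable def lin (w : ι → E n) : (ι → ℝ) →ₗ[ℝ] E n :=
  Fintype.linearCombination ℝ w

theorem Zt_eq (w : ι → E n) :
    Zt w = lin w '' Icc (fun _ => (-1 : ℝ)) (fun _ => (1 : ℝ)) := by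
  ext x
  constructor
  · rintro ⟨t, ht, rfl⟩
    exact ⟨t, ⟨fun i => (abs_le.1 (ht i)).1, fun i => (abs_le.1 (ht i)).2⟩, rfl⟩
  · rintro ⟨t, ⟨h1, h2⟩, rfl⟩
    exact ⟨t, fun i => abs_le.2 ⟨h1 i, h2 i⟩, rfl⟩

theorem compact (w : ι → E n) : IsCompact (Zt w) := by
  rw [Zt_eq]
  exact isCompact_Icc.image (LinearMap.continuous_of_finiteDimensional (lin w))

theorem convex (w : ι → E n) : Convex ℝ (Zt w) := by
  rw [Zt_eq]
  exact (convex_Icc _ _).linear_image (lin w)

end ZBD_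

theorem p_ZBD : T_ZBD := by
  intro n ι _ w
  refine ⟨ZBD_.compact w, ZBD_.convex w, ?_⟩
  ext x
  constructor
  · intro hx
    by_contra h
    obtain ⟨f, u, h1, h2⟩ := geometric_hahn_banach_closed_point (ZBD_.convex w)
      (ZBD_.compact w).isClosed h
    obtain ⟨v, hv⟩ : ∃ v : E n, ∀ y, f y = inner ℝ v y :=
      ⟨(InnerProductSpace.toDual ℝ (E n)).symm f, fun y => by simp⟩
    have h3 : ∑ i, (SignType.sign (inner ℝ v (w i) : ℝ) : ℝ) • w i ∈ Zt w := by
      refine ⟨fun i => (SignType.sign (inner ℝ v (w i) : ℝ) : ℝ), fun i => ?_, rfl⟩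
      show |((SignType.sign (inner ℝ v (w i) : ℝ) : SignType) : ℝ)| ≤ 1
      generalize SignType.sign (inner ℝ v (w i) : ℝ) = s
      rcases s with _ | _ | _ <;> simp
    have h4 := h1 _ h3
    rw [hv, inner_sum] at h4
    have h5 : ∑ i, inner ℝ v ((SignType.sign (inner ℝ v (w i) : ℝ) : ℝ) • w i) =
        ∑ i, |(inner ℝ v (w i) : ℝ)| := by
      refine Finset.sum_congr rfl fun i _ => ?_
      rw [real_inner_smul_right, sign_mul_self]
    rw [h5] at h4
    have h6 := hx v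
    rw [hv, real_inner_comm] at h2
    linarith
  · rintro ⟨t, ht, rfl⟩ u
    rw [sum_inner]
    refine Finset.sum_le_sum fun i _ => ?_
    rw [real_inner_smul_left, real_inner_comm]
    calc t i * inner ℝ u (w i) ≤ |t i * inner ℝ u (w i)| := le_abs_self _
      _ = |t i| * |(inner ℝ u (w i) : ℝ)| := abs_mul _ _
      _ ≤ 1 * |(inner ℝ u (w i) : ℝ)| := mul_le_mul_of_nonneg_right (ht i) (abs_nonneg _)
      _ = |(inner ℝ u (w i) : ℝ)| := one_mul _

end Pool.Agent.PBX
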