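import Pool.Agent.PBX.Targets

/-!
# PBX: norms of the approximations (`T_ZNM`)
-/

open MeasureTheory Module Set Filter Topology
open scoped Pointwise

namespace Pool.Agent.PBX
open Pool.Agent.ProjBody

namespace ZNM_

variable {n : ℕ} {ρ : Measure (E n)} {R : ℝ}

theorem ae_ball (hR : ρ (Metric.closedBall 0 R)ᶜ = 0) : ∀ᵐ w ∂ρ, ‖w‖ ≤ R := by
  rw [ae_iff]
  refine measure_mono_null (fun w hw => ?_) hR
  rw [mem_compl_iff, Metric.mem_closedBall, dist_zero_right]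
  exact hw

theorem bnd_inner {t : E n → E n} (ht : ∀ w, ‖t w‖ ≤ 2 * ‖w‖) (u : E n) {w : E n}
    (hw : ‖w‖ ≤ R) : ‖|(inner ℝ u (t w) : ℝ)|‖ ≤ ‖u‖ * (2 * R) := by
  rw [Real.norm_eq_abs, abs_abs]
  refine (abs_real_inner_le_norm _ _).trans (mul_le_mul_of_nonneg_left ?_ (norm_nonneg _))
  exact (ht w).trans (by linarith)

theorem meas_inner {t : E n → E n} (hm : Measurable t) (u : E n) :
    AEStronglyMeasurable (fun w => |(inner ℝ u (t w) : ℝ)|) ρ := by
  have h1 : Measurable (fun w => (inner ℝ u (t w) : ℝ)) := by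
    have hc : Continuous (fun v : E n => (inner ℝ u v : ℝ)) := by fun_prop
    exact hc.measurable.comp hm
  have h2 : Measurable (fun w => |(inner ℝ u (t w) : ℝ)|) := continuous_abs.measurable.comp h1
  exact h2.aestronglyMeasurable

theorem int_inner [IsFiniteMeasure ρ] (hR : ∀ᵐ w ∂ρ, ‖w‖ ≤ R) {t : E n → E n}
    (hm : Measurable t) (ht : ∀ w, ‖t w‖ ≤ 2 * ‖w‖) (u : E n) :
    Integrable (fun w => |(inner ℝ u (t w) : ℝ)|) ρ := by
  refine Integrable.mono' (integrable_const (‖u‖ * (2 * R))) (meas_inner hm u) ?_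
  filter_upwards [hR] with w hw
  exact bnd_inner ht u hw

theorem bnd_diff {t : E n → E n} (ht : ∀ w, ‖t w‖ ≤ 2 * ‖w‖) {w : E n} (hw : ‖w‖ ≤ R) :
    ‖‖t w - w‖‖ ≤ 3 * R := by
  rw [norm_norm]
  have h1 := norm_sub_le (t w) w
  have h2 := ht w
  linarith

theorem meas_diff {t : E n → E n} (hm : Measurable t) :
    AEStronglyMeasurable (fun w => ‖t w - w‖) ρ :=
  ((hm.sub measurable_id).norm).aestronglyMeasurable

theorem int_diff [IsFiniteMeasure ρ] (hR : ∀ᵐ w ∂ρ, ‖w‖ ≤ R) {t : E n → E n}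
    (hm : Measurable t) (ht : ∀ w, ‖t w‖ ≤ 2 * ‖w‖) : Integrable (fun w => ‖t w - w‖) ρ := by
  refine Integrable.mono' (integrable_const (3 * R)) (meas_diff hm) ?_
  filter_upwards [hR] with w hw
  exact bnd_diff ht hw

/-- distance of the two integrals -/
theorem close [IsFiniteMeasure ρ] (hR : ∀ᵐ w ∂ρ, ‖w‖ ≤ R) {t : E n → E n}
    (hm : Measurable t) (ht : ∀ w, ‖t w‖ ≤ 2 * ‖w‖) (u : E n) :
    |(∫ w, |(inner ℝ u (t w) : ℝ)| ∂ρ) - ∫ w, |(inner ℝ u w : ℝ)| ∂ρ| ≤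
      (∫ w, ‖t w - w‖ ∂ρ) * ‖u‖ := by
  have hid : Integrable (fun w => |(inner ℝ u w : ℝ)|) ρ :=
    int_inner (t := fun w => w) hR measurable_id (fun w => by linarith [norm_nonneg w]) u
  rw [← integral_sub (int_inner hR hm ht u) hid, ← integral_mul_const]
  refine (abs_integral_le_integral_abs).trans ?_
  refine integral_mono ((int_inner hR hm ht u).sub hid).abs
    ((int_diff hR hm ht).mul_const _) fun w => ?_
  show |(|(inner ℝ u (t w) : ℝ)| - |(inner ℝ u w : ℝ)|)| ≤ ‖t w - w‖ * ‖u‖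
  refine (abs_abs_sub_abs_le_abs_sub _ _).trans ?_
  rw [← inner_sub_right, mul_comm]
  exact abs_real_inner_le_norm _ _

theorem nm [IsFiniteMeasure ρ] {h : E n → ℝ} {a b : ℝ} (hR : ∀ᵐ w ∂ρ, ‖w‖ ≤ R)
    (hh : Nm a b h) (heq : ∀ u, h u = ∫ w, |(inner ℝ u w : ℝ)| ∂ρ) {t : E n → E n}
    (hm : Measurable t) (ht : ∀ w, ‖t w‖ ≤ 2 * ‖w‖) (hd : ∫ w, ‖t w - w‖ ∂ρ ≤ a / 2) :
    Nm (a / 2) (b + a / 2) (fun u => ∫ w, |(inner ℝ u (t w) : ℝ)| ∂ρ) := by
  have hc : ∀ u, |(∫ w, |(inner ℝ u (t w) : ℝ)| ∂ρ) - h u| ≤ a / 2 * ‖u‖ := fun u => by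
    rw [heq u]
    exact (close hR hm ht u).trans (mul_le_mul_of_nonneg_right hd (norm_nonneg _))
  refine ⟨fun u v => ?_, fun c u => ?_, fun u => ?_, fun u => ?_⟩
  · show ∫ w, |(inner ℝ (u + v) (t w) : ℝ)| ∂ρ ≤
      (∫ w, |(inner ℝ u (t w) : ℝ)| ∂ρ) + ∫ w, |(inner ℝ v (t w) : ℝ)| ∂ρ
    rw [← integral_add (int_inner hR hm ht u) (int_inner hR hm ht v)]
    refine integral_mono (int_inner hR hm ht _)
      ((int_inner hR hm ht u).add (int_inner hR hm ht v)) fun w => ?_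
    show |(inner ℝ (u + v) (t w) : ℝ)| ≤ |(inner ℝ u (t w) : ℝ)| + |(inner ℝ v (t w) : ℝ)|
    rw [inner_add_left]
    exact abs_add_le _ _
  · show ∫ w, |(inner ℝ (c • u) (t w) : ℝ)| ∂ρ = |c| * ∫ w, |(inner ℝ u (t w) : ℝ)| ∂ρ
    rw [← integral_const_mul]
    congr 1
    funext w
    rw [real_inner_smul_left, abs_mul]
  · have h1 := (abs_le.1 (hc u)).1
    have h2 := hh.lo u
    show a / 2 * ‖u‖ ≤ ∫ w, |(inner ℝ u (t w) : ℝ)| ∂ρ
    nlinarith
  · have h1 := (abs_le.1 (hc u)).2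
    have h2 := hh.hi u
    show ∫ w, |(inner ℝ u (t w) : ℝ)| ∂ρ ≤ (b + a / 2) * ‖u‖
    nlinarith

end ZNM_

open ZNM_

theorem p_ZNM : T_ZNM := by
  rintro n ρ h hg ⟨a, b, ha, hh⟩ s hs hlim
  have := hg.fin
  obtain ⟨R, hR0⟩ := hg.cpt
  have hR := ae_ball hR0
  constructor
  · intro u
    rw [hg.eq u]
    refine tendsto_integral_of_dominated_convergence (fun _ => ‖u‖ * (2 * R))
      (fun k => meas_inner (s k).measurable u) (integrable_const _) (fun k => ?_) ?_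
    · filter_upwards [hR] with w hw
      exact bnd_inner (hs k) u hw
    · refine ae_of_all _ fun w => ?_
      exact ((tendsto_const_nhds (x := u)).inner (hlim w)).abs
  · refine ⟨a / 2, b + a / 2, by linarith, ?_⟩
    have hd : Tendsto (fun k => ∫ w, ‖s k w - w‖ ∂ρ) atTop (𝓝 0) := by
      have h0 : (0 : ℝ) = ∫ _ : E n, (0 : ℝ) ∂ρ := by simp
      rw [h0]
      refine tendsto_integral_of_dominated_convergence (fun _ => 3 * R)
        (fun k => meas_diff (s k).measurable) (integrable_const _) (fun k => ?_) ?_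
      · filter_upwards [hR] with w hw
        exact bnd_diff (hs k) hw
      · refine ae_of_all _ fun w => ?_
        have h1 := ((hlim w).sub_const w).norm
        simpa using h1
    have h2 : ∀ᶠ k in atTop, ∫ w, ‖s k w - w‖ ∂ρ < a / 2 :=
      hd.eventually_lt_const (by linarith)
    filter_upwards [h2] with k hk
    exact nm hR hh hg.eq (s k).measurable (hs k) hk.le

end Pool.Agent.PBX
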