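import Pool.Agent.PBX.Targets

/-! # PBX, target ZSW: projection body of a zonotope -/

set_option autoImplicit false

open MeasureTheory Module Set Filter Topology
open scoped Pointwise

namespace Pool.Agent.PBX
open Pool.Agent.ProjBody

namespace ZSW_

variable {m : ℕ} {ι : Type}

/-- the family with the extra vector `x` at `none` -/
def ext {n : ℕ} (w : ι → E n) (x : E n) : Option ι → E n
  | none => x
  | some i => w i

/-- the maps with at most one value `none` -/
def emb : (Fin (m + 1) → ι) ⊕ (Fin (m + 1) × (Fin m → ι)) → (Fin (m + 1) → Option ι)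
  | Sum.inl f => fun i => some (f i)
  | Sum.inr (p, g) => p.insertNth none (fun i => some (g i))

theorem emb_inj : Function.Injective (emb : _ → (Fin (m + 1) → Option ι)) := by
  rintro (f | ⟨p, g⟩) (f' | ⟨p', g'⟩) h
  · congr 1
    funext i
    exact Option.some.inj (congrFun h i)
  · exfalso
    have h1 := congrFun h p'
    simp only [emb, Fin.insertNth_apply_same] at h1
    exact absurd h1 (by simp)
  · exfalso
    have h1 := congrFun h p
    simp only [emb, Fin.insertNth_apply_same] at h1
    exact absurd h1.symm (by simp)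
  · have hp : p = p' := by
      by_contra hne
      obtain ⟨k, hk⟩ := Fin.exists_succAbove_eq hne
      have h1 := congrFun h p
      simp only [emb, Fin.insertNth_apply_same] at h1
      rw [← hk, Fin.insertNth_apply_succAbove] at h1
      exact absurd h1 (by simp)
    subst hp
    have h2 : g = g' := by
      funext i
      have h1 := congrFun h (p.succAbove i)
      simp only [emb, Fin.insertNth_apply_succAbove] at h1
      exact Option.some.inj h1
    rw [h2]

theorem two_none {f : Fin (m + 1) → Option ι}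
    (hf : f ∉ Set.range (emb : _ → (Fin (m + 1) → Option ι))) :
    ∃ p q, p ≠ q ∧ f p = none ∧ f q = none := by
  by_contra hcon
  push Not at hcon
  apply hf
  by_cases h0 : ∀ p, f p ≠ none
  · have h1 : ∀ p, ∃ i, f p = some i := fun p => Option.ne_none_iff_exists'.1 (h0 p)
    choose g hg using h1
    exact ⟨Sum.inl g, by funext p; exact (hg p).symm⟩
  · push Not at h0
    obtain ⟨p, hp⟩ := h0
    have h1 : ∀ k : Fin m, ∃ i, f (p.succAbove k) = some i := by
      intro k
      refine Option.ne_none_iff_exists'.1 ?_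
      exact hcon p (p.succAbove k) (Fin.succAbove_ne p k).symm hp
    choose g hg using h1
    refine ⟨Sum.inr (p, g), ?_⟩
    funext q
    by_cases hq : q = p
    · subst hq
      simp only [emb, Fin.insertNth_apply_same]
      exact hp.symm
    · obtain ⟨k, hk⟩ := Fin.exists_succAbove_eq hq
      rw [← hk]
      simp only [emb, Fin.insertNth_apply_succAbove]
      exact (hg k).symm

/-- scaling of the first row -/
theorem det_cons_smul (c : ℝ) (u : E (m + 1)) (v : Fin m → E (m + 1)) :
    (mt (Fin.cons (c • u) v : Fin (m + 1) → E (m + 1))).det =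
      c * (mt (Fin.cons u v : Fin (m + 1) → E (m + 1))).det := by
  have h : mt (Fin.cons (c • u) v : Fin (m + 1) → E (m + 1)) =
      (mt (Fin.cons u v : Fin (m + 1) → E (m + 1))).updateRow 0
        (c • (mt (Fin.cons u v : Fin (m + 1) → E (m + 1))) 0) := by
    ext i j
    refine Fin.cases ?_ (fun i => ?_) i
    · simp [mt]
    · rw [Matrix.updateRow_ne (Fin.succ_ne_zero i)]
      simp [mt]
  rw [h, Matrix.det_updateRow_smul, Matrix.updateRow_eq_self]

/-- the position of the extra row does not matter -/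
theorem abs_det_insert (p : Fin (m + 1)) (x : E (m + 1)) (v : Fin m → E (m + 1)) :
    |(mt (p.insertNth x v : Fin (m + 1) → E (m + 1))).det| =
      |(mt (Fin.cons x v : Fin (m + 1) → E (m + 1))).det| := by
  have h : mt (p.insertNth x v : Fin (m + 1) → E (m + 1)) =
      (mt (Fin.cons x v : Fin (m + 1) → E (m + 1))).submatrix p.cycleRange id := by
    rw [← Fin.cons_comp_cycleRange]
    rfl
  rw [h, Matrix.det_permute, abs_mul]
  have h1 : |(((Equiv.Perm.sign p.cycleRange : ℤˣ) : ℤ) : ℝ)| = 1 := by
    rcases Int.units_eq_one_or (Equiv.Perm.sign p.cycleRange) with h2 | h2 <;> rw [h2] <;> simp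
  rw [h1, one_mul]

theorem sum_eq [Fintype ι] (w : ι → E (m + 1)) (u : E (m + 1)) :
    ∑ f : Fin (m + 1) → Option ι, |(mt (fun i => ext w ((2 : ℝ)⁻¹ • u) (f i))).det| =
      ∑ f : Fin (m + 1) → ι, |(mt (fun i => w (f i))).det| + (m + 1) * (2⁻¹ *
        ∑ f : Fin m → ι, |(mt (Fin.cons u (fun i => w (f i)) : Fin (m + 1) → E (m + 1))).det|) := by
  rw [← Fintype.sum_of_injective (emb : _ → (Fin (m + 1) → Option ι)) emb_inj
    (fun s => |(mt (fun i => ext w ((2 : ℝ)⁻¹ • u) (emb s i))).det|) _ ?_ (fun _ => rfl)]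
  · rw [Fintype.sum_sum_type, Fintype.sum_prod_type]
    congr 1
    have h1 : ∀ (p : Fin (m + 1)) (g : Fin m → ι),
        |(mt (fun i => ext w ((2 : ℝ)⁻¹ • u) (emb (Sum.inr (p, g)) i))).det| =
        2⁻¹ * |(mt (Fin.cons u (fun i => w (g i)) : Fin (m + 1) → E (m + 1))).det| := by
      intro p g
      have h2 : (fun i => ext w ((2 : ℝ)⁻¹ • u) (emb (Sum.inr (p, g)) i)) =
          (p.insertNth ((2 : ℝ)⁻¹ • u) (fun i => w (g i)) : Fin (m + 1) → E (m + 1)) := by
        funext q
        by_cases hq : q = p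
        · subst hq
          simp only [emb, Fin.insertNth_apply_same, ext]
        · obtain ⟨k, hk⟩ := Fin.exists_succAbove_eq hq
          rw [← hk]
          simp only [emb, Fin.insertNth_apply_succAbove, ext]
      rw [h2, abs_det_insert, det_cons_smul, abs_mul]
      norm_num
    simp only [h1]
    rw [Finset.sum_const, Finset.card_univ, Fintype.card_fin, nsmul_eq_mul, ← Finset.mul_sum]
    push_cast
    ring
  · intro f hf
    obtain ⟨p, q, hpq, hp, hq⟩ := two_none hf
    rw [abs_eq_zero]
    refine Matrix.det_zero_of_row_eq hpq ?_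
    funext j
    simp [mt, hp, hq]

/-- `Zt w + [0, u]` is a translate of the zonotope with the extra vector `u / 2` -/
theorem add_seg [Fintype ι] {n : ℕ} (w : ι → E n) (u : E n) :
    Zt w + segment ℝ 0 u = ((2 : ℝ)⁻¹ • u) +ᵥ Zt (ext w ((2 : ℝ)⁻¹ • u)) := by
  ext x
  rw [Set.mem_add, Set.mem_vadd_set]
  constructor
  · rintro ⟨y, ⟨t, ht, rfl⟩, z, hz, rfl⟩
    rw [segment_eq_image] at hz
    obtain ⟨θ, ⟨hθ0, hθ1⟩, rfl⟩ := hz
    refine ⟨_, ⟨fun o => Option.elim o (2 * θ - 1) t, ?_, rfl⟩, ?_⟩
    · intro o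
      cases o with
      | none =>
        simp only [Option.elim]
        rw [abs_le]
        constructor <;> linarith
      | some i => exact ht i
    · rw [Fintype.sum_option]
      simp only [Option.elim, ext, vadd_eq_add, smul_smul, smul_zero, zero_add]
      have : (2 * θ - 1) * 2⁻¹ = θ - (2 : ℝ)⁻¹ := by ring
      rw [this, sub_smul]
      abel
  · rintro ⟨y, ⟨t, ht, rfl⟩, rfl⟩
    refine ⟨∑ i, t (some i) • w i, ⟨fun i => t (some i), fun i => ht (some i), rfl⟩,
      ((t none + 1) / 2) • u, ?_, ?_⟩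
    · rw [segment_eq_image]
      have h1 := abs_le.1 (ht none)
      refine ⟨(t none + 1) / 2, ⟨by linarith [h1.1], by linarith [h1.2]⟩, ?_⟩
      simp
    · rw [Fintype.sum_option]
      simp only [ext, vadd_eq_add, smul_smul]
      have : (t none + 1) / 2 = t none * 2⁻¹ + (2 : ℝ)⁻¹ := by ring
      rw [this, add_smul]
      abel

end ZSW_

/-- Target ZSW. -/
theorem p_ZSW (h_VOL : T_VOL) : T_ZSW := by
  intro m ι _ w u
  have h1 : (volume (Zt w + segment ℝ 0 u)).toReal = vz (ZSW_.ext w ((2 : ℝ)⁻¹ • u)) := by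
    rw [ZSW_.add_seg, measure_vadd, vz]
  have h2 := h_VOL (m + 1) (Option ι) (ZSW_.ext w ((2 : ℝ)⁻¹ • u))
  have h3 := h_VOL (m + 1) ι w
  rw [sw, h1, h2, ZSW_.sum_eq]
  have h4 : (volume (Zt w)).toReal = vz w := rfl
  rw [h4, h3, mul_add, add_sub_cancel_left]
  have h5 : ((m + 1).factorial : ℝ) = (m + 1) * m.factorial := by
    rw [Nat.factorial_succ]
    push_cast
    ring
  have h6 : (m.factorial : ℝ) ≠ 0 := Nat.cast_ne_zero.2 (Nat.factorial_ne_zero m)
  have h7 : ((m : ℝ) + 1) ≠ 0 := by positivity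
  rw [h5]
  field_simp
  ring

end Pool.Agent.PBX
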