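import Pool.Agent.PBX.Targets

/-!
# PBX: ZZ, the zonoid formula
-/

open MeasureTheory Module Set Filter Topology
open scoped Pointwise

namespace Pool.Agent.PBX
open Pool.Agent.ProjBody

namespace ZZ_

variable {m : ℕ} {ρ : Measure (E (m + 1))} {R : ℝ}

theorem ae_ball (hR : ρ (Metric.closedBall 0 R)ᶜ = 0) : ∀ᵐ w ∂ρ, ‖w‖ ≤ R := by
  rw [ae_iff]
  refine measure_mono_null (fun w hw => ?_) hR
  rw [mem_compl_iff, Metric.mem_closedBall, dist_zero_right]
  exact hw

theorem ae_pi [IsFiniteMeasure ρ] (hR : ∀ᵐ w ∂ρ, ‖w‖ ≤ R) :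
    ∀ᵐ w ∂(Measure.pi fun _ : Fin m => ρ), ∀ i, ‖w i‖ ≤ R := by
  rw [ae_all_iff]
  intro i
  exact (Measure.quasiMeasurePreserving_eval (fun _ : Fin m => ρ) i).ae hR

/-- the cross product is bounded on products of balls -/
theorem crp_bdd (hc : Continuous (crp : (Fin m → E (m + 1)) → E (m + 1))) (R : ℝ) :
    ∃ C : ℝ, ∀ w : Fin m → E (m + 1), (∀ i, ‖w i‖ ≤ R) → ‖crp w‖ ≤ C := by
  have hK : IsCompact (Set.pi univ (fun _ : Fin m => Metric.closedBall (0 : E (m + 1)) R)) :=
    isCompact_univ_pi fun _ => isCompact_closedBall 0 R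
  obtain ⟨C, hC⟩ := (hK.image hc).isBounded.exists_norm_le
  refine ⟨C, fun w hw => hC _ ⟨w, fun i _ => ?_, rfl⟩⟩
  rw [Metric.mem_closedBall, dist_zero_right]
  exact hw i

theorem meas (hc : Continuous (crp : (Fin m → E (m + 1)) → E (m + 1))) (u : E (m + 1))
    {t : E (m + 1) → E (m + 1)} (ht : Measurable t) :
    Measurable (fun w : Fin m → E (m + 1) => |(inner ℝ u (crp fun i => t (w i)) : ℝ)|) := by
  have h1 : Measurable (fun w : Fin m → E (m + 1) => fun i => t (w i)) :=
    measurable_pi_lambda _ fun i => ht.comp (measurable_pi_apply i)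
  have h2 : Continuous (fun w : Fin m → E (m + 1) => |(inner ℝ u (crp w) : ℝ)|) :=
    continuous_abs.comp (continuous_const.inner hc)
  exact h2.measurable.comp h1

end ZZ_

theorem p_ZZ (h_DIS : T_DIS) (h_ZNM : T_ZNM) (h_CRI : T_CRI) (h_CRC : T_CRC) : T_ZZ := by
  intro m ρ h hG hN
  have := hG.fin
  have hc := (h_CRC m).1
  obtain ⟨R, hR⟩ := hG.cpt
  have hRae := ZZ_.ae_ball hR
  have hpi := ZZ_.ae_pi hRae
  obtain ⟨C, hC⟩ := ZZ_.crp_bdd hc (2 * R)
  have hR0 : ∀ w : E (m + 1), ‖w‖ ≤ R → ‖w‖ ≤ 2 * R := fun w hw => by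
    have := norm_nonneg w
    linarith
  -- the approximations
  set s : ℕ → SimpleFunc (E (m + 1)) (E (m + 1)) := fun k =>
    SimpleFunc.approxOn (fun x : E (m + 1) => x) measurable_id Set.univ 0 (Set.mem_univ 0) k
    with hs
  have hs1 : ∀ k w, ‖s k w‖ ≤ 2 * ‖w‖ := by
    intro k w
    have := SimpleFunc.norm_approxOn_zero_le (measurable_id (α := E (m + 1)))
      (Set.mem_univ (0 : E (m + 1))) w k
    rw [two_mul]
    exact this
  have hs2 : ∀ w, Tendsto (fun k => s k w) atTop (𝓝 w) := by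
    intro w
    exact SimpleFunc.tendsto_approxOn (measurable_id (α := E (m + 1)))
      (Set.mem_univ (0 : E (m + 1))) (by simp)
  obtain ⟨hlim, a, b, ha, hab⟩ := h_ZNM (m + 1) ρ h hG hN s hs1 hs2
  refine ⟨?_, ⟨C, ?_⟩, fun u => ?_⟩
  · unfold nxt
    have : IsFiniteMeasure ((Measure.pi fun _ : Fin m => ρ).map crp) := inferInstance
    exact Measure.smul_finite _ ENNReal.ofReal_ne_top
  · unfold nxt
    rw [Measure.smul_apply, Measure.map_apply hc.measurable
      Metric.isClosed_closedBall.measurableSet.compl]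
    have h0 : (Measure.pi fun _ : Fin m => ρ) (crp ⁻¹' (Metric.closedBall 0 C)ᶜ) = 0 := by
      refine measure_mono_null (fun w hw => ?_) hpi
      intro hw'
      apply hw
      rw [Metric.mem_closedBall, dist_zero_right]
      exact hC w fun i => hR0 _ (hw' i)
    rw [h0, smul_zero]
  · -- the formula
    have h1 := P_lim ha hab hlim u
    have h2 : ∀ k, P (fun v => ∫ w, |(inner ℝ v (s k w) : ℝ)| ∂ρ) u = 2 ^ m / m.factorial *
        ∫ w : Fin m → E (m + 1), |(inner ℝ u (crp fun i => s k (w i)) : ℝ)|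
          ∂(Measure.pi fun _ => ρ) := by
      intro k
      rw [h_DIS m ρ (s k) u]
      congr 1
      refine integral_congr_ae (Eventually.of_forall fun w => ?_)
      show |(mt (Fin.cons u (fun i => s k (w i)) : Fin (m + 1) → E (m + 1))).det| =
        |(inner ℝ u (crp fun i => s k (w i)) : ℝ)|
      rw [h_CRI]
    simp only [h2] at h1
    have h3 : Tendsto (fun k => ∫ w : Fin m → E (m + 1),
        |(inner ℝ u (crp fun i => s k (w i)) : ℝ)| ∂(Measure.pi fun _ => ρ)) atTop
        (𝓝 (∫ w : Fin m → E (m + 1), |(inner ℝ u (crp w) : ℝ)| ∂(Measure.pi fun _ => ρ))) := by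
      refine tendsto_integral_of_dominated_convergence (fun _ => ‖u‖ * C)
        (fun k => (ZZ_.meas hc u (s k).measurable).aestronglyMeasurable) (integrable_const _)
        (fun k => ?_) ?_
      · filter_upwards [hpi] with w hw
        rw [Real.norm_eq_abs, abs_abs]
        refine (abs_real_inner_le_norm _ _).trans
          (mul_le_mul_of_nonneg_left (hC _ fun i => ?_) (norm_nonneg _))
        exact (hs1 k (w i)).trans (by linarith [hw i])
      · refine Eventually.of_forall fun w => ?_
        have h4 : Tendsto (fun k => (fun i => s k (w i) : Fin m → E (m + 1))) atTop (𝓝 w) :=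
          tendsto_pi_nhds.2 fun i => hs2 (w i)
        have h5 : Continuous (fun w : Fin m → E (m + 1) => |(inner ℝ u (crp w) : ℝ)|) :=
          continuous_abs.comp (continuous_const.inner hc)
        exact (h5.tendsto w).comp h4
    have h6 := tendsto_nhds_unique h1 (h3.const_mul (2 ^ m / (m.factorial : ℝ)))
    rw [h6]
    unfold nxt
    rw [integral_smul_measure, ENNReal.toReal_ofReal (by positivity), smul_eq_mul]
    congr 1
    rw [integral_map hc.measurable.aemeasurable]
    exact (continuous_abs.comp (continuous_const.inner continuous_id)).aestronglyMeasurable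

end Pool.Agent.PBX
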