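import Pool.Agent.PBX.P_CRI
import Pool.Agent.PBX.P_CRC
import Pool.Agent.PBX.P_CRO
import Pool.Agent.PBX.P_ZBD
import Pool.Agent.PBX.P_VAF
import Pool.Agent.PBX.P_POL
import Pool.Agent.PBX.P_PAR
import Pool.Agent.PBX.P_ORD
import Pool.Agent.PBX.P_VOL
import Pool.Agent.PBX.P_ZSW
import Pool.Agent.PBX.P_DIS
import Pool.Agent.PBX.P_ZNM
import Pool.Agent.PBX.P_ZZ
import Pool.Agent.PBX.P_LAY
import Pool.Agent.PBX.P_SDF
import Pool.Agent.PBX.P_SDL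
import Pool.Agent.PBX.P_RAD
import Pool.Agent.PBX.P_TNT
import Pool.Agent.PBX.P_TSW
import Pool.Agent.PBX.P_BBB
import Pool.Agent.PBX.P_SUP
import Pool.Agent.PBX.P_GEI
import Pool.Agent.PBX.P_NEG
import Pool.Agent.PBX.P_ADS
import Pool.Agent.PBX.P_SPN
import Pool.Agent.PBX.P_SJ
import Pool.Agent.PBX.P_MJ
import Pool.Agent.PBX.P_MMB
import Pool.Agent.PBX.P_MMI
import Pool.Agent.PBX.P_DWN
import Pool.Agent.PBX.P_VEX
import Pool.Agent.PBX.P_VCO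
import Pool.Agent.PBX.P_VST
import Pool.Agent.PBX.P_VFR
import Pool.Agent.PBX.P_GMU
import Pool.Agent.PBX.P_GSU
import Pool.Agent.PBX.P_GRG
import Pool.Agent.PBX.P_GDY
import Pool.Agent.PBX.P_VDN
import Pool.Agent.PBX.P_BSE
import Pool.Agent.PBX.P_BDU
import Pool.Agent.PBX.P_CS1
import Pool.Agent.PBX.P_AFW
import Pool.Agent.PBX.P_LAB
import Pool.Agent.PBX.P_ABW
import Pool.Agent.PBX.P_AIT
import Pool.Agent.PBX.P_SLM
import Pool.Agent.PBX.P_SDS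
import Pool.Agent.PBX.P_RND
import Pool.Agent.PBX.P_RNI
import Pool.Agent.PBX.P_LV1
import Pool.Agent.PBX.P_LV2
import Pool.Agent.PBX.P_NUM
import Pool.Agent.PBX.P_DIC
import Pool.Agent.PBX.P_STC
import Pool.Agent.PBX.P_MNA
import Pool.Agent.PBX.P_DSN
import Pool.Agent.PBX.P_DSB
import Pool.Agent.PBX.P_DSV
import Pool.Agent.PBX.P_DSL
import Pool.Agent.PBX.P_DSG
import Pool.Agent.PBX.P_DSP
import Pool.Agent.PBX.P_SCS
import Pool.Agent.PBX.P_CDS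
import Pool.Agent.PBX.P_DEC
import Pool.Agent.PBX.P_CDD
import Pool.Agent.PBX.P_CLT
import Pool.Agent.PBX.P_CL1
import Pool.Agent.PBX.P_PL2
import Pool.Agent.PBX.P_CL2
import Pool.Agent.PBX.P_CSC
import Pool.Agent.PBX.P_SPD
import Pool.Agent.PBX.P_SSM
import Pool.Agent.PBX.P_SST
import Pool.Agent.PBX.P_STA
import Pool.Agent.PBX.P_STB
import Pool.Agent.PBX.P_SFN
import Pool.Agent.PBX.P_PBC
import Pool.Agent.PBX.P_PBP
import Pool.Agent.PBX.P_OEO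
import Pool.Agent.PBX.P_SMO
import Pool.Agent.PBX.P_BL1
import Pool.Agent.PBX.P_BL2
import Pool.Agent.PBX.P_TAJ
import Pool.Agent.PBX.P_SFT
import Pool.Agent.PBX.P_BDT
import Pool.Agent.PBX.P_R1
import Pool.Agent.PBX.P_R1F
import Pool.Agent.PBX.P_R2
import Pool.Agent.PBX.P_R3
import Pool.Agent.PBX.P_R4
import Pool.Agent.PBX.P_PVX

/-! # PBX: all targets proved (no hypotheses left) -/

namespace Pool.Agent.PBX

theorem t_CRI : T_CRI := p_CRI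
theorem t_CRC : T_CRC := p_CRC
theorem t_CRO : T_CRO := p_CRO t_CRI
theorem t_ZBD : T_ZBD := p_ZBD
theorem t_VAF : T_VAF := p_VAF t_ZBD
theorem t_POL : T_POL := p_POL
theorem t_PAR : T_PAR := p_PAR
theorem t_ORD : T_ORD := p_ORD
theorem t_VOL : T_VOL := p_VOL t_VAF t_POL t_PAR t_ORD
theorem t_ZSW : T_ZSW := p_ZSW t_VOL
theorem t_DIS : T_DIS := p_DIS t_ZBD t_ZSW
theorem t_ZNM : T_ZNM := p_ZNM
theorem t_ZZ : T_ZZ := p_ZZ t_DIS t_ZNM t_CRI t_CRC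
theorem t_LAY : T_LAY := p_LAY
theorem t_SDF : T_SDF := p_SDF
theorem t_SDL : T_SDL := p_SDL t_SDF
theorem t_RAD : T_RAD := p_RAD
theorem t_TNT : T_TNT := p_TNT
theorem t_TSW : T_TSW := p_TSW t_LAY t_SDF t_SDL t_RAD t_TNT
theorem t_BBB : T_BBB := p_BBB t_TNT t_TSW
theorem t_SUP : T_SUP := p_SUP
theorem t_GEI : T_GEI := p_GEI
theorem t_NEG : T_NEG := p_NEG
theorem t_ADS : T_ADS := p_ADS t_NEG
theorem t_SPN : T_SPN := p_SPN t_SUP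
theorem t_SJ : T_SJ := p_SJ t_CRO t_CRC
theorem t_MJ : T_MJ := p_MJ
theorem t_MMB : T_MMB := p_MMB
theorem t_MMI : T_MMI := p_MMI t_MMB
theorem t_DWN : T_DWN := p_DWN t_ZZ t_SJ t_MJ t_MMB t_SPN
theorem t_VEX : T_VEX := p_VEX
theorem t_VCO : T_VCO := p_VCO
theorem t_VST : T_VST := p_VST
theorem t_VFR : T_VFR := p_VFR t_VEX t_VCO t_MMB t_MMI
theorem t_GMU : T_GMU := p_GMU t_VCO
theorem t_GSU : T_GSU := p_GSU t_MMB
theorem t_GRG : T_GRG := p_GRG t_GMU t_GSU t_MMB t_MMI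
theorem t_GDY : T_GDY := p_GDY t_GRG t_VEX t_MMI
theorem t_VDN : T_VDN := p_VDN t_VFR t_VST t_GDY t_MMB t_MMI
theorem t_BSE : T_BSE := p_BSE
theorem t_BDU : T_BDU := p_BDU t_SUP t_GEI
theorem t_CS1 : T_CS1 := p_CS1 t_SUP t_GEI
theorem t_AFW : T_AFW := p_AFW t_ZZ t_ADS t_CRO t_SUP
theorem t_LAB : T_LAB := p_LAB
theorem t_ABW : T_ABW := p_ABW t_ZZ t_ADS t_SJ t_LAB t_SPN
theorem t_AIT : T_AIT := p_AIT t_AFW t_ZZ
theorem t_SLM : T_SLM := p_SLM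
theorem t_SDS : T_SDS := p_SDS
theorem t_RND : T_RND := p_RND
theorem t_RNI : T_RNI := p_RNI t_RND
theorem t_LV1 : T_LV1 := p_LV1 t_AIT
theorem t_LV2 : T_LV2 := p_LV2 t_DWN t_VDN t_MMB t_MMI
theorem t_NUM : T_NUM := p_NUM
theorem t_DIC : T_DIC := p_DIC t_NUM t_BBB t_RNI t_BSE t_BDU t_CS1 t_LV1 t_LV2 t_SUP t_SPN
theorem t_STC : T_STC := p_STC t_NEG
theorem t_MNA : T_MNA := p_MNA t_DIC t_SLM t_STC
theorem t_DSN : T_DSN := p_DSN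
theorem t_DSB : T_DSB := p_DSB
theorem t_DSV : T_DSV := p_DSV
theorem t_DSL : T_DSL := p_DSL t_DSN t_DSB t_DSV
theorem t_DSG : T_DSG := p_DSG
theorem t_DSP : T_DSP := p_DSP t_AFW t_DSG t_DSN t_DSL
theorem t_SCS : T_SCS := p_SCS
theorem t_CDS : T_CDS := p_CDS t_SCS t_DSP t_BBB t_DSN
theorem t_DEC : T_DEC := p_DEC t_ABW
theorem t_CDD : T_CDD := p_CDD t_DEC t_DSP t_BBB
theorem t_CLT : T_CLT := p_CLT
theorem t_CL1 : T_CL1 := p_CL1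
theorem t_PL2 : T_PL2 := p_PL2
theorem t_CL2 : T_CL2 := p_CL2 t_PL2
theorem t_CSC : T_CSC := p_CSC
theorem t_SPD : T_SPD := p_SPD
theorem t_SSM : T_SSM := p_SSM
theorem t_SST : T_SST := p_SST
theorem t_STA : T_STA := p_STA t_MNA t_SPD t_CLT t_CDD t_SSM t_SST
theorem t_STB : T_STB := p_STB t_CL1 t_CL2 t_CDS t_CLT
theorem t_SFN : T_SFN := p_SFN
theorem t_PBC : T_PBC := p_PBC
theorem t_PBP : T_PBP := p_PBP t_SFN t_PBC
theorem t_OEO : T_OEO := p_OEO t_SFN t_PBC t_PBP t_CSC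
theorem t_SMO : T_SMO := p_SMO
theorem t_BL1 : T_BL1 := p_BL1 t_SFN t_OEO t_SMO
theorem t_BL2 : T_BL2 := p_BL2 t_OEO t_SMO
theorem t_TAJ : T_TAJ := p_TAJ
theorem t_SFT : T_SFT := p_SFT
theorem t_BDT : T_BDT := p_BDT
theorem t_R1 : T_R1 := p_R1 t_OEO t_STA t_STB t_TAJ t_SFT t_BDT t_SFN t_BL1 t_BL2
theorem t_R1F : T_R1F := p_R1F t_R1
theorem t_R2 : T_R2 := p_R2 t_OEO t_MNA t_SMO t_SDS t_SFN
theorem t_R3 : T_R3 := p_R3 t_OEO t_MNA t_SMO t_SPD t_CL1 t_CL2 t_CDS t_CLT t_SFN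
theorem t_R4 : T_R4 := p_R4 t_R1F t_TAJ t_SFT
theorem t_PVX : T_PVX := p_PVX

end Pool.Agent.PBX
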