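import Pool.Agent.PBX.Targets

/-!
# PBX: SDL, limit of the symmetric difference (helper62)
-/

open MeasureTheory Module Set Filter Topology
open scoped Pointwise

namespace Pool.Agent.PBX
open Pool.Agent.ProjBody

theorem p_SDL (h_SDF : T_SDF) : T_SDL := by
  intro n _ K a hK hcv ha hball u
  set V : ℕ → ℝ := fun k => (volume (symmDiff K {x | x + ((k : ℝ) + 1)⁻¹ • u ∈ K})).toReal with hV
  have hpos : ∀ k : ℕ, (0 : ℝ) < (k : ℝ) + 1 := fun k => by positivity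
  have hsw : ∀ k : ℕ, sw K (((k : ℝ) + 1)⁻¹ • u) = ((k : ℝ) + 1)⁻¹ * sw K u := by
    intro k
    rw [sw_smul hK hcv, abs_of_nonneg (inv_nonneg.2 (hpos k).le)]
  have hnorm : ∀ k : ℕ, ‖((k : ℝ) + 1)⁻¹ • u‖ = ‖u‖ * ((k : ℝ) + 1)⁻¹ := by
    intro k
    rw [norm_smul, Real.norm_of_nonneg (inv_nonneg.2 (hpos k).le), mul_comm]
  have hup : ∀ k : ℕ, ((k : ℝ) + 1) * V k ≤ 2 * sw K u := by
    intro k
    have h1 := (h_SDF n K a hK hcv ha hball (((k : ℝ) + 1)⁻¹ • u)).1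
    rw [hsw k] at h1
    calc ((k : ℝ) + 1) * V k ≤ ((k : ℝ) + 1) * (2 * (((k : ℝ) + 1)⁻¹ * sw K u)) :=
          mul_le_mul_of_nonneg_left h1 (hpos k).le
      _ = 2 * sw K u := by
          have := (hpos k).ne'
          field_simp
  have hlim0 : Tendsto (fun k : ℕ => ‖u‖ * ((k : ℝ) + 1)⁻¹) atTop (𝓝 0) := by
    have h := (tendsto_one_div_add_atTop_nhds_zero_nat (𝕜 := ℝ)).const_mul ‖u‖
    rw [mul_zero] at h
    simpa [one_div] using h
  have hlow : ∀ᶠ k : ℕ in atTop,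
      (1 - ‖u‖ * ((k : ℝ) + 1)⁻¹ / (2 * a)) ^ (n - 1) * (2 * sw K u) ≤ ((k : ℝ) + 1) * V k := by
    have h2a : (0 : ℝ) < 2 * a := by linarith
    filter_upwards [hlim0.eventually (gt_mem_nhds h2a)] with k hk
    have h1 := (h_SDF n K a hK hcv ha hball (((k : ℝ) + 1)⁻¹ • u)).2
    rw [hnorm k, hsw k] at h1
    have h2 := mul_le_mul_of_nonneg_left (h1 hk.le) (hpos k).le
    refine le_trans (le_of_eq ?_) h2
    have := (hpos k).ne'
    field_simp
  have hlim : Tendsto (fun k : ℕ =>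
      (1 - ‖u‖ * ((k : ℝ) + 1)⁻¹ / (2 * a)) ^ (n - 1) * (2 * sw K u)) atTop (𝓝 (2 * sw K u)) := by
    have h1 : Tendsto (fun k : ℕ => (1 - ‖u‖ * ((k : ℝ) + 1)⁻¹ / (2 * a)) ^ (n - 1) * (2 * sw K u))
        atTop (𝓝 ((1 - 0 / (2 * a)) ^ (n - 1) * (2 * sw K u))) :=
      ((tendsto_const_nhds.sub (hlim0.div_const (2 * a))).pow (n - 1)).mul_const _
    simpa using h1
  exact tendsto_of_tendsto_of_tendsto_of_le_of_le' hlim tendsto_const_nhds hlow
    (Eventually.of_forall hup)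

end Pool.Agent.PBX
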