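import Pool.Agent.PBX.Defs

/-!
# PBX: targets

`T_XXX : Prop` is proved in the file `P_XXX.lean` (theorem `p_XXX`); any other target may be taken as a hypothesis.
The docstring contains the complete proof.  `m + 1 = n` everywhere in the first group.
-/

open MeasureTheory Module Set Filter Topology
open scoped Pointwise

namespace Pool.Agent.PBX
open Pool.Agent.ProjBody

/-- volume of the zonotope `∑ [-w i, w i]` -/
noncomputable def vz {n : ℕ} {ι : Type} [Fintype ι] (w : ι → E n) : ℝ := (volume (Zt w)).toReal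

/-- the tent function of a convex body containing `0` in its interior -/
noncomputable def tent {n : ℕ} (K : Set (E n)) (x : E n) : ℝ := max 0 (1 - gauge K x)

/-! ## Group Z: zonoid formula -/

/-- `⟨u, crp w⟩ = det (u, w)`. Expand along row 0 (`Matrix.det_succ_row_zero`): the minors do not depend on `u`. -/
def T_CRI : Prop := ∀ (m : ℕ) (u : E (m + 1)) (w : Fin m → E (m + 1)),
  (inner ℝ u (crp w) : ℝ) = (mt (Fin.cons u w : Fin (m + 1) → E (m + 1))).det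

/-- `crp` is continuous (coordinates are polynomials: `Continuous.matrix_det`) and multiplicative in scalars (`Matrix.det_mul_column` /
`det_updateRow_smul`, or: multiply the rows by the diagonal matrix `Fin.cons 1 c` and use `Matrix.det_mul`, `Matrix.det_diagonal`). -/
def T_CRC : Prop := ∀ m : ℕ, Continuous (crp : (Fin m → E (m + 1)) → E (m + 1)) ∧
  ∀ (c : Fin m → ℝ) (w : Fin m → E (m + 1)), crp (fun i => c i • w i) = (∏ i, c i) • crp w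

/-- `crp w ⊥ w i` (`h1 : T_CRI`, two equal rows); `crp w ≠ 0` iff the `w i` are linearly independent: if independent, there is
`u` outside their span (dimension `m < m + 1`), then `(u, w)` is independent, its determinant is not zero and it equals `⟨u, crp w⟩`;
if `crp w ≠ 0` take `u = crp w`: the determinant of `(u, w)` is `‖crp w‖^2 ≠ 0`, so the rows are independent. -/
def T_CRO : Prop := ∀ (m : ℕ) (w : Fin m → E (m + 1)),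
  (∀ i, (inner ℝ (crp w) (w i) : ℝ) = 0) ∧ (LinearIndependent ℝ w → crp w ≠ 0) ∧ (crp w ≠ 0 → LinearIndependent ℝ w)

/-- `Zt w` is the image of the compact convex cube `{t | |t i| ≤ 1}` under a linear map. `Zt ⊆ Bd`: termwise. If `x ∉ Zt w`,
separate (`geometric_hahn_banach_point_compact` or similar, functional `⟨·, u⟩` by `InnerProductSpace.toDual`): `⟨z, u⟩ < ⟨x, u⟩` for
all `z ∈ Zt w`; for `z = ∑ sign ⟨u, w i⟩ • w i` this contradicts `x ∈ Bd`. -/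
def T_ZBD : Prop := ∀ (n : ℕ) (ι : Type) [Fintype ι] (w : ι → E n),
  IsCompact (Zt w) ∧ Convex ℝ (Zt w) ∧ Bd (fun u => ∑ i, |(inner ℝ u (w i) : ℝ)|) = Zt w

/-- Affinity: let `Z₀ = Zt (update t i 0 • w)` (compact, convex by `T_ZBD`). `Zt (update t i s • w) = Z₀ + segment (-s w_i) (s w_i)
= (-s w_i) + (Z₀ + segment ℝ 0 (2 s w_i))`; translation invariance of the volume and the definition of `sw` with
`sw_smul` give `vz = vol Z₀ + 2 s sw Z₀ (w i)` for `s ≥ 0`: affine in `s`. Homogeneity: `Zt (r • ..) = r • Zt (..)`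
and `Measure.addHaar_smul`. -/
def T_VAF : Prop := ∀ (n : ℕ) [NeZero n] (ι : Type) [Fintype ι] [DecidableEq ι] (w : ι → E n),
  (∀ t : ι → ℝ, (∀ i, 0 ≤ t i) → ∀ (i : ι) (s : ℝ), 0 ≤ s →
    vz (fun j => Function.update t i s j • w j) =
      (1 - s) * vz (fun j => Function.update t i 0 j • w j) + s * vz (fun j => Function.update t i 1 j • w j)) ∧
  (∀ t : ι → ℝ, (∀ i, 0 ≤ t i) → ∀ r : ℝ, 0 ≤ r → vz (fun j => (r * t j) • w j) = r ^ n * vz (fun j => t j • w j))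

/-- Pure algebra. (1) By induction on the coordinates, for `t ≥ 0`: `F t = ∑_A (∏_{i∈A} t_i) (∏_{i∉A} (1 - t_i)) F(1_A)`; in particular
`F(r 1_A) = ∑_{B ⊆ A} r^|B| (1-r)^|A \ B| F(1_B)` for `r ≥ 0`. (2) `F(1_A) = 0` for `|A| < n`: strong induction on `|A|`, the proper subsets
drop out, so `2^|A| F(1_A) = F(2 · 1_A) = 2^n F(1_A)`. (3) For `r > 0`: `r^n F(1) = ∑_{|A| ≥ n} r^|A| (1-r)^(N-|A|) F(1_A)`;
divide by `r^n` and let `r → 0+`. -/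
def T_POL : Prop := ∀ (n : ℕ) (ι : Type) [Fintype ι] [DecidableEq ι] (F : (ι → ℝ) → ℝ),
  (∀ t : ι → ℝ, (∀ i, 0 ≤ t i) → ∀ (i : ι) (s : ℝ), 0 ≤ s →
    F (Function.update t i s) = (1 - s) * F (Function.update t i 0) + s * F (Function.update t i 1)) →
  (∀ t : ι → ℝ, (∀ i, 0 ≤ t i) → ∀ r : ℝ, 0 ≤ r → F (fun j => r * t j) = r ^ n * F t) →
  F (fun _ => 1) = ∑ A ∈ Finset.powersetCard n Finset.univ, F (fun j => if j ∈ A then 1 else 0)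

/-- Volume of a parallelepiped: `Zt w` is the image of the cube `[-1,1]^n` under the linear map `t ↦ ∑ t_i w_i`;
`Measure.addHaar_image_linearMap` (valid also for determinant 0), volume of the cube `2^n` (`Pool.Agent.ProjBody.volume_box` or
`EuclideanSpace.volume_preserving_measurableEquiv`). -/
def T_PAR : Prop := ∀ (n : ℕ) (w : Fin n → E n), vz w = 2 ^ n * |(mt w).det|

/-- Counting: for `|A| = k` there are `k!` embeddings `Fin k ↪ ι` with image `A`. -/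
def T_ORD : Prop := ∀ (k : ℕ) (ι : Type) [Fintype ι] [DecidableEq ι] (g : Finset ι → ℝ),
  ∑ f : Fin k ↪ ι, g (Finset.univ.map f) = k.factorial * ∑ A ∈ Finset.powersetCard k Finset.univ, g A

/-- `h1 : T_VAF`, `h2 : T_POL` for `F t = vz (t • w)`: `vz w = ∑_{|A| = n} vz (1_A • w)`. For an embedding `f` with image `A`,
`Zt (1_A • w) = Zt (w ∘ f)` (zero vectors do not matter), so `vz = 2^n |det (w ∘ f)|` by `h3 : T_PAR`. `h4 : T_ORD` turns the sum over `A` into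
a sum over embeddings; for `f` not injective the determinant has two equal rows. -/
def T_VOL : Prop := ∀ (n : ℕ) [NeZero n] (ι : Type) [Fintype ι] (w : ι → E n),
  vz w = 2 ^ n / n.factorial * ∑ f : Fin n → ι, |(mt (fun i => w (f i))).det|

/-- `Zt w + segment ℝ 0 u` is a translate of `Zt (Option.elim · (2⁻¹ • u) w)` (index type `Option ι`); apply `T_VOL` to both. In the sum over
`f : Fin (m+1) → Option ι` the terms with no `none` give `vz w`; the terms with two values `none` vanish; the terms with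
exactly one value `none`, at position `p` (`m + 1` positions): moving the row to the front changes the determinant by a sign, so they
give `(m+1) ∑_{f : Fin m → ι} ½ |det (u, w ∘ f)|` (use `Fin.insertNthEquiv` / `Fin.succAbove`). `2^(m+1)/(m+1)! · (m+1)/2 = 2^m/m!`. -/
def T_ZSW : Prop := ∀ (m : ℕ) (ι : Type) [Fintype ι] (w : ι → E (m + 1)) (u : E (m + 1)),
  sw (Zt w) u = 2 ^ m / m.factorial *
    ∑ f : Fin m → ι, |(mt (Fin.cons u (fun i => w (f i)) : Fin (m + 1) → E (m + 1))).det|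

/-- Simple functions. With `c_y = ρ.real (s ⁻¹' {y})`, `y ∈ s.range`: `∫ |⟨v, s w⟩| dρ = ∑_y c_y |⟨v, y⟩| = ∑_y |⟨v, c_y • y⟩|`, so by `T_ZBD`
the body is `Zt (fun y : s.range => c_y • y)` and `T_ZSW` applies; pull the `c_y` out of the determinant. The right integral: partition
`Fin m → E (m+1)` into the sets `{w | s ∘ w = f} = Set.pi univ (s ⁻¹' {f i})`, `Measure.pi_pi`. -/
def T_DIS : Prop := ∀ (m : ℕ) (ρ : Measure (E (m + 1))) [IsFiniteMeasure ρ] (s : SimpleFunc (E (m + 1)) (E (m + 1)))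
  (u : E (m + 1)), P (fun v => ∫ w, |(inner ℝ v (s w) : ℝ)| ∂ρ) u = 2 ^ m / m.factorial *
    ∫ w : Fin m → E (m + 1), |(mt (Fin.cons u (fun i => s (w i)) : Fin (m + 1) → E (m + 1))).det|
      ∂(Measure.pi fun _ => ρ)

/-- Approximation. `ρ` finite, bounded support `⊆ ball R`; everything dominated by `2 R ‖u‖`. Pointwise convergence by dominated
convergence. Homogeneous, subadditive: clear. `|h_k u - h u| ≤ ‖u‖ ∫ ‖s k w - w‖ dρ` and this integral tends to `0` (dominated); so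
eventually it is `≤ a/2`, if `Nm a b h`: `Nm (a/2) (b + a/2) h_k`. -/
def T_ZNM : Prop := ∀ (n : ℕ) (ρ : Measure (E n)) (h : E n → ℝ), Gen ρ h → IsN h →
  ∀ s : ℕ → SimpleFunc (E n) (E n), (∀ k w, ‖s k w‖ ≤ 2 * ‖w‖) → (∀ w, Tendsto (fun k => s k w) atTop (𝓝 w)) →
  (∀ u, Tendsto (fun k => ∫ w, |(inner ℝ u (s k w) : ℝ)| ∂ρ) atTop (𝓝 (h u))) ∧
  ∃ a b : ℝ, 0 < a ∧ ∀ᶠ k in atTop, Nm a b (fun u => ∫ w, |(inner ℝ u (s k w) : ℝ)| ∂ρ)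

/-- The zonoid formula. Take `s k = SimpleFunc.approxOn id measurable_id univ 0 _ k` (`tendsto_approxOn`, `edist_approxOn_y0_le` or
`edist_approxOn_le` give `‖s k w - w‖ ≤ ‖w‖`, so `‖s k w‖ ≤ 2 ‖w‖`). `T_ZNM` and `P_lim` (Pre.lean): `P h_k u → P h u`. `T_DIS`: `P h_k u = c ∫ |det (u, s k ∘ w)| dρ^m
→ c ∫ |det (u, w)| dρ^m` by dominated convergence (all `w i` in the ball `R` for almost all `w`; the determinant is continuous). By `T_CRI` this is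
`∫ |⟨u, x⟩| d(nxt ρ)(x)` (`integral_map`, `crp` continuous by `T_CRC`, scalar `ENNReal.ofReal`). Bounded support: `crp` is bounded on the product of balls. -/
def T_ZZ : Prop := ∀ (m : ℕ) (ρ : Measure (E (m + 1))) (h : E (m + 1) → ℝ), Gen ρ h → IsN h → Gen (nxt ρ) (P h)

/-! ## Group B: every projection body has a generating measure -/

/-- Layer cake and Tonelli: for fixed `x` the set of `s ∈ (0,1]` with exactly one of `s ≤ f x`, `s ≤ g x` is `(min, max]`, of measure `|f x - g x|`. -/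
def T_LAY : Prop := ∀ (n : ℕ) (f g : E n → ℝ), Measurable f → Measurable g → (∀ x, 0 ≤ f x ∧ f x ≤ 1) →
  (∀ x, 0 ≤ g x ∧ g x ≤ 1) →
  ∫⁻ x, ENNReal.ofReal |f x - g x| = ∫⁻ s in Ioc (0 : ℝ) 1, volume (symmDiff {x | s ≤ f x} {x | s ≤ g x})

/-- Symmetric difference with a translate. `K' = {x | x + u ∈ K} = K - u`. `vol (K ∆ K') = 2 vol (K ∪ K') - 2 vol K`. Upper bound: `K ∪ K' ⊆ K + [0,-u]`,
`sw K (-u) = sw K u`. Lower bound (`u ≠ 0`, `v = u/‖u‖`, `λ = ‖u‖/(2a) ≤ 1`): by Fubini in direction `v` (`volume_eq_lintegral`):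
`vol (K ∪ K') - vol K = ∫_y min (‖u‖, ℓ(y)) dy`, `ℓ(y)` = length of the fibre `{s | s v + y ∈ K}` (an interval). If `y ∈ (1-λ) proj K` then
`ℓ(y) ≥ 2 a λ = ‖u‖`, since `(1-λ) K + λ [-a v, a v] ⊆ K`. So it is `≥ ‖u‖ vol ((1-λ) proj K) = ‖u‖ (1-λ)^(n-1) br K u`, `sw_eq`
(the dimension of `(ℝ ∙ v)ᗮ` is `n - 1`, `Measure.addHaar_smul`). -/
def T_SDF : Prop := ∀ (n : ℕ) [NeZero n] (K : Set (E n)) (a : ℝ), IsCompact K → Convex ℝ K → 0 < a →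
  Metric.closedBall 0 a ⊆ K → ∀ u : E n,
    (volume (symmDiff K {x | x + u ∈ K})).toReal ≤ 2 * sw K u ∧
    (‖u‖ ≤ 2 * a → (1 - ‖u‖ / (2 * a)) ^ (n - 1) * (2 * sw K u) ≤ (volume (symmDiff K {x | x + u ∈ K})).toReal)

/-- From `T_SDF` with `u/(k+1)` and `sw_smul`: squeeze. -/
def T_SDL : Prop := ∀ (n : ℕ) [NeZero n] (K : Set (E n)) (a : ℝ), IsCompact K → Convex ℝ K → 0 < a →
  Metric.closedBall 0 a ⊆ K → ∀ u : E n,
    Tendsto (fun k : ℕ => ((k : ℝ) + 1) * (volume (symmDiff K {x | x + ((k : ℝ) + 1)⁻¹ • u ∈ K})).toReal) atTop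
      (𝓝 (2 * sw K u))

/-- Rademacher (`LipschitzWith.ae_differentiableAt`) and dominated convergence: the difference quotients converge almost everywhere to
`fderiv ℝ f x u`, they are bounded by `L ‖u‖` and vanish for `‖x‖ > R + ‖u‖`. -/
def T_RAD : Prop := ∀ (n : ℕ) (f : E n → ℝ) (L : NNReal) (R : ℝ), LipschitzWith L f → (∀ x, R < ‖x‖ → f x = 0) →
  ∀ u : E n, Tendsto (fun k : ℕ => ((k : ℝ) + 1) * ∫ x, |f (x + ((k : ℝ) + 1)⁻¹ • u) - f x|) atTop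
    (𝓝 (∫ x, |fderiv ℝ f x u|))

/-- Gauge: `Convex.lipschitz_gauge`, `gauge_nonneg`; off `K` the gauge is `> 1` (`K` closed, contains `0`); for `0 < r`:
`gauge K x ≤ r ↔ x ∈ r • K`, and for `r = 0` both sides say `x = 0` (`K` bounded). -/
def T_TNT : Prop := ∀ (n : ℕ) [NeZero n] (K : Set (E n)) (a : ℝ), IsCompact K → Convex ℝ K → 0 < a →
  Metric.closedBall 0 a ⊆ K →
  (∃ L : NNReal, LipschitzWith L (tent K)) ∧ (∀ x, 0 ≤ tent K x ∧ tent K x ≤ 1) ∧ (∀ x, x ∉ K → tent K x = 0) ∧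
  ∀ s : ℝ, 0 < s → s ≤ 1 → {x | s ≤ tent K x} = (1 - s) • K

/-- By `T_RAD` the left side is the limit of `(k+1) ∫ |f(x + u/(k+1)) - f x| dx`, `f = tent K`. By `T_LAY` and `T_TNT` this is
`∫_0^1 (k+1) vol ((1-s)K ∆ {x | x + u/(k+1) ∈ (1-s)K}) ds`. The integrand is `≤ 2 sw ((1-s)K) u ≤ 2 sw K u` (`T_SDF`, `sw_smul`) and converges to
`2 sw ((1-s)K) u = 2 (1-s)^(n-1) sw K u` (`T_SDL` with `(1-s) a`, `sw_dilate`) for `s < 1`. Dominated convergence, `∫_0^1 (1-s)^(n-1) ds = 1/n`. -/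
def T_TSW : Prop := ∀ (n : ℕ) [NeZero n] (K : Set (E n)) (a : ℝ), IsCompact K → Convex ℝ K → 0 < a →
  Metric.closedBall 0 a ⊆ K → ∀ u : E n, ∫ x, |fderiv ℝ (tent K) x u| = 2 / n * sw K u

/-- `K = Bd h`, `f = tent K`, `G x = (InnerProductSpace.toDual ℝ (E n)).symm (fderiv ℝ f x)`, measurable (`measurable_fderiv`), bounded by the Lipschitz
constant, zero off `K` (there `f` vanishes on a neighbourhood, `K` closed). `ρ = ENNReal.ofReal (n/2) • map G (volume.restrict K)`; `T_TSW`. -/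
def T_BBB : Prop := ∀ (n : ℕ) [NeZero n] (h : E n → ℝ), IsN h → ∃ ρ, Gen ρ (P h)

/-! ## Group D: directions -/

/-- Basic facts on `Measure.support` (`Measure.support_mem_ae`) and `Dn`. -/
def T_SUP : Prop := ∀ (n : ℕ) (ρ : Measure (E n)) [IsFiniteMeasure ρ],
  (∀ᵐ w ∂ρ, w ∈ ρ.support) ∧ (∀ᵐ w ∂ρ, w = 0 ∨ w ∈ Dn ρ) ∧ (∀ x ∈ Dn ρ, ∀ c : ℝ, c ≠ 0 → c • x ∈ Dn ρ)

/-- Integrability, by the bounded support; `∫ ‖w‖ ≤ ∑_j ∫ |⟨e_j, w⟩| = ∑_j h (e_j) ≤ n R`. -/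
def T_GEI : Prop := ∀ (n : ℕ) (ρ : Measure (E n)) (h : E n → ℝ), Gen ρ h →
  Integrable (fun w => ‖w‖) ρ ∧ (∀ u, Integrable (fun w => |(inner ℝ u w : ℝ)|) ρ) ∧
  ∀ r R, Nm r R h → ∫ w, ‖w‖ ∂ρ ≤ n * R

/-- `h (u+v) = h u + h v`: the integrand `|⟨u,w⟩| + |⟨v,w⟩| - |⟨u+v,w⟩| ≥ 0` is continuous with integral zero, so it vanishes on the
support; `|x| + |y| = |x + y|` means `0 ≤ x y`. -/
def T_NEG : Prop := ∀ (n : ℕ) (ρ : Measure (E n)) (h : E n → ℝ) (u v : E n), Gen ρ h → h (u + v) = h u + h v →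
  ∀ w ∈ ρ.support, 0 ≤ (inner ℝ u w : ℝ) * inner ℝ v w

/-- `→`: by `h1 : T_NEG` for `(u, u')` and `(-u, u')` (note `h` is even): `⟨u,w⟩⟨u',w⟩ = 0` for all `u ∈ U`, `u' ∈ U'`; if `w ∉ Uᗮ` choose `u` with
`⟨u,w⟩ ≠ 0`, so `w ∈ U'ᗮ`. `←`: for almost every `w` one of the two numbers is zero. -/
def T_ADS : Prop := ∀ (n : ℕ) (ρ : Measure (E n)) (h : E n → ℝ) (U U' : Submodule ℝ (E n)), Gen ρ h →
  (Add2 U U' h ↔ ∀ w ∈ ρ.support, w ∈ Uᗮ ∨ w ∈ U'ᗮ)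

/-- If the span is not everything there is `u ≠ 0` orthogonal to `Dn ρ`, so `⟨u,w⟩ = 0` for almost all `w` (`T_SUP`), `h u = 0`. -/
def T_SPN : Prop := ∀ (n : ℕ) (ρ : Measure (E n)) (h : E n → ℝ), Gen ρ h → IsN h → Submodule.span ℝ (Dn ρ) = ⊤

/-- `x ∈ J (Dn ρ)`: `xᗮ` (dimension `m`) is spanned by elements of `Dn ρ`, so there are independent `w i ∈ Dn ρ` (`i : Fin m`) orthogonal to `x`
(`exists_linearIndependent`, `Submodule.exists_..`). Choose `c i ≠ 0`, `c i • w i ∈ ρ.support`. `z = crp (c • w) ≠ 0` is orthogonal to all `w i` (`T_CRO`),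
hence a multiple of `x`. `z` is in the support of `nxt ρ`: the preimage of a neighbourhood under the continuous `crp` contains a box
`∏ B(c i • w i, δ)` of positive measure (`Measure.pi_pi`); the factor `2^m/m!` is positive. -/
def T_SJ : Prop := ∀ (m : ℕ) (ρ : Measure (E (m + 1))) [IsFiniteMeasure ρ], J (Dn ρ) ⊆ Dn (nxt ρ)

/-- Claim: for `S ⊆ D`, `F = span S`: every vector orthogonal to `F` is in `span (J D ∩ Fᗮ)`. Proof: basis `S₀ ⊆ S` of `F`, extended by elements of `D` to a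
basis `B₀` of `E n` (`exists_linearIndependent_extension`, `LinearIndepOn.extend`); for `d ∈ B₀ \ S₀` the dual vector `d*` (`⟨d*, d'⟩ = δ`) is in `J D` (its
orthogonal complement is `span (B₀ \ {d})`) and orthogonal to `F`; `y ⊥ F` implies `y = ∑_{d ∈ B₀ \ S₀} ⟨y, d⟩ d*`.
Now `x ∈ MM D`, `W = span (J D ∩ xᗮ)`; to show `xᗮ ≤ W` it is enough that `z ∈ Wᗮ` implies `z ∈ ℝ x`. For `S ⊆ D` with `x ∈ F = span S`:
`J D ∩ Fᗮ ⊆ J D ∩ xᗮ`, so `z ⊥ Fᗮ`, `z ∈ F`. By the definition of `MM`, `z = c • x`. -/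
def T_MJ : Prop := ∀ (n : ℕ) (D : Set (E n)), Submodule.span ℝ D = ⊤ → MM D ⊆ J (J D)

/-- Easy facts: monotone; `S = {x}`; scaling. -/
def T_MMB : Prop := ∀ (n : ℕ) (D D' : Set (E n)), (D ⊆ D' → J D ⊆ J D' ∧ MM D ⊆ MM D') ∧ (∀ x ∈ D, x ≠ 0 → x ∈ MM D) ∧
  (∀ x ∈ MM D, ∀ c : ℝ, c ≠ 0 → c • x ∈ MM D) ∧ (0 : E n) ∉ MM D

/-- Iterated form of `T_MMB`: `MM^[s] D ⊆ MM^[t] D'` for `s ≤ t`, `D ⊆ D'`, if `0 ∉ D'`; basis vectors stay inside. -/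
def T_MMI : Prop := ∀ (n : ℕ) (D : Set (E n)), (0 : E n) ∉ D → ∀ s t : ℕ, s ≤ t → MM^[s] D ⊆ MM^[t] D

/-- `n = m + 1`. Induction on `i`: `ρ'' = nxt (nxt ρ')`. `T_ZZ` twice gives `Gen`. `MM^[i+1] (Dn ρ) = MM (MM^[i] (Dn ρ)) ⊆ MM (Dn ρ') ⊆ J (J (Dn ρ'))`
(`T_MMB`, `T_MJ`, `T_SPN` for `P^[2 i] h`) `⊆ J (Dn (nxt ρ')) ⊆ Dn (nxt (nxt ρ'))` (`T_SJ`). `IsN.Pit`. -/
def T_DWN : Prop := ∀ (n : ℕ) [NeZero n] (ρ : Measure (E n)) (h : E n → ℝ), Gen ρ h → IsN h → ∀ i : ℕ,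
  ∃ ρ', Gen ρ' (P^[2 * i] h) ∧ MM^[i] (Dn ρ) ⊆ Dn ρ'

/-! ## Group V: von Staudt constructions. Everything in coordinates with respect to a basis. -/

/-- Flats `span {b k, b l}` and `span ({x} ∪ {b j | j ≠ k, l})`: a common vector has the form `c x - ∑_{j ≠ k,l} ..` and only coordinates `k`, `l`. -/
def T_VEX : Prop := ∀ (n : ℕ) (b : Basis (Fin n) ℝ (E n)) (D : Set (E n)) (x : E n) (k l : Fin n), (∀ j, b j ∈ D) → x ∈ D →
  k ≠ l → b.repr x k ≠ 0 → b.repr x k • b k + b.repr x l • b l ∈ MM D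

/-- Flats `span {b k + α b l, b l + β b m}` and `span {b k, b m}`: `s (b k + α b l) + t (b l + β b m)` has `l`-coordinate `s α + t = 0`. -/
def T_VCO : Prop := ∀ (n : ℕ) (b : Basis (Fin n) ℝ (E n)) (X : Set (E n)) (k l m : Fin n) (α β : ℝ), (∀ j, b j ∈ X) →
  k ≠ l → l ≠ m → k ≠ m → b k + α • b l ∈ X → b l + β • b m ∈ X → b k - (α * β) • b m ∈ MM X

/-- Flats `F_k = span ({b l + a k • b k} ∪ {b j | j ≠ k, l}) = {y | y_k = a_k y_l}` for `k ≠ l`: a common vector `y` has `y_k = a_k y_l` for all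
`k ≠ l`. (If `n = 1` the only vectors are multiples of `b l`.) -/
def T_VST : Prop := ∀ (n : ℕ) (b : Basis (Fin n) ℝ (E n)) (X : Set (E n)) (l : Fin n) (a : Fin n → ℝ), (∀ j, b j ∈ X) →
  (∀ k, k ≠ l → b l + a k • b k ∈ X) → a l = 1 → ∑ k, a k • b k ∈ MM X

/-- Frame. By induction on `t ≥ 1` (`t ≤ n`): there are a finset `I ∋ o` with `t ≤ |I|` and numbers `lam k` (`k ∈ I`), `lam o = 1`,
`(ε/2)^t ≤ |lam k| ≤ (2/ε)^t`, `b o + lam k • b k ∈ MM^[t] D` for `k ∈ I`, `k ≠ o`. Step: if `I ≠ univ`, `Conn` for `I` gives `x`, `k ∈ I`, `l ∉ I`; by `T_VEX`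
and scaling (`T_MMB`) `b k + μ b l ∈ MM D`, `μ = x_l/x_k`, `ε/2 ≤ |μ| ≤ 2/ε`. If `k = o` put `lam l = μ`. If `k ≠ o` put `lam l = - lam k * μ`
(`T_VCO`; `MM^[s]` is increasing: `T_MMI`, `D` without `0` because one may replace `D` by `D \ {0}`, or use that `0 ∉ D` is a hypothesis here). -/
def T_VFR : Prop := ∀ (n : ℕ) (b : Basis (Fin n) ℝ (E n)) (ε : ℝ) (D : Set (E n)), 0 < ε → ε ≤ 1 → (0 : E n) ∉ D →
  (∀ j, b j ∈ D) → Conn b ε D → ∀ o : Fin n, ∃ lam : Fin n → ℝ, lam o = 1 ∧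
    (∀ k, (ε / 2) ^ n ≤ |lam k| ∧ |lam k| ≤ (2 / ε) ^ n) ∧ ∀ k, k ≠ o → b o + lam k • b k ∈ MM^[n] D

/-- Product: for `k ≠ l` choose `m ≠ k, l`; `T_VCO` with `B l + a B m`, `B m + c B k`: `B l - a c B k ∈ MM X`. -/
def T_GMU : Prop := ∀ (n : ℕ) (B : Basis (Fin n) ℝ (E n)) (X : Set (E n)) (a c : ℝ), 3 ≤ n → (∀ j, B j ∈ X) →
  a ∈ GG B X → c ∈ GG B X → -(a * c) ∈ GG B (MM X)

/-- Difference: for `k ≠ l` choose `m ≠ k, l`. `p = B l + B m + a B k ∈ MM X` (flats `span {B l + a B k, B m}`, `span {B l + B m, B k}`).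
`B l + (a - c) B k = p - (B m + c B k)`: flats `span {p, B m + c B k}`, `span {B l, B k}` of `MM X` (`B j ∈ MM X` by `T_MMB`, `B j ≠ 0`). -/
def T_GSU : Prop := ∀ (n : ℕ) (B : Basis (Fin n) ℝ (E n)) (X : Set (E n)) (a c : ℝ), 3 ≤ n → (∀ j, B j ∈ X) →
  1 ∈ GG B X → a ∈ GG B X → c ∈ GG B (MM X) → a - c ∈ GG B (MM (MM X))

/-- With `G_s = GG B (MM^[s] D)`: `-a ∈ G_(s+1)` (`T_GMU` with `1`); `a c = -((-a) c) ∈ G_(s+2)`; `a + c = a - (-c) ∈ G_(s+2)` (`T_GSU`);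
`a⁻¹`: `B l + a⁻¹ B k = a⁻¹ (B k + a B l)`, scaling (`T_MMB`, `s ≥ 1`). `MM^[s]` increasing (`T_MMI`). -/
def T_GRG : Prop := ∀ (n : ℕ) (B : Basis (Fin n) ℝ (E n)) (D : Set (E n)) (s : ℕ) (a c : ℝ), 3 ≤ n → (0 : E n) ∉ D →
  (∀ j, B j ∈ D) → 1 ≤ s → 1 ∈ GG B (MM^[s] D) → a ∈ GG B (MM^[s] D) → c ∈ GG B (MM^[s] D) →
  a + c ∈ GG B (MM^[s + 2] D) ∧ a * c ∈ GG B (MM^[s + 2] D) ∧ -a ∈ GG B (MM^[s + 2] D) ∧
  (a ≠ 0 → a⁻¹ ∈ GG B (MM^[s] D)) ∧ a ∈ GG B (MM^[s + 2] D)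

/-- `1 ∈ G_1` (`T_VEX` with `x = ∑ B j`), `0 ∈ G_0`. `2 ∈ G_3`, `1/2 ∈ G_3`, negatives in `G_5`: the case `q = 0` (`0, ±1/2, ±1 ∈ G_6`).
Step, `N = 2^(2^q)`, `|j| ≤ N^2 = 2^(2^(q+1))`: `j = j₁ N + j₂`, `0 ≤ j₂ < N`, `|j₁| ≤ N` (`j₁ = j / N`, `j₂ = j % N`);
`j/N^2 = j₁/N + (j₂/N) (1/N)`: one product, one sum (`T_GRG` twice): `4` more steps. -/
def T_GDY : Prop := ∀ (n : ℕ) (B : Basis (Fin n) ℝ (E n)) (D : Set (E n)), 3 ≤ n → (0 : E n) ∉ D → (∀ j, B j ∈ D) →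
  ∑ j, B j ∈ D → ∀ (q : ℕ) (j : ℤ), |j| ≤ 2 ^ (2 ^ q) → (j : ℝ) / 2 ^ (2 ^ q) ∈ GG B (MM^[6 + 4 * q] D)

/-- Density in coordinates. `T_VFR` (with some `o`): `b o + lam k • b k ∈ MM^[n] D`. `T_VST` with `X = MM^[n] D`, `a = lam`: `f = ∑ lam k • b k ∈ D' = MM^[n+1] D`.
`B k = lam k • b k` is a basis (`Basis.unitsSMul`), `B k ∈ D'` (scaling), `f = ∑ B k`. `T_GDY` for `D'`: dyadics in `GG B (MM^[6 + 4 q] D')`. Given `v`; if `v = 0` take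
a small multiple of `b o`. Else let `l` maximise `|v_k/lam_k| = μ > 0`, `a_k = (v_k/lam_k)/(v_l/lam_l) ∈ [-1,1]`, `a'_k` dyadic (denominator `N = 2^(2^q)`) with
`|a_k - a'_k| ≤ 1/N`, `a'_l = 1`; `x' = B l + ∑_{k≠l} a'_k B k ∈ MM (MM^[6+4q] D')` (`T_VST`), `x = (v_l/lam_l) • x'`; the error is `≤ μ |lam_k| / N ≤ (2/ε)^n (2/ε)^n / N`. -/
def T_VDN : Prop := ∀ (n : ℕ) (b : Basis (Fin n) ℝ (E n)) (ε : ℝ) (D : Set (E n)), 3 ≤ n → 0 < ε → ε ≤ 1 → (0 : E n) ∉ D →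
  (∀ j, b j ∈ D) → Conn b ε D → ∀ (q : ℕ) (v : Fin n → ℝ), (∀ k, |v k| ≤ 1) →
    ∃ x ∈ MM^[n + 8 + 4 * q] D, ∀ k, |b.repr x k - v k| ≤ (2 / ε) ^ (2 * n) / 2 ^ (2 ^ q)

/-! ## Group C: one level -/

/-- Choose unit vectors `d k ∈ D` with `|det (mt d)| ≥ ½ sup` (`sup > 0` because `D` spans: take `n` independent elements of `D`, normalise; `sup < ∞`: the
determinant of unit vectors is at most `n!`). Cramer: for a unit vector `x ∈ D` the coordinate `x_k = det (d with k-th vector x) / det d`. -/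
def T_BSE : Prop := ∀ (n : ℕ) (D : Set (E n)), Submodule.span ℝ D = ⊤ → (0 : E n) ∉ D → (∀ x ∈ D, ∀ c : ℝ, c ≠ 0 → c • x ∈ D) →
  ∃ b : Basis (Fin n) ℝ (E n), (∀ k, b k ∈ D ∧ ‖b k‖ = 1) ∧ ∀ x ∈ D, ∀ k, |b.repr x k| ≤ 2 * ‖x‖

/-- `b.repr x k = ⟨b_k*, x⟩` for a vector `b_k*` (Riesz). `r ‖b_k*‖ ≤ h (b_k*) = ∫ |b.repr w k| dρ ≤ 2 ∫ ‖w‖ dρ ≤ 2 n R` (`T_SUP`, `T_GEI`). -/
def T_BDU : Prop := ∀ (n : ℕ) (ρ : Measure (E n)) (h : E n → ℝ) (r R : ℝ) (b : Basis (Fin n) ℝ (E n)), Gen ρ h → 0 < r →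
  Nm r R h → (∀ x ∈ Dn ρ, ∀ k, |b.repr x k| ≤ 2 * ‖x‖) → ∀ (x : E n) (k : Fin n), |b.repr x k| ≤ 2 * n * (R / r) * ‖x‖

/-- Rounding. `π w = ∑_{k ∉ I} w_k b_k` if `|w_k| ≤ ε ‖w‖` for all `k ∈ I`, else `π w = ∑_{k ∈ I} w_k b_k`; measurable, `‖π w‖ ≤ C ‖w‖`. For `w ∈ Dn ρ` or `w = 0`:
`‖π w - w‖ ≤ n ε ‖w‖`. `ρ' = map π ρ`, `g u = ∫ |⟨u, π w⟩| dρ`, `|g u - h u| ≤ n ε ‖u‖ ∫ ‖w‖ dρ ≤ n² ε R ‖u‖ ≤ n² ε (R/r) h u`. `V₁ = span {b k | k ∉ I}`,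
`V₂ = span {b k | k ∈ I}` are complementary, `U = V₁ᗮ`, `U' = V₂ᗮ` are complementary and nonzero; `g` is additive since `π w ∈ V₁ ∪ V₂`
(so one of `⟨u,πw⟩`, `⟨u',πw⟩` vanishes). -/
def T_CS1 : Prop := ∀ (n : ℕ) [NeZero n] (ρ : Measure (E n)) (h : E n → ℝ) (r R ε : ℝ) (b : Basis (Fin n) ℝ (E n)) (I : Set (Fin n)),
  Gen ρ h → 0 < r → Nm r R h → (∀ k, ‖b k‖ = 1) → I.Nonempty → Iᶜ.Nonempty → 0 < ε →
  (∀ x ∈ Dn ρ, (∀ k ∈ I, |b.repr x k| ≤ ε * ‖x‖) ∨ (∀ k ∈ Iᶜ, |b.repr x k| ≤ ε * ‖x‖)) →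
  ∃ (ρ' : Measure (E n)) (g : E n → ℝ) (U U' : Submodule ℝ (E n)), Gen ρ' g ∧ IsCompl U U' ∧ U ≠ ⊥ ∧ U' ≠ ⊥ ∧ Add2 U U' g ∧
    ∀ u, |g u - h u| ≤ n ^ 2 * ε * (R / r) * h u

/-- `n = m + 1`; `V = Uᗮ`, `V' = U'ᗮ` are complementary. Support of `ρ` in `V ∪ V'` (`T_ADS`). `nxt ρ` generates `P h` (`T_ZZ`); by `T_ADS` it is enough that its
support is in the closed set `Vᗮ ∪ V'ᗮ = U ∪ U'` (`Measure.support_subset_of_isClosed`), i.e. that `crp w ∈ Vᗮ ∪ V'ᗮ` if all `w i ∈ V ∪ V'` (`i : Fin m`). If `crp w ≠ 0` the `w i`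
are independent (`T_CRO`), at most `dim V` are in `V`, at most `dim V'` in `V'`, `dim V + dim V' = m + 1`, so those in `V` span `V` or those in `V'` span `V'`;
`crp w ⊥ w i`. -/
def T_AFW : Prop := ∀ (n : ℕ) [NeZero n] (ρ : Measure (E n)) (h : E n → ℝ) (U U' : Submodule ℝ (E n)), Gen ρ h → IsN h →
  IsCompl U U' → Add2 U U' h → Add2 Uᗮ U'ᗮ (P h)

/-- Linear algebra: let `d ∈ D`, `d ≠ 0`; extend to a basis `d_1 = d, ..., d_n ∈ D` of `E n`; the dual vectors `d_k*` are in `J D ⊆ U ∪ U'`; they are independent, so by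
counting dimensions those in `U` span `U` and the others (in `U'`) span `U'`. If `d_1* ∈ U` then `d` is orthogonal to the others, so `d ∈ U'ᗮ`; else `d ∈ Uᗮ`. -/
def T_LAB : Prop := ∀ (n : ℕ) (D : Set (E n)) (U U' : Submodule ℝ (E n)), Submodule.span ℝ D = ⊤ → IsCompl U U' →
  (∀ x ∈ J D, x ∈ U ∨ x ∈ U') → ∀ d ∈ D, d ∈ Uᗮ ∨ d ∈ U'ᗮ

/-- `n = m + 1`; `T_ADS` for `nxt ρ` (`T_ZZ`): its support, hence `Dn (nxt ρ) ⊇ J (Dn ρ)` (`T_SJ`), is in `Uᗮᗮ ∪ U'ᗮᗮ = U ∪ U'`. `T_LAB` with `D = Dn ρ` (`T_SPN`), then `T_ADS`. -/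
def T_ABW : Prop := ∀ (n : ℕ) [NeZero n] (ρ : Measure (E n)) (h : E n → ℝ) (U U' : Submodule ℝ (E n)), Gen ρ h → IsN h →
  IsCompl U U' → Add2 Uᗮ U'ᗮ (P h) → Add2 U U' h

/-- Iterate `T_AFW` (`Uᗮᗮ = U`; the functions `P^[j] h` have generating measures by `T_ZZ`; `Uᗮ`, `U'ᗮ` are complementary). -/
def T_AIT : Prop := ∀ (n : ℕ) [NeZero n] (ρ : Measure (E n)) (h : E n → ℝ) (U U' : Submodule ℝ (E n)), Gen ρ h → IsN h →
  IsCompl U U' → Add2 U U' h → ∀ i : ℕ, Add2 U U' (P^[2 * i] h)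

/-- Compactness. For `δ = 1/(k+2)` get `g_k` and the projection `p_k` onto `U_k` along `U'_k` (a continuous linear map, idempotent): `g_k u = g_k (p_k u) + g_k (u - p_k u)`. With
`Nm a b h`: `(1-δ) a ‖p_k u‖ ≤ g_k (p_k u) ≤ g_k u ≤ (1+δ) b ‖u‖`, so `‖p_k‖` is bounded; a subsequence converges to `p` (finite dimension), `p ∘ p = p`,
`‖p_k‖ ≥ 1`, `‖1 - p_k‖ ≥ 1` (nonzero idempotents), so `p ≠ 0`, `p ≠ 1`. In the limit `h u = h (p u) + h (u - p u)`; `U = range p`, `U' = ker p`. -/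
def T_SLM : Prop := ∀ (n : ℕ) [NeZero n] (h : E n → ℝ), IsN h → (∀ δ : ℝ, 0 < δ → Near1 h δ) → Split h

/-- `p` = projection onto `U` along `U'`, `A = adj p (Bd h)`, `B = adj (1 - p) (Bd h)` (adjoints). `x = adj p x + adj (1-p) x`; conversely
`⟨adj p x + adj (1-p) y, u⟩ = ⟨x, p u⟩ + ⟨y, u - p u⟩ ≤ h (p u) + h (u - p u) = h u`. The subspaces `range (adj p)`, `range (adj (1-p))` are complementary and nonzero. -/
def T_SDS : Prop := ∀ (n : ℕ) [NeZero n] (h : E n → ℝ), IsN h → Split h → IsDirectSum (Bd h)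

/-- `near_auerbach`: `‖u‖ ≤ h (T u) ≤ n ‖u‖`. `P (h ∘ T) u = dt (adj T) * P h ((adj T).symm u)` (`P_comp`) is between `κ ‖u‖` and `κ n^(n-1) ‖u‖` (`P_mono`, `P_norm`, `P_scale`). With
`S = (adj T).symm`, `c = dt (adj T)`: `c r ‖S u‖ ≤ κ n^(n-1) ‖u‖`, `κ ‖u‖ ≤ c R ‖S u‖`. The same bounds for the adjoint `T.symm` of `S` (`norm_le_of_adj`, `norm_symm_le_of_adj` in Pre.lean, see the
proof of `preimage_bounds` there); `‖T.symm v‖ ≤ h v ≤ n ‖T.symm v‖`. So `r' = κ/(cR)`, `R' = n κ n^(n-1)/(c r)`. -/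
def T_RND : Prop := ∀ (n : ℕ) [NeZero n] (h : E n → ℝ) (r R : ℝ), IsN h → 0 < r → Nm r R (P h) →
  ∃ r' R' : ℝ, 0 < r' ∧ Nm r' R' h ∧ R' ≤ (n : ℝ) ^ n * (R / r) * r'

/-- Iterate `T_RND`. -/
def T_RNI : Prop := ∀ (n : ℕ) [NeZero n] (h : E n → ℝ) (i : ℕ) (r R : ℝ), IsN h → 0 < r → Nm r R (P^[i] h) →
  ∃ r' R' : ℝ, 0 < r' ∧ Nm r' R' h ∧ R' ≤ ((n : ℝ) ^ n) ^ i * (R / r) * r'

/-- `η < 1`, so `g` is a norm (`Gen` gives subadditivity and homogeneity). `Pit_bounds` (Chain.lean) with `c = 1 - η`, `C = 1 + η`, `m = 2 i`, `N = (n-1)^(2i)`; `(1-η)^N ≥ 1 - N η` (Bernoulli),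
`(1+η)^N ≤ exp (N η) ≤ 1 + 2 N η`; `T_AIT` (it needs `Gen`) gives `Split (P^[2 i] g)`. -/
def T_LV1 : Prop := ∀ (n : ℕ) [NeZero n] (ρ' : Measure (E n)) (g h : E n → ℝ) (U U' : Submodule ℝ (E n)) (η δ : ℝ) (i : ℕ), 2 ≤ n →
  IsN h → Gen ρ' g → IsCompl U U' → U ≠ ⊥ → U' ≠ ⊥ → Add2 U U' g → (∀ u, |g u - h u| ≤ η * h u) → 0 ≤ η →
  η * ((n : ℝ) - 1) ^ (2 * i) ≤ δ / 2 → δ ≤ 1 → Near1 (P^[2 * i] h) δ

/-- `T_DWN`: `ρ'` with `MM^[i] (Dn ρ) ⊆ Dn ρ'`. For a unit vector `z` let `v k = b.repr z k / κ`, `|v k| ≤ 1`; `T_VDN`: `x`, then `κ • x ∈ MM^[i] (Dn ρ)` (scaling and `T_MMI`), and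
`‖κ x - z‖ ≤ ∑_k κ |x_k - v_k| ‖b k‖`. -/
def T_LV2 : Prop := ∀ (n : ℕ) [NeZero n] (ρ : Measure (E n)) (h : E n → ℝ) (b : Basis (Fin n) ℝ (E n)) (ε κ : ℝ) (q i : ℕ), 3 ≤ n →
  Gen ρ h → IsN h → (∀ k, b k ∈ Dn ρ ∧ ‖b k‖ = 1) → (∀ (x : E n) k, |b.repr x k| ≤ κ * ‖x‖) → 0 < κ → 0 < ε → ε ≤ 1 →
  Conn b ε (Dn ρ) → n + 8 + 4 * q ≤ i → Dense (P^[2 * i] h) (κ * n * (2 / ε) ^ (2 * n) / 2 ^ (2 ^ q))

/-- Numbers. With `i = n + 8 + 4 q` put `M = κ (n^n)^(2i) max(1, (n-1)^(2i)) ≥ 1` and `ε = min 1 (δ/(2 n² M))`. The first inequality is clear. The second: `(2/ε) ≤ max (2, 4 n² M/δ)` is at most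
exponential in `q`, so the left side is at most `C D^q / 2^(2^q) → 0`. -/
def T_NUM : Prop := ∀ (n : ℕ) (κ δ : ℝ), 1 ≤ n → 1 ≤ κ → 0 < δ → ∃ (q : ℕ) (ε : ℝ), 0 < ε ∧ ε ≤ 1 ∧
  (n : ℝ) ^ 2 * ε * (κ * ((n : ℝ) ^ n) ^ (2 * (n + 8 + 4 * q))) * ((n : ℝ) - 1) ^ (2 * (n + 8 + 4 * q)) ≤ δ / 2 ∧
  (2 * n * (κ * ((n : ℝ) ^ n) ^ (2 * (n + 8 + 4 * q)))) * n * (2 / ε) ^ (2 * n) / 2 ^ (2 ^ q) ≤ δ

/-- The alternative. `Nm r₀ R₀ h`, `κ = R₀/r₀ ≥ 1`; `T_NUM` gives `q`, `ε`; `i = n + 8 + 4 q`. `Cls` for `2 i + 1`: `h = c P^[2i] g`, `g = P g₀`, `Gen ρ g` (`T_BBB`). `T_RNI`: `Nm r R g`, `R ≤ (n^n)^(2i) κ r`. `T_BSE` for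
`D = Dn ρ` (`T_SUP`, `T_SPN`) gives `b`, `T_BDU` the bound of all coordinates. If some `I` has the property in `T_CS1` (with this `ε`): `T_CS1`, `T_LV1` with
`η = n² ε R/r`: `Near1 (P^[2i] g) δ`, so `Near1 h δ` (multiply by `c`). Otherwise for every `I` (nonempty, with nonempty complement) there is `x ∈ Dn ρ` with `|x_k| > ε ‖x‖`, `|x_l| > ε ‖x‖` for some
`k ∈ I`, `l ∉ I`; normalise `‖x‖ = 1`: `Conn b ε (Dn ρ)`. `T_LV2` with `κ' = 2 n (R/r)` (increase it to `2 n κ (n^n)^(2i)`): `Dense (P^[2i] g) δ`, multiply the measure by `c`. -/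
def T_DIC : Prop := ∀ (n : ℕ) [NeZero n] (h : E n → ℝ), 3 ≤ n → Cls h → ∀ δ : ℝ, 0 < δ → δ ≤ 1 → Near1 h δ ∨ Dense h δ

/-- Let `u, v ≠ 0`, `h (u+v) = h u + h v`, not on the same ray. `z₀ = v/‖v‖ - u/‖u‖`: `⟨v, z₀⟩ = ‖v‖ - ⟨v,u⟩/‖u‖ > 0`, `⟨u, z₀⟩ < 0` (strict Cauchy-Schwarz, `inner_eq_norm_mul_iff_real`); `z = z₀/‖z₀‖`. For small
`δ` every `x` with `‖x - z‖ ≤ δ` has `⟨u,x⟩ < 0 < ⟨v,x⟩`; but some such `x` is in `Dn ρ` (`Dense h δ`), a nonzero multiple of a support point: contradiction to `T_NEG`. -/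
def T_STC : Prop := ∀ (n : ℕ) (h : E n → ℝ), IsN h → (∃ δ₀ : ℝ, 0 < δ₀ ∧ ∀ δ, 0 < δ → δ ≤ δ₀ → Dense h δ) → Strict h

/-- If `Near1 h δ` for all `δ > 0`: `T_SLM`. Else `¬ Near1 h δ₀` for some `δ₀ ≤ 1`; `Near1` is monotone in `δ` (`h ≥ 0`), so by `T_DIC` `Dense h δ` for all `δ ≤ δ₀`: `T_STC`. -/
def T_MNA : Prop := ∀ (n : ℕ) [NeZero n] (h : E n → ℝ), 3 ≤ n → Cls h → Split h ∨ Strict h

end Pool.Agent.PBX
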