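import Pool.Agent.PBX.Defs

/-!
# PBX: basic facts on the decomposition `E (a + b) = E a ⊕ E b`
-/

open MeasureTheory Module Set
open scoped Pointwise

namespace Pool.Agent.PBX
open Pool.Agent.ProjBody

variable {a b : ℕ}

/-- the point with left part `p` and right part `q` -/
def jn (p : E a) (q : E b) : E (a + b) := WithLp.toLp 2 (Fin.append (fun i => p i) (fun i => q i))

@[simp] theorem prL_jn (p : E a) (q : E b) : prL (jn p q) = p := by
  ext i; simp [prL, jn]

@[simp] theorem prR_jn (p : E a) (q : E b) : prR (jn p q) = q := by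
  ext i; simp [prR, jn]

@[simp] theorem jn_pr (u : E (a + b)) : jn (prL u) (prR u) = u := by
  ext i
  refine Fin.addCases (fun j => ?_) (fun j => ?_) i <;> simp [prL, prR, jn]

theorem prL_add (u v : E (a + b)) : (prL (u + v) : E a) = prL u + prL v := by ext i; simp [prL]
theorem prR_add (u v : E (a + b)) : (prR (u + v) : E b) = prR u + prR v := by ext i; simp [prR]
theorem prL_smul (c : ℝ) (u : E (a + b)) : (prL (c • u) : E a) = c • prL u := by ext i; simp [prL]
theorem prR_smul (c : ℝ) (u : E (a + b)) : (prR (c • u) : E b) = c • prR u := by ext i; simp [prR]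
@[simp] theorem prL_zero : (prL (0 : E (a + b)) : E a) = 0 := by ext i; simp [prL]
@[simp] theorem prR_zero : (prR (0 : E (a + b)) : E b) = 0 := by ext i; simp [prR]

/-- linear equivalence `E a × E b ≃ E (a + b)` -/
noncomputable def jnL (a b : ℕ) : (E a × E b) ≃ₗ[ℝ] E (a + b) :=
  { toFun := fun x => jn x.1 x.2
    invFun := fun u => (prL u, prR u)
    left_inv := fun x => by simp
    right_inv := fun u => by simp
    map_add' := fun x y => by
      rw [← jn_pr (jn x.1 x.2 + jn y.1 y.2), prL_add, prR_add]; simp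
    map_smul' := fun c x => by
      rw [← jn_pr ((RingHom.id ℝ) c • jn x.1 x.2), prL_smul, prR_smul]; simp }

/-- continuous linear equivalence `E a × E b ≃ E (a + b)` -/
noncomputable def jnE (a b : ℕ) : (E a × E b) ≃L[ℝ] E (a + b) := (jnL a b).toContinuousLinearEquiv

@[simp] theorem jnE_apply (x : E a × E b) : jnE a b x = jn x.1 x.2 := rfl
@[simp] theorem jnE_symm_apply (u : E (a + b)) : (jnE a b).symm u = (prL u, prR u) := rfl

theorem continuous_jn : Continuous (fun x : E a × E b => (jn x.1 x.2 : E (a + b))) := (jnE a b).continuous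
theorem continuous_prL : Continuous (prL : E (a + b) → E a) :=
  continuous_fst.comp (jnE a b).symm.continuous
theorem continuous_prR : Continuous (prR : E (a + b) → E b) :=
  continuous_snd.comp (jnE a b).symm.continuous

theorem jn_add (p p' : E a) (q q' : E b) : (jn (p + p') (q + q') : E (a + b)) = jn p q + jn p' q' :=
  (jnL a b).map_add (p, q) (p', q')
theorem jn_smul (c : ℝ) (p : E a) (q : E b) : (jn (c • p) (c • q) : E (a + b)) = c • jn p q :=
  (jnL a b).map_smul c (p, q)
theorem jn_split (p : E a) (q : E b) : (jn p q : E (a + b)) = jn p 0 + jn 0 q := by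
  rw [← jn_add, add_zero, zero_add]
@[simp] theorem jn_zero : (jn (0 : E a) (0 : E b) : E (a + b)) = 0 := (jnL a b).map_zero

theorem inner_jn (u v : E (a + b)) :
    (inner ℝ u v : ℝ) = inner ℝ (prL u : E a) (prL v) + inner ℝ (prR u : E b) (prR v) := by
  rw [PiLp.inner_apply, PiLp.inner_apply, PiLp.inner_apply, Fin.sum_univ_add]
  rfl

theorem norm_sq_jn (u : E (a + b)) : ‖u‖ ^ 2 = ‖(prL u : E a)‖ ^ 2 + ‖(prR u : E b)‖ ^ 2 := by
  rw [← real_inner_self_eq_norm_sq, ← real_inner_self_eq_norm_sq, ← real_inner_self_eq_norm_sq, inner_jn]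

theorem norm_prL_le (u : E (a + b)) : ‖(prL u : E a)‖ ≤ ‖u‖ := by
  have := norm_sq_jn u
  nlinarith [norm_nonneg u, norm_nonneg (prL u : E a), sq_nonneg ‖(prR u : E b)‖]

theorem norm_prR_le (u : E (a + b)) : ‖(prR u : E b)‖ ≤ ‖u‖ := by
  have := norm_sq_jn u
  nlinarith [norm_nonneg u, norm_nonneg (prR u : E b), sq_nonneg ‖(prL u : E a)‖]

theorem norm_le_pr (u : E (a + b)) : ‖u‖ ≤ ‖(prL u : E a)‖ + ‖(prR u : E b)‖ := by
  have := norm_sq_jn u
  nlinarith [norm_nonneg u, norm_nonneg (prR u : E b), norm_nonneg (prL u : E a)]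

/-- the left and the right coordinate subspace -/
noncomputable def UL (a b : ℕ) : Submodule ℝ (E (a + b)) := LinearMap.range ((jnL a b).toLinearMap ∘ₗ LinearMap.inl ℝ (E a) (E b))
noncomputable def UR (a b : ℕ) : Submodule ℝ (E (a + b)) := LinearMap.range ((jnL a b).toLinearMap ∘ₗ LinearMap.inr ℝ (E a) (E b))

theorem mem_UL {u : E (a + b)} : u ∈ UL a b ↔ (prR u : E b) = 0 := by
  constructor
  · rintro ⟨p, rfl⟩
    show prR (jn p 0) = 0
    simp
  · intro h
    refine ⟨prL u, ?_⟩
    show jn (prL u) 0 = u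
    rw [← h, jn_pr]

theorem mem_UR {u : E (a + b)} : u ∈ UR a b ↔ (prL u : E a) = 0 := by
  constructor
  · rintro ⟨p, rfl⟩
    show prL (jn 0 p) = 0
    simp
  · intro h
    refine ⟨prR u, ?_⟩
    show jn 0 (prR u) = u
    rw [← h, jn_pr]

theorem isCompl_ULR (a b : ℕ) : IsCompl (UL a b) (UR a b) := by
  constructor
  · rw [Submodule.disjoint_def]
    intro x h1 h2
    rw [mem_UL] at h1
    rw [mem_UR] at h2
    rw [← jn_pr x, h1, h2, jn_zero]
  · rw [codisjoint_iff_le_sup]
    intro x _
    rw [Submodule.mem_sup]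
    refine ⟨jn (prL x) 0, mem_UL.2 (by simp), jn 0 (prR x), mem_UR.2 (by simp), ?_⟩
    rw [← jn_split, jn_pr]

theorem UL_orth (a b : ℕ) : (UL a b)ᗮ = UR a b := by
  ext x
  rw [Submodule.mem_orthogonal, mem_UR]
  constructor
  · intro h
    have := h (jn (prL x) 0) (mem_UL.2 (by simp))
    rw [inner_jn] at this
    simpa using this
  · intro h u hu
    rw [mem_UL] at hu
    rw [inner_jn, h, hu]
    simp

theorem UR_orth (a b : ℕ) : (UR a b)ᗮ = UL a b := by
  rw [← UL_orth, Submodule.orthogonal_orthogonal]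

/-- `dsum` is additive for the two coordinate subspaces, if both functions vanish at `0` -/
theorem add2_dsum {α : E a → ℝ} {β : E b → ℝ} (h1 : α 0 = 0) (h2 : β 0 = 0) :
    Add2 (UL a b) (UR a b) (dsum α β) := by
  intro u hu u' hu'
  rw [mem_UL] at hu
  rw [mem_UR] at hu'
  unfold dsum
  rw [prL_add, prR_add, hu, hu', add_zero, zero_add, h1, h2, add_zero, zero_add]

instance neZero_add_left (a b : ℕ) [NeZero a] : NeZero (a + b) := ⟨by have := NeZero.ne a; omega⟩

end Pool.Agent.PBX
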