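import Pool.Agent.PBX.Targets
import Pool.Agent.PBX.Base

/-!
# PBX: targets, second part (direct sums, sets, final statements)

`T_XXX : Prop` is proved in the file `P_XXX.lean` (theorem `p_XXX`); any other target may be taken as a hypothesis.
The docstring contains the complete proof. `Base.lean` has the basic facts on `E (a + b)`: `jn`, `prL`, `prR`, `jnE`, `UL`, `UR`.
-/

open MeasureTheory Module Set Filter Topology
open scoped Pointwise

namespace Pool.Agent.PBX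
open Pool.Agent.ProjBody

/-! ## Group E: direct sums of norms -/

/-- `Nm`: lower bound `min a₁ a₂ (‖prL u‖ + ‖prR u‖) ≥ min a₁ a₂ ‖u‖`, upper bound `(b₁ + b₂) ‖u‖`. -/
def T_DSN : Prop := ∀ (a b : ℕ) (α : E a → ℝ) (β : E b → ℝ), IsN α → IsN β → IsN (dsum α β : E (a + b) → ℝ)

/-- `⊆`: test with `jn p 0` and `jn 0 q` (`α 0 = β 0 = 0`). `⊇`: `inner_jn`. -/
def T_DSB : Prop := ∀ (a b : ℕ) (α : E a → ℝ) (β : E b → ℝ), IsN α → IsN β →
  Bd (dsum α β : E (a + b) → ℝ) = {x | prL x ∈ Bd α ∧ prR x ∈ Bd β}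

/-- The map `jnE a b : E a × E b → E (a + b)` preserves the volume (`EuclideanSpace.volume_preserving_measurableEquiv`,
`measurePreserving_piFinSumEquiv..` / `MeasureTheory.volume_preserving_sumPiEquivProdPi` with `finSumFinEquiv`; or `WithLp.volume_preserving_ofLp` for the
isometry `E (a + b) ≃ WithLp 2 (E a × E b)`), so the volume of the product set is the product. -/
def T_DSV : Prop := ∀ (a b : ℕ) (A : Set (E a)) (B : Set (E b)), MeasurableSet A → MeasurableSet B →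
  volume {x : E (a + b) | prL x ∈ A ∧ prR x ∈ B} = volume A * volume B

/-- `Bd (dsum α β) = A × B` (`T_DSB`), `(A × B) + segment ℝ 0 (jn p 0) = (A + segment ℝ 0 p) × B`; `T_DSV` for both. -/
def T_DSL : Prop := ∀ (a b : ℕ) (α : E a → ℝ) (β : E b → ℝ), IsN α → IsN β →
  (∀ p : E a, P (dsum α β : E (a + b) → ℝ) (jn p 0) = (volume (Bd β)).toReal * P α p) ∧
  (∀ q : E b, P (dsum α β : E (a + b) → ℝ) (jn 0 q) = (volume (Bd α)).toReal * P β q)

/-- `ρ = map (fun p => jn p 0) ρ₁ + map (fun q => jn 0 q) ρ₂`. -/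
def T_DSG : Prop := ∀ (a b : ℕ) (α : E a → ℝ) (β : E b → ℝ) (ρ₁ : Measure (E a)) (ρ₂ : Measure (E b)), Gen ρ₁ α → Gen ρ₂ β →
  ∃ ρ, Gen ρ (dsum α β : E (a + b) → ℝ)

/-- `add2_dsum` and `T_AFW` (with `T_DSG`, `T_DSN`): `P (dsum α β)` is additive for `UR`, `UL` (`UL_orth`, `UR_orth`), so
`P (dsum α β) (jn p q) = P (dsum α β) (jn p 0) + P (dsum α β) (jn 0 q)`; `T_DSL`. -/
def T_DSP : Prop := ∀ (a b : ℕ) [NeZero a] [NeZero b] (α : E a → ℝ) (β : E b → ℝ) (ρ₁ : Measure (E a)) (ρ₂ : Measure (E b)),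
  Gen ρ₁ α → Gen ρ₂ β → IsN α → IsN β → ∀ u : E (a + b),
  P (dsum α β : E (a + b) → ℝ) u =
    dsum (fun p => (volume (Bd β)).toReal * P α p) (fun q => (volume (Bd α)).toReal * P β q) u

/-- Solve: with `X = x/vb`, `Y = y/va`: `s^(a-1) t^b = X`, `s^a t^(b-1) = Y`; put `t = k s`, `k = X/Y`, then `s^(a+b-1) = X/k^b`. -/
def T_SCS : Prop := ∀ (a b : ℕ) (va vb x y : ℝ), 1 ≤ a → 1 ≤ b → 0 < va → 0 < vb → 0 < x → 0 < y →
  ∃ s t : ℝ, 0 < s ∧ 0 < t ∧ s ^ (a - 1) * (t ^ b * vb) = x ∧ t ^ (b - 1) * (s ^ a * va) = y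

/-- Claim, induction on `m`: for all norms `α`, `β` with generating measures and all `x, y > 0` there are `s, t > 0` with
`P^[m] (dsum (s α) (t β)) = dsum (x P^[m] α) (y P^[m] β)`. Step: apply the claim to `P α`, `P β` (generating measures: `T_BBB`), get `s', t'`; choose `s, t` by `T_SCS` with
`va = vol (Bd α)`, `vb = vol (Bd β)` (positive: `Bd_isConvexBody`), `x = s'`, `y = t'`; `T_DSP` for `s α`, `t β`, `P_scale`, `Bd_scale`, `Measure.addHaar_smul` (`finrank = a`). Now `Cls α`, `Cls β` for `m + 1`: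
`α = c P^[m] (P α')`, `β = c' P^[m] (P β')`; the claim with `x = c`, `y = c'`. -/
def T_CDS : Prop := ∀ (a b : ℕ) [NeZero a] [NeZero b] (α : E a → ℝ) (β : E b → ℝ), Cls α → Cls β →
  Cls (dsum α β : E (a + b) → ℝ)

/-- `P g` is additive for `UL`, `UR`, i.e. for `URᗮ`, `ULᗮ`; `T_ABW` (with `U = UR`, `U' = UL`): `g` is additive for `UR`, `UL`. So `g u = α' (prL u) + β' (prR u)` with
`α' p = g (jn p 0)`, `β' q = g (jn 0 q)`; generating measures `map prL ρ`, `map prR ρ` (`inner_jn`). -/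
def T_DEC : Prop := ∀ (a b : ℕ) [NeZero a] [NeZero b] (ρ : Measure (E (a + b))) (g : E (a + b) → ℝ) (α : E a → ℝ) (β : E b → ℝ),
  Gen ρ g → IsN g → IsN α → IsN β → (∀ u, P g u = dsum α β u) →
  ∃ (α' : E a → ℝ) (β' : E b → ℝ) (ρ₁ : Measure (E a)) (ρ₂ : Measure (E b)), IsN α' ∧ IsN β' ∧ Gen ρ₁ α' ∧ Gen ρ₂ β' ∧
    ∀ u, g u = dsum α' β' u

/-- Claim, induction on `m`: for every norm `g` with a generating measure and all norms `α`, `β` with `P^[m] g = dsum α β` there are norms `α'`, `β'` and `c, c' > 0` with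
`α = c P^[m] α'`, `β = c' P^[m] β'`. Step: `P^[m+1] g = P^[m] (P g)` and `P g` has a generating measure; the claim gives only that `α`, `β` are multiples of `P^[m] α₁`, `P^[m] β₁`, so make the claim stronger:
moreover `g = dsum α' β'` with generating measures. Then `P g = dsum α₁ β₁`, `T_DEC`: `g = dsum α' β'`, `T_DSP`: `α₁ = v P α'`, `β₁ = v' P β'` (put `prR u = 0` resp. `prL u = 0`), `P_scale` `m` times.
For `Cls (dsum α β)` use it for `m + 1`: `dsum α β = c P^[m] (P g₀)`, divide by `c`. -/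
def T_CDD : Prop := ∀ (a b : ℕ) [NeZero a] [NeZero b] (α : E a → ℝ) (β : E b → ℝ), IsN α → IsN β →
  Cls (dsum α β : E (a + b) → ℝ) → Cls α ∧ Cls β

/-- `n' = n` (`finrank`), substitute. Claim, induction on `m`: for every `T` there are `S` and `c > 0` with `P^[m] (g ∘ S) = c • (P^[m] g) ∘ T` for all norms `g`. Step: take the claim for
`T' = adj T.symm`; `P (c • (P^[m] g) ∘ T') = c^(n-1) dt (adj T') (P^[m+1] g) ∘ (adj T').symm` (`P_scale`, `P_comp`), and `(adj T').symm = T` (`adj_adj`). -/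
def T_CLT : Prop := ∀ (n n' : ℕ) [NeZero n] (T : E n' ≃L[ℝ] E n) (h : E n → ℝ), Cls h → Cls (fun u => h (T u))

/-- On `E 1` every norm is a positive multiple of the Euclidean norm, also `P^[m] g` (`IsN.Pit`). -/
def T_CL1 : Prop := ∀ h : E 1 → ℝ, IsN h → Cls h

/-- Plane: `P h u = 2 h (rotated u)`. `P h u = sw (Bd h) u`; for a unit vector `v` with orthogonal unit vector `w = (-v 1, v 0)` the projection of `Bd h` on `(ℝ ∙ v)ᗮ = ℝ w` is
`{s w | |s| ≤ h w}` (`exists_support`), of length `2 h w` (`sw_eq`, `br`, or `volume_add_segment`; or rotate with `sw_isom` to `v = e_0` and use Fubini). -/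
def T_PL2 : Prop := ∀ h : E 2 → ℝ, IsN h → ∀ u : E 2, P h u = 2 * h (WithLp.toLp 2 ![-(u 1), u 0])

/-- `P^[m] g = 2^m g ∘ rot^m` (`T_PL2`); for given `h`, `m` take `g = h ∘ (rot⁻¹)^m` (a norm: `IsN.comp`), `c = 2^(-m)`. -/
def T_CL2 : Prop := ∀ h : E 2 → ℝ, IsN h → Cls h

/-- `P^[m] (s g) = s^((n-1)^m) P^[m] g` (`P_scale`), `s = c^(1/(n-1)^m)`. -/
def T_CSC : Prop := ∀ (n : ℕ) (h : E n → ℝ), 2 ≤ n → Cls h → ∀ m : ℕ, ∃ g, IsN g ∧ ∀ u, h u = (P^[m] g) u

/-- `a = finrank U`, `b = finrank U'`, linear equivalences `E a ≃ U`, `E b ≃ U'`, `U × U' ≃ E n` (`Submodule.prodEquivOfIsCompl`), `jnL`. `α p = h (T (jn p 0))`, `β q = h (T (jn 0 q))`. -/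
def T_SPD : Prop := ∀ (n : ℕ) (h : E n → ℝ), IsN h → Split h →
  ∃ (a b : ℕ) (T : E (a + b) ≃L[ℝ] E n) (α : E a → ℝ) (β : E b → ℝ), 1 ≤ a ∧ 1 ≤ b ∧ IsN α ∧ IsN β ∧
    ∀ u, h (T u) = dsum α β u

/-- Index type `ι₁ ⊕ ι₂`, `d = Sum.elim d₁ d₂`, `η = Sum.rec η₁ η₂`, `T u = ..(T₁ (prL u), T₂ (prR u))` (`LinearEquiv.sumPiEquivProdPi`, `jnL`), `Fintype.sum_sum_type`. -/
def T_SSM : Prop := ∀ (a b : ℕ) (α : E a → ℝ) (β : E b → ℝ), Str α → Str β → Str (dsum α β : E (a + b) → ℝ)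

/-- Compose the linear equivalences. -/
def T_SST : Prop := ∀ (n n' : ℕ) (T : E n' ≃ₗ[ℝ] E n) (h : E n → ℝ), Str (fun u => h (T u)) → Str h

/-- Strong induction on `n`. If `n ≤ 2` or `Strict h`: one block (`ι = Unit`, `d = n`, `T` = inverse of `LinearEquiv.funUnique`). Otherwise `Split h` (`T_MNA`); `T_SPD`: `h ∘ T = dsum α β`; `T_CLT`, `T_CDD`: `Cls α`, `Cls β`;
`a, b < n` since `a + b = n`; `T_SSM`, `T_SST`. -/
def T_STA : Prop := ∀ (n : ℕ) (h : E n → ℝ), 1 ≤ n → Cls h → Str h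

/-- Induction on the number of blocks (`Fintype.induction_empty_option` or on the cardinality) of: if `n ≥ 1`, `T : E n ≃ₗ (∀ j, E (d j))`, all `η j` are blocks, `h = ∑ η j (T · j)`, then `Cls h`. One block is `Cls`: `d = 1` `T_CL1`,
`d = 2` `T_CL2`, `d ≥ 3` by definition. No block: impossible, `n ≥ 1`. More: split off one block `η₀` on `E d₀`; if there are no others use `T_CLT`. Otherwise let `N ≥ 1` be the total dimension of the others, `T' : E N ≃ₗ ∏ (others)` any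
linear equivalence, `h' = ∑_{others} η j (T' · j)`, `Cls h'` by induction, `Cls (dsum η₀ h')` by `T_CDS`, and `h = dsum η₀ h' ∘ (equivalence)`: `T_CLT`. -/
def T_STB : Prop := ∀ (n : ℕ) (h : E n → ℝ), 1 ≤ n → Str h → Cls h

/-! ## Group K: sets -/

/-- A centred convex body contains a ball around `0` (if `x` is interior, so is `-x`, hence `0`); bounds for the support function; `Bd (supportFn K) = K` by separation (`K` closed convex; functional by Riesz). -/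
def T_SFN : Prop := ∀ (n : ℕ) [NeZero n] (K : Set (E n)), IsConvexBody K → (∀ x ∈ K, -x ∈ K) →
  IsN (supportFn K) ∧ Bd (supportFn K) = K

/-- The support function of `L` is even on unit vectors (`brightness_eq_br`, `br_smul` with `c = -1`). If `x ∈ L`, `-x ∉ L`: separate by a unit vector `u`: `⟨-x, u⟩ > supportFn L u = supportFn L (-u) ≥ ⟨x, -u⟩`. -/
def T_PBC : Prop := ∀ (n : ℕ) [NeZero n] (M L : Set (E n)), IsProjectionBody M L → ∀ x ∈ L, -x ∈ L

/-- On unit vectors: `supportFn L u = brightness M u = br M u = sw M u = P (supportFn M) u` (`brightness_eq_br`, `sw_eq`, `Bd (supportFn M) = M` by `T_SFN`). Both sides are norms (`T_SFN` with `T_PBC`), so homogeneous. -/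
def T_PBP : Prop := ∀ (n : ℕ) [NeZero n] (M L : Set (E n)), IsProjectionBody M L → (∀ x ∈ M, -x ∈ M) →
  ∀ u, supportFn L u = P (supportFn M) u

/-- `→`: for `m`, take `K'` for `m + 1`: there is `M₁` with `IsProjectionBody K' M₁` and `IsIteratedProjectionBody m M₁ K` (induction); `M₁` is centred (`T_PBC`), so by induction `supportFn K = P^[m] (supportFn M₁)` (`T_PBP`). `K` is a centred body: the case `m = 1`.
`←`: `T_CSC`: `supportFn K = P^[m] g`; `IsProjectionBody (Bd g) (Bd (P g))` (see `isProjectionBody_of_norm`, proof in Results/MP_05927b_gt/EveryDistance.lean), so `Bd (P^[m] g) = K` is the `m`-th iterate of `Bd g`. -/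
def T_OEO : Prop := ∀ (n : ℕ) (K : Set (E n)), 2 ≤ n →
  (OfEveryOrder K ↔ IsConvexBody K ∧ (∀ x ∈ K, -x ∈ K) ∧ Cls (supportFn K))

/-- `→`: `h (u+v) = h u + h v`; `exists_support`: `x ∈ Bd h`, `⟨x, u+v⟩ = h (u+v)`, so `⟨x,u⟩ = h u`, `⟨x,v⟩ = h v`; normalise `u`, `v` (`supportFn_Bd`): equal unit vectors, `v = (‖v‖/‖u‖) u`.
`←`: `⟨x,u⟩ = h u`, `⟨x,v⟩ = h v`: `h u + h v = ⟨x,u+v⟩ ≤ h (u+v) ≤ h u + h v`, so `v = c u`, `c > 0`, and `c = 1` (unit vectors). -/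
def T_SMO : Prop := ∀ (n : ℕ) [NeZero n] (h : E n → ℝ), IsN h → (IsSmooth (Bd h) ↔ Strict h)

/-- `T_SFN`; for `d ≥ 3` `T_OEO`, `T_SMO` (with `Bd (supportFn B) = B`). -/
def T_BL1 : Prop := ∀ (d : ℕ) (B : Set (E d)), IsBlock d B → BlkN d (supportFn B) ∧ Bd (supportFn B) = B

/-- `Bd_isConvexBody`, `supportFn_Bd` (so `supportFn (Bd η) = η`), `T_OEO`, `T_SMO`. -/
def T_BL2 : Prop := ∀ (d : ℕ) (η : E d → ℝ), BlkN d η → IsBlock d (Bd η)

/-- Adjoint: the space `∀ j, E (d j)` with the scalar product `∑ j ⟨x j, y j⟩` is `PiLp 2`; take `S` = adjoint of `T` (or define `(S u) j = ∑ i, inner (T (single j e_i)) u • e_i`) and check injectivity. -/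
def T_TAJ : Prop := ∀ (n : ℕ) (ι : Type) [Fintype ι] (d : ι → ℕ),
  (∀ T : (∀ j, E (d j)) ≃ₗ[ℝ] E n, ∃ S : E n ≃ₗ[ℝ] (∀ j, E (d j)), ∀ x u, (inner ℝ (T x) u : ℝ) = ∑ j, inner ℝ (x j) (S u j)) ∧
  (∀ S : E n ≃ₗ[ℝ] (∀ j, E (d j)), ∃ T : (∀ j, E (d j)) ≃ₗ[ℝ] E n, ∀ x u, (inner ℝ (T x) u : ℝ) = ∑ j, inner ℝ (x j) (S u j))

/-- Support function of a linear image of a product: `⟨T x, u⟩ = ∑ ⟨x j, S u j⟩`, the maxima over the compact nonempty `B j` are independent. -/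
def T_SFT : Prop := ∀ (n : ℕ) (ι : Type) [Fintype ι] (d : ι → ℕ) (T : (∀ j, E (d j)) ≃ₗ[ℝ] E n)
  (S : E n ≃ₗ[ℝ] (∀ j, E (d j))) (B : ∀ j, Set (E (d j))), (∀ x u, (inner ℝ (T x) u : ℝ) = ∑ j, inner ℝ (x j) (S u j)) →
  (∀ j, IsConvexBody (B j)) → ∀ u, supportFn (T '' Set.pi Set.univ B) u = ∑ j, supportFn (B j) (S u j)

/-- `⊇` termwise. `⊆`: let `y = T x ∈ Bd`, `j₀` and `p` given: for `u` with `S u = Pi.single j₀ p` (`S` onto) the inequality is `⟨x j₀, p⟩ ≤ η j₀ p` (`η j 0 = 0`). -/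
def T_BDT : Prop := ∀ (n : ℕ) (ι : Type) [Fintype ι] (d : ι → ℕ) (T : (∀ j, E (d j)) ≃ₗ[ℝ] E n)
  (S : E n ≃ₗ[ℝ] (∀ j, E (d j))) (η : ∀ j, E (d j) → ℝ), (∀ x u, (inner ℝ (T x) u : ℝ) = ∑ j, inner ℝ (x j) (S u j)) →
  (∀ j, IsN (η j)) → Bd (fun u => ∑ j, η j (S u j)) = T '' Set.pi Set.univ (fun j => Bd (η j))

/-! ## Group R: final statements -/

/-- Structure theorem. `→`: `T_OEO`, `T_STA`: `supportFn K = ∑ η j (S u j)`, `T_TAJ` gives `T`, `T_BDT` and `Bd (supportFn K) = K` (`T_SFN`), `T_BL2`.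
`←`: `T_BL1`, `T_TAJ`, `T_SFT`: `Str (supportFn K)`; `K` is a centred convex body (linear image of a product; nonempty interior: `T` is a homeomorphism); `T_STB`, `T_OEO`. -/
def T_R1 : Prop := ∀ (n : ℕ) (K : Set (E n)), 2 ≤ n → (OfEveryOrder K ↔
  ∃ (ι : Type) (_ : Fintype ι) (d : ι → ℕ) (B : ∀ j, Set (E (d j))) (T : (∀ j, E (d j)) ≃ₗ[ℝ] E n),
    (∀ j, IsBlock (d j) (B j)) ∧ K = T '' Set.pi Set.univ B)

/-- The same with `Fin k` as index type: transport along `Fintype.equivFin ι`. -/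
def T_R1F : Prop := ∀ (n : ℕ) (K : Set (E n)), 2 ≤ n → (OfEveryOrder K ↔
  ∃ (k : ℕ) (d : Fin k → ℕ) (B : ∀ j, Set (E (d j))) (T : (∀ j, E (d j)) ≃ₗ[ℝ] E n),
    (∀ j, IsBlock (d j) (B j)) ∧ K = T '' Set.pi Set.univ B)

/-- `T_OEO`, `T_MNA`, `T_SMO`, `T_SDS`, `Bd (supportFn K) = K` (`T_SFN`). -/
def T_R2 : Prop := ∀ (n : ℕ) (K : Set (E n)), 3 ≤ n → OfEveryOrder K → IsSmooth K ∨ IsDirectSum K

/-- Dimension 3. `→`: `T_OEO`, not `Strict` (`T_SMO`), so `Split` (`T_MNA`), `T_SPD` with `a + b = 3`: `{a, b} = {1, 2}`; `K` is the image of `Bd α × Bd β` under the adjoint of the inverse (as in `T_BDT`), the body on `E 1` is a segment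
`[-c, c]`, scale it to `[-1, 1]`. `←`: `supportFn K` is, after a linear change of variables, `dsum (supportFn Q) |·|`: `T_CL1`, `T_CL2`, `T_CDS`, `T_CLT`, `T_OEO`. Not smooth: at a point `T (q, 1)`, `q` a boundary point of `Q`, there are two normals. -/
def T_R3 : Prop := ∀ K : Set (E 3), (OfEveryOrder K ∧ ¬ IsSmooth K) ↔
  ∃ (Q : Set (E 2)) (T : (E 2 × ℝ) ≃ₗ[ℝ] E 3), IsConvexBody Q ∧ (∀ x ∈ Q, -x ∈ Q) ∧ K = T '' (Q ×ˢ Icc (-1 : ℝ) 1)

/-- `K` has a vertex: a point with `n` linearly independent outer normal vectors -/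
def HasVertex {n : ℕ} (K : Set (E n)) : Prop :=
  ∃ x ∈ K, ∃ u : Fin n → E n, LinearIndependent ℝ u ∧ ∀ i, (inner ℝ x (u i) : ℝ) = supportFn K (u i)

/-- Members with a vertex. `←`: `T_R1` (blocks with `d ≤ 2`). `→`: `T_R1`: `K = T '' ∏ B j`, `T_TAJ`, `T_SFT`; let `T x` be a vertex, normals `u i`; `∑_j ⟨x j, S (u i) j⟩ = ∑_j supportFn (B j) (S (u i) j)` with `≤` in every term, so equality in every term: `S (u i) j`
is zero or a normal of `B j` at `x j`. If `d j ≥ 3`, `B j` is smooth, so all `S (u i) j` are in one line; but the `u i` span `E n` and `S` is onto, so the `S (u i) j` span `E (d j)`: contradiction. So `d j ∈ {1, 2}`. -/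
def T_R4 : Prop := ∀ (n : ℕ) (K : Set (E n)), 2 ≤ n → HasVertex K → (OfEveryOrder K ↔
  ∃ (k : ℕ) (d : Fin k → ℕ) (B : ∀ j, Set (E (d j))) (T : (∀ j, E (d j)) ≃ₗ[ℝ] E n),
    (∀ j, (d j = 1 ∨ d j = 2) ∧ IsConvexBody (B j) ∧ ∀ x ∈ B j, -x ∈ B j) ∧ K = T '' Set.pi Set.univ B)

/-- Polytopes have vertices: every `u` attains its maximum over `K = convexHull F` at some `x ∈ F`, so `E n` is the union of the sets `N x = {u | ⟨x, u⟩ = supportFn K u}`, `x ∈ F`; if none of them contained `n` independent vectors, `E n` would be a finite union of proper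
subspaces, impossible (`Subspace.biUnion_ne_univ_of_top_notMem` or measure zero). -/
def T_PVX : Prop := ∀ (n : ℕ) (F : Set (E n)), F.Finite → (convexHull ℝ F).Nonempty → HasVertex (convexHull ℝ F)

end Pool.Agent.PBX
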