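import Pool.Agent.PBX.Targets2

/-!
# PBX: target `T_OEO` (bodies of every order and their support functions)
-/

open MeasureTheory Module Set

namespace Pool.Agent.PBX
open Pool.Agent.ProjBody

variable {n : ℕ}

namespace OEO_

theorem isProjectionBody_of_norm [NeZero n] {h : E n → ℝ} (hh : IsN h) :
    IsProjectionBody (Bd h) (Bd (P h)) := by
  have hP := hh.P
  obtain ⟨a, b, ha, hN⟩ := hh
  obtain ⟨a', b', ha', hN'⟩ := hP
  refine ⟨Bd_isConvexBody ha hN, Bd_isConvexBody ha' hN', ?_⟩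
  intro u hu
  rw [supportFn_Bd ha' hN']
  show sw (Bd h) u = _
  rw [sw_eq (Bd_compact ha hN) (Bd_convex h), hu, one_mul, brightness_eq_br _ hu]

/-- the bodies of the orbit of a norm are the iterated projection bodies -/
theorem iterated [NeZero n] {g : E n → ℝ} (hg : IsN g) (m : ℕ) :
    IsIteratedProjectionBody m (Bd g) (Bd (P^[m] g)) := by
  induction m with
  | zero => rfl
  | succ m ih =>
    refine ⟨Bd (P^[m] g), ih, ?_⟩
    rw [Function.iterate_succ_apply']
    exact isProjectionBody_of_norm (hg.Pit m)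

/-- an iterate of order at least one is the projection body of a convex body -/
theorem last (m : ℕ) (K' L : Set (E n)) (h : IsIteratedProjectionBody (m + 1) K' L) :
    ∃ M, IsProjectionBody M L := by
  obtain ⟨M, _, hM⟩ := h
  exact ⟨M, hM⟩

theorem support_iter [NeZero n] (h_PBC : T_PBC) (h_PBP : T_PBP) (m : ℕ) :
    ∀ K' L : Set (E n), IsIteratedProjectionBody (m + 1) K' L →
      ∃ M₁, IsProjectionBody K' M₁ ∧ supportFn L = P^[m] (supportFn M₁) := by
  induction m with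
  | zero =>
    intro K' L h
    obtain ⟨M, hM, hL⟩ := h
    have hMK : M = K' := hM
    subst hMK
    exact ⟨L, hL, rfl⟩
  | succ m ih =>
    intro K' L h
    obtain ⟨M, hM, hL⟩ := h
    obtain ⟨M₁, h1, h2⟩ := ih K' M hM
    obtain ⟨M', hM'⟩ := last m K' M hM
    refine ⟨M₁, h1, ?_⟩
    rw [Function.iterate_succ_apply', ← h2]
    funext u
    exact h_PBP n M L hL (h_PBC n M' M hM') u

end OEO_

theorem p_OEO (h_SFN : T_SFN) (h_PBC : T_PBC) (h_PBP : T_PBP) (h_CSC : T_CSC) : T_OEO := by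
  intro n K hn
  have : NeZero n := ⟨by omega⟩
  constructor
  · intro hK
    obtain ⟨K₁, -, hK₁⟩ := hK 1 le_rfl
    obtain ⟨M, hM⟩ := OEO_.last 0 K₁ K hK₁
    have hKb : IsConvexBody K := hM.2.1
    have hKc : ∀ x ∈ K, -x ∈ K := h_PBC n M K hM
    refine ⟨hKb, hKc, (h_SFN n K hKb hKc).1, ?_⟩
    intro m
    obtain ⟨K', -, hK'⟩ := hK (m + 1) (by omega)
    obtain ⟨M₁, h1, h2⟩ := OEO_.support_iter h_PBC h_PBP m K' K hK'
    have hc : ∀ x ∈ M₁, -x ∈ M₁ := h_PBC n K' M₁ h1
    refine ⟨supportFn M₁, (h_SFN n M₁ h1.2.1 hc).1, 1, one_pos, ?_⟩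
    intro u
    rw [one_mul, h2]
  · rintro ⟨hKb, hKc, hCls⟩ m _
    obtain ⟨g, hg, hgm⟩ := h_CSC n (supportFn K) hn hCls m
    refine ⟨Bd g, ?_, ?_⟩
    · obtain ⟨a, b, ha, h⟩ := hg
      exact Bd_isConvexBody ha h
    · have hit := OEO_.iterated hg m
      have heq : P^[m] g = supportFn K := (funext hgm).symm
      rw [heq, (h_SFN n K hKb hKc).2] at hit
      exact hit

end Pool.Agent.PBX
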