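import Pool.Agent.ProjBody.Chain

/-!
# PBX: the structure of iterated projection bodies of every order (MP_05927b_gt), definitions

Everything is expressed by support functions `h : E n → ℝ` of centred convex bodies (norms, `IsN h`) and the
projection body operator `P` of `Pool.Agent.ProjBody`.
-/

open MeasureTheory Module Set
open scoped Pointwise

namespace Pool.Agent.PBX
open Pool.Agent.ProjBody

variable {n : ℕ}

/-- `ρ` is a generating measure of `h`: finite, of bounded support, `h u = ∫ |⟨u, w⟩| dρ(w)` -/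
structure Gen (ρ : Measure (E n)) (h : E n → ℝ) : Prop where
  fin : IsFiniteMeasure ρ
  cpt : ∃ R : ℝ, ρ (Metric.closedBall 0 R)ᶜ = 0
  eq : ∀ u, h u = ∫ w, |(inner ℝ u w : ℝ)| ∂ρ

/-- the directions of the support of `ρ`, closed under nonzero scalars -/
def Dn (ρ : Measure (E n)) : Set (E n) := {x | x ≠ 0 ∧ ∃ c : ℝ, c ≠ 0 ∧ c • x ∈ ρ.support}

/-- the normals of the hyperplanes spanned by elements of `D` -/
def J (D : Set (E n)) : Set (E n) :=
  {x | x ≠ 0 ∧ ∀ y, inner ℝ x y = 0 → y ∈ Submodule.span ℝ (D ∩ {z | inner ℝ x z = 0})}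

/-- the points `x ≠ 0` such that the line `ℝ x` is the intersection of flats spanned by subsets of `D` -/
def MM (D : Set (E n)) : Set (E n) :=
  {x | x ≠ 0 ∧ ∀ y, (∀ S ⊆ D, x ∈ Submodule.span ℝ S → y ∈ Submodule.span ℝ S) → ∃ c : ℝ, y = c • x}

/-- the matrix with rows `w 0, ..., w (n-1)` -/
def mt (w : Fin n → E n) : Matrix (Fin n) (Fin n) ℝ := Matrix.of fun i j => w i j

/-- generalised cross product: `⟨u, crp w⟩ = det (u, w)` -/
noncomputable def crp {m : ℕ} (w : Fin m → E (m + 1)) : E (m + 1) :=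
  WithLp.toLp 2 (fun i => (mt (Fin.cons (EuclideanSpace.single i 1) w : Fin (m + 1) → E (m + 1))).det)

/-- the measure generated by the cross products: a generating measure of `P h` if `ρ` is one of `h` -/
noncomputable def nxt {m : ℕ} (ρ : Measure (E (m + 1))) : Measure (E (m + 1)) :=
  ENNReal.ofReal (2 ^ m / m.factorial) • (Measure.pi (fun _ : Fin m => ρ)).map crp

/-- the zonotope `∑ [-w i, w i]` -/
def Zt {ι : Type} [Fintype ι] (w : ι → E n) : Set (E n) :=
  {x | ∃ t : ι → ℝ, (∀ i, |t i| ≤ 1) ∧ x = ∑ i, t i • w i}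

/-- `f` is additive with respect to the pair of subspaces `U`, `U'` -/
def Add2 (U U' : Submodule ℝ (E n)) (f : E n → ℝ) : Prop := ∀ u ∈ U, ∀ u' ∈ U', f (u + u') = f u + f u'

/-- `f` splits: additive for some pair of complementary nonzero subspaces -/
def Split (f : E n → ℝ) : Prop :=
  ∃ U U' : Submodule ℝ (E n), IsCompl U U' ∧ U ≠ ⊥ ∧ U' ≠ ⊥ ∧ Add2 U U' f

/-- strict convexity of the norm `f` (smoothness of the body `Bd f`) -/
def Strict (f : E n → ℝ) : Prop :=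
  ∀ u v, u ≠ 0 → v ≠ 0 → f (u + v) = f u + f v → ∃ c : ℝ, 0 < c ∧ v = c • u

/-- the class of the question for norms (up to positive factors) -/
def Cls (h : E n → ℝ) : Prop := IsN h ∧ ∀ m : ℕ, ∃ g, IsN g ∧ ∃ c : ℝ, 0 < c ∧ ∀ u, h u = c * (P^[m] g) u

/-- the scalars `a` such that `B l + a • B k ∈ X` for all `k ≠ l` -/
def GG (B : Basis (Fin n) ℝ (E n)) (X : Set (E n)) : Set ℝ := {a | ∀ k l, k ≠ l → B l + a • B k ∈ X}

/-- `D` connects the coordinates of the basis `b` with strength `ε` -/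
def Conn (b : Basis (Fin n) ℝ (E n)) (ε : ℝ) (D : Set (E n)) : Prop :=
  ∀ I : Set (Fin n), I.Nonempty → Iᶜ.Nonempty →
    ∃ x ∈ D, (∀ k, |b.repr x k| ≤ 2) ∧ (∃ k ∈ I, ε ≤ |b.repr x k|) ∧ ∃ l ∈ Iᶜ, ε ≤ |b.repr x l|

/-- `h` is `δ`-close to a norm that splits -/
def Near1 (h : E n → ℝ) (δ : ℝ) : Prop :=
  ∃ g, IsN g ∧ Split g ∧ ∀ u, (1 - δ) * h u ≤ g u ∧ g u ≤ (1 + δ) * h u

/-- `h` has a generating measure whose directions are `δ`-dense in the unit sphere -/
def Dense (h : E n → ℝ) (δ : ℝ) : Prop :=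
  ∃ ρ, Gen ρ h ∧ ∀ z : E n, ‖z‖ = 1 → ∃ x ∈ Dn ρ, ‖x - z‖ ≤ δ

/-- left and right part of a point of `E (a + b)` -/
def prL {a b : ℕ} (u : E (a + b)) : E a := WithLp.toLp 2 (fun i => u (Fin.castAdd b i))
def prR {a b : ℕ} (u : E (a + b)) : E b := WithLp.toLp 2 (fun i => u (Fin.natAdd a i))

/-- direct sum of norms -/
def dsum {a b : ℕ} (α : E a → ℝ) (β : E b → ℝ) : E (a + b) → ℝ := fun u => α (prL u) + β (prR u)

/-- the body is smooth: at most one outer unit normal vector at each point -/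
def IsSmooth (K : Set (E n)) : Prop :=
  ∀ x ∈ K, ∀ u v : E n, ‖u‖ = 1 → ‖v‖ = 1 → inner ℝ x u = supportFn K u → inner ℝ x v = supportFn K v → u = v

/-- building block of dimension `d` -/
def IsBlock (d : ℕ) (B : Set (E d)) : Prop :=
  1 ≤ d ∧ IsConvexBody B ∧ (∀ x ∈ B, -x ∈ B) ∧ (3 ≤ d → IsSmooth B ∧ OfEveryOrder B)

/-- building block, norm version -/
def BlkN (d : ℕ) (η : E d → ℝ) : Prop := 1 ≤ d ∧ IsN η ∧ (3 ≤ d → Strict η ∧ Cls η)

/-- `h` is built from blocks -/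
def Str (h : E n → ℝ) : Prop :=
  ∃ (ι : Type) (_ : Fintype ι) (d : ι → ℕ) (η : ∀ j, E (d j) → ℝ) (T : E n ≃ₗ[ℝ] (∀ j, E (d j))),
    (∀ j, BlkN (d j) (η j)) ∧ ∀ u, h u = ∑ j, η j (T u j)

end Pool.Agent.PBX
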