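import Pool.Agent.PBX.Targets2

/-! # PBX, target CDS: direct sums of members are members -/

set_option autoImplicit false

open MeasureTheory Module Set
open scoped Pointwise

namespace Pool.Agent.PBX
open Pool.Agent.ProjBody

namespace CDS_

variable {n : ℕ}

theorem isN_scale {h : E n → ℝ} (hh : IsN h) {c : ℝ} (hc : 0 < c) : IsN (fun u => c * h u) := by
  obtain ⟨a, b, ha, hn⟩ := hh
  exact ⟨c * a, c * b, mul_pos hc ha, hn.scale hc⟩

theorem gen_scale {h : E n → ℝ} {ρ : Measure (E n)} (hh : Gen ρ h) {c : ℝ} (hc : 0 < c) :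
    Gen (ENNReal.ofReal c • ρ) (fun u => c * h u) := by
  obtain ⟨hfin, ⟨R, hR⟩, heq⟩ := hh
  refine ⟨Measure.smul_finite ρ ENNReal.ofReal_ne_top, ⟨R, ?_⟩, ?_⟩
  · rw [Measure.smul_apply, hR, smul_zero]
  · intro u
    rw [integral_smul_measure, ENNReal.toReal_ofReal hc.le, smul_eq_mul, ← heq u]

theorem vol_pos [NeZero n] {h : E n → ℝ} (hh : IsN h) : 0 < (volume (Bd h)).toReal := by
  obtain ⟨a, b, ha, hn⟩ := hh
  have h1 : Metric.closedBall (0 : E n) a ⊆ Bd h := ball_subset_Bd hn.lo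
  have h2 : 0 < volume (Metric.closedBall (0 : E n) a) := Metric.measure_closedBall_pos _ _ ha
  exact ENNReal.toReal_pos (lt_of_lt_of_le h2 (measure_mono h1)).ne'
    (Bd_compact ha hn).measure_lt_top.ne

theorem vol_scale {h : E n → ℝ} {c : ℝ} (hc : 0 < c) :
    (volume (Bd (fun u => c * h u))).toReal = c ^ n * (volume (Bd h)).toReal := by
  rw [Bd_scale hc, Measure.addHaar_smul, ENNReal.toReal_mul, finrank_euclideanSpace_fin,
    ENNReal.toReal_ofReal (abs_nonneg _), abs_of_pos (pow_pos hc n)]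

theorem P_scale' [NeZero n] {h : E n → ℝ} (hh : IsN h) {c : ℝ} (hc : 0 < c) (u : E n) :
    P (fun u => c * h u) u = c ^ (n - 1) * P h u := by
  obtain ⟨a, b, ha, hn⟩ := hh
  exact P_scale ha hn hc u

theorem claim (h_SCS : T_SCS) (h_DSP : T_DSP) (h_BBB : T_BBB) (a b : ℕ) [NeZero a] [NeZero b]
    (m : ℕ) : ∀ (α : E a → ℝ) (β : E b → ℝ), IsN α → IsN β → (∃ ρ, Gen ρ α) → (∃ ρ, Gen ρ β) →
    ∀ x y : ℝ, 0 < x → 0 < y → ∃ s t : ℝ, 0 < s ∧ 0 < t ∧
      (P^[m] (dsum (fun p => s * α p) (fun q => t * β q) : E (a + b) → ℝ)) =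
        dsum (fun p => x * (P^[m] α) p) (fun q => y * (P^[m] β) q) := by
  induction m with
  | zero =>
    intro α β _ _ _ _ x y hx hy
    exact ⟨x, y, hx, hy, rfl⟩
  | succ m ih =>
    intro α β hα hβ hgα hgβ x y hx hy
    obtain ⟨s', t', hs', ht', h1⟩ := ih (P α) (P β) hα.P hβ.P (h_BBB a α hα) (h_BBB b β hβ) x y
      hx hy
    obtain ⟨s, t, hs, ht, h2, h3⟩ := h_SCS a b (volume (Bd α)).toReal (volume (Bd β)).toReal s' t'
      (Nat.one_le_iff_ne_zero.2 (NeZero.ne a)) (Nat.one_le_iff_ne_zero.2 (NeZero.ne b))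
      (vol_pos hα) (vol_pos hβ) hs' ht'
    refine ⟨s, t, hs, ht, ?_⟩
    obtain ⟨ρ, hρ⟩ := hgα
    obtain ⟨σ, hσ⟩ := hgβ
    have h4 := h_DSP a b (fun p => s * α p) (fun q => t * β q) _ _ (gen_scale hρ hs)
      (gen_scale hσ ht) (isN_scale hα hs) (isN_scale hβ ht)
    have h5 : P (dsum (fun p => s * α p) (fun q => t * β q) : E (a + b) → ℝ) =
        dsum (fun p => s' * P α p) (fun q => t' * P β q) := by
      funext u
      rw [h4 u]
      unfold dsum
      beta_reduce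
      rw [P_scale' hα hs, P_scale' hβ ht, vol_scale ht, vol_scale hs, ← h2, ← h3]
      ring
    rw [Function.iterate_succ_apply, h5, h1]
    rfl

end CDS_

/-- Target CDS. -/
theorem p_CDS (h_SCS : T_SCS) (h_DSP : T_DSP) (h_BBB : T_BBB) (h_DSN : T_DSN) : T_CDS := by
  intro a b _ _ α β hα hβ
  refine ⟨h_DSN a b α β hα.1 hβ.1, fun m => ?_⟩
  obtain ⟨α', hα', x, hx, hxα⟩ := hα.2 (m + 1)
  obtain ⟨β', hβ', y, hy, hyβ⟩ := hβ.2 (m + 1)
  obtain ⟨s, t, hs, ht, h1⟩ := CDS_.claim h_SCS h_DSP h_BBB a b m (P α') (P β') hα'.P hβ'.P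
    (h_BBB a α' hα') (h_BBB b β' hβ') x y hx hy
  refine ⟨_, h_DSN a b _ _ (CDS_.isN_scale hα'.P hs) (CDS_.isN_scale hβ'.P ht), 1, one_pos, ?_⟩
  intro u
  rw [h1, one_mul]
  unfold dsum
  rw [hxα, hyβ, Function.iterate_succ_apply, Function.iterate_succ_apply]

end Pool.Agent.PBX
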