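import Pool.Agent.PBX.Targets

/-!
# PBX-CRI: cross product and determinant (helper53)
-/

set_option autoImplicit false

open MeasureTheory Module Set Filter Topology
open scoped Pointwise

namespace Pool.Agent.PBX
open Pool.Agent.ProjBody

theorem CRI_det {m : ℕ} (u : E (m + 1)) (w : Fin m → E (m + 1)) :
    (mt (Fin.cons u w : Fin (m + 1) → E (m + 1))).det =
      ∑ j : Fin (m + 1), u j * ((-1) ^ (j : ℕ) *
        (Matrix.of (fun (a : Fin m) (b : Fin m) => w a (j.succAbove b))).det) := by
  rw [Matrix.det_succ_row_zero]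
  refine Finset.sum_congr rfl fun j _ => ?_
  have h1 : (mt (Fin.cons u w : Fin (m + 1) → E (m + 1))) 0 j = u j := by
    simp [mt]
  have h2 : (mt (Fin.cons u w : Fin (m + 1) → E (m + 1))).submatrix Fin.succ j.succAbove =
      Matrix.of (fun (a : Fin m) (b : Fin m) => w a (j.succAbove b)) := by
    ext a b
    simp [mt]
  rw [h1, h2]
  ring

theorem p_CRI : T_CRI := by
  intro m u w
  rw [CRI_det, PiLp.inner_apply]
  refine Finset.sum_congr rfl fun i _ => ?_
  have h : crp w i = (-1) ^ (i : ℕ) *
      (Matrix.of (fun (a : Fin m) (b : Fin m) => w a (i.succAbove b))).det := by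
    have h0 : crp w i = (mt (Fin.cons (EuclideanSpace.single i 1) w :
        Fin (m + 1) → E (m + 1))).det := rfl
    rw [h0, CRI_det, Finset.sum_eq_single i]
    · simp
    · intro j _ hj
      simp [hj]
    · intro hi
      exact absurd (Finset.mem_univ i) hi
  rw [h]
  simp [mul_comm]

end Pool.Agent.PBX
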