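import Pool.Agent.PBX.Targets

/-! # PBX: a split norm is the norm of a direct sum (SDS) -/

set_option autoImplicit false

open MeasureTheory Pool.Agent.ProjBody

namespace Pool.Agent.PBX

namespace SDS_

theorem compl {n : ℕ} {U U' : Submodule ℝ (E n)} (h : IsCompl U U') : IsCompl Uᗮ U'ᗮ := by
  constructor
  · rw [disjoint_iff, Submodule.inf_orthogonal, h.sup_eq_top, Submodule.top_orthogonal_eq_bot]
  · rw [codisjoint_iff]
    have h1 : (Uᗮ ⊔ U'ᗮ)ᗮ = ⊥ := by
      rw [← Submodule.inf_orthogonal, Submodule.orthogonal_orthogonal,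
        Submodule.orthogonal_orthogonal, h.inf_eq_bot]
    exact (Submodule.orthogonal_eq_bot_iff).1 h1

theorem ne_bot {n : ℕ} {U U' : Submodule ℝ (E n)} (h : IsCompl U U') (hU : U' ≠ ⊥) : Uᗮ ≠ ⊥ := by
  intro h0
  have h1 : U = ⊤ := (Submodule.orthogonal_eq_bot_iff).1 h0
  have h2 := h.inf_eq_bot
  rw [h1, top_inf_eq] at h2
  exact hU h2

end SDS_

open SDS_ in
/-- `T_SDS`. -/
theorem p_SDS : T_SDS := by
  intro n _ h hh hs
  obtain ⟨U, U', hc, hU, hU', ha⟩ := hs
  obtain ⟨p, hp⟩ : ∃ p : E n →ₗ[ℝ] E n, p = U.projection U' hc := ⟨_, rfl⟩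
  have hpm : ∀ u, p u ∈ U := fun u => by
    rw [hp]
    exact Submodule.projection_apply_mem hc u
  have hpq : ∀ u, u - p u ∈ U' := fun u => by
    rw [hp]
    exact Submodule.sub_projection_mem hc u
  have hpu : ∀ u ∈ U, u - p u = 0 := fun u hu => by
    have h1 : u - p u ∈ U ⊓ U' := ⟨U.sub_mem hu (hpm u), hpq u⟩
    rw [hc.inf_eq_bot] at h1
    exact (Submodule.mem_bot ℝ).1 h1
  have hpu' : ∀ u ∈ U', p u = 0 := fun u hu => by
    have h1 : p u ∈ U ⊓ U' := ⟨hpm u, by
      have h2 := U'.sub_mem hu (hpq u)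
      rwa [sub_sub_cancel] at h2⟩
    rw [hc.inf_eq_bot] at h1
    exact (Submodule.mem_bot ℝ).1 h1
  refine ⟨U'ᗮ, Uᗮ, compl hc.symm, ne_bot hc.symm hU, ne_bot hc hU',
    (fun x => LinearMap.adjoint p x) '' Bd h, (fun x => x - LinearMap.adjoint p x) '' Bd h, ?_, ?_, ?_⟩
  · rintro _ ⟨x, -, rfl⟩
    rw [SetLike.mem_coe, Submodule.mem_orthogonal']
    intro u hu
    show inner ℝ (LinearMap.adjoint p x) u = 0
    rw [LinearMap.adjoint_inner_left, hpu' u hu, inner_zero_right]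
  · rintro _ ⟨x, -, rfl⟩
    rw [SetLike.mem_coe, Submodule.mem_orthogonal']
    intro u hu
    show inner ℝ (x - LinearMap.adjoint p x) u = 0
    rw [inner_sub_left, LinearMap.adjoint_inner_left, ← inner_sub_right, hpu u hu,
      inner_zero_right]
  · ext z
    constructor
    · intro hz
      exact ⟨_, ⟨z, hz, rfl⟩, _, ⟨z, hz, rfl⟩, (add_sub_cancel _ _).symm⟩
    · rintro ⟨_, ⟨x, hx, rfl⟩, _, ⟨y, hy, rfl⟩, rfl⟩
      intro u
      show inner ℝ (LinearMap.adjoint p x + (y - LinearMap.adjoint p y)) u ≤ h u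
      rw [inner_add_left, inner_sub_left, LinearMap.adjoint_inner_left,
        LinearMap.adjoint_inner_left, ← inner_sub_right]
      have h1 := hx (p u)
      have h2 := hy (u - p u)
      have h3 := ha (p u) (hpm u) (u - p u) (hpq u)
      rw [add_sub_cancel] at h3
      linarith

end Pool.Agent.PBX
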