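import Pool.Agent.PBX.Targets

/-!
# PBX: T_VCO, composition of von Staudt points (helper3)
-/

open Module Set

namespace Pool.Agent.PBX
open Pool.Agent.ProjBody

theorem p_VCO : T_VCO := by
  intro n b X k l m α β hb hkl hlm hkm h1 h2
  have hbk : b.repr (b k) = Finsupp.single k 1 := b.repr_self k
  have hbl : b.repr (b l) = Finsupp.single l 1 := b.repr_self l
  have hbm : b.repr (b m) = Finsupp.single m 1 := b.repr_self m
  refine ⟨?_, ?_⟩
  · intro h
    have h3 : b.repr (b k - (α * β) • b m) k = 0 := by rw [h]; simp
    simp [hbk, hbm, Finsupp.single_apply, hkm.symm] at h3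
  · intro y hy
    have hx1 : b k - (α * β) • b m ∈
        Submodule.span ℝ ({b k + α • b l, b l + β • b m} : Set (E n)) := by
      rw [Submodule.mem_span_pair]
      refine ⟨1, -α, ?_⟩
      module
    have hx2 : b k - (α * β) • b m ∈ Submodule.span ℝ ({b k, b m} : Set (E n)) := by
      rw [Submodule.mem_span_pair]
      refine ⟨1, -(α * β), ?_⟩
      module
    have hS1 : ({b k + α • b l, b l + β • b m} : Set (E n)) ⊆ X := by
      rintro z (rfl | rfl)
      · exact h1
      · exact h2
    have hS2 : ({b k, b m} : Set (E n)) ⊆ X := by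
      rintro z (rfl | rfl)
      · exact hb k
      · exact hb m
    obtain ⟨s, t, hst⟩ := Submodule.mem_span_pair.1 (hy _ hS1 hx1)
    obtain ⟨p, q, hpq⟩ := Submodule.mem_span_pair.1 (hy _ hS2 hx2)
    have he : s • (b k + α • b l) + t • (b l + β • b m) = p • b k + q • b m := hst.trans hpq.symm
    have hk : s = p := by
      have := congrArg (fun z => b.repr z k) he
      simpa [hbk, hbl, hbm, Finsupp.single_apply, hkl.symm, hkm.symm] using this
    have hl : s * α + t = 0 := by
      have := congrArg (fun z => b.repr z l) he
      simpa [hbk, hbl, hbm, Finsupp.single_apply, hkl, hlm.symm] using this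
    have hm : t * β = q := by
      have := congrArg (fun z => b.repr z m) he
      simpa [hbk, hbl, hbm, Finsupp.single_apply, hkm, hlm] using this
    refine ⟨s, ?_⟩
    have ht : t = -(s * α) := by linarith
    rw [← hpq, ← hk, ← hm, ht]
    module

end Pool.Agent.PBX
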